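import Pool.Agent.LibBc83.U2

/-!
BC83 U4. Closed sets; concatenation.

Plan. `closedIn_of_pi1`: `PiUpTo E w 1 C` means that `C` is the complement of an open set `U`
(the other alternative is `False`); if `z` is a real which is not in `C` then `z ∈ U`, so for some
`n ∈ w` all reals `y` with `Agr n z y` are in `U`. `cut_closed`: `D` exists by `hZ.sep` (formula
`.all (.imp (.emp 0) (.rel 1 0 2))` under the assignment `cons z (fun _ => n)`); closed: if for all
`k ∈ w` there is `y ∈ D` with `Agr k z y`, take the successor `k` of the empty set.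
`prep_ex`: the real `z` with `z (0) = n`, `z (l + 1) = x (l)`: `exists_seq` with the formula
(`Emp l` and `m = n`) or there is `l'` with `Suc l l'` and `Rel x l' m` (`om_zero_or_suc`,
`suc` is injective on `ω`: if `Suc l i` and `Suc l j` then `i = j`, by `om_tri`, `not_mem_self`,
`om_trans`). `prep_uniq`: `real_ext`. `prep_head`: the value at the empty set.
-/

namespace Pool.Agent.LibBc83

variable {M : Type} {E : M → M → Prop}

private theorem U4_emp_mem (hZ : IsZF E) {w o : M} (hw : Om E w) (ho : Emp E o) : E o w := by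
  obtain ⟨z, hz, hzw⟩ := om_zero hw
  rw [emp_uniq hZ ho hz]
  exact hzw

private theorem U4_suc_mem (hZ : IsZF E) {w l l' : M} (hw : Om E w) (hl : E l w)
    (h : Suc E l' l) : E l' w := by
  obtain ⟨m, hm, hmw⟩ := om_suc hw hl
  rw [suc_uniq hZ h hm]
  exact hmw

theorem closedIn_of_pi1 {w C : M} (h : PiUpTo E w 1 C) : ClosedIn E w C := by
  rcases h with h | ⟨U, hU, hC⟩
  · exact h.elim
  · have hU' : Open E w U := by simpa [SigStep] using hU
    refine ⟨fun x hx => ((hC x).1 hx).1, fun z hz h => (hC z).2 ⟨hz, fun hzU => ?_⟩⟩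
    obtain ⟨n, hn, H⟩ := hU'.2 z hzU
    obtain ⟨y, hyC, hag⟩ := h n hn
    exact ((hC y).1 hyC).2 (H y ((hC y).1 hyC).1 hag)

theorem cut_closed (hZ : IsZF E) {w C n : M} (hw : Om E w) (hC : ClosedIn E w C) :
    ∃ D, (∀ z, E z D ↔ E z C ∧ ∀ o, Emp E o → Rel E z o n) ∧ ClosedIn E w D := by
  obtain ⟨D, hD⟩ := hZ.sep (.all (.imp (.emp 0) (.rel 1 0 2))) (fun _ => n) C
  have hD' : ∀ z, E z D ↔ E z C ∧ ∀ o, Emp E o → Rel E z o n := by
    intro z
    rw [hD z]
    simp only [sat_all, sat_imp, sat_emp, sat_rel, cons_zero, cons_succ]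
  refine ⟨D, hD', fun x hx => hC.1 x ((hD' x).1 hx).1, fun z hz h => (hD' z).2 ⟨?_, ?_⟩⟩
  · refine hC.2 z hz fun k hk => ?_
    obtain ⟨y, hy, hag⟩ := h k hk
    exact ⟨y, ((hD' y).1 hy).1, hag⟩
  · intro o ho
    have how := U4_emp_mem hZ hw ho
    obtain ⟨k, hk, hkw⟩ := om_suc hw how
    obtain ⟨y, hy, hag⟩ := h k hkw
    exact (hag o (suc_self hk) n).2 (((hD' y).1 hy).2 o ho)

theorem suc_inj (hZ : IsZF E) {w l i j : M} (hw : Om E w) (hi : E i w) (hj : E j w)
    (h : Suc E l i) (h' : Suc E l j) : i = j := by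
  rcases om_tri hZ hw hi hj with h1 | h1 | h1
  · rcases (h j).1 (suc_self h') with h2 | h2
    · exact absurd (om_trans hZ hw hi h2 h1) (not_mem_self hZ i)
    · exact h2.symm
  · exact h1
  · rcases (h' i).1 (suc_self h) with h2 | h2
    · exact absurd (om_trans hZ hw hj h2 h1) (not_mem_self hZ j)
    · exact h2

theorem prep_ex (hZ : IsZF E) {w n x : M} (hw : Om E w) (hn : E n w) (hx : Real E w x) :
    ∃ z, Prep E w n x z := by
  have key : ∀ l m, Sat E (.or (.and (.emp 0) (.eq 1 2))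
      (.ex (.and (.mem 0 5) (.and (.suc 1 0) (.rel 4 0 2)))))
      (cons l (cons m (cons n (cons x fun _ => w)))) ↔
      (Emp E l ∧ m = n) ∨ ∃ l', E l' w ∧ Suc E l l' ∧ Rel E x l' m := by
    intro l m
    simp only [sat_or, sat_and, sat_ex, sat_emp, sat_eq, sat_mem, sat_suc, sat_rel, cons_zero,
      cons_succ]
  obtain ⟨g, hg1, hg2, hg3⟩ := exists_seq hZ (w := w) (.or (.and (.emp 0) (.eq 1 2))
      (.ex (.and (.mem 0 5) (.and (.suc 1 0) (.rel 4 0 2))))) (cons n (cons x fun _ => w)) (by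
    intro l hl
    rcases om_zero_or_suc hZ hw hl with he | ⟨j, hj, hs⟩
    · refine ⟨n, fun m' => ?_⟩
      rw [key]
      constructor
      · rintro (h | ⟨l', hl', hs, hr⟩)
        · exact h.2
        · exact absurd (suc_self hs) (he l')
      · exact fun h => Or.inl ⟨he, h⟩
    · obtain ⟨m, hm⟩ := hx.2 j hj
      refine ⟨m, fun m' => ?_⟩
      rw [key, ← hm m']
      constructor
      · rintro (h | ⟨l', hl', hs', hr⟩)
        · exact absurd (suc_self hs) (h.1 j)
        · rw [suc_inj hZ hw hj hl' hs hs']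
          exact hr
      · exact fun h => Or.inr ⟨j, hj, hs, h⟩)
  refine ⟨g, ⟨?_, hg1⟩, ?_, ?_⟩
  · intro q hq
    obtain ⟨l, m, hl, hp⟩ := hg2 q hq
    have h1 : Rel E g l m := ⟨q, hp, hq⟩
    rw [hg3 l m hl, key] at h1
    rcases h1 with h | ⟨l', hl', hs, hr⟩
    · exact ⟨l, m, hl, by rw [h.2]; exact hn, hp⟩
    · exact ⟨l, m, hl, (real_mem hZ hx hr).2, hp⟩
  · intro o ho
    rw [hg3 o n (U4_emp_mem hZ hw ho), key]
    exact Or.inl ⟨ho, rfl⟩
  · intro l l' m hl hs hr
    rw [hg3 l' m (U4_suc_mem hZ hw hl hs), key]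
    exact Or.inr ⟨l, hl, hs, hr⟩

theorem prep_uniq (hZ : IsZF E) {w n x x' z : M} (hw : Om E w) (hx : Real E w x)
    (hx' : Real E w x') (h : Prep E w n x z) (h' : Prep E w n x' z) : x = x' := by
  refine real_ext hZ hx hx' fun l hl m => ?_
  obtain ⟨l', hs, hl'⟩ := om_suc hw hl
  constructor
  · intro hr
    obtain ⟨m', hr'⟩ := real_ex hx' hl
    rw [real_uniq h.1 hl' (h.2.2 l l' m hl hs hr) (h'.2.2 l l' m' hl hs hr')]
    exact hr'
  · intro hr
    obtain ⟨m', hr'⟩ := real_ex hx hl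
    rw [real_uniq h.1 hl' (h'.2.2 l l' m hl hs hr) (h.2.2 l l' m' hl hs hr')]
    exact hr'

theorem prep_head (hZ : IsZF E) {w n n' x x' z : M} (hw : Om E w) (h : Prep E w n x z)
    (h' : Prep E w n' x' z) : n = n' := by
  obtain ⟨o, ho, how⟩ := om_zero hw
  exact real_uniq h.1 how (h.2.1 o ho) (h'.2.1 o ho)

end Pool.Agent.LibBc83
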