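import Pool.Agent.LibBc83.P2

/-!
The generic branch: definitions.
-/

namespace Pool.Agent.LibBc83

open Pool.Agent.LibTk83

section

variable {B : Type} [CompleteBooleanAlgebra B]

/-- The truth value of: `x` is a function from `ω` to `ω`. -/
noncomputable def realV (x : ℕ → ℕ → B) : B :=
  ⨅ n, (⨆ m, x n m) ⊓ ⨅ m, ⨅ m', ⨅ (_ : m ≠ m'), (x n m ⊓ x n m')ᶜ

/-- The truth value of: `s` is an initial segment of `x`. -/
noncomputable def str (x : ℕ → ℕ → B) (s : List ℕ) : B :=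
  ⨅ i, ⨅ m, ⨅ (_ : s[i]? = some m), x i m

/-- `c i w` is the truth value of: the `i`-th proposal is the string `w`; `T w` is the truth value
of: `w` is in the tree. Then `nd T c i t` is the truth value of: `t` is the node after `i` steps,
where one starts at `[]` and accepts a proposal if it extends the node and is in the tree. -/
noncomputable def nd (T : List ℕ → B) (c : ℕ → List ℕ → B) : ℕ → List ℕ → B := by
  classical
  exact fun i => Nat.rec (fun t => if t = [] then ⊤ else ⊥)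
    (fun i f u => (⨆ t, ⨆ (_ : t <+: u), f t ⊓ c i u ⊓ T u) ⊔
      ⨆ w, f u ⊓ c i w ⊓ (if u <+: w then (T w)ᶜ else ⊤)) i

/-- The branch given by the nodes. -/
noncomputable def xb (T : List ℕ → B) (c : ℕ → List ℕ → B) (n m : ℕ) : B :=
  ⨆ i, ⨆ t : List ℕ, ⨆ (_ : t[n]? = some m), nd T c i t

end

section

variable {C V : Type} {ok : C → V → Prop}

/-- The tree of the strings which can be initial segments of `x`, below `q₀`. -/
noncomputable def tr (S₀ S₂ : Set C) (q₀ : Cond C V ok) (x : ℕ → ℕ → RO (Cond C V ok))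
    (s : List ℕ) : RO (Cond C V ok) :=
  RO.gen {p | ∃ q, q ≤ q₀ ∧ q.res (S₂ \ S₀) = q ∧ Cond.union (p.res S₀) q ∈ str x s}

/-- The truth value of: the generic value at `c₀ i` codes `w`. -/
def cv (c₀ : ℕ → C) (dec : V → List ℕ) (i : ℕ) (w : List ℕ) : RO (Cond C V ok) :=
  RO.gen {p | ∃ v, p.f (c₀ i) = some v ∧ dec v = w}

/-- The hypotheses of the theorem on the generic branch. -/
structure Ctx (S₀ S₂ S₃ : Set C) (c₀ : ℕ → C) (dec : V → List ℕ) (r q₀ : Cond C V ok)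
    (x : ℕ → ℕ → RO (Cond C V ok)) (U : ℕ → List ℕ → RO (Cond C V ok)) : Prop where
  h02 : S₀ ⊆ S₂
  h03 : S₀ ⊆ S₃
  h23 : ∀ c, c ∈ S₂ → c ∈ S₃ → c ∈ S₀
  inj : Function.Injective c₀
  hc2 : ∀ i, c₀ i ∉ S₂
  hc3 : ∀ i, c₀ i ∉ S₃
  hdec : ∀ i s, ∃ v, ok (c₀ i) v ∧ dec v = s
  hr : r.res S₃ = r
  hq : q₀.res (S₂ \ S₀) = q₀
  hx : ∀ n m, Dep S₂ (x n m)
  hU : ∀ j s, Dep S₃ (U j s)
  hUm : ∀ j s t, s <+: t → U j s ≤ U j t
  hreal : ∀ p, p ≤ r → p ≤ q₀ → p ∈ realV x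
  hmeet : ∀ p, p ≤ r → p ≤ q₀ → ∀ j, p ∈ ⨆ s, str x s ⊓ U j s

end

end Pool.Agent.LibBc83
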