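import Pool.Agent.LibBc83.SM
import Pool.Agent.LibTk83.RO

/-!
Finite partial functions as conditions, and the action of a group of permutations of the
coordinates.
-/

namespace Pool.Agent.LibBc83

open Pool.Agent.LibTk83

/-- Conditions: finite partial functions `p` on `C` with `ok c (p c)`. -/
@[ext] structure Cond (C V : Type) (ok : C → V → Prop) where
  f : C → Option V
  fin : {c | f c ≠ none}.Finite
  ok' : ∀ c v, f c = some v → ok c v

namespace Cond

variable {C V : Type} {ok : C → V → Prop}

instance : PartialOrder (Cond C V ok) where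
  le q p := ∀ c v, p.f c = some v → q.f c = some v
  le_refl _ _ _ h := h
  le_trans _ _ _ h h' c v hv := h c v (h' c v hv)
  le_antisymm p q h h' := by
    ext c v
    exact ⟨fun hv => h' c v hv, fun hv => h c v hv⟩

theorem le_def {p q : Cond C V ok} : q ≤ p ↔ ∀ c v, p.f c = some v → q.f c = some v := Iff.rfl

/-- The domain. -/
def dom (p : Cond C V ok) : Set C := {c | p.f c ≠ none}

/-- The restriction to a set of coordinates. -/
noncomputable def res (S : Set C) (p : Cond C V ok) : Cond C V ok := by
  classical
  exact
  { f := fun c => if c ∈ S then p.f c else none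
    fin := p.fin.subset fun c hc => by
      simp only [Set.mem_ofPred_eq] at hc ⊢
      split_ifs at hc with h
      · exact hc
      · exact absurd rfl hc
    ok' := fun c v h => by
      split_ifs at h with h'
      exact p.ok' c v h }

/-- `p` and `q` have no different values. -/
def Comp (p q : Cond C V ok) : Prop := ∀ c v w, p.f c = some v → q.f c = some w → v = w

/-- The union of `p` and `q`; `p` wins. -/
def union (p q : Cond C V ok) : Cond C V ok where
  f := fun c => (p.f c).or (q.f c)
  fin := (p.fin.union q.fin).subset fun c hc => by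
    simp only [Set.mem_ofPred_eq, Set.mem_union] at hc ⊢
    by_contra h
    push Not at h
    exact hc (by simp [h.1, h.2])
  ok' := fun c v h => by
    rcases hp : p.f c with _ | u
    · rw [hp, Option.none_or] at h
      exact q.ok' c v h
    · rw [hp, Option.some_or] at h
      rw [h] at hp
      exact p.ok' c v hp

/-- The empty condition. -/
def emp : Cond C V ok where
  f := fun _ => none
  fin := by simp
  ok' := by simp

instance : Nonempty (Cond C V ok) := ⟨emp⟩

/-- The condition with the only value `v` at `c`. -/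
noncomputable def single (c : C) (v : V) (h : ok c v) : Cond C V ok := by
  classical
  exact
  { f := fun c' => if c' = c then some v else none
    fin := (Set.finite_singleton c).subset fun c' hc' => by
      simp only [Set.mem_ofPred_eq] at hc'
      split_ifs at hc' with h'
      · exact h'
      · exact absurd rfl hc'
    ok' := fun c' v' h' => by
      split_ifs at h' with h1
      rw [h1, ← Option.some.inj h']
      exact h }

end Cond

/-- The regular open set `b` depends only on the coordinates in `S`. -/
def Dep {C V : Type} {ok : C → V → Prop} (S : Set C) (b : RO (Cond C V ok)) : Prop :=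
  ∀ p, p ∈ b → p.res S ∈ b

/-- The group acts on the coordinates and `ok` is invariant. -/
class OkAct (G C : Type) {V : Type} (ok : C → V → Prop) [Group G] [MulAction G C] : Prop where
  ok_smul : ∀ (g : G) c v, ok c v → ok (g • c) v

section Act

variable {G C V : Type} {ok : C → V → Prop} [Group G] [MulAction G C] [OkAct G C ok]

instance : MulAction G (Cond C V ok) where
  smul g p :=
    { f := fun c => p.f (g⁻¹ • c)
      fin := (p.fin.image (g • ·)).subset fun c hc => ⟨g⁻¹ • c, hc, smul_inv_smul g c⟩
      ok' := fun c v h => by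
        have := OkAct.ok_smul g _ _ (p.ok' _ v h)
        rwa [smul_inv_smul] at this }
  one_smul p := by
    apply Cond.ext
    funext c
    change p.f ((1 : G)⁻¹ • c) = p.f c
    rw [inv_one, one_smul]
  mul_smul g h p := by
    apply Cond.ext
    funext c
    change p.f ((g * h)⁻¹ • c) = p.f (h⁻¹ • g⁻¹ • c)
    rw [mul_inv_rev, mul_smul]

theorem smul_f (g : G) (p : Cond C V ok) (c : C) : (g • p).f c = p.f (g⁻¹ • c) := rfl

theorem cond_smul_le (g : G) {p q : Cond C V ok} (h : q ≤ p) : g • q ≤ g • p :=
  fun _ _ hv => h _ _ hv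

instance : MulAction G (RO (Cond C V ok)) where
  smul g b :=
    { carrier := {p | g⁻¹ • p ∈ b}
      lower := fun _ _ h hp => RO.mem_of_le (cond_smul_le g⁻¹ h) hp
      reg := by
        intro p hp
        refine RO.mem_of_dense fun q hq => ?_
        have h1 := cond_smul_le g hq
        rw [smul_inv_smul] at h1
        obtain ⟨r, hr, hr'⟩ := hp _ h1
        refine ⟨g⁻¹ • r, ?_, hr'⟩
        have h2 := cond_smul_le g⁻¹ hr
        rwa [inv_smul_smul] at h2 }
  one_smul b := by
    apply RO.ext
    intro p
    change (1 : G)⁻¹ • p ∈ b ↔ p ∈ b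
    rw [inv_one, one_smul]
  mul_smul g h b := by
    apply RO.ext
    intro p
    change (g * h)⁻¹ • p ∈ b ↔ h⁻¹ • g⁻¹ • p ∈ b
    rw [mul_inv_rev, mul_smul]

theorem mem_smul {g : G} {b : RO (Cond C V ok)} {p : Cond C V ok} : p ∈ g • b ↔ g⁻¹ • p ∈ b :=
  Iff.rfl

instance : OrdAct G (RO (Cond C V ok)) where
  mono := fun _ _ _ h _ hp => h hp

end Act

/-- The elements of the group which fix all coordinates in `S`. -/
def fixS (G : Type) {C : Type} [Group G] [MulAction G C] (S : Set C) : Set G :=
  {g | ∀ c ∈ S, g • c = c}

/-- The family of the supports. -/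
structure Supps (G : Type) {C : Type} [Group G] [MulAction G C] (𝓢 : Set (Set C)) : Prop where
  ne : 𝓢.Nonempty
  cover : ∀ c, ∃ S ∈ 𝓢, c ∈ S
  union : ∀ S ∈ 𝓢, ∀ T ∈ 𝓢, S ∪ T ∈ 𝓢
  trans : ∀ S ∈ 𝓢, ∀ g : G, (fun c => g • c) '' S ∈ 𝓢
  move : ∀ S₀ ∈ 𝓢, ∀ S ∈ 𝓢, ∀ T ∈ 𝓢, ∃ g : G, g ∈ fixS G S₀ ∧ ∀ c ∈ S, c ∉ S₀ → g • c ∉ T

/-- The corresponding family of subsets of the group. -/
def famOf (G : Type) {C : Type} [Group G] [MulAction G C] (𝓢 : Set (Set C)) : Set (Set G) :=
  fixS G '' 𝓢

end Pool.Agent.LibBc83
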