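import Pool.Agent.LibBc83.Deep

/-!
The facts on a model which imply the result.
-/

namespace Pool.Agent.LibBc83

section

variable {M : Type} (E : M → M → Prop)

/-- `J (i, k) = m`, for a function `J` of two variables. -/
def Rel3 (J i k m : M) : Prop := ∃ q, OPair E q i k ∧ Rel E J q m

/-- `z (J (i, k)) = y (J (j, k))` for all `k`. -/
def Eqv (w J z i y j : M) : Prop :=
  ∀ k, E k w → ∀ m m', Rel3 E J i k m → Rel3 E J j k m' → ∀ l, Rel E z m l ↔ Rel E y m' l

/-- `J` is a function of two variables on `w`, with values in `w`. -/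
def IsJ (w J : M) : Prop :=
  ∀ i k, E i w → E k w → ∃ m, E m w ∧ ∀ m', Rel3 E J i k m' ↔ m' = m

/-- `C` is the set of the reals `z` such that each real coded by `y` is coded by `z`. -/
def Sup (w J y C : M) : Prop :=
  ∀ z, E z C ↔ Real E w z ∧ ∀ j, E j w → ∃ i, E i w ∧ Eqv E w J z i y j

/-- `C` is the intersection of a sequence of open sets. -/
def Gd (w C : M) : Prop :=
  ∃ h, Seq E w h ∧ (∀ j U, E j w → Rel E h j U → Open E w U) ∧
    ∀ x, E x C ↔ Real E w x ∧ ∀ j U, E j w → Rel E h j U → E x U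

/-- `A` is the union of a sequence of sets which are intersections of sequences of open sets. -/
def GdS (w A : M) : Prop :=
  ∃ g, Seq E w g ∧ (∀ k C, E k w → Rel E g k C → Gd E w C) ∧ Union E w A g

/-- `f` is a choice function for the sequence `s`. -/
def Choice (w s f : M) : Prop :=
  Seq E w f ∧ ∀ n A x, E n w → Rel E s n A → Rel E f n x → E x A

/-- What we need of the model. -/
structure Core : Prop where
  zf : IsZF E
  data : ∃ w J s R, Om E w ∧ (∀ x, E x R ↔ Real E w x) ∧ IsJ E w J ∧ Seq E w s ∧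
    (∀ n C, E n w → Rel E s n C → ∃ y, Real E w y ∧ Sup E w J y C) ∧
    (¬ ∃ f, Choice E w s f) ∧
    ∀ t, Seq E w t → (∀ n A, E n w → Rel E t n A → (∃ x, E x A) ∧ GdS E w A) →
      ∃ f, Choice E w t f

end

namespace Fm

def rel3 (J i k m : ℕ) : Fm := ex (and (oPair 0 (i+1) (k+1)) (rel (J+1) 0 (m+1)))

def eqv (w J z i y j : ℕ) : Fm :=
  all (imp (mem 0 (w+1)) (all (all (imp (rel3 (J+3) (i+3) 2 1) (imp (rel3 (J+3) (j+3) 2 0)
    (all (iff (rel (z+4) 2 0) (rel (y+4) 1 0))))))))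

def sup (w J y C : ℕ) : Fm :=
  all (iff (mem 0 (C+1)) (and (real (w+1) 0) (all (imp (mem 0 (w+2))
    (ex (and (mem 0 (w+3)) (eqv (w+3) (J+3) 2 0 (y+3) 1)))))))

def isJ (w J : ℕ) : Fm :=
  all (all (imp (mem 1 (w+2)) (imp (mem 0 (w+2)) (ex (and (mem 0 (w+3))
    (all (iff (rel3 (J+4) 3 2 0) (eq 0 1))))))))

def gd (w C : ℕ) : Fm :=
  ex (and (seq (w+1) 0) (and (all (all (imp (mem 1 (w+3)) (imp (rel 2 1 0) (opn (w+3) 0)))))
    (all (iff (mem 0 (C+2)) (and (real (w+2) 0)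
      (all (all (imp (mem 1 (w+4)) (imp (rel 3 1 0) (mem 2 0))))))))))

def gdS (w A : ℕ) : Fm :=
  ex (and (seq (w+1) 0) (and (all (all (imp (mem 1 (w+3)) (imp (rel 2 1 0) (gd (w+3) 0)))))
    (union (w+1) (A+1) 0)))

def choice (w s f : ℕ) : Fm :=
  and (seq w f) (all (all (all (imp (mem 2 (w+3)) (imp (rel (s+3) 2 1) (imp (rel (f+3) 2 0)
    (mem 0 1)))))))

end Fm

section

variable {M : Type} {E : M → M → Prop} (v : ℕ → M)

@[simp] theorem sat_rel3 (J i k m : ℕ) :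
    Sat E (.rel3 J i k m) v ↔ Rel3 E (v J) (v i) (v k) (v m) := by
  simp [Fm.rel3, Rel3]

@[simp] theorem sat_eqv (w J z i y j : ℕ) :
    Sat E (.eqv w J z i y j) v ↔ Eqv E (v w) (v J) (v z) (v i) (v y) (v j) := by
  simp [Fm.eqv, Eqv]

@[simp] theorem sat_sup (w J y C : ℕ) :
    Sat E (.sup w J y C) v ↔ Sup E (v w) (v J) (v y) (v C) := by
  simp [Fm.sup, Sup]

@[simp] theorem sat_isJ (w J : ℕ) : Sat E (.isJ w J) v ↔ IsJ E (v w) (v J) := by
  simp [Fm.isJ, IsJ]

@[simp] theorem sat_gd (w C : ℕ) : Sat E (.gd w C) v ↔ Gd E (v w) (v C) := by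
  simp [Fm.gd, Gd]

@[simp] theorem sat_gdS (w A : ℕ) : Sat E (.gdS w A) v ↔ GdS E (v w) (v A) := by
  simp [Fm.gdS, GdS]

@[simp] theorem sat_choice (w s f : ℕ) :
    Sat E (.choice w s f) v ↔ Choice E (v w) (v s) (v f) := by
  simp [Fm.choice, Choice]

end

end Pool.Agent.LibBc83
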