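import Pool.Agent.LibBc83.Fml

/-!
Formulas for the notions of `Def.lean`. The arguments are the numbers of the variables.
-/

namespace Pool.Agent.LibBc83

namespace Fm

def uPair (z x y : ℕ) : Fm := all (iff (mem 0 (z+1)) (or (eq 0 (x+1)) (eq 0 (y+1))))

def oPair (p x y : ℕ) : Fm :=
  all (iff (mem 0 (p+1)) (or (uPair 0 (x+1) (x+1)) (uPair 0 (x+1) (y+1))))

def rel (f x y : ℕ) : Fm := ex (and (oPair 0 (x+1) (y+1)) (mem 0 (f+1)))

def emp (x : ℕ) : Fm := all (neg (mem 0 (x+1)))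

def suc (y x : ℕ) : Fm := all (iff (mem 0 (y+1)) (or (mem 0 (x+1)) (eq 0 (x+1))))

def ind (v : ℕ) : Fm :=
  and (ex (and (emp 0) (mem 0 (v+1)))) (all (imp (mem 0 (v+1)) (ex (and (suc 0 1) (mem 0 (v+2))))))

def om (w : ℕ) : Fm := and (ind w) (all (imp (ind 0) (all (imp (mem 0 (w+2)) (mem 0 1)))))

/-- there is exactly one `m` with `(n, m)` in `x` -/
def ex1rel (x n : ℕ) : Fm := ex (all (iff (rel (x+2) (n+2) 0) (eq 0 1)))

def real (w x : ℕ) : Fm :=
  and (all (imp (mem 0 (x+1)) (ex (ex (and (mem 1 (w+3)) (and (mem 0 (w+3)) (oPair 2 1 0)))))))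
    (all (imp (mem 0 (w+1)) (ex1rel (x+1) 0)))

def seq (w g : ℕ) : Fm := all (imp (mem 0 (w+1)) (ex1rel (g+1) 0))

def agr (n x y : ℕ) : Fm :=
  all (imp (mem 0 (n+1)) (all (iff (rel (x+2) 1 0) (rel (y+2) 1 0))))

def opn (w A : ℕ) : Fm :=
  and (all (imp (mem 0 (A+1)) (real (w+1) 0)))
    (all (imp (mem 0 (A+1)) (ex (and (mem 0 (w+2))
      (all (imp (real (w+3) 0) (imp (agr 1 2 0) (mem 0 (A+3)))))))))

def compl (w A c : ℕ) : Fm := all (iff (mem 0 (A+1)) (and (real (w+1) 0) (neg (mem 0 (c+1)))))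

def union (w A g : ℕ) : Fm :=
  all (iff (mem 0 (A+1)) (ex (ex (and (mem 1 (w+3)) (and (rel (g+3) 1 0) (mem 2 0))))))

end Fm

section

variable {M : Type} {E : M → M → Prop} (v : ℕ → M)

@[simp] theorem sat_uPair (z x y : ℕ) :
    Sat E (.uPair z x y) v ↔ UPair E (v z) (v x) (v y) := by
  simp [Fm.uPair, UPair]

@[simp] theorem sat_oPair (p x y : ℕ) :
    Sat E (.oPair p x y) v ↔ OPair E (v p) (v x) (v y) := by
  simp [Fm.oPair, OPair]

@[simp] theorem sat_rel (f x y : ℕ) : Sat E (.rel f x y) v ↔ Rel E (v f) (v x) (v y) := by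
  simp [Fm.rel, Rel]

@[simp] theorem sat_emp (x : ℕ) : Sat E (.emp x) v ↔ Emp E (v x) := by
  simp [Fm.emp, Emp]

@[simp] theorem sat_suc (y x : ℕ) : Sat E (.suc y x) v ↔ Suc E (v y) (v x) := by
  simp [Fm.suc, Suc]

@[simp] theorem sat_ind (x : ℕ) : Sat E (.ind x) v ↔ Ind E (v x) := by
  simp [Fm.ind, Ind]

@[simp] theorem sat_om (x : ℕ) : Sat E (.om x) v ↔ Om E (v x) := by
  simp [Fm.om, Om]

@[simp] theorem sat_ex1rel (x n : ℕ) :
    Sat E (.ex1rel x n) v ↔ ∃ m, ∀ m', Rel E (v x) (v n) m' ↔ m' = m := by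
  simp [Fm.ex1rel]

@[simp] theorem sat_real (w x : ℕ) : Sat E (.real w x) v ↔ Real E (v w) (v x) := by
  simp [Fm.real, Real]

@[simp] theorem sat_seq (w x : ℕ) : Sat E (.seq w x) v ↔ Seq E (v w) (v x) := by
  simp [Fm.seq, Seq]

@[simp] theorem sat_agr (n x y : ℕ) : Sat E (.agr n x y) v ↔ Agr E (v n) (v x) (v y) := by
  simp [Fm.agr, Agr]

@[simp] theorem sat_opn (w A : ℕ) : Sat E (.opn w A) v ↔ Open E (v w) (v A) := by
  simp [Fm.opn, Open]

@[simp] theorem sat_compl (w A c : ℕ) :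
    Sat E (.compl w A c) v ↔ Compl E (v w) (v A) (v c) := by
  simp [Fm.compl, Compl]

@[simp] theorem sat_union (w A g : ℕ) :
    Sat E (.union w A g) v ↔ Union E (v w) (v A) (v g) := by
  simp [Fm.union, Union]

end

end Pool.Agent.LibBc83
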