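import Mathlib

/-!
Models of ZF, and in such a model the Borel classes of finite order and countable choice for
sequences of sets of reals which are in such a class.

A structure for the language of set theory is a type `M` with a relation `E`; `E x y` says that
`x` is a member of `y`.
-/

namespace Pool.Agent.LibBc83

/-- The first-order formulas of set theory. The variables are numbered; `all f` binds the variable
`0` of `f`, and the variable `n + 1` of `f` is the variable `n` of `all f`. -/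
inductive Fm : Type
  | mem (i j : ℕ)
  | eq (i j : ℕ)
  | neg (f : Fm)
  | and (f g : Fm)
  | all (f : Fm)

/-- The assignment `a, v 0, v 1, ...`. -/
def cons {M : Type*} (a : M) (v : ℕ → M) : ℕ → M
  | 0 => a
  | n + 1 => v n

section

variable {M : Type} (E : M → M → Prop)

/-- `f` is true in `(M, E)` if the variable `n` has the value `v n`. -/
def Sat : Fm → (ℕ → M) → Prop
  | .mem i j, v => E (v i) (v j)
  | .eq i j, v => v i = v j
  | .neg f, v => ¬ Sat f v
  | .and f g, v => Sat f v ∧ Sat g v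
  | .all f, v => ∀ a, Sat f (cons a v)

/-- `z` is the unordered pair of `x` and `y`. -/
def UPair (z x y : M) : Prop := ∀ t, E t z ↔ t = x ∨ t = y

/-- `p` is the ordered pair of `x` and `y`: the unordered pair of `{x}` and `{x, y}`. -/
def OPair (p x y : M) : Prop := ∀ z, E z p ↔ UPair E z x x ∨ UPair E z x y

/-- The ordered pair of `x` and `y` is in `f`. -/
def Rel (f x y : M) : Prop := ∃ p, OPair E p x y ∧ E p f

/-- `x` is empty. -/
def Emp (x : M) : Prop := ∀ t, ¬ E t x

/-- `y` is the union of `x` and `{x}`. -/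
def Suc (y x : M) : Prop := ∀ t, E t y ↔ E t x ∨ t = x

/-- `v` is inductive. -/
def Ind (v : M) : Prop := (∃ z, Emp E z ∧ E z v) ∧ ∀ x, E x v → ∃ y, Suc E y x ∧ E y v

/-- `w` is the set of the natural numbers: the least inductive set. -/
def Om (w : M) : Prop := Ind E w ∧ ∀ v, Ind E v → ∀ x, E x w → E x v

/-- `(M, E)` is a model of the Zermelo-Fraenkel axioms, without the axiom of choice. -/
structure IsZF : Prop where
  ext : ∀ x y, (∀ t, E t x ↔ E t y) → x = y
  found : ∀ x, (∃ t, E t x) → ∃ t, E t x ∧ ∀ u, E u t → ¬ E u x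
  pair : ∀ x y, ∃ z, UPair E z x y
  union : ∀ x, ∃ u, ∀ t, E t u ↔ ∃ s, E s x ∧ E t s
  power : ∀ x, ∃ u, ∀ t, E t u ↔ ∀ s, E s t → E s x
  infinity : ∃ v, Ind E v
  sep : ∀ (f : Fm) (v : ℕ → M) (a : M), ∃ b, ∀ x, E x b ↔ E x a ∧ Sat E f (cons x v)
  repl : ∀ (f : Fm) (v : ℕ → M) (a : M), (∀ x, E x a → ∃! y, Sat E f (cons x (cons y v))) →
    ∃ b, ∀ y, E y b ↔ ∃ x, E x a ∧ Sat E f (cons x (cons y v))

/-! In what follows `w` is the set of the natural numbers of the model. -/

/-- `x` is a real: a function from `w` to `w`. -/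
def Real (w x : M) : Prop :=
  (∀ p, E p x → ∃ n m, E n w ∧ E m w ∧ OPair E p n m) ∧
  ∀ n, E n w → ∃ m, ∀ m', Rel E x n m' ↔ m' = m

/-- `g` is a sequence: for each `n` in `w` there is exactly one `z` with `(n, z)` in `g`; this `z`
is the `n`-th term of the sequence. -/
def Seq (w g : M) : Prop := ∀ n, E n w → ∃ z, ∀ z', Rel E g n z' ↔ z' = z

/-- The reals `x` and `y` agree below `n`. -/
def Agr (n x y : M) : Prop := ∀ i, E i n → ∀ m, Rel E x i m ↔ Rel E y i m

/-- `A` is an open set of reals. -/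
def Open (w A : M) : Prop :=
  (∀ x, E x A → Real E w x) ∧
  ∀ x, E x A → ∃ n, E n w ∧ ∀ y, Real E w y → Agr E n x y → E y A

/-- `A` is the complement of `c` in the set of all reals. -/
def Compl (w A c : M) : Prop := ∀ x, E x A ↔ Real E w x ∧ ¬ E x c

/-- `A` is the union of the terms of the sequence `g`. -/
def Union (w A g : M) : Prop := ∀ x, E x A ↔ ∃ n z, E n w ∧ Rel E g n z ∧ E x z

/-- If `P` is the union of the classes `Π⁰₁, ..., Π⁰ₖ`, then this is the class `Σ⁰ₖ₊₁`: for
`k = 0` the open sets, and for `k ≥ 1` the unions of sequences of sets in `P`. -/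
def SigStep (w : M) (k : ℕ) (P : M → Prop) (A : M) : Prop :=
  if k = 0 then Open E w A
  else ∃ g, Seq E w g ∧ (∀ n z, E n w → Rel E g n z → P z) ∧ Union E w A g

/-- The union of the classes `Π⁰₁, ..., Π⁰ₖ`; the class `Π⁰ₖ` consists of the complements of the
sets in `Σ⁰ₖ`. -/
def PiUpTo (w : M) : ℕ → M → Prop
  | 0, _ => False
  | k + 1, z => PiUpTo w k z ∨ ∃ c, SigStep E w k (PiUpTo w k) c ∧ Compl E w z c

/-- The class `Σ⁰ₖ` of the model, for `k ≥ 1`. -/
def Sig (k : ℕ) (w A : M) : Prop := SigStep E w (k - 1) (PiUpTo E w (k - 1)) A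

/-- The class `Π⁰ₖ` of the model, for `k ≥ 1`: the complements of the sets in `Σ⁰ₖ`. -/
def Pi (k : ℕ) (w A : M) : Prop := ∃ c, Sig E k w c ∧ Compl E w A c

/-- The real `z` is the concatenation of `n` and the real `x`: its value at `0` is `n`, and its
value at `l + 1` is the value of `x` at `l`. -/
def Prep (w n x z : M) : Prop :=
  Real E w z ∧ (∀ o, Emp E o → Rel E z o n) ∧
  ∀ l l' m, E l w → Suc E l' l → Rel E x l m → Rel E z l' m

/-- `a` is the set of the reals `n⌢x`, where `x` is in the `n`-th term of the sequence `s`. -/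
def Hat (w s a : M) : Prop :=
  ∀ z, E z a ↔ ∃ n A x, E n w ∧ Rel E s n A ∧ E x A ∧ Prep E w n x z

/-- The sequence `s` is in the class `Γ`: each term is. -/
def InCls (Γ : M → M → Prop) (w s : M) : Prop := ∀ n A, E n w → Rel E s n A → Γ w A

/-- The sequence `s` is uniformly in the class `Γ`. -/
def UnifIn (Γ : M → M → Prop) (w s : M) : Prop :=
  InCls E Γ w s ∧ ∃ a, Hat E w s a ∧ Γ w a

/-- Countable choice for the sequences of nonempty sets which have the property `S`. -/
def CC (S : M → M → Prop) : Prop :=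
  ∀ w s, Om E w → Seq E w s → (∀ n A, E n w → Rel E s n A → ∃ x, E x A) → S w s →
    ∃ f, Seq E w f ∧ ∀ n A x, E n w → Rel E s n A → Rel E f n x → E x A

/-- `AC_ω(ℝ; Σ⁰ₖ)`. -/
def ACR (k : ℕ) : Prop := CC E (InCls E (Sig E k))

/-- `AC_ω(ℝ; Π⁰ₖ)`. -/
def ACP (k : ℕ) : Prop := CC E (InCls E (Pi E k))

/-- `AC_ω(ℝ; unif Σ⁰ₖ)`. -/
def ACU (k : ℕ) : Prop := CC E (UnifIn E (Sig E k))

end

end Pool.Agent.LibBc83
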