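import Pool.Agent.LibBc83.Def

/-!
Formulas: derived connectives, renaming of variables, truth values in a complete Boolean algebra.
-/

namespace Pool.Agent.LibBc83

universe u v

namespace Fm

def or (f g : Fm) : Fm := neg (and (neg f) (neg g))
def imp (f g : Fm) : Fm := neg (and f (neg g))
def iff (f g : Fm) : Fm := and (imp f g) (imp g f)
def ex (f : Fm) : Fm := neg (all (neg f))

end Fm

/-- Lifting of a renaming under a quantifier. -/
def lift (ρ : ℕ → ℕ) : ℕ → ℕ
  | 0 => 0
  | n + 1 => ρ n + 1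

/-- Renaming of the variables. -/
def Fm.ren : Fm → (ℕ → ℕ) → Fm
  | .mem i j, ρ => .mem (ρ i) (ρ j)
  | .eq i j, ρ => .eq (ρ i) (ρ j)
  | .neg f, ρ => .neg (f.ren ρ)
  | .and f g, ρ => .and (f.ren ρ) (g.ren ρ)
  | .all f, ρ => .all (f.ren (lift ρ))

/-- A bound for the variables which occur in a formula. -/
def Fm.bd : Fm → ℕ
  | .mem i j => max i j + 1
  | .eq i j => max i j + 1
  | .neg f => f.bd
  | .and f g => max f.bd g.bd
  | .all f => f.bd

theorem cons_comp_lift {M : Type*} (a : M) (v : ℕ → M) (ρ : ℕ → ℕ) :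
    cons a v ∘ lift ρ = cons a (v ∘ ρ) := by
  funext n
  cases n <;> rfl

@[simp] theorem cons_zero {M : Type*} (a : M) (v : ℕ → M) : cons a v 0 = a := rfl

@[simp] theorem cons_succ {M : Type*} (a : M) (v : ℕ → M) (n : ℕ) : cons a v (n + 1) = v n := rfl

/-! ### Truth in a structure -/

section Sat

variable {M : Type} {E : M → M → Prop}

@[simp] theorem sat_mem (i j : ℕ) (v : ℕ → M) : Sat E (.mem i j) v ↔ E (v i) (v j) := Iff.rfl

@[simp] theorem sat_eq (i j : ℕ) (v : ℕ → M) : Sat E (.eq i j) v ↔ v i = v j := Iff.rfl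

@[simp] theorem sat_neg (f : Fm) (v : ℕ → M) : Sat E (.neg f) v ↔ ¬ Sat E f v := Iff.rfl

@[simp] theorem sat_and (f g : Fm) (v : ℕ → M) :
    Sat E (.and f g) v ↔ Sat E f v ∧ Sat E g v := Iff.rfl

@[simp] theorem sat_all (f : Fm) (v : ℕ → M) : Sat E (.all f) v ↔ ∀ a, Sat E f (cons a v) := Iff.rfl

@[simp] theorem sat_or (f g : Fm) (v : ℕ → M) :
    Sat E (.or f g) v ↔ Sat E f v ∨ Sat E g v := by
  simp [Fm.or]
  tauto

@[simp] theorem sat_imp (f g : Fm) (v : ℕ → M) :
    Sat E (.imp f g) v ↔ (Sat E f v → Sat E g v) := by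
  simp [Fm.imp]

@[simp] theorem sat_iff (f g : Fm) (v : ℕ → M) :
    Sat E (.iff f g) v ↔ (Sat E f v ↔ Sat E g v) := by
  simp [Fm.iff]
  tauto

@[simp] theorem sat_ex (f : Fm) (v : ℕ → M) : Sat E (.ex f) v ↔ ∃ a, Sat E f (cons a v) := by
  simp [Fm.ex]

theorem sat_ren (f : Fm) (ρ : ℕ → ℕ) (v : ℕ → M) : Sat E (f.ren ρ) v ↔ Sat E f (v ∘ ρ) := by
  induction f generalizing ρ v with
  | mem i j => exact Iff.rfl
  | eq i j => exact Iff.rfl
  | neg f ih => exact not_congr (ih ρ v)
  | and f g ihf ihg => exact and_congr (ihf ρ v) (ihg ρ v)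
  | all f ih =>
    refine forall_congr' fun a => ?_
    rw [ih, cons_comp_lift]

theorem sat_bd (f : Fm) (v w : ℕ → M) (h : ∀ n, n < f.bd → v n = w n) :
    Sat E f v ↔ Sat E f w := by
  induction f generalizing v w with
  | mem i j =>
    have hi := h i (by simp only [Fm.bd]; omega)
    have hj := h j (by simp only [Fm.bd]; omega)
    simp only [sat_mem, hi, hj]
  | eq i j =>
    have hi := h i (by simp only [Fm.bd]; omega)
    have hj := h j (by simp only [Fm.bd]; omega)
    simp only [sat_eq, hi, hj]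
  | neg f ih => exact not_congr (ih v w h)
  | and f g ihf ihg =>
    exact and_congr (ihf v w fun n hn => h n (by simp only [Fm.bd]; omega))
      (ihg v w fun n hn => h n (by simp only [Fm.bd]; omega))
  | all f ih =>
    refine forall_congr' fun a => ih _ _ fun n hn => ?_
    cases n with
    | zero => rfl
    | succ n => exact h n (by simp only [Fm.bd]; omega)

end Sat

/-! ### Truth values in a complete Boolean algebra -/

section Ev

variable {N : Type u} {B : Type v} [CompleteBooleanAlgebra B]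

/-- The truth value of a formula, if `mem` and `eq` are the truth values of membership and
equality. -/
def ev (mem eq : N → N → B) : Fm → (ℕ → N) → B
  | .mem i j, v => mem (v i) (v j)
  | .eq i j, v => eq (v i) (v j)
  | .neg f, v => (ev mem eq f v)ᶜ
  | .and f g, v => ev mem eq f v ⊓ ev mem eq g v
  | .all f, v => ⨅ a, ev mem eq f (cons a v)

/-- The axioms of equality. -/
structure EqAx (mem eq : N → N → B) : Prop where
  refl : ∀ x, eq x x = ⊤
  symm : ∀ x y, eq x y = eq y x
  trans : ∀ x y z, eq x y ⊓ eq y z ≤ eq x z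
  meml : ∀ x y u, eq x y ⊓ mem x u ≤ mem y u
  memr : ∀ x u v, eq u v ⊓ mem x u ≤ mem x v

variable {mem eq : N → N → B}

@[simp] theorem ev_mem (i j : ℕ) (v : ℕ → N) : ev mem eq (.mem i j) v = mem (v i) (v j) := rfl

@[simp] theorem ev_eq (i j : ℕ) (v : ℕ → N) : ev mem eq (.eq i j) v = eq (v i) (v j) := rfl

@[simp] theorem ev_neg (f : Fm) (v : ℕ → N) : ev mem eq (.neg f) v = (ev mem eq f v)ᶜ := rfl

@[simp] theorem ev_and (f g : Fm) (v : ℕ → N) :
    ev mem eq (.and f g) v = ev mem eq f v ⊓ ev mem eq g v := rfl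

@[simp] theorem ev_all (f : Fm) (v : ℕ → N) :
    ev mem eq (.all f) v = ⨅ a, ev mem eq f (cons a v) := rfl

@[simp] theorem ev_or (f g : Fm) (v : ℕ → N) :
    ev mem eq (.or f g) v = ev mem eq f v ⊔ ev mem eq g v := by
  simp [Fm.or, compl_inf]

@[simp] theorem ev_imp (f g : Fm) (v : ℕ → N) :
    ev mem eq (.imp f g) v = ev mem eq f v ⇨ ev mem eq g v := by
  simp [Fm.imp, compl_inf, himp_eq, sup_comm]

@[simp] theorem ev_iff (f g : Fm) (v : ℕ → N) :
    ev mem eq (.iff f g) v =
      (ev mem eq f v ⇨ ev mem eq g v) ⊓ (ev mem eq g v ⇨ ev mem eq f v) := by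
  simp [Fm.iff]

@[simp] theorem ev_ex (f : Fm) (v : ℕ → N) :
    ev mem eq (.ex f) v = ⨆ a, ev mem eq f (cons a v) := by
  simp [Fm.ex, compl_iInf]

theorem ev_ren (f : Fm) (ρ : ℕ → ℕ) (v : ℕ → N) :
    ev mem eq (f.ren ρ) v = ev mem eq f (v ∘ ρ) := by
  induction f generalizing ρ v with
  | mem i j => rfl
  | eq i j => rfl
  | neg f ih => exact congrArg compl (ih ρ v)
  | and f g ihf ihg => exact congrArg₂ (· ⊓ ·) (ihf ρ v) (ihg ρ v)
  | all f ih =>
    refine iInf_congr fun a => ?_
    rw [ih, cons_comp_lift]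

theorem ev_bd (f : Fm) (v w : ℕ → N) (h : ∀ n, n < f.bd → v n = w n) :
    ev mem eq f v = ev mem eq f w := by
  induction f generalizing v w with
  | mem i j =>
    have hi := h i (by simp only [Fm.bd]; omega)
    have hj := h j (by simp only [Fm.bd]; omega)
    simp only [ev_mem, hi, hj]
  | eq i j =>
    have hi := h i (by simp only [Fm.bd]; omega)
    have hj := h j (by simp only [Fm.bd]; omega)
    simp only [ev_eq, hi, hj]
  | neg f ih => exact congrArg compl (ih v w h)
  | and f g ihf ihg =>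
    exact congrArg₂ (· ⊓ ·) (ihf v w fun n hn => h n (by simp only [Fm.bd]; omega))
      (ihg v w fun n hn => h n (by simp only [Fm.bd]; omega))
  | all f ih =>
    refine iInf_congr fun a => ih _ _ fun n hn => ?_
    cases n with
    | zero => rfl
    | succ n => exact h n (by simp only [Fm.bd]; omega)

/-- Truth values respect equality. -/
theorem ev_congr (H : EqAx mem eq) (f : Fm) (c : B) (v w : ℕ → N) (h : ∀ n, c ≤ eq (v n) (w n)) :
    c ⊓ ev mem eq f v ≤ ev mem eq f w := by
  induction f generalizing v w with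
  | mem i j =>
    calc c ⊓ mem (v i) (v j) ≤ eq (v j) (w j) ⊓ (eq (v i) (w i) ⊓ mem (v i) (v j)) :=
          le_inf (inf_le_left.trans (h j)) (inf_le_inf_right _ (h i))
      _ ≤ eq (v j) (w j) ⊓ mem (w i) (v j) := inf_le_inf_left _ (H.meml _ _ _)
      _ ≤ mem (w i) (w j) := H.memr _ _ _
  | eq i j =>
    calc c ⊓ eq (v i) (v j) ≤ (eq (w i) (v i) ⊓ eq (v i) (v j)) ⊓ eq (v j) (w j) := by
          refine le_inf (le_inf ?_ inf_le_right) (inf_le_left.trans (h j))
          rw [H.symm (w i)]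
          exact inf_le_left.trans (h i)
      _ ≤ eq (w i) (v j) ⊓ eq (v j) (w j) := inf_le_inf_right _ (H.trans _ _ _)
      _ ≤ eq (w i) (w j) := H.trans _ _ _
  | neg f ih =>
    have h' : ∀ n, c ≤ eq (w n) (v n) := fun n => by
      rw [H.symm]
      exact h n
    have h1 := ih w v h'
    change c ⊓ (ev mem eq f v)ᶜ ≤ (ev mem eq f w)ᶜ
    rw [le_compl_iff_disjoint_right, disjoint_iff_inf_le]
    calc c ⊓ (ev mem eq f v)ᶜ ⊓ ev mem eq f w
        ≤ (c ⊓ ev mem eq f w) ⊓ (ev mem eq f v)ᶜ :=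
          le_inf (le_inf (inf_le_left.trans inf_le_left) inf_le_right)
            (inf_le_left.trans inf_le_right)
      _ ≤ ev mem eq f v ⊓ (ev mem eq f v)ᶜ := inf_le_inf_right _ h1
      _ ≤ ⊥ := by rw [inf_compl_eq_bot]
  | and f g ihf ihg =>
    exact le_inf ((inf_le_inf_left _ inf_le_left).trans (ihf v w h))
      ((inf_le_inf_left _ inf_le_right).trans (ihg v w h))
  | all f ih =>
    refine le_iInf fun a => ?_
    refine (inf_le_inf_left _ (iInf_le _ a)).trans (ih _ _ fun n => ?_)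
    cases n with
    | zero =>
      change c ≤ eq a a
      rw [H.refl]
      exact le_top
    | succ n => exact h n

theorem ev_congr_top (H : EqAx mem eq) (f : Fm) (v w : ℕ → N) (h : ∀ n, eq (v n) (w n) = ⊤) :
    ev mem eq f v = ev mem eq f w := by
  apply le_antisymm
  · have := ev_congr H f ⊤ v w fun n => (h n).ge
    rwa [top_inf_eq] at this
  · have := ev_congr H f ⊤ w v fun n => by rw [H.symm]; exact (h n).ge
    rwa [top_inf_eq] at this

end Ev

deriving instance Countable for Fm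

end Pool.Agent.LibBc83
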