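import Pool.Agent.LibBc83.Fml

/-!
From a structure with truth values in a complete Boolean algebra to an ordinary structure.
-/

namespace Pool.Agent.LibBc83

universe u v

section

variable {N : Type u} {B : Type v} [CompleteBooleanAlgebra B] {mem eq : N → N → B}

/-- The assignment given by a list of indices. -/
def asg {X : Type*} (v : ℕ → X) (e : List ℕ) : ℕ → X := fun i => v (e.getD i 0)

theorem cons_asg {X : Type*} (v : ℕ → X) (e : List ℕ) (i : ℕ) :
    cons (v i) (asg v e) = asg v (i :: e) := by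
  funext n
  cases n <;> rfl

/-- The requirement on two consecutive states of the construction. -/
def Nxt (mem eq : N → N → B) (k : ℕ) (t : Fm × List ℕ) (s s' : B × (ℕ → N)) : Prop :=
  s'.1 ≠ ⊥ ∧ s'.1 ≤ s.1 ∧ (∀ i, i < k → s'.2 i = s.2 i) ∧
  ((∀ i ∈ t.2, i < k) →
    s'.1 ≤ ev mem eq t.1 (asg s.2 t.2) ∨
    (s'.1 ≤ (ev mem eq t.1 (asg s.2 t.2))ᶜ ∧
      ∀ g, t.1 = .all g → s'.1 ≤ (ev mem eq g (cons (s'.2 k) (asg s.2 t.2)))ᶜ))

theorem exists_nxt (k : ℕ) (t : Fm × List ℕ) (s : B × (ℕ → N)) (hs : s.1 ≠ ⊥) :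
    ∃ s', Nxt mem eq k t s s' := by
  classical
  by_cases h1 : s.1 ⊓ ev mem eq t.1 (asg s.2 t.2) = ⊥
  · have h2 : s.1 ≤ (ev mem eq t.1 (asg s.2 t.2))ᶜ := by
      rw [le_compl_iff_disjoint_right, disjoint_iff]
      exact h1
    by_cases h3 : ∃ g, t.1 = .all g
    · obtain ⟨g, hg⟩ := h3
      have h4 : ∃ x, s.1 ⊓ (ev mem eq g (cons x (asg s.2 t.2)))ᶜ ≠ ⊥ := by
        by_contra hcon
        push Not at hcon
        apply hs
        have h5 : s.1 ≤ ev mem eq t.1 (asg s.2 t.2) := by
          rw [hg, ev_all]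
          refine le_iInf fun x => ?_
          have := hcon x
          rw [← disjoint_iff, disjoint_compl_right_iff] at this
          exact this
        rw [← h1]
        exact (inf_eq_left.2 h5).symm
      obtain ⟨x, hx⟩ := h4
      refine ⟨(s.1 ⊓ (ev mem eq g (cons x (asg s.2 t.2)))ᶜ, Function.update s.2 k x), hx,
        inf_le_left, fun i hi => Function.update_of_ne hi.ne _ _, fun _ => Or.inr
        ⟨inf_le_left.trans h2, fun g' hg' => ?_⟩⟩
      rw [hg] at hg'
      cases hg'
      simp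
    · refine ⟨s, hs, le_rfl, fun _ _ => rfl, fun _ => Or.inr ⟨h2, fun g hg => ?_⟩⟩
      exact absurd ⟨g, hg⟩ h3
  · exact ⟨(s.1 ⊓ ev mem eq t.1 (asg s.2 t.2), s.2), h1, inf_le_left, fun _ _ => rfl,
      fun _ => Or.inl inf_le_right⟩

/-- The data given by the construction. -/
structure Gen (mem eq : N → N → B) (b : B) (v₀ : ℕ → N) (k₀ : ℕ) where
  /-- the elements of the filter -/
  F : B → Prop
  /-- the names -/
  V : ℕ → N
  init : ∀ i, i < k₀ → V i = v₀ i
  base : F b
  mono : ∀ a a', a ≤ a' → F a → F a'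
  inf : ∀ a a', F a → F a' → F (a ⊓ a')
  ne : ¬ F ⊥
  dec : ∀ f e, F (ev mem eq f (asg V e)) ∨ (F (ev mem eq f (asg V e))ᶜ ∧
    ∀ g, f = .all g → ∃ i, F (ev mem eq g (cons (V i) (asg V e)))ᶜ)

theorem exists_gen (b : B) (hb : b ≠ ⊥) (v₀ : ℕ → N) (k₀ : ℕ) (hk : 0 < k₀) :
    Nonempty (Gen mem eq b v₀ k₀) := by
  classical
  have : Nonempty (Fm × List ℕ) := ⟨(.mem 0 0, [])⟩
  obtain ⟨s, hs⟩ := exists_surjective_nat (Fm × List ℕ)
  let en : ℕ → Fm × List ℕ := fun n => s n.unpair.1
  have hen : ∀ t m, ∃ n, m ≤ n ∧ en n = t := by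
    intro t m
    obtain ⟨a, ha⟩ := hs t
    refine ⟨Nat.pair a m, Nat.right_le_pair a m, ?_⟩
    simp [en, ha]
  choose! nx hnx using fun (n : ℕ) (s : B × (ℕ → N)) (hs : s.1 ≠ ⊥) =>
    exists_nxt (mem := mem) (eq := eq) (k₀ + n) (en n) s hs
  let S : ℕ → B × (ℕ → N) := fun n => Nat.rec (b, v₀) (fun n s => nx n s) n
  have hS1 : ∀ n, S (n + 1) = nx n (S n) := fun n => rfl
  have hSne : ∀ n, (S n).1 ≠ ⊥ := by
    intro n
    induction n with
    | zero => exact hb
    | succ n ih =>
      rw [hS1]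
      exact (hnx n _ ih).1
  have hSn : ∀ n, Nxt mem eq (k₀ + n) (en n) (S n) (S (n + 1)) := fun n => hnx n _ (hSne n)
  have hanti : ∀ m n, m ≤ n → (S n).1 ≤ (S m).1 := by
    intro m n hmn
    induction n, hmn using Nat.le_induction with
    | base => exact le_rfl
    | succ n _ ih => exact (hSn n).2.1.trans ih
  have hfix : ∀ m n, m ≤ n → ∀ i, i < k₀ + m → (S n).2 i = (S m).2 i := by
    intro m n hmn i hi
    induction n, hmn using Nat.le_induction with
    | base => rfl
    | succ n hn ih => exact ((hSn n).2.2.1 i (by omega)).trans ih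
  let V : ℕ → N := fun i => (S (i + 1)).2 i
  have hV : ∀ n i, i < k₀ + n → (S n).2 i = V i := by
    intro n i hi
    rcases le_total n (i + 1) with h | h
    · exact (hfix n (i + 1) h i hi).symm
    · exact hfix (i + 1) n h i (by omega)
  have hasg : ∀ n (e : List ℕ), (∀ i ∈ e, i < k₀ + n) → asg (S n).2 e = asg V e := by
    intro n e he
    funext i
    refine hV n _ ?_
    rw [List.getD_eq_getElem?_getD]
    cases h : e[i]? with
    | none => simp; omega
    | some j => exact he j (List.mem_of_getElem? h)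
  refine ⟨{
    F := fun a => ∃ n, (S n).1 ≤ a
    V := V
    init := fun i hi => (hV 0 i (by omega)).symm
    base := ⟨0, le_rfl⟩
    mono := fun a a' h ⟨n, hn⟩ => ⟨n, hn.trans h⟩
    inf := fun a a' ⟨n, hn⟩ ⟨m, hm⟩ => ⟨max n m, le_inf
      ((hanti _ _ (le_max_left n m)).trans hn) ((hanti _ _ (le_max_right n m)).trans hm)⟩
    ne := fun ⟨n, hn⟩ => hSne n (le_bot_iff.1 hn)
    dec := ?_ }⟩
  intro f e
  obtain ⟨n, hn, hn'⟩ := hen (f, e) (e.sum + 1)
  have hval : ∀ i ∈ e, i < k₀ + n := by
    intro i hi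
    have := List.le_sum_of_mem hi
    omega
  have h := (hSn n).2.2.2
  rw [hn'] at h
  rcases h hval with h | ⟨h, h'⟩
  · left
    refine ⟨n + 1, ?_⟩
    rw [hasg n e hval] at h
    exact h
  · right
    rw [hasg n e hval] at h h'
    refine ⟨⟨n + 1, h⟩, fun g hg => ⟨k₀ + n, n + 1, ?_⟩⟩
    rw [← hV (n + 1) (k₀ + n) (by omega)]
    exact h' g hg

/-- A structure with truth values in a complete Boolean algebra gives an ordinary structure. -/
theorem henkin (H : EqAx mem eq) (b : B) (hb : b ≠ ⊥) (v₀ : ℕ → N) (k₀ : ℕ) (hk : 0 < k₀)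
    (hv : ∀ n, k₀ ≤ n → v₀ n = v₀ 0) :
    ∃ (M : Type) (E : M → M → Prop) (c : ℕ → M),
      (∀ f, (∀ v, b ≤ ev mem eq f v) → ∀ v', Sat E f v') ∧
      ∀ f, b ≤ ev mem eq f v₀ → Sat E f c := by
  classical
  obtain ⟨G⟩ := exists_gen (mem := mem) (eq := eq) b hb v₀ k₀ hk
  let st : Setoid ℕ :=
    { r := fun i j => G.F (eq (G.V i) (G.V j))
      iseqv :=
        { refl := fun i => by
            rw [H.refl]
            exact G.mono _ _ le_top G.base
          symm := fun {i j} h => by
            rw [H.symm]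
            exact h
          trans := fun {i j k} h h' => G.mono _ _ (H.trans _ _ _) (G.inf _ _ h h') } }
  let E : Quotient st → Quotient st → Prop := Quotient.lift₂ (fun i j => G.F (mem (G.V i) (G.V j))) (by
    have key : ∀ i j i' j', G.F (eq (G.V i) (G.V i')) → G.F (eq (G.V j) (G.V j')) →
        G.F (mem (G.V i) (G.V j)) → G.F (mem (G.V i') (G.V j')) := by
      intro i j i' j' h1 h2 h
      exact G.mono _ _ (H.memr _ _ _) (G.inf _ _ h2 (G.mono _ _ (H.meml _ _ _) (G.inf _ _ h1 h)))
    intro i j i' j' h1 h2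
    refine propext ⟨key i j i' j' h1 h2, key i' j' i j ?_ ?_⟩
    · rw [H.symm]
      exact h1
    · rw [H.symm]
      exact h2)
  let cl : ℕ → Quotient st := fun i => Quotient.mk st i
  have hneg : ∀ f e, G.F (ev mem eq f (asg G.V e))ᶜ ↔ ¬ G.F (ev mem eq f (asg G.V e)) := by
    intro f e
    constructor
    · intro h h'
      apply G.ne
      rw [← inf_compl_eq_bot (a := ev mem eq f (asg G.V e))]
      exact G.inf _ _ h' h
    · intro h
      rcases G.dec f e with h' | h'
      · exact absurd h' h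
      · exact h'.1
  have truth : ∀ f e, Sat E f (asg cl e) ↔ G.F (ev mem eq f (asg G.V e)) := by
    intro f
    induction f with
    | mem i j => exact fun e => Iff.rfl
    | eq i j => exact fun e => Quotient.eq (r := st)
    | neg f ih => exact fun e => (not_congr (ih e)).trans (hneg f e).symm
    | and f g ihf ihg =>
      intro e
      refine (and_congr (ihf e) (ihg e)).trans ⟨fun h => G.inf _ _ h.1 h.2, fun h => ?_⟩
      exact ⟨G.mono _ _ inf_le_left h, G.mono _ _ inf_le_right h⟩
    | all f ih =>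
      intro e
      constructor
      · intro h
        by_contra hcon
        rcases G.dec (.all f) e with h' | ⟨-, h'⟩
        · exact hcon h'
        · obtain ⟨i, hi⟩ := h' f rfl
          rw [cons_asg, hneg] at hi
          apply hi
          rw [← ih, ← cons_asg]
          exact h (cl i)
      · intro h a
        obtain ⟨i, rfl⟩ := Quotient.exists_rep a
        change Sat E f (cons (cl i) (asg cl e))
        rw [cons_asg, ih, ← cons_asg]
        exact G.mono _ _ (iInf_le _ (G.V i)) h
  refine ⟨Quotient st, E, asg cl (List.range k₀), ?_, ?_⟩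
  · intro f hf v'
    choose r hr using fun i => Quotient.exists_rep (v' i)
    have h1 : Sat E f v' ↔ Sat E f (asg cl ((List.range f.bd).map r)) := by
      refine sat_bd f _ _ fun n hn => ?_
      rw [← hr n]
      simp [asg, cl, hn]
    rw [h1, truth]
    exact G.mono _ _ (hf _) G.base
  · intro f hf
    rw [truth]
    refine G.mono _ _ (hf.trans_eq ?_) G.base
    congr 1
    funext i
    by_cases h : i < k₀
    · simp [asg, h, G.init i h]
    · simp [asg, h, G.init 0 hk, hv i (not_lt.1 h)]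

end

end Pool.Agent.LibBc83
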