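import Pool.Agent.LibBc83.SMb
import Pool.Agent.LibPlas90.BBasic

/-!
BC83 I1. The action of the group on the Boolean-valued universe `BSet B` (`LibPlas90/BSet.lean`,
`LibPlas90/BBasic.lean`), and the hereditarily symmetric names.

Plan. `actB_one`, `actB_mul`, `eq_actB` by induction on the name (`eq_actB`: unfold `BSet.eq`,
`smul_inf'`, `smul_iInf'`, `smul_himp'`, `smul_iSup'`). `HS.act`: by induction on `x`; if `x` has the
support `S ∈ Fam` then by `hF.conj` there is `T ∈ Fam` with `g⁻¹ * h * g ∈ S` for `h ∈ T`, and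
`actB h (actB g x) = actB g (actB (g⁻¹ * h * g) x)`, so
`eq (actB h (actB g x)) (actB g x) = g • eq (actB (g⁻¹ * h * g) x) x = ⊤`.
-/

namespace Pool.Agent.LibBc83

open Pool.Agent.LibPlas90

variable {B : Type} [CompleteBooleanAlgebra B] {G : Type} [Group G] [MulAction G B]

/-- The action on names. -/
def actB (g : G) : BSet B → BSet B
  | .mk ι A b => .mk ι (fun i => actB g (A i)) (fun i => g • b i)

theorem actB_one (x : BSet B) : actB (1 : G) x = x := by
  induction x with
  | mk ι A b ih => simp only [actB, ih, one_smul]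

theorem actB_mul (g h : G) (x : BSet B) : actB (g * h) x = actB g (actB h x) := by
  induction x with
  | mk ι A b ih => simp only [actB, ih, mul_smul]

/-- The hereditarily symmetric names. -/
def HS (Fam : Set (Set G)) : BSet B → Prop
  | .mk ι A b => (∃ S ∈ Fam, ∀ g ∈ S, BSet.eq (actB g (.mk ι A b)) (.mk ι A b) = ⊤) ∧
      ∀ i, HS Fam (A i)

theorem HS.supp {Fam : Set (Set G)} {x : BSet B} (h : HS Fam x) :
    ∃ S ∈ Fam, ∀ g ∈ S, BSet.eq (actB g x) x = ⊤ := by
  cases x with
  | mk ι A b =>
    rw [HS] at h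
    exact h.1

variable [OrdAct G B]

theorem eq_actB (g : G) (x y : BSet B) : BSet.eq (actB g x) (actB g y) = g • BSet.eq x y := by
  induction x generalizing y with
  | mk ι A b ih =>
    cases y with
    | mk κ C c =>
      simp only [actB, BSet.eq, smul_inf', smul_iInf', smul_himp', smul_iSup', ih]

theorem mem_actB (g : G) (x y : BSet B) : BSet.mem (actB g x) (actB g y) = g • BSet.mem x y := by
  cases y with
  | mk κ C c => simp only [actB, BSet.mem, smul_inf', smul_iSup', eq_actB]

theorem HS.act {Fam : Set (Set G)} (hF : IsFam Fam) (g : G) {x : BSet B} (h : HS Fam x) :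
    HS Fam (actB g x) := by
  induction x with
  | mk ι A b ih =>
    rw [HS] at h
    obtain ⟨⟨S, hS, hs⟩, hA⟩ := h
    obtain ⟨T, hT, hTS⟩ := hF.conj S hS g
    have h1 : ∀ k ∈ T, BSet.eq (actB k (actB g (.mk ι A b))) (actB g (.mk ι A b)) = ⊤ := by
      intro k hk
      have h2 : actB k (actB g (.mk ι A b)) = actB g (actB (g⁻¹ * k * g) (.mk ι A b)) := by
        rw [← actB_mul, ← actB_mul]
        congr 1
        group
      rw [h2, eq_actB, hs _ (hTS k hk), smul_top']
    rw [actB] at h1 ⊢
    rw [HS]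
    exact ⟨⟨T, hT, h1⟩, fun i => ih i (hA i)⟩

end Pool.Agent.LibBc83
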