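import Pool.Agent.LibBc83.I1

/-!
BC83 I2. Extensionality, induction and comprehension for hereditarily symmetric names.

Plan. `hs_ext`: as `BSet.le_eq_of_forall`: only the members `A i` of `u` and `D k` of `v` are used
there, and they are hereditarily symmetric. `hs_ind`: induction on the name; for `u = .mk ι A b`
use the family `A`, `b` (`BSet.mem_mk`). `hs_comp`: the name is `.mk ι (fun i => (A i).1) b`; it has
the support `S`: by `hs_ext`, one has to compare `mem x (actB g u)` and `mem x u` for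
`x` hereditarily symmetric: `mem x (actB g u) = g • mem (actB g⁻¹ x) u`
(`mem_actB`, `x = actB g (actB g⁻¹ x)`), which is `mem x u` by the hypothesis for `actB g⁻¹ x`.
-/

namespace Pool.Agent.LibBc83

open Pool.Agent.LibPlas90

variable {B : Type} [CompleteBooleanAlgebra B] {G : Type} [Group G] [MulAction G B]
  {Fam : Set (Set G)}

theorem hs_ext (u v : {x : BSet B // HS Fam x}) (c : B)
    (h : ∀ x : {x : BSet B // HS Fam x}, c ⊓ BSet.mem x.1 u.1 ≤ BSet.mem x.1 v.1)
    (h' : ∀ x : {x : BSet B // HS Fam x}, c ⊓ BSet.mem x.1 v.1 ≤ BSet.mem x.1 u.1) :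
    c ≤ BSet.eq u.1 v.1 := by
  obtain ⟨u, hu⟩ := u
  obtain ⟨v, hv⟩ := v
  cases u with
  | mk ι A b =>
    cases v with
    | mk ν D d =>
      have hu' : ∀ i, HS Fam (A i) := by
        rw [HS] at hu
        exact hu.2
      have hv' : ∀ i, HS Fam (D i) := by
        rw [HS] at hv
        exact hv.2
      change c ≤ BSet.eq (.mk ι A b) (.mk ν D d)
      rw [BSet.eq_mk']
      refine le_inf (le_iInf fun i => ?_) (le_iInf fun k => ?_)
      · rw [le_himp_iff]
        exact (inf_le_inf_left _ (BSet.le_mem ι A b i)).trans (h ⟨A i, hu' i⟩)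
      · rw [le_himp_iff]
        exact (inf_le_inf_left _ (BSet.le_mem ν D d k)).trans (h' ⟨D k, hv' k⟩)

theorem hs_ind (P : {x : BSet B // HS Fam x} → Prop)
    (h : ∀ u, (∃ (ι : Type) (A : ι → {x : BSet B // HS Fam x}) (b : ι → B), (∀ i, P (A i)) ∧
      ∀ x : {x : BSet B // HS Fam x}, BSet.mem x.1 u.1 = ⨆ i, b i ⊓ BSet.eq x.1 (A i).1) → P u)
    (u : {x : BSet B // HS Fam x}) : P u := by
  obtain ⟨x, hx⟩ := u
  induction x with
  | mk ι A b ih =>
    have hu' : ∀ i, HS Fam (A i) := by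
      have hx' := hx
      rw [HS] at hx'
      exact hx'.2
    exact h _ ⟨ι, fun i => ⟨A i, hu' i⟩, b, fun i => ih i (hu' i), fun x => rfl⟩

variable [OrdAct G B]

theorem hs_comp (hF : IsFam Fam) (ι : Type) (A : ι → {x : BSet B // HS Fam x}) (b : ι → B)
    (S : Set G) (hS : S ∈ Fam)
    (h : ∀ g ∈ S, ∀ x : {x : BSet B // HS Fam x},
      (⨆ i, b i ⊓ BSet.eq (actB g x.1) (A i).1) = g • ⨆ i, b i ⊓ BSet.eq x.1 (A i).1) :
    ∃ u : {x : BSet B // HS Fam x}, (∀ g ∈ S, BSet.eq (actB g u.1) u.1 = ⊤) ∧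
      ∀ x : {x : BSet B // HS Fam x}, BSet.mem x.1 u.1 = ⨆ i, b i ⊓ BSet.eq x.1 (A i).1 := by
  have hkey : ∀ g ∈ S, BSet.eq (actB g (.mk ι (fun i => (A i).1) b))
      (.mk ι (fun i => (A i).1) b) = ⊤ := by
    intro g hg
    rw [← top_le_iff]
    have e : actB g (.mk ι (fun i => (A i).1) b) =
        .mk ι (fun i => actB g (A i).1) (fun i => g • b i) := rfl
    rw [e, BSet.eq_mk', ← e]
    refine le_inf (le_iInf fun i => ?_) (le_iInf fun j => ?_)
    · rw [le_himp_iff, top_inf_eq]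
      have h1 : BSet.mem (actB g (A i).1) (.mk ι (fun i => (A i).1) b) =
          g • BSet.mem (A i).1 (.mk ι (fun i => (A i).1) b) := h g hg (A i)
      rw [h1]
      exact OrdAct.mono g _ _ (BSet.le_mem ι (fun i => (A i).1) b i)
    · rw [le_himp_iff, top_inf_eq]
      have h1 : BSet.mem (actB g⁻¹ (A j).1) (.mk ι (fun i => (A i).1) b) =
          g⁻¹ • BSet.mem (A j).1 (.mk ι (fun i => (A i).1) b) := h g⁻¹ (hF.inv S hS g hg) (A j)
      have h2 : (A j).1 = actB g (actB g⁻¹ (A j).1) := by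
        rw [← actB_mul, mul_inv_cancel, actB_one]
      have h3 : BSet.mem (A j).1 (actB g (.mk ι (fun i => (A i).1) b)) =
          BSet.mem (A j).1 (.mk ι (fun i => (A i).1) b) := by
        conv_lhs => rw [h2]
        rw [mem_actB, h1, smul_inv_smul]
      rw [h3]
      exact BSet.le_mem ι (fun i => (A i).1) b j
  refine ⟨⟨.mk ι (fun i => (A i).1) b, ?_⟩, hkey, fun x => rfl⟩
  rw [HS]
  exact ⟨⟨S, hS, hkey⟩, fun i => (A i).2⟩

/-- The symmetric names exist. -/
noncomputable def mkSM (hF : IsFam Fam) : SM B G Fam where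
  N := {x : BSet B // HS Fam x}
  mem x y := BSet.mem x.1 y.1
  eq x y := BSet.eq x.1 y.1
  act g x := ⟨actB g x.1, x.2.act hF g⟩
  fam := hF
  act_one x := Subtype.ext (actB_one x.1)
  act_mul g h x := Subtype.ext (actB_mul g h x.1)
  eqax :=
    { refl := fun x => BSet.eq_refl x.1
      symm := fun x y => BSet.eq_symm x.1 y.1
      trans := fun x y z => BSet.eq_trans x.1 y.1 z.1
      meml := fun x y u => BSet.mem_congr_left x.1 y.1 u.1
      memr := fun x u v => BSet.mem_congr_right x.1 u.1 v.1 }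
  mem_act g x y := mem_actB g x.1 y.1
  eq_act g x y := eq_actB g x.1 y.1
  ext := hs_ext
  ind := hs_ind
  supp x := x.2.supp
  comp ι A b S hS h := hs_comp hF ι A b S hS h

end Pool.Agent.LibBc83
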