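import Pool.Agent.LibBc83.KD

/-!
BC83 KA. The concrete system of coordinates has the required properties.

Plan. `okAct`: cases on the coordinate and the value. `mem_supC_inl`, `mem_supC_inr` are immediate.
`suppsC`: `ne`: `F = ∅`; `cover`: `F = ∅` or a singleton; `union`: `supC F ∪ supC F' =
supC (F ∪ F')`; `trans`: the image of `supC F` under `g` is `supC` of the image of `F` under
`(n, j) ↦ (n, g n j)`. `move` for `supC F₀`, `supC F`, `supC F'`: let `N` be larger than all numbers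
which occur in `F₀ ∪ F ∪ F'`; for each `n` let `g n` be the permutation of `ω` which exchanges `j`
and `j + N` for `j < N` with `(n, j) ∉ F₀` and fixes the other numbers (an involution,
`Function.Involutive.toPerm`); it fixes the `j` with `(n, j) ∈ F₀` and moves the other `j < N` to
`j + N`, so that `(n, j + N) ∉ F'`. `freshC`: for `S₀ = supC F₀` take `j` with `(0, j) ∉ F₀`
(`F₀` is finite) and `c₀ k = .inr ((0, j), k)`; then `supC F₀ ∪ Set.range c₀ =
supC (F₀ ∪ {(0, j)})`; the value `.inr ⟨0, s⟩` codes `s`.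
-/

namespace Pool.Agent.LibBc83

open Pool.Agent.LibTk83

instance okAct : OkAct Gp Crd okC where
  ok_smul := by
    intro g c v h
    rcases c with a | ⟨⟨n, j⟩, k⟩
    · exact h
    · rw [smul_inr]
      rcases v with b | a
      · exact h
      · exact h

theorem mem_supC_inl (F : Set (ℕ × ℕ)) (a : Lam × ℕ) : (Sum.inl a : Crd) ∈ supC F := by
  intro q k h
  cases h

theorem mem_supC_inr (F : Set (ℕ × ℕ)) (q : ℕ × ℕ) (k : ℕ) :
    (Sum.inr (q, k) : Crd) ∈ supC F ↔ q ∈ F := by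
  constructor
  · intro h
    exact h q k rfl
  · intro hq q' k' h
    have h1 := Sum.inr.inj h
    have h2 : q = q' := congrArg Prod.fst h1
    rwa [← h2]

private theorem KA_union (F F' : Set (ℕ × ℕ)) : supC F ∪ supC F' = supC (F ∪ F') := by
  ext c
  rcases c with a | ⟨q, k⟩
  · constructor
    · intro _
      exact mem_supC_inl _ a
    · intro _
      exact Or.inl (mem_supC_inl _ a)
  · rw [Set.mem_union, mem_supC_inr, mem_supC_inr, mem_supC_inr, Set.mem_union]

private theorem KA_trans (F : Set (ℕ × ℕ)) (g : Gp) :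
    (fun c => g • c) '' supC F = supC ((fun q : ℕ × ℕ => (q.1, g q.1 q.2)) '' F) := by
  ext c
  rcases c with a | ⟨q, k⟩
  · constructor
    · intro _
      exact mem_supC_inl _ a
    · intro _
      exact ⟨Sum.inl a, mem_supC_inl _ a, smul_inl g a⟩
  · rw [mem_supC_inr]
    constructor
    · rintro ⟨c, hc, h⟩
      rcases c with a | ⟨⟨n, j⟩, k'⟩
      · change g • (Sum.inl a : Crd) = _ at h
        rw [smul_inl] at h
        cases h
      · change g • (Sum.inr ((n, j), k') : Crd) = _ at h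
        rw [smul_inr] at h
        have h1 := Sum.inr.inj h
        have h2 : (n, g n j) = q := congrArg Prod.fst h1
        rw [mem_supC_inr] at hc
        exact ⟨(n, j), hc, h2⟩
    · rintro ⟨⟨n, j⟩, hq, h⟩
      refine ⟨Sum.inr ((n, j), k), (mem_supC_inr _ _ _).2 hq, ?_⟩
      change g • (Sum.inr ((n, j), k) : Crd) = _
      rw [smul_inr]
      change (n, g n j) = q at h
      rw [h]

/-- The involution which exchanges `j` and `j + N` for `j < N` with `(n, j)` not in `F₀`. -/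
private noncomputable def KA_h (F₀ : Set (ℕ × ℕ)) (N n x : ℕ) : ℕ := by
  classical
  exact if x < N ∧ (n, x) ∉ F₀ then x + N
    else if N ≤ x ∧ x - N < N ∧ (n, x - N) ∉ F₀ then x - N else x

private theorem KA_h1 (F₀ : Set (ℕ × ℕ)) (N n x : ℕ) (h : x < N) (h' : (n, x) ∉ F₀) :
    KA_h F₀ N n x = x + N := by
  classical
  unfold KA_h
  rw [if_pos ⟨h, h'⟩]

private theorem KA_h2 (F₀ : Set (ℕ × ℕ)) (N n x : ℕ) (h : x < N) (h' : (n, x) ∈ F₀) :
    KA_h F₀ N n x = x := by
  classical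
  unfold KA_h
  rw [if_neg (fun hh => hh.2 h'), if_neg (fun hh => by omega)]

private theorem KA_h3 (F₀ : Set (ℕ × ℕ)) (N n x : ℕ) (h : x < N) (h' : (n, x) ∉ F₀) :
    KA_h F₀ N n (x + N) = x := by
  classical
  unfold KA_h
  rw [if_neg (fun hh => by omega), if_pos ⟨by omega, by omega, by rwa [Nat.add_sub_cancel]⟩,
    Nat.add_sub_cancel]

private theorem KA_h4 (F₀ : Set (ℕ × ℕ)) (N n x : ℕ) (h : N ≤ x)
    (h' : ¬ (x - N < N ∧ (n, x - N) ∉ F₀)) : KA_h F₀ N n x = x := by
  classical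
  unfold KA_h
  rw [if_neg (fun hh => by omega), if_neg (fun hh => h' hh.2)]

private theorem KA_inv (F₀ : Set (ℕ × ℕ)) (N n : ℕ) : Function.Involutive (KA_h F₀ N n) := by
  intro x
  by_cases h : x < N
  · by_cases h' : (n, x) ∈ F₀
    · rw [KA_h2 F₀ N n x h h', KA_h2 F₀ N n x h h']
    · rw [KA_h1 F₀ N n x h h', KA_h3 F₀ N n x h h']
  · push Not at h
    by_cases h' : x - N < N ∧ (n, x - N) ∉ F₀
    · obtain ⟨y, rfl⟩ : ∃ y, x = y + N := ⟨x - N, by omega⟩
      rw [Nat.add_sub_cancel] at h'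
      rw [KA_h3 F₀ N n y h'.1 h'.2, KA_h1 F₀ N n y h'.1 h'.2]
    · rw [KA_h4 F₀ N n x h h', KA_h4 F₀ N n x h h']

private theorem KA_move (F₀ F F' : Set (ℕ × ℕ)) (h₀ : F₀.Finite) (h : F.Finite)
    (h' : F'.Finite) : ∃ g : Gp, g ∈ fixS Gp (supC F₀) ∧
      ∀ c ∈ supC F, c ∉ supC F₀ → g • c ∉ supC F' := by
  have hfin : (Prod.snd '' (F₀ ∪ F ∪ F')).Finite := ((h₀.union h).union h').image _
  obtain ⟨B, hB⟩ := hfin.bddAbove
  have hb : ∀ n j, (n, j) ∈ F₀ ∪ F ∪ F' → j < B + 1 := by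
    intro n j hj
    have := hB ⟨(n, j), hj, rfl⟩
    change j ≤ B at this
    omega
  refine ⟨fun n => (KA_inv F₀ (B + 1) n).toPerm, ?_, ?_⟩
  · intro c hc
    rcases c with a | ⟨⟨n, j⟩, k⟩
    · exact smul_inl _ a
    · rw [mem_supC_inr] at hc
      rw [smul_inr, Function.Involutive.coe_toPerm,
        KA_h2 F₀ (B + 1) n j (hb n j (Or.inl (Or.inl hc))) hc]
  · intro c hc hc'
    rcases c with a | ⟨⟨n, j⟩, k⟩
    · exact (hc' (mem_supC_inl _ a)).elim
    · rw [mem_supC_inr] at hc hc'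
      rw [smul_inr, mem_supC_inr, Function.Involutive.coe_toPerm,
        KA_h1 F₀ (B + 1) n j (hb n j (Or.inl (Or.inr hc))) hc']
      intro h1
      have := hb n (j + (B + 1)) (Or.inr h1)
      omega

theorem suppsC : Supps Gp famC := by
  refine ⟨⟨supC ∅, ∅, Set.finite_empty, rfl⟩, ?_, ?_, ?_, ?_⟩
  · intro c
    rcases c with a | ⟨q, k⟩
    · exact ⟨supC ∅, ⟨∅, Set.finite_empty, rfl⟩, mem_supC_inl _ a⟩
    · exact ⟨supC {q}, ⟨{q}, Set.finite_singleton q, rfl⟩, (mem_supC_inr _ _ _).2 rfl⟩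
  · rintro S ⟨F, hF, rfl⟩ T ⟨F', hF', rfl⟩
    exact ⟨F ∪ F', hF.union hF', KA_union F F'⟩
  · rintro S ⟨F, hF, rfl⟩ g
    exact ⟨_, hF.image _, KA_trans F g⟩
  · rintro S₀ ⟨F₀, h₀, rfl⟩ S ⟨F, h, rfl⟩ T ⟨F', h', rfl⟩
    exact KA_move F₀ F F' h₀ h h'

theorem freshC : ∀ S₀ ∈ famC, ∃ c₀ : ℕ → Crd, Function.Injective c₀ ∧ (∀ i, c₀ i ∉ S₀) ∧
    S₀ ∪ Set.range c₀ ∈ famC ∧ ∀ i s, ∃ v, okC (c₀ i) v ∧ decC v = s := by
  rintro S₀ ⟨F₀, h₀, rfl⟩
  obtain ⟨j, hj⟩ : ∃ j, ((0 : ℕ), j) ∉ F₀ := by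
    by_contra hcon
    push Not at hcon
    have hinj : Function.Injective (fun j : ℕ => ((0 : ℕ), j)) := by
      intro a b hab
      exact congrArg Prod.snd hab
    have : (Set.range (fun j : ℕ => ((0 : ℕ), j))).Finite :=
      h₀.subset (by rintro _ ⟨j, rfl⟩; exact hcon j)
    exact Set.infinite_range_of_injective hinj this
  refine ⟨fun k => Sum.inr ((0, j), k), ?_, ?_, ?_, ?_⟩
  · intro a b hab
    exact congrArg Prod.snd (Sum.inr.inj hab)
  · intro i hi
    exact hj ((mem_supC_inr _ _ _).1 hi)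
  · refine ⟨F₀ ∪ {(0, j)}, h₀.union (Set.finite_singleton _), ?_⟩
    ext c
    rcases c with a | ⟨q, k⟩
    · constructor
      · intro _
        exact mem_supC_inl _ a
      · intro _
        exact Or.inl (mem_supC_inl _ a)
    · rw [Set.mem_union, mem_supC_inr, mem_supC_inr, Set.mem_union]
      constructor
      · rintro (h | ⟨i, hi⟩)
        · exact Or.inl h
        · right
          have := congrArg Prod.fst (Sum.inr.inj hi)
          exact this.symm
      · rintro (h | h)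
        · exact Or.inl h
        · right
          have h' : q = (0, j) := h
          exact ⟨k, by rw [h']⟩
  · intro i s
    exact ⟨Sum.inr ⟨0, s⟩, rfl, rfl⟩

end Pool.Agent.LibBc83
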