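import Pool.Agent.LibBc83.KA

/-!
BC83 KB. The truth values `coh` and `hit`.

Plan. The sets in the definitions of `coh` and `hit` are lower sets, so (`mem_coh`, `mem_hit`)
`p ∈ gen S ↔ ∀ q ≤ p, ∃ r ≤ q, r ∈ S`. `coh_total`, `hit_total`: extend a condition at the
coordinate (with an arbitrary allowed value; `K n` is not empty) if it is not defined there;
`coh_disj`, `hit_disj`: two values at the same coordinate are equal. `hit_surj`: for given `a`: a
condition is not defined at some `((n, j), k)`, `k` large; put the value `a` there. `coh_ne`: two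
different Cohen reals are different: for a condition there is `k` such that it is not defined at
`(ξ, k)` and `(η, k)`; put different digits there. `dep_coh`, `dep_hit`, `coh_smul`: immediate.
`realV_yv`: `yv n m l ⊓ yv n m l' = ⊥` for `l ≠ l'` (`hit_disj`, `coh_disj`), and
`⨆ l, yv n m l = ⊤`. `dep_yv`. `codes_yv`: for a fixed `j`, below `hit n 0 j a` the `j`-th real coded
by `yv n` is the Cohen real `⟨n, a⟩`.
-/

namespace Pool.Agent.LibBc83

open Pool.Agent.LibTk83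

private theorem KB_okl (x : Lam × ℕ) (b : Bool) : okC (.inl x) (.inl b) := trivial

private theorem KB_okr (n j k : ℕ) (a : K n) : okC (.inr ((n, j), k)) (.inr ⟨n, a⟩) := rfl

private theorem KB_ext' {p : PC} {c : Crd} {v : Vl} (h : okC c v) (hn : p.f c = none) :
    ∃ q, q ≤ p ∧ q.f c = some v ∧ ∀ d, d ≠ c → q.f d = p.f d := by
  have hc : Cond.Comp p (Cond.single c v h) := by
    apply Cond.comp_of_disj
    intro d hd hd'
    rw [Cond.dom_single, Set.mem_singleton_iff] at hd'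
    rw [hd'] at hd
    exact hd hn
  refine ⟨Cond.union p (Cond.single c v h), Cond.union_le_left _ _,
    Cond.union_le_right hc c v (Cond.single_f_self h), fun d hd => ?_⟩
  have h1 : (Cond.single c v h).f d = none := by
    by_contra h2
    have h3 : d ∈ (Cond.single c v h).dom := h2
    rw [Cond.dom_single, Set.mem_singleton_iff] at h3
    exact hd h3
  rw [Cond.union_f, h1, Option.or_none]

private theorem KB_ext {p : PC} {c : Crd} {v : Vl} (h : okC c v) (hn : p.f c = none) :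
    ∃ q, q ≤ p ∧ q.f c = some v := by
  have hc : Cond.Comp p (Cond.single c v h) := by
    apply Cond.comp_of_disj
    intro d hd hd'
    rw [Cond.dom_single, Set.mem_singleton_iff] at hd'
    rw [hd'] at hd
    exact hd hn
  exact ⟨Cond.union p (Cond.single c v h), Cond.union_le_left _ _,
    Cond.union_le_right hc c v (Cond.single_f_self h)⟩

private theorem KB_gen {c : Crd} {T : Set Vl} (hc : ∃ v, okC c v) {p : PC} :
    p ∈ RO.gen {p : PC | ∃ v ∈ T, p.f c = some v} ↔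
      (∃ v ∈ T, p.f c = some v) ∨ (p.f c = none ∧ ∀ v, okC c v → v ∈ T) := by
  rw [RO.mem_gen]
  constructor
  · intro h
    rcases hp : p.f c with _ | v
    · refine Or.inr ⟨rfl, fun v hv => ?_⟩
      obtain ⟨q, hq, hqv⟩ := KB_ext hv hp
      obtain ⟨r, hr, s, ⟨w, hw, hsw⟩, hrs⟩ := h q hq
      have h1 := hr c v hqv
      have h2 := hrs c w hsw
      rw [h1] at h2
      rw [Option.some.inj h2]
      exact hw
    · obtain ⟨r, hr, s, ⟨w, hw, hsw⟩, hrs⟩ := h p le_rfl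
      have h1 := hr c v hp
      have h2 := hrs c w hsw
      rw [h1] at h2
      exact Or.inl ⟨v, by rw [Option.some.inj h2]; exact hw, rfl⟩
  · rintro (⟨v, hv, hpv⟩ | ⟨hn, h⟩) q hq
    · exact ⟨q, le_rfl, p, ⟨v, hv, hpv⟩, hq⟩
    · rcases hqc : q.f c with _ | v
      · obtain ⟨v, hv⟩ := hc
        obtain ⟨r, hr, hrv⟩ := KB_ext hv hqc
        exact ⟨r, hr, r, ⟨v, h v hv, hrv⟩, le_rfl⟩
      · exact ⟨q, le_rfl, q, ⟨v, h v (q.ok' c v hqc), hqc⟩, le_rfl⟩

theorem K_nonempty (n : ℕ) : Nonempty (K n) := by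
  cases n with
  | zero => exact ⟨([] : List ℕ)⟩
  | succ n => exact ⟨(∅ : Set (K n))⟩

private theorem KB_coh (ξ : Lam) (k l : ℕ) : coh ξ k l =
    RO.gen {p : PC | ∃ v ∈ {v : Vl | ∃ b : Bool, v = .inl b ∧ (if b then 1 else 0) = l},
      p.f (.inl (ξ, k)) = some v} := by
  unfold coh
  congr 1
  ext p
  constructor
  · rintro ⟨b, hb, hl⟩
    exact ⟨_, ⟨b, rfl, hl⟩, hb⟩
  · rintro ⟨_, ⟨b, rfl, hl⟩, hb⟩
    exact ⟨b, hb, hl⟩

private theorem KB_hit (n j k : ℕ) (a : K n) : hit n j k a =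
    RO.gen {p : PC | ∃ v ∈ ({.inr ⟨n, a⟩} : Set Vl), p.f (.inr ((n, j), k)) = some v} := by
  unfold hit
  congr 1
  ext p
  constructor
  · intro h
    exact ⟨_, rfl, h⟩
  · rintro ⟨_, rfl, h⟩
    exact h

private theorem KB_mem_coh {ξ : Lam} {k l : ℕ} {p : PC} :
    p ∈ coh ξ k l ↔ ∃ b : Bool, p.f (.inl (ξ, k)) = some (.inl b) ∧ (if b then 1 else 0) = l := by
  rw [KB_coh, KB_gen ⟨.inl true, KB_okl _ _⟩]
  constructor
  · rintro (⟨_, ⟨b, rfl, hl⟩, hb⟩ | ⟨-, h⟩)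
    · exact ⟨b, hb, hl⟩
    · obtain ⟨b, hb, hl⟩ := h (.inl true) trivial
      obtain ⟨b', hb', hl'⟩ := h (.inl false) trivial
      have e1 : b = true := (Sum.inl.inj hb).symm
      have e2 : b' = false := (Sum.inl.inj hb').symm
      subst e1 e2
      simp at hl hl'
      omega
  · rintro ⟨b, hb, hl⟩
    exact Or.inl ⟨_, ⟨b, rfl, hl⟩, hb⟩

theorem mem_coh_of {ξ : Lam} {k l : ℕ} {p : PC} {b : Bool}
    (h : p.f (.inl (ξ, k)) = some (.inl b)) (hl : (if b then 1 else 0) = l) : p ∈ coh ξ k l :=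
  KB_mem_coh.2 ⟨b, h, hl⟩

theorem mem_hit_of {n j k : ℕ} {a : K n} {p : PC}
    (h : p.f (.inr ((n, j), k)) = some (.inr ⟨n, a⟩)) : p ∈ hit n j k a := by
  rw [KB_hit, KB_gen ⟨.inr ⟨n, a⟩, KB_okr _ _ _ _⟩]
  exact Or.inl ⟨_, rfl, h⟩

private theorem KB_dec_coh (p : PC) (ξ : Lam) (k : ℕ) :
    ∃ q, q ≤ p ∧ ∃ b : Bool, q.f (.inl (ξ, k)) = some (.inl b) := by
  rcases hp : p.f (.inl (ξ, k)) with _ | v
  · obtain ⟨q, hq, hqv⟩ := KB_ext (p := p) (c := .inl (ξ, k)) (v := .inl true) trivial hp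
    exact ⟨q, hq, true, hqv⟩
  · rcases v with b | a
    · exact ⟨p, le_rfl, b, hp⟩
    · exact (p.ok' _ _ hp).elim

private theorem KB_dec_hit (p : PC) (n j k : ℕ) :
    ∃ q, q ≤ p ∧ ∃ a : K n, q.f (.inr ((n, j), k)) = some (.inr ⟨n, a⟩) := by
  rcases hp : p.f (.inr ((n, j), k)) with _ | v
  · obtain ⟨a⟩ := K_nonempty n
    obtain ⟨q, hq, hqv⟩ := KB_ext (p := p) (c := .inr ((n, j), k)) (v := .inr ⟨n, a⟩) rfl hp
    exact ⟨q, hq, a, hqv⟩
  · rcases v with b | ⟨m, a⟩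
    · exact (p.ok' _ _ hp).elim
    · have h : m = n := p.ok' _ _ hp
      subst h
      exact ⟨p, le_rfl, a, hp⟩

private theorem KB_mem_hit {n j k : ℕ} {a : K n} {p : PC} (h : p ∈ hit n j k a) {q : PC}
    (hq : q ≤ p) {b : K n} (hb : q.f (.inr ((n, j), k)) = some (.inr ⟨n, b⟩)) : b = a := by
  have h1 := RO.mem_of_le hq h
  rw [KB_hit, KB_gen ⟨.inr ⟨n, a⟩, KB_okr _ _ _ _⟩] at h1
  rcases h1 with ⟨v, hv, hqv⟩ | ⟨hn, -⟩
  · rw [hb] at hqv
    rw [Set.mem_singleton_iff] at hv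
    rw [hv] at hqv
    have h2 := Sum.inr.inj (Option.some.inj hqv)
    simpa using h2
  · rw [hb] at hn
    cases hn

theorem coh_total (ξ : Lam) (k : ℕ) : ⨆ l, coh ξ k l = ⊤ := by
  rw [RO.eq_top_iff']
  intro p
  obtain ⟨q, hq, b, hb⟩ := KB_dec_coh p ξ k
  exact ⟨q, hq, le_iSup (coh ξ k) _ (mem_coh_of hb rfl)⟩

theorem coh_disj (ξ : Lam) (k l l' : ℕ) (h : l ≠ l') : coh ξ k l ⊓ coh ξ k l' = ⊥ := by
  refine le_bot_iff.1 fun p hp => ?_
  rw [RO.mem_inf, KB_mem_coh, KB_mem_coh] at hp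
  obtain ⟨⟨b, hb, hl⟩, b', hb', hl'⟩ := hp
  rw [hb] at hb'
  have := Sum.inl.inj (Option.some.inj hb')
  subst this
  exact absurd (hl.symm.trans hl') h

theorem hit_total (n j k : ℕ) : ⨆ a, hit n j k a = ⊤ := by
  rw [RO.eq_top_iff']
  intro p
  obtain ⟨q, hq, a, ha⟩ := KB_dec_hit p n j k
  exact ⟨q, hq, le_iSup (hit n j k) a (mem_hit_of ha)⟩

theorem hit_disj (n j k : ℕ) (a b : K n) (h : a ≠ b) : hit n j k a ⊓ hit n j k b = ⊥ := by
  refine le_bot_iff.1 fun p hp => ?_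
  rw [RO.mem_inf] at hp
  obtain ⟨q, hq, c, hc⟩ := KB_dec_hit p n j k
  exact absurd ((KB_mem_hit hp.1 hq hc).symm.trans (KB_mem_hit hp.2 hq hc)) h

theorem hit_surj (n j : ℕ) (a : K n) : ⨆ k, hit n j k a = ⊤ := by
  rw [RO.eq_top_iff']
  intro p
  obtain ⟨k, hk⟩ : ∃ k, p.f (.inr ((n, j), k)) = none := by
    by_contra hcon
    push Not at hcon
    have hinj : Function.Injective (fun k : ℕ => (Sum.inr ((n, j), k) : Crd)) := by
      intro k k' h
      have := Sum.inr.inj h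
      exact (Prod.mk.inj this).2
    exact (Set.infinite_of_injective_forall_mem hinj hcon) p.fin
  obtain ⟨q, hq, hqv⟩ := KB_ext (p := p) (c := .inr ((n, j), k)) (v := .inr ⟨n, a⟩) rfl hk
  exact ⟨q, hq, le_iSup (fun k => hit n j k a) k (mem_hit_of hqv)⟩

/-- Two different Cohen reals are different. -/
theorem coh_ne (ξ η : Lam) (h : ξ ≠ η) :
    ⨅ k, ⨅ l, (coh ξ k l ⇨ coh η k l) ⊓ (coh η k l ⇨ coh ξ k l) = ⊥ := by
  refine le_bot_iff.1 fun p hp => ?_
  obtain ⟨k, hk, hk'⟩ : ∃ k, p.f (.inl (ξ, k)) = none ∧ p.f (.inl (η, k)) = none := by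
    by_contra hcon
    push Not at hcon
    have h1 : ∀ ζ : Lam, {k : ℕ | p.f (.inl (ζ, k)) ≠ none}.Finite := by
      intro ζ
      refine Set.Finite.preimage (f := fun k : ℕ => (Sum.inl (ζ, k) : Crd)) ?_ p.fin
      intro k _ k' _ h
      exact (Prod.mk.inj (Sum.inl.inj h)).2
    have h2 := ((h1 ξ).union (h1 η)).infinite_compl.nonempty
    obtain ⟨k, hk⟩ := h2
    simp only [Set.mem_compl_iff, Set.mem_union, not_or] at hk
    have e1 : p.f (.inl (ξ, k)) = none := by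
      by_contra h3; exact hk.1 h3
    exact hk.2 (hcon k e1)
  obtain ⟨q, hq, hqv, hqd⟩ := KB_ext' (p := p) (c := .inl (ξ, k)) (v := .inl true) (KB_okl _ _) hk
  have hne : (Sum.inl (η, k) : Crd) ≠ Sum.inl (ξ, k) := by
    intro h1
    exact h (Prod.mk.inj (Sum.inl.inj h1)).1.symm
  have hk2 : q.f (.inl (η, k)) = none := by rw [hqd _ hne, hk']
  obtain ⟨r, hr, hrv⟩ := KB_ext (p := q) (c := .inl (η, k)) (v := .inl false) (KB_okl _ _) hk2
  have h1 : r ∈ coh ξ k 1 := mem_coh_of (hr _ _ hqv) rfl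
  have h2 : r ∈ coh η k 0 := mem_coh_of hrv rfl
  have h3 := RO.mem_iInf.1 (RO.mem_iInf.1 hp k) 1
  rw [RO.mem_inf, RO.mem_himp] at h3
  have h4 := h3.1 r (hr.trans hq) h1
  have h5 : r ∈ coh η k 0 ⊓ coh η k 1 := RO.mem_inf.2 ⟨h2, h4⟩
  rw [coh_disj _ _ _ _ (by norm_num)] at h5
  exact absurd h5 RO.not_mem_bot

theorem dep_coh (F : Set (ℕ × ℕ)) (ξ : Lam) (k l : ℕ) : Dep (supC F) (coh ξ k l) := by
  intro p hp
  rw [KB_mem_coh] at hp ⊢
  rw [Cond.res_f_of_mem (mem_supC_inl F (ξ, k))]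
  exact hp

theorem dep_hit (n j k : ℕ) (a : K n) : Dep (supC {(n, j)}) (hit n j k a) := by
  intro p hp
  rw [KB_hit, KB_gen ⟨.inr ⟨n, a⟩, KB_okr _ _ _ _⟩] at hp ⊢
  rw [Cond.res_f_of_mem ((mem_supC_inr {(n, j)} (n, j) k).2 (Set.mem_singleton _))]
  exact hp

theorem coh_smul (g : Gp) (ξ : Lam) (k l : ℕ) : g • coh ξ k l = coh ξ k l := by
  apply RO.ext
  intro p
  rw [mem_smul, KB_mem_coh, KB_mem_coh, smul_f, smul_inl]

theorem dep_yv (n m l : ℕ) : Dep (supC {(n, 0)}) (yv n m l) := by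
  unfold yv
  exact Dep.iSup fun a => (dep_hit n 0 _ a).inf (dep_coh _ _ _ _)

private theorem KB_yv_disj (n m l l' : ℕ) (h : l ≠ l') : yv n m l ⊓ yv n m l' = ⊥ := by
  refine le_bot_iff.1 fun p hp => ?_
  rw [RO.mem_inf] at hp
  unfold yv at hp
  obtain ⟨q, hq, a, ha⟩ := RO.mem_iSup.1 hp.1 p le_rfl
  obtain ⟨r, hr, b, hb⟩ := RO.mem_iSup.1 hp.2 q hq
  rw [RO.mem_inf] at ha hb
  by_cases hab : a = b
  · subst hab
    have h1 : r ∈ coh ⟨n, a⟩ m.unpair.2 l ⊓ coh ⟨n, a⟩ m.unpair.2 l' :=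
      RO.mem_inf.2 ⟨RO.mem_of_le hr ha.2, hb.2⟩
    rw [coh_disj _ _ _ _ h] at h1
    exact absurd h1 RO.not_mem_bot
  · have h1 : r ∈ hit n 0 m.unpair.1 a ⊓ hit n 0 m.unpair.1 b :=
      RO.mem_inf.2 ⟨RO.mem_of_le hr ha.1, hb.1⟩
    rw [hit_disj _ _ _ _ _ hab] at h1
    exact absurd h1 RO.not_mem_bot

theorem realV_yv (n : ℕ) : realV (yv n) = ⊤ := by
  unfold realV
  rw [iInf_eq_top]
  intro m
  rw [inf_eq_top_iff]
  constructor
  · rw [RO.eq_top_iff']
    intro p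
    obtain ⟨q, hq, a, ha⟩ := KB_dec_hit p n 0 m.unpair.1
    obtain ⟨r, hr, b, hb⟩ := KB_dec_coh q ⟨n, a⟩ m.unpair.2
    refine ⟨r, hr.trans hq, le_iSup (yv n m) (if b then 1 else 0) ?_⟩
    exact le_iSup (fun a : K n => hit n 0 m.unpair.1 a ⊓ coh ⟨n, a⟩ m.unpair.2 (if b then 1 else 0)) a
      (RO.mem_inf.2 ⟨RO.mem_of_le hr (mem_hit_of ha), mem_coh_of hb rfl⟩)
  · simp only [iInf_eq_top]
    intro l l' h
    rw [KB_yv_disj n m l l' h, compl_bot]

theorem hit_le_codes (n j : ℕ) (a : K n) : hit n 0 j a ≤ codes (yv n) j ⟨n, a⟩ := by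
  unfold codes
  refine le_iInf fun k => le_iInf fun l => fun p hp => ?_
  rw [RO.mem_inf, RO.mem_himp, RO.mem_himp]
  constructor
  · intro q hq hqy
    refine RO.mem_of_dense fun r hr => ?_
    unfold yv at hqy
    obtain ⟨s, hs, b, hb⟩ := RO.mem_iSup.1 hqy r hr
    rw [Nat.unpair_pair] at hb
    rw [RO.mem_inf] at hb
    by_cases hab : a = b
    · subst hab
      exact ⟨s, hs, hb.2⟩
    · have h1 : s ∈ hit n 0 j a ⊓ hit n 0 j b :=
        RO.mem_inf.2 ⟨RO.mem_of_le (hs.trans (hr.trans hq)) hp, hb.1⟩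
      rw [hit_disj _ _ _ _ _ hab] at h1
      exact absurd h1 RO.not_mem_bot
  · intro q hq hqc
    unfold yv
    refine le_iSup (fun b : K n => hit n 0 (Nat.pair j k).unpair.1 b ⊓
      coh ⟨n, b⟩ (Nat.pair j k).unpair.2 l) a ?_
    rw [Nat.unpair_pair]
    exact RO.mem_inf.2 ⟨RO.mem_of_le hq hp, hqc⟩

/-- The values of a real, shifted by the group. -/
theorem codes_smul (g : Gp) (x : ℕ → ℕ → RO PC) (i : ℕ) (ξ : Lam) :
    codes (fun n m => g • x n m) i ξ = g • codes x i ξ := by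
  unfold codes
  rw [smul_iInf']
  refine iInf_congr fun k => ?_
  rw [smul_iInf']
  refine iInf_congr fun l => ?_
  rw [smul_inf', smul_himp', smul_himp', coh_smul]

theorem sv_smul (g : Gp) (n : ℕ) (x : ℕ → ℕ → RO PC) :
    sv n (fun n m => g • x n m) = g • sv n x := by
  unfold sv
  rw [smul_iInf']
  refine iInf_congr fun a => ?_
  rw [smul_iSup']
  exact iSup_congr fun i => codes_smul g x i _

end Pool.Agent.LibBc83
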