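import Pool.Agent.LibBc83.KB

/-!
The name of the sequence of the first model.

Plan. `exists_AN`: `exists_rset` with
`φ u = sv n (X.dig u)`, for the support `fixS Gp S` with any `S ∈ famC`; it respects equality
(`ext_dig`) and is invariant under the whole group (`dig_act`, `sv_smul`); the support of the name is
all of `Gp` by `supp_of_mem` (with `vReal_act`).
`exists_sN`: `exists_seqN`.
-/

namespace Pool.Agent.LibBc83

open Pool.Agent.LibTk83

variable (X : SM (RO PC) Gp (famOf Gp famC))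

include X in
private theorem KC_ne : ∃ S : Set Gp, S ∈ famOf Gp famC := X.fam.ne

private theorem KC_ext (n : ℕ) : X.Ext (fun u => sv n (X.dig u)) := by
  unfold sv codes
  refine SM.Ext.iInf fun a => SM.Ext.iSup fun i => SM.Ext.iInf fun k => SM.Ext.iInf fun l => ?_
  exact SM.Ext.inf (SM.Ext.himp (X.ext_dig _ _) (SM.Ext.const _))
    (SM.Ext.himp (SM.Ext.const _) (X.ext_dig _ _))

private theorem KC_inv (n : ℕ) (S : Set Gp) : X.Inv S (fun u => sv n (X.dig u)) := by
  intro g _ u
  change sv n (X.dig (X.act g u)) = g • sv n (X.dig u)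
  rw [← sv_smul]
  congr 1
  funext i m
  exact X.dig_act g u i m

theorem exists_AN (n : ℕ) : ∃ A : X.N, X.Supp Set.univ A ∧
    ∀ u, X.mem u A = X.vReal u ⊓ sv n (X.dig u) := by
  obtain ⟨S, hS⟩ := KC_ne X
  obtain ⟨A, -, hA⟩ := SM.exists_rset (X := X) (KC_ext X n) hS (KC_inv X n S)
  refine ⟨A, SM.supp_of_mem hA ?_, hA⟩
  exact SM.Inv.inf (fun g _ u => SM.vReal_act g u) (KC_inv X n Set.univ)

/-- The name of the set of the reals which code all Cohen reals with index in `K n`. -/
noncomputable def AN (n : ℕ) : X.N := (exists_AN X n).choose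

theorem supp_AN (n : ℕ) (S : Set Gp) : X.Supp S (AN X n) :=
  SM.Supp.mono (Set.subset_univ S) (exists_AN X n).choose_spec.1

theorem mem_AN (n : ℕ) (u : X.N) : X.mem u (AN X n) = X.vReal u ⊓ sv n (X.dig u) :=
  (exists_AN X n).choose_spec.2 u

theorem exists_sN : ∃ s : X.N, X.vSeq s = ⊤ ∧ ∀ n y, X.rl s (X.nat n) y = X.eq y (AN X n) := by
  obtain ⟨S, hS⟩ := KC_ne X
  obtain ⟨f, -, hf, hf'⟩ := SM.exists_seqN X (AN X) hS (fun n => supp_AN X n S)
  exact ⟨f, hf, hf'⟩

end Pool.Agent.LibBc83
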