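import Pool.Agent.LibBc83.L1

/-!
BC83 L2. The branch `xb` is a partial function, and its initial segments are given by the nodes.

Plan. `xb_disj`: distribute (`iSup_inf_iSup`, `iSup_inf_eq`, `inf_iSup_eq`); for the nodes `t` at
`i` and `t'` at `i'` with `i ≤ i'` (the other case is symmetric), `nd i t ⊓ nd i' t'` is `⊥` or
`t <+: t'`, and then `t[n]? = some m`, `t'[n]? = some m'` imply `m = m'` (a prefix has the same
values where it is defined: `List.IsPrefix.getElem?` or `List.prefix_iff_getElem?`). `nd_le_str`: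
if `s <+: t` and `s[l]? = some m` then `t[l]? = some m`, so `nd i t ≤ xb l m`. `nd_le_xb` is
immediate from the definition. `realV_of`: immediate.
-/

namespace Pool.Agent.LibBc83

variable {B : Type} [CompleteBooleanAlgebra B] {T : List ℕ → B} {c : ℕ → List ℕ → B}

private theorem L2_get {s t : List ℕ} (h : s <+: t) {n m : ℕ} (hs : s[n]? = some m) : t[n]? = some m := by
  obtain ⟨r, rfl⟩ := h
  have hn : n < s.length := (List.getElem?_eq_some_iff.1 hs).1
  rw [List.getElem?_append_left hn, hs]

private theorem L2_snoc (x : ℕ → ℕ → B) (s : List ℕ) (m : ℕ) :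
    str x s ⊓ x s.length m ≤ str x (s ++ [m]) := by
  refine le_iInf fun l => le_iInf fun m' => le_iInf fun h => ?_
  rcases lt_or_ge l s.length with hl | hl
  · rw [List.getElem?_append_left hl] at h
    exact inf_le_left.trans ((iInf_le _ l).trans ((iInf_le _ m').trans (iInf_le _ h)))
  · rw [List.getElem?_append_right hl] at h
    obtain ⟨e, he⟩ := Nat.exists_eq_add_of_le hl
    rw [he, Nat.add_sub_cancel_left] at h
    rcases e with _ | e
    · have hm : m = m' := Option.some.inj h
      rw [he, Nat.add_zero, ← hm]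
      exact inf_le_right
    · exact absurd h (by simp)

theorem xb_disj (hc1 : ∀ i, ⨆ w, c i w = ⊤) (hc2 : ∀ i w w', w ≠ w' → c i w ⊓ c i w' = ⊥)
    (n m m' : ℕ) (h : m ≠ m') : xb T c n m ⊓ xb T c n m' = ⊥ := by
  rw [← disjoint_iff]
  unfold xb
  simp only [iSup_disjoint_iff, disjoint_iSup_iff]
  intro i' t' ht' i t ht
  rw [disjoint_iff]
  rcases le_total i i' with hi | hi
  · by_cases hp : t <+: t'
    · exact absurd (Option.some.inj ((L2_get hp ht).symm.trans ht')) h
    · exact nd_prefix hc1 hc2 i i' hi t t' hp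
  · rw [inf_comm]
    by_cases hp : t' <+: t
    · exact absurd (Option.some.inj (ht.symm.trans (L2_get hp ht'))) h
    · exact nd_prefix hc1 hc2 i' i hi t' t hp

theorem nd_le_xb (i n m : ℕ) (t : List ℕ) (h : t[n]? = some m) : nd T c i t ≤ xb T c n m :=
  le_iSup_of_le i (le_iSup_of_le t (le_iSup_of_le h le_rfl))

theorem nd_le_str (i : ℕ) (s t : List ℕ) (h : s <+: t) : nd T c i t ≤ str (xb T c) s :=
  le_iInf fun l => le_iInf fun m => le_iInf fun hl => nd_le_xb i l m t (L2_get h hl)

/-- The truth value of `xb` being a total function, from below. -/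
theorem realV_of (hc1 : ∀ i, ⨆ w, c i w = ⊤) (hc2 : ∀ i w w', w ≠ w' → c i w ⊓ c i w' = ⊥)
    (a : B) (h : ∀ n, a ≤ ⨆ i, ⨆ t : List ℕ, ⨆ (_ : n < t.length), nd T c i t) :
    a ≤ realV (xb T c) := by
  refine le_iInf fun n => le_inf ?_ ?_
  · refine (h n).trans (iSup_le fun i => iSup_le fun t => iSup_le fun ht => ?_)
    exact le_iSup_of_le t[n] (nd_le_xb i n _ t (List.getElem?_eq_getElem ht))
  · refine le_iInf fun m => le_iInf fun m' => le_iInf fun hm => ?_
    rw [xb_disj hc1 hc2 n m m' hm, compl_bot]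
    exact le_top

/-- Two strings which are initial segments of the same function are comparable. -/
theorem str_prefix (x : ℕ → ℕ → B) (s t : List ℕ) (h : s.length ≤ t.length) (hst : ¬ s <+: t) :
    realV x ⊓ str x s ⊓ str x t = ⊥ := by
  rw [List.prefix_iff_getElem?] at hst
  push Not at hst
  obtain ⟨l, hl, hne⟩ := hst
  have hlt : l < t.length := hl.trans_le h
  have hne' : s[l] ≠ t[l] := fun he => hne (by rw [List.getElem?_eq_getElem hlt, he])
  have h1 : realV x ≤ (x l s[l] ⊓ x l t[l])ᶜ :=
    (iInf_le _ l).trans (inf_le_right.trans ((iInf_le _ s[l]).trans ((iInf_le _ t[l]).trans (iInf_le _ hne'))))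
  have h2 : str x s ≤ x l s[l] :=
    (iInf_le _ l).trans ((iInf_le _ s[l]).trans (iInf_le _ (List.getElem?_eq_getElem hl)))
  have h3 : str x t ≤ x l t[l] :=
    (iInf_le _ l).trans ((iInf_le _ t[l]).trans (iInf_le _ (List.getElem?_eq_getElem hlt)))
  rw [inf_assoc]
  exact eq_bot_iff.2 ((inf_le_inf h1 (inf_le_inf h2 h3)).trans (le_of_eq (compl_inf_self _)))

/-- A function has initial segments of all lengths. -/
theorem str_total (x : ℕ → ℕ → B) (s : List ℕ) (k : ℕ) :
    realV x ⊓ str x s ≤ ⨆ t : List ℕ, ⨆ (_ : s <+: t ∧ k ≤ t.length), str x t := by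
  have main : ∀ (d : ℕ) (s : List ℕ), k ≤ s.length + d →
      realV x ⊓ str x s ≤ ⨆ t : List ℕ, ⨆ (_ : s <+: t ∧ k ≤ t.length), str x t := by
    intro d
    induction d with
    | zero =>
      intro s hs
      exact inf_le_right.trans (le_iSup_of_le s (le_iSup_of_le ⟨List.prefix_rfl, hs⟩ le_rfl))
    | succ d ih =>
      intro s hs
      have h1 : realV x ≤ ⨆ m, x s.length m := (iInf_le _ s.length).trans inf_le_left
      have h2 : realV x ⊓ str x s ≤ ⨆ m, realV x ⊓ str x (s ++ [m]) := by
        calc realV x ⊓ str x s ≤ (realV x ⊓ str x s) ⊓ ⨆ m, x s.length m :=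
              le_inf le_rfl (inf_le_left.trans h1)
          _ = ⨆ m, (realV x ⊓ str x s) ⊓ x s.length m := inf_iSup_eq _ _
          _ ≤ ⨆ m, realV x ⊓ str x (s ++ [m]) := iSup_mono fun m => by
              rw [inf_assoc]
              exact inf_le_inf_left _ (L2_snoc x s m)
      refine h2.trans (iSup_le fun m => (ih (s ++ [m]) ?_).trans ?_)
      · rw [List.length_append, List.length_singleton]
        omega
      · refine iSup_le fun t => iSup_le fun ht => le_iSup_of_le t (le_iSup_of_le ⟨?_, ht.2⟩ le_rfl)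
        exact (List.prefix_append s [m]).trans ht.1
  exact main k s (Nat.le_add_left k s.length)

end Pool.Agent.LibBc83
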