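import Pool.Agent.LibBc83.RD
import Pool.Agent.LibBc83.L2

/-!
BC83 RE. Open sets and initial segments.

`nbh h j s` is the truth value of: all reals which begin with `s` are in the `j`-th term of `h`.

Plan. `agr_of_str`: the value of `.agr` unfolds to
`⨅ i, mem i (nat k) ⇨ ⨅ m, (rl x i m ⇨ rl y i m) ⊓ (rl y i m ⇨ rl x i m)`, `k = s.length`; by
`iInf_nat` take `i = nat l`, `l < k`, `s[l]? = some a`: below `vReal x ⊓ dig x l a`,
`rl x (nat l) m` is at most `eq m (nat a)` (`vReal_rl` and `vReal_le`: `dig x l a' ⊓ dig x l a = ⊥`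
for `a ≠ a'`), and `eq m (nat a) ⊓ dig y l a ≤ rl y (nat l) m`.
`open_str`: unfold `vOpen`: for `y ∈ U` there is `n ∈ ω`, that is `n = nat k`, such that all reals
`y'` with `agr n y y'` are in `U`; `vReal y ≤ ⨆ s, ⨆ (_ : k ≤ s.length), str (dig y) s` (`vReal_le`,
`str_total` with `s = []`); replace such `s` by its prefix of length `k` (or prove the agreement
lemma with `k ≤ s.length`).
`inh_nbh`: for each `U`: `vSeq h ⊓ rl h (nat j) U ⊓ (vReal y' ⊓ str (dig y') s ⇨ mem y' U) ≤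
(vReal y' ⊓ str (dig y') s ⇨ inh h j y')`. `nbh_mono`: `str x t ≤ str x s`. `gd_mem'`:
`vGdC_mem`, `vSeq_ex`, `inh_nbh`. `gd_mem`: `nbh_inh`, then by `vSeq_uniq` (all terms at `j` are
equal) `vSeq h ⊓ inh h j x ≤ ⨅ U, rl h (nat j) U ⇨ mem x U`, and `vGdC_of`.
`nbh_act`: reindex the infimum over `y` (the action is surjective), `vReal_act`, `dig_act`;
`inh_act` in the same way.
-/

namespace Pool.Agent.LibBc83

namespace SM

variable {B : Type} [CompleteBooleanAlgebra B] {G : Type} [Group G] [MulAction G B]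
  [OrdAct G B] {Fam : Set (Set G)} (X : SM B G Fam)

/-- The truth value of: `x` is in the `j`-th term of `h`. -/
noncomputable def inh (h : X.N) (j : ℕ) (x : X.N) : B := ⨆ U, X.rl h (X.nat j) U ⊓ X.mem x U

/-- The truth value of: the reals which begin with `s` are in the `j`-th term of `h`. -/
noncomputable def nbh (h : X.N) (j : ℕ) (s : List ℕ) : B :=
  ⨅ y, X.vReal y ⊓ str (X.dig y) s ⇨ X.inh h j y

variable {X}

private theorem RE_str_mono (x : ℕ → ℕ → B) {s t : List ℕ} (h : s <+: t) : str x t ≤ str x s := by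
  refine le_iInf fun l => le_iInf fun m => le_iInf fun hl => ?_
  have hl' : t[l]? = some m := by
    obtain ⟨r, rfl⟩ := h
    have hn : l < s.length := (List.getElem?_eq_some_iff.1 hl).1
    rw [List.getElem?_append_left hn, hl]
  exact (iInf_le _ l).trans ((iInf_le _ m).trans (iInf_le _ hl'))

private theorem RE_str_le (x : ℕ → ℕ → B) (s : List ℕ) (l : ℕ) (h : l < s.length) :
    str x s ≤ x l s[l] :=
  (iInf_le _ l).trans ((iInf_le _ s[l]).trans (iInf_le _ (List.getElem?_eq_getElem h)))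

private theorem RE_str_act (g : G) (y : X.N) (s : List ℕ) :
    str (X.dig (X.act g y)) s = g • str (X.dig y) s := by
  unfold str
  rw [smul_iInf']
  refine iInf_congr fun l => ?_
  rw [smul_iInf']
  refine iInf_congr fun m => ?_
  rw [smul_iInf']
  refine iInf_congr fun _ => ?_
  exact X.dig_act g y l m

/-- agreement below `n` -/
private noncomputable def RE_ag (n x y : X.N) : B :=
  ⨅ i, X.mem i n ⇨ ⨅ m, (X.rl x i m ⇨ X.rl y i m) ⊓ (X.rl y i m ⇨ X.rl x i m)

private theorem RE_open (U : X.N) : X.vOpen U = (⨅ x, X.mem x U ⇨ X.vReal x) ⊓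
    ⨅ x, X.mem x U ⇨ ⨆ n, X.mem n X.om ⊓ ⨅ y, X.vReal y ⇨ (RE_ag n x y ⇨ X.mem y U) := by
  have hr : ∀ (v : ℕ → X.N) (w x : ℕ), v w = X.om →
      ev X.mem X.eq (.real w x) v = X.vReal (v x) := fun v w x h => val_real v w x h
  have hl : ∀ (v : ℕ → X.N) (f x y : ℕ),
      ev X.mem X.eq (.rel f x y) v = X.rl (v f) (v x) (v y) := fun v f x y => val_rel v f x y
  have h2 : ∀ x : X.N, ev X.mem X.eq (.real 2 0) (cons x (cons U fun _ => X.om)) = X.vReal x :=
    fun x => hr _ 2 0 rfl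
  have h3 : ∀ x n y : X.N, ev X.mem X.eq (.real 4 0)
      (cons y (cons n (cons x (cons U fun _ => X.om)))) = X.vReal y :=
    fun x n y => hr _ 4 0 rfl
  have h4 : ∀ x n y : X.N, ev X.mem X.eq (.agr 1 2 0)
      (cons y (cons n (cons x (cons U fun _ => X.om)))) = RE_ag n x y := by
    intro x n y
    simp only [Fm.agr, ev_all, ev_imp, ev_iff, ev_mem, hl]
    rfl
  unfold vOpen SM.val Fm.opn
  simp only [ev_and, ev_all, ev_imp, ev_ex, ev_mem]
  refine congrArg₂ (fun a c : B => a ⊓ c) ?_ ?_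
  · refine iInf_congr fun x => ?_
    exact congrArg (fun a => X.mem x U ⇨ a) (h2 x)
  · refine iInf_congr fun x => ?_
    refine congrArg (fun a => X.mem x U ⇨ a) ?_
    refine iSup_congr fun n => ?_
    refine congrArg (fun a => X.mem n X.om ⊓ a) ?_
    refine iInf_congr fun y => ?_
    exact congrArg₂ (fun a c => a ⇨ (c ⇨ X.mem y U)) (h3 x n y) (h4 x n y)

private theorem RE_agr1 (x y m : X.N) (l a : ℕ) :
    X.vReal x ⊓ X.dig x l a ⊓ X.dig y l a ⊓ X.rl x (X.nat l) m ≤ X.rl y (X.nat l) m := by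
  have h1 : X.vReal x ⊓ X.rl x (X.nat l) m ≤ ⨆ a', X.eq m (X.nat a') := vReal_rl x m l
  have h2 : X.vReal x ⊓ X.dig x l a ⊓ X.dig y l a ⊓ X.rl x (X.nat l) m ≤
      (X.vReal x ⊓ X.dig x l a ⊓ X.dig y l a ⊓ X.rl x (X.nat l) m) ⊓
        ⨆ a', X.eq m (X.nat a') :=
    le_inf le_rfl ((le_inf (inf_le_left.trans (inf_le_left.trans inf_le_left))
      inf_le_right).trans h1)
  refine h2.trans ?_
  rw [inf_iSup_eq]
  refine iSup_le fun a' => ?_
  by_cases ha : a' = a
  · subst ha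
    have h3 : X.eq (X.nat a') m ⊓ X.rl y (X.nat l) (X.nat a') ≤ X.rl y (X.nat l) m :=
      X.ext_rl_right y (X.nat l) (X.nat a') m
    refine le_trans ?_ h3
    rw [X.eqax.symm (X.nat a') m]
    exact le_inf inf_le_right (inf_le_left.trans (inf_le_left.trans inf_le_right))
  · have h3 : X.eq m (X.nat a') ⊓ X.rl x (X.nat l) m ≤ X.rl x (X.nat l) (X.nat a') :=
      X.ext_rl_right x (X.nat l) m (X.nat a')
    have h4 : X.vReal x ≤ (X.dig x l a ⊓ X.dig x l a')ᶜ :=
      (vReal_le x).trans ((iInf_le _ l).trans (inf_le_right.trans ((iInf_le _ a).trans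
        ((iInf_le _ a').trans (iInf_le _ (fun h => ha h.symm))))))
    have h5 : X.vReal x ⊓ X.dig x l a ⊓ X.dig y l a ⊓ X.rl x (X.nat l) m ⊓ X.eq m (X.nat a') ≤
        (X.dig x l a ⊓ X.dig x l a')ᶜ ⊓ (X.dig x l a ⊓ X.dig x l a') := by
      refine le_inf ?_ (le_inf ?_ ?_)
      · exact (inf_le_left.trans (inf_le_left.trans (inf_le_left.trans inf_le_left))).trans h4
      · exact inf_le_left.trans (inf_le_left.trans (inf_le_left.trans inf_le_right))
      · exact (le_inf inf_le_right (inf_le_left.trans inf_le_right)).trans h3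
    refine h5.trans ?_
    rw [compl_inf_self]
    exact bot_le

private theorem RE_agr (x y : X.N) (s : List ℕ) (k : ℕ) (hk : k ≤ s.length) :
    X.vReal x ⊓ str (X.dig x) s ⊓ (X.vReal y ⊓ str (X.dig y) s) ≤ RE_ag (X.nat k) x y := by
  unfold RE_ag
  have hE : X.Ext (fun i => ⨅ m, (X.rl x i m ⇨ X.rl y i m) ⊓ (X.rl y i m ⇨ X.rl x i m)) :=
    Ext.iInf fun m => Ext.inf (Ext.himp (X.ext_rl_mid x m) (X.ext_rl_mid y m))
      (Ext.himp (X.ext_rl_mid y m) (X.ext_rl_mid x m))
  rw [iInf_nat hE k]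
  refine le_iInf fun l => le_iInf fun hl => le_iInf fun m => ?_
  have hls : l < s.length := hl.trans_le hk
  have hx : str (X.dig x) s ≤ X.dig x l s[l] := RE_str_le _ s l hls
  have hy : str (X.dig y) s ≤ X.dig y l s[l] := RE_str_le _ s l hls
  refine le_inf ?_ ?_
  · rw [le_himp_iff]
    refine le_trans ?_ (RE_agr1 x y m l s[l])
    refine inf_le_inf_right _ (le_inf (le_inf ?_ ?_) ?_)
    · exact inf_le_left.trans inf_le_left
    · exact (inf_le_left.trans inf_le_right).trans hx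
    · exact (inf_le_right.trans inf_le_right).trans hy
  · rw [le_himp_iff]
    refine le_trans ?_ (RE_agr1 y x m l s[l])
    refine inf_le_inf_right _ (le_inf (le_inf ?_ ?_) ?_)
    · exact inf_le_right.trans inf_le_left
    · exact (inf_le_right.trans inf_le_right).trans hy
    · exact (inf_le_left.trans inf_le_right).trans hx

private theorem RE_str_nil (x : ℕ → ℕ → B) : str x [] = ⊤ := by
  rw [eq_top_iff]
  exact le_iInf fun l => le_iInf fun m => le_iInf fun h => absurd h (by simp)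

private theorem RE_nbh (h U : X.N) (j : ℕ) (s : List ℕ) :
    X.rl h (X.nat j) U ⊓ (⨅ y', X.vReal y' ⊓ str (X.dig y') s ⇨ X.mem y' U) ≤ X.nbh h j s := by
  refine le_iInf fun y => ?_
  rw [le_himp_iff]
  refine le_iSup_of_le U (le_inf (inf_le_left.trans inf_le_left) ?_)
  refine (inf_le_inf_right _ (inf_le_right.trans (iInf_le _ y))).trans himp_inf_le

theorem ext_inh (h : X.N) (j : ℕ) : X.Ext (X.inh h j) := by
  unfold Ext inh
  exact Ext.iSup fun U => Ext.inf (Ext.const _) (Ext.mem_left U)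

theorem inh_act (g : G) (h x : X.N) (j : ℕ) : X.inh (X.act g h) j (X.act g x) = g • X.inh h j x := by
  unfold inh
  rw [smul_iSup', ← (act_surj (X := X) g).iSup_comp]
  refine iSup_congr fun U => ?_
  rw [smul_inf', X.mem_act, ← X.rl_act]
  congr 1
  exact ((X.ext_rl_mid (X.act g h) (X.act g U)).congr
    (X.supp_nat Set.univ j g (Set.mem_univ g))).symm

theorem nbh_act (g : G) (h : X.N) (j : ℕ) (s : List ℕ) :
    X.nbh (X.act g h) j s = g • X.nbh h j s := by
  unfold nbh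
  rw [smul_iInf', ← (act_surj (X := X) g).iInf_comp]
  refine iInf_congr fun y => ?_
  rw [smul_himp', smul_inf', vReal_act, RE_str_act, inh_act]

theorem nbh_supp {S : Set G} {h : X.N} (hh : X.Supp S h) {g : G} (hg : g ∈ S) (j : ℕ)
    (s : List ℕ) : g • X.nbh h j s = X.nbh h j s := by
  have hE : X.Ext (fun h => X.nbh h j s) := by
    unfold nbh inh
    exact Ext.iInf fun y => Ext.himp (Ext.const _)
      (Ext.iSup fun U => Ext.inf (X.ext_rl_left (X.nat j) U) (Ext.const _))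
  rw [← nbh_act]
  exact hE.congr (hh g hg)

theorem nbh_mono (h : X.N) (j : ℕ) {s t : List ℕ} (hst : s <+: t) :
    X.nbh h j s ≤ X.nbh h j t := by
  unfold nbh
  exact iInf_mono fun y => himp_le_himp_right (inf_le_inf_left _ (RE_str_mono _ hst))

theorem open_str (U y : X.N) : X.vOpen U ⊓ X.mem y U ≤ ⨆ s : List ℕ,
    str (X.dig y) s ⊓ ⨅ y', X.vReal y' ⊓ str (X.dig y') s ⇨ X.mem y' U := by
  rw [RE_open]
  have h1 : (⨅ x, X.mem x U ⇨ X.vReal x) ⊓ (⨅ x, X.mem x U ⇨ ⨆ n, X.mem n X.om ⊓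
      ⨅ y, X.vReal y ⇨ (RE_ag n x y ⇨ X.mem y U)) ⊓ X.mem y U ≤
      X.vReal y ⊓ ⨆ n, X.mem n X.om ⊓ ⨅ y', X.vReal y' ⇨ (RE_ag n y y' ⇨ X.mem y' U) := by
    refine le_inf ?_ ?_
    · exact (inf_le_inf_right _ (inf_le_left.trans (iInf_le _ y))).trans himp_inf_le
    · exact (inf_le_inf_right _ (inf_le_right.trans (iInf_le _ y))).trans himp_inf_le
  refine h1.trans ?_
  have hE : X.Ext (fun n => ⨅ y', X.vReal y' ⇨ (RE_ag n y y' ⇨ X.mem y' U)) := by
    unfold RE_ag
    exact Ext.iInf fun y' => Ext.himp (Ext.const _) (Ext.himp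
      (Ext.iInf fun i => Ext.himp (Ext.mem_right i) (Ext.const _)) (Ext.const _))
  rw [iSup_om hE, inf_iSup_eq]
  refine iSup_le fun k => ?_
  have h2 : X.vReal y ≤ ⨆ t : List ℕ, ⨆ (_ : [] <+: t ∧ k ≤ t.length), str (X.dig y) t := by
    have h3 := str_total (X.dig y) [] k
    rw [RE_str_nil, inf_top_eq] at h3
    exact (vReal_le y).trans h3
  have h4 : X.vReal y ⊓ (⨅ y', X.vReal y' ⇨ (RE_ag (X.nat k) y y' ⇨ X.mem y' U)) ≤
      (X.vReal y ⊓ (⨅ y', X.vReal y' ⇨ (RE_ag (X.nat k) y y' ⇨ X.mem y' U))) ⊓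
      ⨆ t : List ℕ, ⨆ (_ : [] <+: t ∧ k ≤ t.length), str (X.dig y) t :=
    le_inf le_rfl (inf_le_left.trans h2)
  refine h4.trans ?_
  rw [inf_iSup_eq]
  refine iSup_le fun t => ?_
  rw [inf_iSup_eq]
  refine iSup_le fun ht => ?_
  refine le_iSup_of_le t (le_inf inf_le_right ?_)
  refine le_iInf fun y' => ?_
  rw [le_himp_iff]
  have h5 := RE_agr y y' t k ht.2
  have h6 : (⨅ y', X.vReal y' ⇨ (RE_ag (X.nat k) y y' ⇨ X.mem y' U)) ⊓ X.vReal y' ≤
      RE_ag (X.nat k) y y' ⇨ X.mem y' U :=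
    (inf_le_inf_right _ (iInf_le _ y')).trans himp_inf_le
  calc X.vReal y ⊓ (⨅ y', X.vReal y' ⇨ (RE_ag (X.nat k) y y' ⇨ X.mem y' U)) ⊓
        str (X.dig y) t ⊓ (X.vReal y' ⊓ str (X.dig y') t) ≤
        (RE_ag (X.nat k) y y' ⇨ X.mem y' U) ⊓ RE_ag (X.nat k) y y' := by
        refine le_inf ?_ ?_
        · refine le_trans (le_inf ?_ ?_) h6
          · exact inf_le_left.trans (inf_le_left.trans inf_le_right)
          · exact inf_le_right.trans inf_le_left
        · refine le_trans (le_inf (le_inf ?_ ?_) inf_le_right) h5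
          · exact inf_le_left.trans (inf_le_left.trans inf_le_left)
          · exact inf_le_left.trans inf_le_right
    _ ≤ X.mem y' U := himp_inf_le

theorem gd_mem' (h C x : X.N) : X.vSeq h ⊓ X.vGdC h C ⊓ X.mem x C ≤
    X.vReal x ⊓ ⨅ j, ⨆ s, str (X.dig x) s ⊓ X.nbh h j s := by
  have h1 := vGdC_mem h C x
  refine le_inf ?_ (le_iInf fun j => ?_)
  · refine le_trans ?_ (h1.trans inf_le_left)
    exact inf_le_inf_right _ inf_le_right
  · have h2 : X.vSeq h ⊓ X.vGdC h C ⊓ X.mem x C ≤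
        (X.vGdC h C ⊓ ⨅ U, X.rl h (X.nat j) U ⇨ X.mem x U) ⊓ ⨆ U, X.rl h (X.nat j) U := by
      refine le_inf (le_inf (inf_le_left.trans inf_le_right) ?_) ?_
      · refine le_trans ?_ (h1.trans (inf_le_right.trans (iInf_le _ j)))
        exact inf_le_inf_right _ inf_le_right
      · exact (inf_le_left.trans inf_le_left).trans (vSeq_ex h j)
    refine h2.trans ?_
    rw [inf_iSup_eq]
    refine iSup_le fun U => ?_
    have h3 : X.vGdC h C ⊓ (⨅ U, X.rl h (X.nat j) U ⇨ X.mem x U) ⊓ X.rl h (X.nat j) U ≤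
        X.mem x U :=
      (inf_le_inf_right _ (inf_le_right.trans (iInf_le _ U))).trans himp_inf_le
    have h4 : X.vGdC h C ⊓ (⨅ U, X.rl h (X.nat j) U ⇨ X.mem x U) ⊓ X.rl h (X.nat j) U ≤
        X.vOpen U :=
      (inf_le_inf_right _ inf_le_left).trans (vGdC_open h C U j)
    calc X.vGdC h C ⊓ (⨅ U, X.rl h (X.nat j) U ⇨ X.mem x U) ⊓ X.rl h (X.nat j) U ≤
          X.rl h (X.nat j) U ⊓ ⨆ s : List ℕ, str (X.dig x) s ⊓
            ⨅ y', X.vReal y' ⊓ str (X.dig y') s ⇨ X.mem y' U :=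
          le_inf inf_le_right ((le_inf h4 h3).trans (open_str U x))
      _ ≤ ⨆ s, str (X.dig x) s ⊓ X.nbh h j s := by
          rw [inf_iSup_eq]
          refine iSup_mono fun s => le_inf (inf_le_right.trans inf_le_left) ?_
          exact (inf_le_inf_left _ inf_le_right).trans (RE_nbh h U j s)

theorem gd_mem (h C x : X.N) : X.vSeq h ⊓ X.vGdC h C ⊓
    (X.vReal x ⊓ ⨅ j, ⨆ s, str (X.dig x) s ⊓ X.nbh h j s) ≤ X.mem x C := by
  refine le_trans ?_ (vGdC_of h C x)
  refine le_inf (inf_le_left.trans inf_le_right) (le_inf (inf_le_right.trans inf_le_left) ?_)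
  refine le_iInf fun j => le_iInf fun U => ?_
  rw [le_himp_iff]
  have h1 : X.vReal x ⊓ (⨅ j, ⨆ s, str (X.dig x) s ⊓ X.nbh h j s) ≤ X.inh h j x := by
    refine (inf_le_inf_left _ (iInf_le _ j)).trans ?_
    rw [inf_iSup_eq]
    refine iSup_le fun s => ?_
    have h2 : X.nbh h j s ≤ X.vReal x ⊓ str (X.dig x) s ⇨ X.inh h j x := iInf_le _ x
    calc X.vReal x ⊓ (str (X.dig x) s ⊓ X.nbh h j s) ≤
          (X.vReal x ⊓ str (X.dig x) s ⇨ X.inh h j x) ⊓ (X.vReal x ⊓ str (X.dig x) s) :=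
          le_inf ((inf_le_right.trans inf_le_right).trans h2)
            (le_inf inf_le_left (inf_le_right.trans inf_le_left))
      _ ≤ X.inh h j x := himp_inf_le
  calc X.vSeq h ⊓ X.vGdC h C ⊓ (X.vReal x ⊓ ⨅ j, ⨆ s, str (X.dig x) s ⊓ X.nbh h j s) ⊓
        X.rl h (X.nat j) U ≤ (X.vSeq h ⊓ X.rl h (X.nat j) U) ⊓ X.inh h j x := by
        refine le_inf (le_inf ?_ inf_le_right) ?_
        · exact inf_le_left.trans (inf_le_left.trans inf_le_left)
        · exact (inf_le_left.trans inf_le_right).trans h1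
    _ ≤ X.mem x U := by
        unfold inh
        rw [inf_iSup_eq]
        refine iSup_le fun U' => ?_
        have h3 := vSeq_uniq h U' U j
        have h4 := X.eqax.memr x U' U
        refine le_trans (le_inf ?_ ?_) h4
        · refine le_trans (le_inf (le_inf ?_ ?_) ?_) h3
          · exact inf_le_left.trans inf_le_left
          · exact inf_le_right.trans inf_le_left
          · exact inf_le_left.trans inf_le_right
        · exact inf_le_right.trans inf_le_right

end SM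

end Pool.Agent.LibBc83
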