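import Pool.Agent.LibBc83.ZC
import Pool.Agent.LibBc83.RE

/-!
BC83 RF. The formula `fT` (choice for unions of sequences of `Gδ` sets) from choice for each
single term, with a common support.

Plan. Let `t` be given, `S` and the `x n` from the hypothesis. By `exists_seqN` there is a name `f`
of the sequence of the names `rn (x n)` (`supp_rn`). Unfold `fT` (`Fm.choice`, `val_rel`,
`val_seq`, `val_gdS`): it is to be shown that
`vSeq t ⊓ (⨅ n, ⨅ A, mem n om ⇨ rl t n A ⇨ (⨆ x, mem x A) ⊓ vGdS A) ≤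
vSeq f ⊓ ⨅ n, ⨅ A, ⨅ x, mem n om ⇨ rl t n A ⇨ rl f n x ⇨ mem x A`.
The left side is at most `vSeq t ⊓ hyp t k` for each `k` (`nat_mem_om`, `vSeq_ex`), so at most
`inh t k (rn (x k))`. For `n` with `mem n om`, `n = nat k` (`mem_om`), `rl f (nat k) x = eq x (rn (x k))`,
and `vSeq t ⊓ rl t (nat k) A ⊓ inh t k y ≤ mem y A` by `vSeq_uniq`.
-/

namespace Pool.Agent.LibBc83

namespace SM

variable {B : Type} [CompleteBooleanAlgebra B] {G : Type} [Group G] [MulAction G B]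
  [OrdAct G B] {Fam : Set (Set G)} (X : SM B G Fam)

/-- The truth value of: the `n`-th term of `t` is not empty, and is a union of a sequence of
intersections of sequences of open sets. -/
noncomputable def hyp (t : X.N) (n : ℕ) : B :=
  ⨆ A, X.rl t (X.nat n) A ⊓ ((⨆ x, X.mem x A) ⊓ X.vGdS A)

omit [OrdAct G B] in
private theorem RF_all (f : Fm) (v : ℕ → X.N) : X.val (.all f) v = ⨅ a, X.val f (cons a v) := rfl

omit [OrdAct G B] in
private theorem RF_and (f g : Fm) (v : ℕ → X.N) :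
    X.val (.and f g) v = X.val f v ⊓ X.val g v := rfl

omit [OrdAct G B] in
private theorem RF_mem (i j : ℕ) (v : ℕ → X.N) : X.val (.mem i j) v = X.mem (v i) (v j) := rfl

omit [OrdAct G B] in
private theorem RF_imp (f g : Fm) (v : ℕ → X.N) :
    X.val (.imp f g) v = X.val f v ⇨ X.val g v := ev_imp f g v

omit [OrdAct G B] in
private theorem RF_ex (f : Fm) (v : ℕ → X.N) : X.val (.ex f) v = ⨆ a, X.val f (cons a v) :=
  ev_ex f v

private theorem RF_val (J s R : X.N) : X.val fT (X.asg0 J s R) =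
    ⨅ t, X.vSeq t ⇨ ((⨅ n, ⨅ A, X.mem n X.om ⇨ X.rl t n A ⇨ ((⨆ x, X.mem x A) ⊓ X.vGdS A)) ⇨
      ⨆ f, X.vSeq f ⊓ ⨅ n, ⨅ A, ⨅ x, X.mem n X.om ⇨ X.rl t n A ⇨ X.rl f n x ⇨ X.mem x A) := by
  have hs1 : ∀ t, X.val (.seq 1 0) (cons t (X.asg0 J s R)) = X.vSeq t := fun t =>
    val_seq _ 1 0 rfl
  have hs2 : ∀ f t, X.val (.seq 2 0) (cons f (cons t (X.asg0 J s R))) = X.vSeq f := fun f t =>
    val_seq _ 2 0 rfl
  have hg : ∀ A n t, X.val (.gdS 3 0) (cons A (cons n (cons t (X.asg0 J s R)))) = X.vGdS A :=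
    fun A n t => val_gdS _ 3 0 rfl
  simp only [fT, Fm.choice, RF_all, RF_imp, RF_ex, RF_and, hs1, hs2, hg, RF_mem, val_rel]
  rfl

private theorem RF_hyp (t : X.N) (k : ℕ) : X.vSeq t ⊓
    (⨅ n, ⨅ A, X.mem n X.om ⇨ X.rl t n A ⇨ ((⨆ x, X.mem x A) ⊓ X.vGdS A)) ≤ X.hyp t k := by
  refine (inf_le_inf_right _ (vSeq_ex t k)).trans ?_
  rw [iSup_inf_eq]
  refine iSup_le fun A => le_iSup_of_le A (le_inf inf_le_left ?_)
  have h1 : (⨅ n, ⨅ A, X.mem n X.om ⇨ X.rl t n A ⇨ ((⨆ x, X.mem x A) ⊓ X.vGdS A)) ≤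
      X.rl t (X.nat k) A ⇨ ((⨆ x, X.mem x A) ⊓ X.vGdS A) := by
    refine (iInf₂_le (X.nat k) A).trans ?_
    rw [nat_mem_om, top_himp]
  refine (inf_le_inf_left _ h1).trans ?_
  rw [inf_comm]
  exact himp_inf_le

theorem val_fT (h : ∀ t : X.N, ∃ S ∈ Fam, ∀ n, ∃ x : ℕ → ℕ → B, ∃ hx : SymF Fam x,
      (∀ g ∈ S, ∀ k m, g • x k m = x k m) ∧ X.vSeq t ⊓ X.hyp t n ≤ X.inh t n (X.rn x hx))
    (J s R : X.N) : X.val fT (X.asg0 J s R) = ⊤ := by
  rw [RF_val, eq_top_iff]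
  refine le_iInf fun t => ?_
  rw [le_himp_iff, le_himp_iff, top_inf_eq]
  obtain ⟨S, hS, hx⟩ := h t
  choose x hx hsupp hinh using hx
  obtain ⟨f, -, hf, hrl⟩ := exists_seqN X (fun n => X.rn (x n) (hx n)) hS
    (fun n => X.supp_rn (x n) (hx n) (hsupp n))
  refine le_iSup_of_le f ?_
  rw [hf, top_inf_eq]
  refine le_iInf fun n' => le_iInf fun A => le_iInf fun y => ?_
  rw [le_himp_iff, le_himp_iff, le_himp_iff, mem_om, inf_iSup_eq, iSup_inf_eq, iSup_inf_eq]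
  refine iSup_le fun k => ?_
  generalize hHyp : (⨅ n, ⨅ A, X.mem n X.om ⇨ X.rl t n A ⇨ ((⨆ x, X.mem x A) ⊓ X.vGdS A)) = Hyp
  obtain ⟨c, hc⟩ : ∃ c, c = X.vSeq t ⊓ Hyp ⊓ X.eq n' (X.nat k) ⊓ X.rl t n' A ⊓ X.rl f n' y :=
    ⟨_, rfl⟩
  rw [← hc]
  have h5 : c ≤ X.rl f n' y := by rw [hc]; exact inf_le_right
  have h4 : c ≤ X.rl t n' A := by rw [hc]; exact inf_le_left.trans inf_le_right
  have h3 : c ≤ X.eq n' (X.nat k) := by
    rw [hc]; exact (inf_le_left.trans inf_le_left).trans inf_le_right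
  have h12 : c ≤ X.vSeq t ⊓ Hyp := by
    rw [hc]; exact (inf_le_left.trans inf_le_left).trans inf_le_left
  have h1 : c ≤ X.vSeq t := h12.trans inf_le_left
  have h6 : c ≤ X.rl t (X.nat k) A := (le_inf h3 h4).trans (X.ext_rl_mid t A _ _)
  have h7 : c ≤ X.eq y (X.rn (x k) (hx k)) := by
    rw [← hrl]
    exact (le_inf h3 h5).trans (X.ext_rl_mid f y _ _)
  have h8 : c ≤ X.inh t k (X.rn (x k) (hx k)) := by
    refine (le_inf h1 (h12.trans ?_)).trans (hinh k)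
    rw [← hHyp]
    exact RF_hyp X t k
  have h9 : c ≤ X.mem (X.rn (x k) (hx k)) A := by
    have h10 : c ≤ c ⊓ ⨆ U, X.rl t (X.nat k) U ⊓ X.mem (X.rn (x k) (hx k)) U := le_inf le_rfl h8
    refine h10.trans ?_
    rw [inf_iSup_eq]
    refine iSup_le fun U => ?_
    have h11 : c ⊓ (X.rl t (X.nat k) U ⊓ X.mem (X.rn (x k) (hx k)) U) ≤ X.eq U A := by
      refine le_trans ?_ (vSeq_uniq t U A k)
      exact le_inf (le_inf (inf_le_left.trans h1) (inf_le_right.trans inf_le_left))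
        (inf_le_left.trans h6)
    exact (le_inf h11 (inf_le_right.trans inf_le_right)).trans (X.eqax.memr _ _ _)
  refine (le_inf ?_ h9).trans (X.eqax.meml _ _ _)
  rw [X.eqax.symm]
  exact h7

end SM

end Pool.Agent.LibBc83
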