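import Pool.Agent.LibBc83.P3
import Pool.Agent.LibBc83.RF

/-!
The concrete system: for each `ξ` in `Lam = Σ n, K n` a Cohen real, and for each `n` infinitely many
generic functions from `ω` to `K n`; the permutations of these functions, for each `n`.
-/

namespace Pool.Agent.LibBc83

open Pool.Agent.LibTk83

/-- `K 0` is countable, and `K (n + 1)` is the power set of `K n`. -/
def K : ℕ → Type
  | 0 => List ℕ
  | n + 1 => Set (K n)

/-- The indices of the Cohen reals. -/
abbrev Lam : Type := Σ n, K n

/-- The coordinates: `inl (ξ, k)` for the `k`-th digit of the Cohen real `ξ`; `inr ((n, j), k)` for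
the `k`-th value of the `j`-th function from `ω` to `K n`. -/
abbrev Crd : Type := (Lam × ℕ) ⊕ ((ℕ × ℕ) × ℕ)

/-- The values. -/
abbrev Vl : Type := Bool ⊕ Lam

/-- The values which are allowed at a coordinate. -/
def okC : Crd → Vl → Prop
  | .inl _, .inl _ => True
  | .inr ((n, _), _), .inr a => a.1 = n
  | _, _ => False

/-- The group: a permutation of `ω` for each `n`. -/
abbrev Gp : Type := ℕ → Equiv.Perm ℕ

instance : MulAction Gp Crd where
  smul g
    | .inl a => .inl a
    | .inr ((n, j), k) => .inr ((n, g n j), k)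
  one_smul := by
    rintro (a | ⟨⟨n, j⟩, k⟩) <;> rfl
  mul_smul g h := by
    rintro (a | ⟨⟨n, j⟩, k⟩) <;> rfl

theorem smul_inl (g : Gp) (a : Lam × ℕ) : g • (Sum.inl a : Crd) = Sum.inl a := rfl

theorem smul_inr (g : Gp) (n j k : ℕ) :
    g • (Sum.inr ((n, j), k) : Crd) = Sum.inr ((n, g n j), k) := rfl

/-- The support given by a set of copies; it contains all coordinates of the Cohen reals. -/
def supC (F : Set (ℕ × ℕ)) : Set Crd := {c | ∀ q k, c = Sum.inr (q, k) → q ∈ F}

/-- The supports: the sets `supC F` with `F` finite. -/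
def famC : Set (Set Crd) := {S | ∃ F : Set (ℕ × ℕ), F.Finite ∧ S = supC F}

/-- The string coded by a value. -/
def decC : Vl → List ℕ
  | .inr ⟨0, s⟩ => s
  | _ => []

/-- The conditions. -/
abbrev PC : Type := Cond Crd Vl okC

/-- The truth value of: the `k`-th digit of the Cohen real `ξ` is `l`. -/
def coh (ξ : Lam) (k l : ℕ) : RO PC :=
  RO.gen {p | ∃ b : Bool, p.f (.inl (ξ, k)) = some (.inl b) ∧ (if b then 1 else 0) = l}

/-- The truth value of: the `k`-th value of the `j`-th function to `K n` is `a`. -/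
def hit (n j k : ℕ) (a : K n) : RO PC :=
  RO.gen {p | p.f (.inr ((n, j), k)) = some (.inr ⟨n, a⟩)}

/-- The real which codes the sequence of the Cohen reals with indices the values of the first
function to `K n`. -/
noncomputable def yv (n : ℕ) (m l : ℕ) : RO PC :=
  ⨆ a : K n, hit n 0 m.unpair.1 a ⊓ coh ⟨n, a⟩ m.unpair.2 l

/-- The truth value of: the `i`-th real coded by `x` is the Cohen real `ξ`. -/
noncomputable def codes (x : ℕ → ℕ → RO PC) (i : ℕ) (ξ : Lam) : RO PC :=
  ⨅ k, ⨅ l, (x (Nat.pair i k) l ⇨ coh ξ k l) ⊓ (coh ξ k l ⇨ x (Nat.pair i k) l)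

/-- The truth value of: `x` codes all Cohen reals with index in `K n`. -/
noncomputable def sv (n : ℕ) (x : ℕ → ℕ → RO PC) : RO PC :=
  ⨅ a : K n, ⨆ i, codes x i ⟨n, a⟩

end Pool.Agent.LibBc83
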