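import Pool.Agent.LibBc83.RA

/-!
BC83 RC. Names of sequences.

Plan. `val_seq`, `vSeq_eq`: unfold `Fm.seq`, `Fm.ex1rel` (`val_rel`), `iInf_om`. `vSeq_uniq`: for
each `y`: `(⨅ z', (rl g n z' ⇨ eq z' y) ⊓ ..) ⊓ rl g n z ⊓ rl g n z' ≤ eq z y ⊓ eq z' y ≤ eq z z'`.
`vSeq_ex`: with `z' = y`: `⊤ = eq y y ≤ rl g n y`. `exists_seqN`: `comp_bdd` with
`φ p = ⨆ n, X.eq p (X.opN (X.nat n) (z n))`; then `rl f (nat n) y = mem (opN (nat n) y) f =
⨆ n', eq (nat n) (nat n') ⊓ eq y (z n') = eq y (z n)`; `vSeq f = ⊤` by `vSeq_eq` with the witness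
`z n`.
-/

namespace Pool.Agent.LibBc83

namespace SM

variable {B : Type} [CompleteBooleanAlgebra B] {G : Type} [Group G] [MulAction G B]
  [OrdAct G B] {Fam : Set (Set G)} (X : SM B G Fam)

/-- The truth value of: `g` is a sequence. -/
noncomputable def vSeq (g : X.N) : B := X.val (.seq 1 0) (cons g fun _ => X.om)

variable {X}

private theorem RC_val (v : ℕ → X.N) (w g : ℕ) :
    X.val (.seq w g) v = ⨅ a, X.mem a (v w) ⇨ ⨆ z, ⨅ z',
      (X.rl (v g) a z' ⇨ X.eq z' z) ⊓ (X.eq z' z ⇨ X.rl (v g) a z') := by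
  have h : ∀ (u : ℕ → X.N) (f x y : ℕ),
      ev X.mem X.eq (.rel f x y) u = X.rl (u f) (u x) (u y) := fun u f x y => val_rel u f x y
  simp only [SM.val, Fm.seq, Fm.ex1rel, ev_all, ev_imp, ev_ex, ev_iff, ev_mem, ev_eq, h]
  rfl

theorem val_seq (v : ℕ → X.N) (w g : ℕ) (h : v w = X.om) :
    X.val (.seq w g) v = X.vSeq (v g) := by
  unfold vSeq
  rw [RC_val, RC_val, h]
  rfl

theorem vSeq_eq (g : X.N) : X.vSeq g = ⨅ n, ⨆ z, ⨅ z',
    (X.rl g (X.nat n) z' ⇨ X.eq z' z) ⊓ (X.eq z' z ⇨ X.rl g (X.nat n) z') := by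
  unfold vSeq
  rw [RC_val]
  exact iInf_om (X := X) (φ := fun a => ⨆ z, ⨅ z',
      (X.rl g a z' ⇨ X.eq z' z) ⊓ (X.eq z' z ⇨ X.rl g a z'))
    (Ext.iSup fun z => Ext.iInf fun z' => Ext.inf (Ext.himp (X.ext_rl_mid g z') (Ext.const _))
      (Ext.himp (Ext.const _) (X.ext_rl_mid g z')))

theorem ext_vSeq : X.Ext X.vSeq := Ext.val (.seq 1 0) fun _ => X.om

theorem vSeq_act (h : G) (g : X.N) : X.vSeq (X.act h g) = h • X.vSeq g := by
  unfold vSeq
  rw [← val_act]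
  refine ev_congr_top X.eqax _ _ _ fun n => ?_
  cases n with
  | zero => exact X.eqax.refl _
  | succ n =>
    change X.eq X.om (X.act h X.om) = ⊤
    rw [X.eqax.symm]
    exact X.supp_om Set.univ h (Set.mem_univ h)

theorem vSeq_uniq (g z z' : X.N) (n : ℕ) :
    X.vSeq g ⊓ X.rl g (X.nat n) z ⊓ X.rl g (X.nat n) z' ≤ X.eq z z' := by
  have h1 : X.vSeq g ≤ ⨆ y, ⨅ t, (X.rl g (X.nat n) t ⇨ X.eq t y) ⊓ (X.eq t y ⇨ X.rl g (X.nat n) t) := by
    rw [vSeq_eq]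
    exact iInf_le _ n
  refine (inf_le_inf_right _ (inf_le_inf_right _ h1)).trans ?_
  rw [iSup_inf_eq, iSup_inf_eq]
  refine iSup_le fun y => ?_
  have h2 : ∀ t, (⨅ t, (X.rl g (X.nat n) t ⇨ X.eq t y) ⊓ (X.eq t y ⇨ X.rl g (X.nat n) t)) ⊓
      X.rl g (X.nat n) t ≤ X.eq t y := fun t =>
    le_himp_iff.1 ((iInf_le _ t).trans inf_le_left)
  have h3 := h2 z
  have h4 := h2 z'
  refine le_trans (le_inf (inf_le_left.trans h3) ((inf_le_inf_right _ inf_le_left).trans h4)) ?_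
  rw [X.eqax.symm z' y]
  exact X.eqax.trans _ _ _

theorem vSeq_ex (g : X.N) (n : ℕ) : X.vSeq g ≤ ⨆ z, X.rl g (X.nat n) z := by
  rw [vSeq_eq]
  refine (iInf_le _ n).trans (iSup_mono fun y => ?_)
  refine (iInf_le _ y).trans (inf_le_right.trans ?_)
  rw [X.eqax.refl, top_himp]

variable (X) in
/-- The name of a sequence with given terms. -/
theorem exists_seqN (z : ℕ → X.N) {S : Set G} (hS : S ∈ Fam) (h : ∀ n, X.Supp S (z n)) :
    ∃ f, X.Supp S f ∧ X.vSeq f = ⊤ ∧ ∀ n y, X.rl f (X.nat n) y = X.eq y (z n) := by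
  have hi : X.Inv S (fun p => ⨆ n, X.eq p (X.opN (X.nat n) (z n))) := by
    intro g hg p
    beta_reduce
    rw [smul_iSup']
    exact iSup_congr fun n => Inv.eq (X.supp_opN (X.supp_nat S n) (h n)) g hg p
  obtain ⟨f, hf, hm⟩ := comp_bdd (X := X) (φ := fun p => ⨆ n, X.eq p (X.opN (X.nat n) (z n)))
    (Ext.iSup fun n => Ext.eq_left _) hS hi (fun n => X.opN (X.nat n) (z n)) (fun p => le_rfl)
  have hrl : ∀ n y, X.rl f (X.nat n) y = X.eq y (z n) := by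
    intro n y
    unfold rl
    rw [hm]
    apply le_antisymm
    · refine iSup_le fun n' => ?_
      rw [eq_opN]
      by_cases hn : n = n'
      · subst hn
        exact inf_le_right
      · rw [X.eq_nat_ne hn, bot_inf_eq]
        exact bot_le
    · refine le_iSup_of_le n ?_
      rw [eq_opN, X.eqax.refl, top_inf_eq]
  refine ⟨f, hf, ?_, hrl⟩
  rw [vSeq_eq, eq_top_iff]
  refine le_iInf fun n => le_iSup_of_le (z n) (le_iInf fun z' => ?_)
  rw [hrl, himp_self, top_inf_eq]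

end SM

end Pool.Agent.LibBc83
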