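import Pool.Agent.LibBc83.ZB
import Pool.Agent.LibBc83.Henkin

/-!
BC83 ZC. From symmetric names to a model with the properties `Core`.

Plan: `henkin X.eqax ⊤ _ v₀ 4` with `v₀ = X.asg0 J s R`. The first conclusion and `val_ax` give
`IsZF E` (`isZF_of_ax`). The second conclusion for the formulas `.om 0`, `fR`, `.isJ 0 1`,
`.seq 0 2`, `fC`, `fN`, `fT` gives `Core.data` with `w = c 0`, `J = c 1`, `s = c 2`, `R = c 3`
(unfold with `simp`, lemmas `sat_...`).
-/

namespace Pool.Agent.LibBc83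

/-- the set of the reals is the value of the variable 3 -/
def fR : Fm := .all (.iff (.mem 0 4) (.real 1 0))

/-- each term of the sequence is a set of the form `Sup` -/
def fC : Fm :=
  .all (.all (.imp (.mem 1 2) (.imp (.rel 4 1 0) (.ex (.and (.real 3 0) (.sup 3 4 0 1))))))

/-- the sequence has no choice function -/
def fN : Fm := .neg (.ex (.choice 1 3 0))

/-- choice for unions of sequences of intersections of sequences of open sets -/
def fT : Fm :=
  .all (.imp (.seq 1 0) (.imp (.all (.all (.imp (.mem 1 3) (.imp (.rel 2 1 0)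
    (.and (.ex (.mem 0 1)) (.gdS 3 0)))))) (.ex (.choice 2 1 0))))

variable {B : Type} [CompleteBooleanAlgebra B] {G : Type} [Group G] [MulAction G B]
  [OrdAct G B] {Fam : Set (Set G)}

/-- The assignment of the data. -/
noncomputable def SM.asg0 (X : SM B G Fam) (J s R : X.N) : ℕ → X.N :=
  cons X.om (cons J (cons s (cons R fun _ => X.om)))

theorem core_of (X : SM B G Fam) (hB : (⊤ : B) ≠ ⊥) (J s R : X.N)
    (hR : X.val fR (X.asg0 J s R) = ⊤) (hJ : X.val (.isJ 0 1) (X.asg0 J s R) = ⊤)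
    (hs : X.val (.seq 0 2) (X.asg0 J s R) = ⊤) (hC : X.val fC (X.asg0 J s R) = ⊤)
    (hN : X.val fN (X.asg0 J s R) = ⊤) (hT : X.val fT (X.asg0 J s R) = ⊤) :
    ∃ (M : Type) (E : M → M → Prop), Core E := by
  obtain ⟨M, E, c, h1, h2⟩ := henkin X.eqax ⊤ hB (X.asg0 J s R) 4 (by norm_num) (by
    intro n hn
    obtain ⟨m, rfl⟩ := Nat.exists_eq_add_of_le hn
    rw [show 4 + m = m + 4 by ring]
    rfl)
  have : Nonempty M := ⟨c 0⟩
  have e1 := h2 (.om 0) (SM.val_om (X.asg0 J s R) 0 rfl).ge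
  have e2 := h2 fR hR.ge
  have e3 := h2 (.isJ 0 1) hJ.ge
  have e4 := h2 (.seq 0 2) hs.ge
  have e5 := h2 fC hC.ge
  have e6 := h2 fN hN.ge
  have e7 := h2 fT hT.ge
  rw [sat_om] at e1
  rw [sat_isJ] at e3
  rw [sat_seq] at e4
  simp only [fR, sat_all, sat_iff, sat_mem, sat_real, cons_zero, cons_succ] at e2
  simp only [fC, sat_all, sat_imp, sat_ex, sat_and, sat_mem, sat_rel, sat_real, sat_sup,
    cons_zero, cons_succ] at e5
  simp only [fN, sat_neg, sat_ex, sat_choice, cons_zero, cons_succ] at e6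
  simp only [fT, sat_all, sat_imp, sat_ex, sat_and, sat_mem, sat_rel, sat_seq, sat_gdS, sat_choice,
    cons_zero, cons_succ] at e7
  exact ⟨M, E, isZF_of_ax (fun f hf v => h1 f (fun v => (val_ax X f hf v).ge) v),
    c 0, c 1, c 2, c 3, e1, e2, e3, e4, e5, e6, e7⟩

end Pool.Agent.LibBc83
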