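import Pool.Agent.LibBc83.RB
import Pool.Agent.LibBc83.RC
import Pool.Agent.LibBc83.ZC

/-!
BC83 RH. The set of the reals and the pairing function: names, and the formulas `fR`, `isJ`, `seq`;
the value of `eqv`.

Plan. `exists_RN`: `exists_rset` with `φ = ⊤` (and any `S ∈ Fam`, `X.fam.ne`). `exists_JN`:
`comp_bdd` with `φ z = ⨆ i, ⨆ k, X.eq z (X.opN (X.opN (X.nat i) (X.nat k)) (X.nat (Nat.pair i k)))`
(`supp_opN`, `supp_nat`), then `eq_opN`, `eq_nat_ne`.
`val_fR`: unfold; `X.mem x R = X.vReal x` (`val_real`; `X.asg0 J s R` has the value `X.om` at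
`0` and `R` at `3`; under one quantifier they are the variables `1` and `4`). `val_isJ`: unfold
`Fm.isJ`, `Fm.rel3` (`val_oPair`, `val_rel`): `rel3 J i k m` is
`⨆ q, eq q (opN i k) ⊓ rl J q m = rl J (opN i k) m`; for `i = nat i'`, `k = nat k'`
(`iInf_om`, twice; the implications are curried) the witness is `nat (Nat.pair i' k')`.
`val_seqs`: `val_seq`. `val_eqv`: unfold `Fm.eqv`; for `z`, `y` with
`X.vReal`, `i = nat i'`, `j = nat j'`: the value is the infimum over `k` of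
`⨅ l, (rl z (nat (pair i' k)) l ⇔ rl y (nat (pair j' k)) l)`, where `l` ranges over all names;
below `X.vReal z ⊓ X.vReal y` one may restrict `l` to the names `nat l'` (`vReal_rl`: if
`rl z (nat m) l` then `l` is some `nat l'`).
-/

namespace Pool.Agent.LibBc83

namespace SM

section RH_general

variable {B : Type} [CompleteBooleanAlgebra B] {G : Type} [Group G] [MulAction G B]
  {Fam : Set (Set G)} {X : SM B G Fam}

private theorem RH_all (f : Fm) (v : ℕ → X.N) : X.val (.all f) v = ⨅ a, X.val f (cons a v) := rfl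

private theorem RH_and (f g : Fm) (v : ℕ → X.N) : X.val (.and f g) v = X.val f v ⊓ X.val g v := rfl

private theorem RH_imp (f g : Fm) (v : ℕ → X.N) :
    X.val (.imp f g) v = X.val f v ⇨ X.val g v := ev_imp f g v

private theorem RH_iff (f g : Fm) (v : ℕ → X.N) :
    X.val (.iff f g) v = (X.val f v ⇨ X.val g v) ⊓ (X.val g v ⇨ X.val f v) := ev_iff f g v

private theorem RH_ex (f : Fm) (v : ℕ → X.N) : X.val (.ex f) v = ⨆ a, X.val f (cons a v) :=
  ev_ex f v

private theorem RH_mem (i j : ℕ) (v : ℕ → X.N) : X.val (.mem i j) v = X.mem (v i) (v j) := rfl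

private theorem RH_eq (i j : ℕ) (v : ℕ → X.N) : X.val (.eq i j) v = X.eq (v i) (v j) := rfl

/-- Two arguments are replaced by equal ones. -/
private theorem RH_cong2 (f : Fm) (v : ℕ → X.N) {a b a' b' : X.N} {c : B} (ha : c ≤ X.eq a a')
    (hb : c ≤ X.eq b b') :
    c ⊓ X.val f (cons a (cons b v)) ≤ X.val f (cons a' (cons b' v)) := by
  refine ev_congr X.eqax f c _ _ fun n => ?_
  match n with
  | 0 => exact ha
  | 1 => exact hb
  | n + 2 =>
    change c ≤ X.eq (v n) (v n)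
    rw [X.eqax.refl]
    exact le_top

variable [OrdAct G B]

private theorem RH_rel3 (J i k m : ℕ) (v : ℕ → X.N) :
    X.val (.rel3 J i k m) v = X.rl (v J) (X.opN (v i) (v k)) (v m) := by
  rw [Fm.rel3, RH_ex]
  have h1 : ∀ q, X.val (.and (.oPair 0 (i+1) (k+1)) (.rel (J+1) 0 (m+1))) (cons q v) =
      X.eq q (X.opN (v i) (v k)) ⊓ X.rl (v J) q (v m) := by
    intro q
    rw [RH_and, val_oPair, val_rel]
    rfl
  rw [iSup_congr h1]
  apply le_antisymm
  · exact iSup_le fun q => X.ext_rl_mid (v J) (v m) q _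
  · refine le_iSup_of_le (X.opN (v i) (v k)) ?_
    rw [X.eqax.refl, top_inf_eq]

end RH_general

section

variable {B : Type} [CompleteBooleanAlgebra B] {G : Type} [Group G] [MulAction G B]
  [OrdAct G B] {Fam : Set (Set G)} (X : SM B G Fam)

theorem exists_RN : ∃ R : X.N, ∀ u, X.mem u R = X.vReal u := by
  obtain ⟨S, hS⟩ := X.fam.ne
  obtain ⟨R, -, hR⟩ := exists_rset (X := X) (φ := fun _ => ⊤) (Ext.const ⊤) hS
    (fun g _ _ => (smul_top' g).symm)
  exact ⟨R, fun u => by rw [hR, inf_top_eq]⟩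

theorem exists_JN : ∃ J : X.N, ∀ (i k : ℕ) (y : X.N),
    X.rl J (X.opN (X.nat i) (X.nat k)) y = X.eq y (X.nat (Nat.pair i k)) := by
  obtain ⟨S, hS⟩ := X.fam.ne
  obtain ⟨J, -, hJ⟩ := comp_bdd (X := X)
    (φ := fun z => ⨆ i, ⨆ k, X.eq z (X.opN (X.opN (X.nat i) (X.nat k)) (X.nat (Nat.pair i k))))
    (Ext.iSup fun i => Ext.iSup fun k => Ext.eq_left _) hS
    (by
      intro g hg z
      rw [smul_iSup']
      refine iSup_congr fun i => ?_
      rw [smul_iSup']
      refine iSup_congr fun k => ?_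
      exact Inv.eq (X.supp_opN (X.supp_opN (X.supp_nat S i) (X.supp_nat S k))
        (X.supp_nat S (Nat.pair i k))) g hg z)
    (ι := ℕ × ℕ)
    (fun q => X.opN (X.opN (X.nat q.1) (X.nat q.2)) (X.nat (Nat.pair q.1 q.2)))
    (fun z => iSup_le fun i => iSup_le fun k => le_iSup_of_le (i, k) le_rfl)
  refine ⟨J, fun i k y => ?_⟩
  rw [rl, hJ]
  apply le_antisymm
  · refine iSup_le fun i' => iSup_le fun k' => ?_
    rw [eq_opN, eq_opN]
    by_cases hi : i = i'
    · by_cases hk : k = k'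
      · rw [← hi, ← hk]
        exact inf_le_right
      · rw [X.eq_nat_ne hk, inf_bot_eq, bot_inf_eq]
        exact bot_le
    · rw [X.eq_nat_ne hi, bot_inf_eq, bot_inf_eq]
      exact bot_le
  · refine le_iSup_of_le i (le_iSup_of_le k ?_)
    rw [eq_opN, X.eqax.refl, top_inf_eq]

variable {X}

theorem val_fR {J s R : X.N} (hR : ∀ u, X.mem u R = X.vReal u) :
    X.val fR (X.asg0 J s R) = ⊤ := by
  rw [fR, RH_all]
  refine iInf_eq_top.2 fun u => ?_
  rw [RH_iff, RH_mem, val_real (cons u (X.asg0 J s R)) 1 0 rfl]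
  change (X.mem u R ⇨ X.vReal u) ⊓ (X.vReal u ⇨ X.mem u R) = ⊤
  rw [hR, himp_self, inf_idem]

theorem val_isJ {J s R : X.N} (hJ : ∀ (i k : ℕ) (y : X.N),
      X.rl J (X.opN (X.nat i) (X.nat k)) y = X.eq y (X.nat (Nat.pair i k))) :
    X.val (.isJ 0 1) (X.asg0 J s R) = ⊤ := by
  rw [Fm.isJ, RH_all]
  refine iInf_eq_top.2 fun i => ?_
  rw [RH_all]
  refine iInf_eq_top.2 fun k => ?_
  rw [RH_imp, RH_imp, RH_mem, RH_mem]
  apply top_unique
  rw [le_himp_iff, top_inf_eq, le_himp_iff]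
  change X.mem i X.om ⊓ X.mem k X.om ≤ _
  rw [X.mem_om, X.mem_om, iSup_inf_eq]
  refine iSup_le fun n => ?_
  rw [inf_iSup_eq]
  refine iSup_le fun n' => ?_
  have h1 := RH_cong2 (X := X) (.ex (.and (.mem 0 3) (.all (.iff (.rel3 5 3 2 0) (.eq 0 1)))))
    (X.asg0 J s R) (a := X.nat n') (b := X.nat n) (a' := k) (b' := i)
    (c := X.eq i (X.nat n) ⊓ X.eq k (X.nat n'))
    (by rw [X.eqax.symm (X.nat n')]; exact inf_le_right)
    (by rw [X.eqax.symm (X.nat n)]; exact inf_le_left)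
  refine le_trans (le_inf le_rfl ?_) h1
  rw [RH_ex]
  refine le_iSup_of_le (X.nat (Nat.pair n n')) ?_
  have h2 : X.val (.all (.iff (.rel3 5 3 2 0) (.eq 0 1)))
      (cons (X.nat (Nat.pair n n')) (cons (X.nat n') (cons (X.nat n) (X.asg0 J s R)))) = ⊤ := by
    rw [RH_all]
    refine iInf_eq_top.2 fun m => ?_
    rw [RH_iff, RH_rel3, RH_eq]
    change (X.rl J (X.opN (X.nat n) (X.nat n')) m ⇨ X.eq m (X.nat (Nat.pair n n'))) ⊓
      (X.eq m (X.nat (Nat.pair n n')) ⇨ X.rl J (X.opN (X.nat n) (X.nat n')) m) = ⊤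
    rw [hJ, himp_self, inf_idem]
  rw [RH_and, h2, inf_top_eq, RH_mem]
  change _ ≤ X.mem (X.nat (Nat.pair n n')) X.om
  rw [X.nat_mem_om]
  exact le_top

theorem val_seqs {J s R : X.N} (hs : X.vSeq s = ⊤) : X.val (.seq 0 2) (X.asg0 J s R) = ⊤ := by
  rw [val_seq (X.asg0 J s R) 0 2 rfl]
  exact hs

/-- The value of `J (i, k) = m`. -/
theorem val_rel3 {J : X.N} (hJ : ∀ (i k : ℕ) (y : X.N),
      X.rl J (X.opN (X.nat i) (X.nat k)) y = X.eq y (X.nat (Nat.pair i k)))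
    (v : ℕ → X.N) (J' i k m i' k' : ℕ) (hJ' : v J' = J) (hi : v i = X.nat i')
    (hk : v k = X.nat k') :
    X.val (.rel3 J' i k m) v = X.eq (v m) (X.nat (Nat.pair i' k')) := by
  rw [RH_rel3, hJ', hi, hk, hJ]

/-- The truth value of: the `i`-th real coded by `z` is the `j`-th real coded by `y`. -/
def same {B : Type} [CompleteBooleanAlgebra B] (x y : ℕ → ℕ → B) (i j : ℕ) : B :=
  ⨅ k, ⨅ l, (x (Nat.pair i k) l ⇨ y (Nat.pair j k) l) ⊓ (y (Nat.pair j k) l ⇨ x (Nat.pair i k) l)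

/-- Values of reals are natural numbers: one direction. -/
private theorem RH_dir (z y : X.N) (a b : ℕ) (c : B)
    (hc : ∀ l : ℕ, c ≤ X.dig z a l ⇨ X.dig y b l) (l : X.N) :
    X.vReal z ⊓ c ≤ X.rl z (X.nat a) l ⇨ X.rl y (X.nat b) l := by
  rw [le_himp_iff]
  have h1 : X.vReal z ⊓ c ⊓ X.rl z (X.nat a) l ≤ ⨆ m, X.eq l (X.nat m) :=
    (inf_le_inf_right _ inf_le_left).trans (vReal_rl z l a)
  have h2 : X.vReal z ⊓ c ⊓ X.rl z (X.nat a) l ≤
      (c ⊓ X.rl z (X.nat a) l) ⊓ ⨆ m, X.eq l (X.nat m) :=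
    le_inf (inf_le_inf_right _ inf_le_right) h1
  refine h2.trans ?_
  rw [inf_iSup_eq]
  refine iSup_le fun m => ?_
  have h3 : X.rl z (X.nat a) l ⊓ X.eq l (X.nat m) ≤ X.dig z a m := by
    rw [inf_comm]
    exact X.ext_rl_right z (X.nat a) l (X.nat m)
  have h4 : c ⊓ X.dig z a m ≤ X.dig y b m := by
    rw [← le_himp_iff]
    exact hc m
  have h5 : X.eq l (X.nat m) ⊓ X.dig y b m ≤ X.rl y (X.nat b) l := by
    rw [X.eqax.symm]
    exact X.ext_rl_right y (X.nat b) (X.nat m) l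
  refine le_trans (le_inf inf_le_right ?_) h5
  refine le_trans (le_inf (inf_le_left.trans inf_le_left) ?_) h4
  exact le_trans (le_inf (inf_le_left.trans inf_le_right) inf_le_right) h3

/-- Two reals have the same values: it is enough to look at the names of the natural numbers. -/
theorem real_values (z y : X.N) (a b : ℕ) :
    X.vReal z ⊓ X.vReal y ⊓
      (⨅ l, (X.rl z (X.nat a) l ⇨ X.rl y (X.nat b) l) ⊓ (X.rl y (X.nat b) l ⇨ X.rl z (X.nat a) l)) =
    X.vReal z ⊓ X.vReal y ⊓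
      (⨅ l : ℕ, (X.dig z a l ⇨ X.dig y b l) ⊓ (X.dig y b l ⇨ X.dig z a l)) := by
  apply le_antisymm
  · refine inf_le_inf_left _ (le_iInf fun l => ?_)
    exact iInf_le _ (X.nat l)
  · refine le_inf inf_le_left (le_iInf fun l => le_inf ?_ ?_)
    · refine le_trans (inf_le_inf_right _ inf_le_left) (RH_dir z y a b
        (⨅ l : ℕ, (X.dig z a l ⇨ X.dig y b l) ⊓ (X.dig y b l ⇨ X.dig z a l)) (fun l => ?_) l)
      exact (iInf_le _ l).trans inf_le_left
    · refine le_trans (inf_le_inf_right _ inf_le_right) (RH_dir y z b a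
        (⨅ l : ℕ, (X.dig z a l ⇨ X.dig y b l) ⊓ (X.dig y b l ⇨ X.dig z a l)) (fun l => ?_) l)
      exact (iInf_le _ l).trans inf_le_right

/-- The value of the formula `eqv`, with names as values. -/
private theorem RH_eqv1 {J : X.N} (hJ : ∀ (i k : ℕ) (y : X.N),
      X.rl J (X.opN (X.nat i) (X.nat k)) y = X.eq y (X.nat (Nat.pair i k)))
    (v : ℕ → X.N) (w J' z i y j i' j' : ℕ) (hw : v w = X.om) (hJ' : v J' = J)
    (hi : v i = X.nat i') (hj : v j = X.nat j') :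
    X.val (.eqv w J' z i y j) v = ⨅ n, ⨅ l,
      (X.rl (v z) (X.nat (Nat.pair i' n)) l ⇨ X.rl (v y) (X.nat (Nat.pair j' n)) l) ⊓
      (X.rl (v y) (X.nat (Nat.pair j' n)) l ⇨ X.rl (v z) (X.nat (Nat.pair i' n)) l) := by
  rw [Fm.eqv, RH_all]
  have h1 : ∀ (f : Fm) (a : X.N), X.val (.imp (.mem 0 (w + 1)) f) (cons a v) =
      X.mem a X.om ⇨ X.val f (cons a v) := by
    intro f a
    rw [RH_imp, RH_mem]
    change X.mem a (v w) ⇨ _ = _
    rw [hw]
  rw [iInf_congr fun a => h1 _ a, iInf_om (Ext.val _ v)]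
  refine iInf_congr fun n => ?_
  rw [RH_all]
  -- the predicate of the two values
  have h2 : ∀ m m' : X.N, X.val (.imp (.rel3 (J'+3) (i+3) 2 1) (.imp (.rel3 (J'+3) (j+3) 2 0)
      (.all (.iff (.rel (z+4) 2 0) (.rel (y+4) 1 0))))) (cons m' (cons m (cons (X.nat n) v))) =
      X.eq m (X.nat (Nat.pair i' n)) ⇨ X.eq m' (X.nat (Nat.pair j' n)) ⇨
        X.val (.all (.iff (.rel (z+4) 2 0) (.rel (y+4) 1 0)))
          (cons m' (cons m (cons (X.nat n) v))) := by
    intro m m'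
    rw [RH_imp, RH_imp, RH_rel3, RH_rel3]
    change X.rl (v J') (X.opN (v i) (X.nat n)) m ⇨ X.rl (v J') (X.opN (v j) (X.nat n)) m' ⇨ _ = _
    rw [hJ', hi, hj, hJ, hJ]
  have h3 : ∀ m m' : X.N, X.val (.all (.iff (.rel (z+4) 2 0) (.rel (y+4) 1 0)))
      (cons m' (cons m (cons (X.nat n) v))) =
      ⨅ l, (X.rl (v z) m l ⇨ X.rl (v y) m' l) ⊓ (X.rl (v y) m' l ⇨ X.rl (v z) m l) := by
    intro m m'
    rw [RH_all]
    refine iInf_congr fun l => ?_
    rw [RH_iff, val_rel, val_rel]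
    rfl
  rw [← h3]
  have h4 : (⨅ a, X.val (.all (.imp (.rel3 (J'+3) (i+3) 2 1) (.imp (.rel3 (J'+3) (j+3) 2 0)
      (.all (.iff (.rel (z+4) 2 0) (.rel (y+4) 1 0)))))) (cons a (cons (X.nat n) v))) =
      ⨅ m, ⨅ m', (X.eq m (X.nat (Nat.pair i' n)) ⇨ X.eq m' (X.nat (Nat.pair j' n)) ⇨
        X.val (.all (.iff (.rel (z+4) 2 0) (.rel (y+4) 1 0)))
          (cons m' (cons m (cons (X.nat n) v)))) := by
    refine iInf_congr fun m => ?_
    rw [RH_all]
    exact iInf_congr fun m' => h2 m m'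
  rw [h4]
  apply le_antisymm
  · refine (iInf_le _ (X.nat (Nat.pair i' n))).trans ((iInf_le _ (X.nat (Nat.pair j' n))).trans ?_)
    rw [X.eqax.refl, X.eqax.refl, top_himp, top_himp]
  · refine le_iInf fun m => le_iInf fun m' => ?_
    rw [le_himp_iff, le_himp_iff]
    have h5 := RH_cong2 (X := X) (.all (.iff (.rel (z+4) 2 0) (.rel (y+4) 1 0)))
      (cons (X.nat n) v) (a := X.nat (Nat.pair j' n)) (b := X.nat (Nat.pair i' n)) (a' := m')
      (b' := m) (c := X.eq m (X.nat (Nat.pair i' n)) ⊓ X.eq m' (X.nat (Nat.pair j' n)))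
      (by rw [X.eqax.symm (X.nat (Nat.pair j' n))]; exact inf_le_right)
      (by rw [X.eqax.symm (X.nat (Nat.pair i' n))]; exact inf_le_left)
    refine le_trans (le_inf (le_inf ?_ inf_le_right) ?_) h5
    · exact inf_le_left.trans inf_le_right
    · exact inf_le_left.trans inf_le_left

theorem val_eqv {J : X.N} (hJ : ∀ (i k : ℕ) (y : X.N),
      X.rl J (X.opN (X.nat i) (X.nat k)) y = X.eq y (X.nat (Nat.pair i k)))
    (v : ℕ → X.N) (w J' z i y j i' j' : ℕ) (hw : v w = X.om) (hJ' : v J' = J)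
    (hi : v i = X.nat i') (hj : v j = X.nat j') :
    X.vReal (v z) ⊓ X.vReal (v y) ⊓ X.val (.eqv w J' z i y j) v =
      X.vReal (v z) ⊓ X.vReal (v y) ⊓ same (X.dig (v z)) (X.dig (v y)) i' j' := by
  rw [RH_eqv1 hJ v w J' z i y j i' j' hw hJ' hi hj]
  unfold same
  rw [inf_iInf, inf_iInf]
  exact iInf_congr fun n => real_values (v z) (v y) (Nat.pair i' n) (Nat.pair j' n)

end

end SM

end Pool.Agent.LibBc83
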