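import Pool.Agent.LibBc83.KC
import Pool.Agent.LibBc83.RH

/-!
BC83 KF. The formula `fC` has the value `⊤`: each term of the sequence is a set of the form `Sup`.

Plan. `sv_eq`: for each `j`, `⊤ = ⨆ a, hit n 0 j a` (`hit_total`) and `hit n 0 j a ≤
codes (yv n) j ⟨n, a⟩` (`hit_le_codes`), so
`codes x i ⟨n, a⟩ ⊓ hit n 0 j a ≤ same x (yv n) i j`; hence `sv n x ≤ ⨅ j, ⨆ i, same x (yv n) i j`.
For each `a`, `⊤ = ⨆ j, hit n 0 j a` (`hit_surj`), and
`same x (yv n) i j ⊓ hit n 0 j a ≤ codes x i ⟨n, a⟩`; this is the other inequality.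
`val_fC`: unfold `fC`; `n = nat n'` (`iInf_om`), and `C` with `rl s (nat n') C = eq C (AN X n')` may
be replaced by `AN X n'` (values of formulas respect equality). The witness is
`y = rn (yv n')` (`symF_of_dep`, `dep_yv`), `vReal y = ⊤` (`vReal_rn`, `realV_yv`). The value of
`.sup` unfolds to: for all `z`, `mem z (AN X n')` is equivalent to `vReal z ⊓ ⨅ j, ⨆ i, val eqv`
(`iInf_om`, `iSup_om`, `Ext.val`), which is `vReal z ⊓ ⨅ j, ⨆ i, same (dig z) (yv n') i j` by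
`val_eqv`, `dig_rn`; use `mem_AN` and `sv_eq`.
-/

namespace Pool.Agent.LibBc83

open Pool.Agent.LibTk83 SM

private theorem KF_iff {B : Type} [CompleteBooleanAlgebra B] (a b c : B) :
    ((a ⇨ b) ⊓ (b ⇨ a)) ⊓ ((c ⇨ b) ⊓ (b ⇨ c)) ≤ (a ⇨ c) ⊓ (c ⇨ a) := by
  refine le_inf ?_ ?_
  · exact (inf_le_inf inf_le_left inf_le_right).trans (himp_triangle _ _ _)
  · rw [inf_comm]
    exact (inf_le_inf inf_le_left inf_le_right).trans (himp_triangle _ _ _)

private theorem KF_codes (x y : ℕ → ℕ → RO PC) (i j : ℕ) (ξ : Lam) :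
    codes x i ξ ⊓ codes y j ξ ≤ same x y i j := by
  refine le_iInf fun k => le_iInf fun l => ?_
  refine le_trans (inf_le_inf ((iInf_le _ k).trans (iInf_le _ l))
    ((iInf_le _ k).trans (iInf_le _ l))) (KF_iff _ _ _)

private theorem KF_same (x y : ℕ → ℕ → RO PC) (i j : ℕ) (ξ : Lam) :
    same x y i j ⊓ codes y j ξ ≤ codes x i ξ := by
  refine le_iInf fun k => le_iInf fun l => ?_
  refine le_trans (inf_le_inf ((iInf_le _ k).trans (iInf_le _ l))
    ((iInf_le _ k).trans (iInf_le _ l))) ?_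
  refine le_trans ?_ (KF_iff _ (y (Nat.pair j k) l) _)
  exact le_inf inf_le_left (le_inf (inf_le_right.trans inf_le_right)
    (inf_le_right.trans inf_le_left))

theorem sv_eq (n : ℕ) (x : ℕ → ℕ → RO PC) : sv n x = ⨅ j, ⨆ i, same x (yv n) i j := by
  apply le_antisymm
  · refine le_iInf fun j => ?_
    calc sv n x = sv n x ⊓ ⨆ a, hit n 0 j a := by rw [hit_total, inf_top_eq]
      _ = ⨆ a, sv n x ⊓ hit n 0 j a := inf_iSup_eq _ _
      _ ≤ ⨆ i, same x (yv n) i j := by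
        refine iSup_le fun a => ?_
        calc sv n x ⊓ hit n 0 j a ≤ (⨆ i, codes x i ⟨n, a⟩) ⊓ codes (yv n) j ⟨n, a⟩ :=
              inf_le_inf (iInf_le _ a) (hit_le_codes n j a)
          _ = ⨆ i, codes x i ⟨n, a⟩ ⊓ codes (yv n) j ⟨n, a⟩ := iSup_inf_eq _ _
          _ ≤ ⨆ i, same x (yv n) i j := iSup_mono fun i => KF_codes _ _ _ _ _
  · refine le_iInf fun a => ?_
    calc (⨅ j, ⨆ i, same x (yv n) i j)
          = (⨅ j, ⨆ i, same x (yv n) i j) ⊓ ⨆ j, hit n 0 j a := by rw [hit_surj, inf_top_eq]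
      _ = ⨆ j, (⨅ j, ⨆ i, same x (yv n) i j) ⊓ hit n 0 j a := inf_iSup_eq _ _
      _ ≤ ⨆ i, codes x i ⟨n, a⟩ := by
        refine iSup_le fun j => ?_
        calc (⨅ j, ⨆ i, same x (yv n) i j) ⊓ hit n 0 j a
              ≤ (⨆ i, same x (yv n) i j) ⊓ codes (yv n) j ⟨n, a⟩ :=
              inf_le_inf (iInf_le _ j) (hit_le_codes n j a)
          _ = ⨆ i, same x (yv n) i j ⊓ codes (yv n) j ⟨n, a⟩ := iSup_inf_eq _ _
          _ ≤ ⨆ i, codes x i ⟨n, a⟩ := iSup_mono fun i => KF_same _ _ _ _ _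

variable {X : SM (RO PC) Gp (famOf Gp famC)}

private theorem KF_symF (k : ℕ) : SM.SymF (famOf Gp famC) (yv k) :=
  ⟨fixS Gp (supC {(k, 0)}), ⟨supC {(k, 0)}, ⟨{(k, 0)}, Set.finite_singleton _, rfl⟩, rfl⟩,
    fun _ hg n m => inv_of_dep (dep_yv k n m) hg⟩

private theorem KF_top {J s R : X.N} (hJ : ∀ (i k : ℕ) (y : X.N),
      X.rl J (X.opN (X.nat i) (X.nat k)) y = X.eq y (X.nat (Nat.pair i k))) {n : X.N} {k : ℕ} :
    X.val (.ex (.and (.real 3 0) (.sup 3 4 0 1))) (cons (AN X k) (cons n (X.asg0 J s R))) = ⊤ := by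
  change ev X.mem X.eq _ _ = ⊤
  rw [ev_ex, eq_top_iff]
  refine le_iSup_of_le (X.rn (yv k) (KF_symF k)) ?_
  rw [ev_and]
  have hy : X.vReal (X.rn (yv k) (KF_symF k)) = ⊤ := by
    rw [SM.vReal_rn, realV_yv]
  refine le_inf ?_ ?_
  · change ⊤ ≤ X.val (.real 3 0) _
    rw [SM.val_real _ _ _ rfl]
    exact hy.ge
  · change ⊤ ≤ ⨅ z, X.val (.iff (.mem 0 2) (.and (.real 4 0) (.all (.imp (.mem 0 5)
      (.ex (.and (.mem 0 6) (.eqv 6 7 2 0 3 1))))))) _
    refine le_iInf fun z => ?_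
    have key : X.mem z (AN X k) = ev X.mem X.eq (.and (.real 4 0) (.all (.imp (.mem 0 5)
      (.ex (.and (.mem 0 6) (.eqv 6 7 2 0 3 1)))))) (cons z (cons (X.rn (yv k) (KF_symF k))
        (cons (AN X k) (cons n (X.asg0 J s R))))) := by
      rw [mem_AN, sv_eq, ev_and, ev_all]
      change _ = X.val (.real 4 0) _ ⊓ ⨅ j, ev X.mem X.eq _ _
      rw [SM.val_real _ _ _ rfl]
      change _ = X.vReal z ⊓ _
      obtain ⟨W, hW⟩ : ∃ W, W = cons z (cons (X.rn (yv k) (KF_symF k))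
        (cons (AN X k) (cons n (X.asg0 J s R)))) := ⟨_, rfl⟩
      rw [← hW]
      have e1 : (⨅ j, ev X.mem X.eq (.imp (.mem 0 5) (.ex (.and (.mem 0 6)
          (.eqv 6 7 2 0 3 1)))) (cons j W)) =
          ⨅ j, ⨆ i, X.val (.eqv 6 7 2 0 3 1) (cons (X.nat i) (cons (X.nat j) W)) := by
        have e2 : ∀ j : X.N, ev X.mem X.eq (.imp (.mem 0 5) (.ex (.and (.mem 0 6)
            (.eqv 6 7 2 0 3 1)))) (cons j W) =
            (X.mem j X.om ⇨ ⨆ i, X.mem i X.om ⊓ X.val (.eqv 6 7 2 0 3 1) (cons i (cons j W))) := by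
          intro j
          rw [ev_imp, ev_ex, hW]
          rfl
        simp only [e2]
        rw [SM.iInf_om (SM.Ext.iSup fun i => SM.Ext.inf (SM.Ext.const _) (SM.Ext.val₁ _ i W))]
        exact iInf_congr fun j => SM.iSup_om (SM.Ext.val _ _)
      rw [e1]
      have e3 : ∀ i j : ℕ, X.vReal z ⊓ same (X.dig z) (yv k) i j =
          X.vReal z ⊓ X.val (.eqv 6 7 2 0 3 1) (cons (X.nat i) (cons (X.nat j) W)) := by
        intro i j
        have h := val_eqv (X := X) hJ (cons (X.nat i) (cons (X.nat j) W)) 6 7 2 0 3 1 i j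
          (by rw [hW]; rfl) (by rw [hW]; rfl) rfl rfl
        have h2 : (cons (X.nat i) (cons (X.nat j) W)) 2 = z := by rw [hW]; rfl
        have h3 : (cons (X.nat i) (cons (X.nat j) W)) 3 = X.rn (yv k) (KF_symF k) := by
          rw [hW]; rfl
        rw [h2, h3, hy, inf_top_eq] at h
        rw [h]
        congr 2
        funext a b
        exact (X.dig_rn _ _ a b).symm
      rw [inf_iInf, inf_iInf]
      refine iInf_congr fun j => ?_
      rw [inf_iSup_eq, inf_iSup_eq]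
      exact iSup_congr fun i => e3 i j
    change ⊤ ≤ ev X.mem X.eq _ _
    rw [ev_iff, ← key]
    change ⊤ ≤ (X.mem z (AN X k) ⇨ X.mem z (AN X k)) ⊓ (X.mem z (AN X k) ⇨ X.mem z (AN X k))
    rw [himp_self, top_inf_eq]

theorem val_fC {J s R : X.N} (hJ : ∀ (i k : ℕ) (y : X.N),
      X.rl J (X.opN (X.nat i) (X.nat k)) y = X.eq y (X.nat (Nat.pair i k)))
    (hs : ∀ n y, X.rl s (X.nat n) y = X.eq y (AN X n)) :
    X.val fC (X.asg0 J s R) = ⊤ := by
  change (⨅ n, ⨅ C, X.val (.imp (.mem 1 2) (.imp (.rel 4 1 0) (.ex (.and (.real 3 0)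
    (.sup 3 4 0 1))))) (cons C (cons n (X.asg0 J s R)))) = ⊤
  rw [iInf_eq_top]
  intro n
  rw [iInf_eq_top]
  intro C
  change ev X.mem X.eq _ _ = ⊤
  rw [ev_imp, ev_imp, eq_top_iff, le_himp_iff, le_himp_iff, top_inf_eq]
  change X.mem n X.om ⊓ X.val (.rel 4 1 0) (cons C (cons n (X.asg0 J s R))) ≤
    X.val (.ex (.and (.real 3 0) (.sup 3 4 0 1))) (cons C (cons n (X.asg0 J s R)))
  rw [SM.val_rel, X.mem_om, iSup_inf_eq]
  refine iSup_le fun k => ?_
  change X.eq n (X.nat k) ⊓ X.rl s n C ≤ _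
  refine (X.ext_rl_mid s C n (X.nat k)).trans ?_
  change X.rl s (X.nat k) C ≤ _
  rw [hs, X.eqax.symm]
  have h1 := SM.Ext.val (.ex (.and (.real 3 0) (.sup 3 4 0 1))) (cons n (X.asg0 J s R))
    (AN X k) C
  beta_reduce at h1
  rwa [KF_top hJ, inf_top_eq] at h1

end Pool.Agent.LibBc83
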