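import Pool.Agent.LibBc83.KB

/-!
BC83 KG. Cardinalities, and the combinatorial core of the failure of choice.

Let `F` be a finite set of copies of types `< m`, `S = supC F`. Plan.
`mk_K_lt`: Cantor. `K_infinite`. `mk_parts`: a condition with domain in `supC F` is determined on the
coordinates `inr` by a finite set of pairs (coordinate `inr (q, k)` with `q ∈ F`, value
`inr ⟨i, a⟩` with `i < m`); the type `Σ i : Fin m, K i` has cardinality at most `#(K (m-1))`, so
there are at most `#(K (m-1)) < #(K m)` such finite sets (`Cardinal.mk_finset_of_infinite`); state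
it with the map `colp` which sends `p` to its restriction to the coordinates `inr`
(`fun c => p.f (.inr c)`).
`exists_compat`: two of uncountably many finite partial functions from `Lam × ℕ` to `Bool` are
compatible (the countable chain condition of Cohen forcing): by the delta system lemma
(`Pool/Agent/LibMA42/F4a.lean` and `CpImages/Delta.lean` in the repository), or by measure: the
sets of the extensions in `Lam × ℕ → Bool` with the product measure have positive measure, so
uncountably many of them cannot be pairwise disjoint.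
`core_comb`: choose `i ξ` and `p ξ` for all `ξ : K m`; by `mk_parts` and the pigeonhole principle
there are uncountably many `ξ` with the same `i ξ` and the same `colp (p ξ)`
(`Cardinal.infinite_pigeonhole` or: otherwise `#(K m) ≤ #(K (m-1)) * ℵ₀`); by `exists_compat` two of
the conditions are compatible on the coordinates `inl`, so they are compatible.
-/

namespace Pool.Agent.LibBc83

open Pool.Agent.LibTk83 Cardinal

theorem mk_K_lt (n : ℕ) : #(K n) < #(K (n + 1)) := by
  change #(K n) < #(Set (K n))
  rw [mk_set]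
  exact cantor _

theorem K_infinite (n : ℕ) : Infinite (K n) := by
  induction n with
  | zero => exact (inferInstance : Infinite (List ℕ))
  | succ n ih =>
    have := ih
    exact (inferInstance : Infinite (Set (K n)))

private theorem KG_mono : Monotone fun n => #(K n) :=
  monotone_nat_of_le_succ fun n => (mk_K_lt n).le

private theorem KG_aleph (n : ℕ) : ℵ₀ ≤ #(K n) := by
  have := K_infinite n
  exact aleph0_le_mk _

/-- The part of a condition outside the Cohen reals. -/
def colp (p : PC) : (ℕ × ℕ) × ℕ → Option Vl := fun c => p.f (.inr c)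

theorem mk_parts {F : Set (ℕ × ℕ)} (hF : F.Finite) {m : ℕ} (hm : ∀ q ∈ F, q.1 < m) (h0 : 0 < m) :
    #{f : (ℕ × ℕ) × ℕ → Option Vl // ∃ p : PC, p.dom ⊆ supC F ∧ colp p = f} < #(K m) := by
  classical
  let T : Type := Σ i : Fin m, K i
  let D : Type := ((ℕ × ℕ) × ℕ) × T
  have hfin : ∀ f : {f : (ℕ × ℕ) × ℕ → Option Vl // ∃ p : PC, p.dom ⊆ supC F ∧ colp p = f},
      {x : D | f.1 x.1 = some (.inr ⟨x.2.1, x.2.2⟩)}.Finite := by
    rintro ⟨f, p, hp, rfl⟩
    have h1 : {c : (ℕ × ℕ) × ℕ | p.f (.inr c) ≠ none}.Finite :=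
      Set.Finite.preimage (f := fun c : (ℕ × ℕ) × ℕ => (Sum.inr c : Crd))
        (fun c _ c' _ h => Sum.inr.inj h) p.fin
    refine Set.Finite.of_finite_image (f := fun x : D => x.1) (h1.subset ?_) ?_
    · rintro _ ⟨x, hx, rfl⟩
      change p.f (.inr x.1) ≠ none
      rw [show p.f (.inr x.1) = _ from hx]
      exact Option.some_ne_none _
    · rintro ⟨c, ⟨i, a⟩⟩ hx ⟨c', ⟨i', a'⟩⟩ hx' h
      change c = c' at h
      subst h
      have h2 := (show colp p c = _ from hx).symm.trans (show colp p c = _ from hx')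
      have h3 := Sum.inr.inj (Option.some.inj h2)
      have h4 : (i : ℕ) = i' := congrArg Sigma.fst h3
      have h5 : i = i' := Fin.ext h4
      subst h5
      have h6 : a = a' := by simpa using h3
      rw [h6]
  have hinj : Function.Injective fun f => (hfin f).toFinset := by
    have key : ∀ f f' : {f : (ℕ × ℕ) × ℕ → Option Vl // ∃ p : PC, p.dom ⊆ supC F ∧ colp p = f},
        (hfin f).toFinset = (hfin f').toFinset → ∀ c v, f.1 c = some v → f'.1 c = some v := by
      rintro ⟨f, p, hp, rfl⟩ f' h ⟨⟨n, j⟩, k⟩ v hv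
      change p.f (.inr ((n, j), k)) = some v at hv
      have hq : (n, j) ∈ F := by
        rw [← mem_supC_inr F (n, j) k]
        apply hp
        exact fun h => by rw [hv] at h; exact Option.some_ne_none _ h
      have hok := p.ok' _ v hv
      rcases v with b | ⟨n', a⟩
      · exact hok.elim
      · have h1 : n' = n := hok
        subst h1
        have h2 : ((((n', j), k), (⟨⟨n', hm _ hq⟩, a⟩ : T)) : D) ∈ (hfin ⟨colp p, p, hp, rfl⟩).toFinset := by
          rw [Set.Finite.mem_toFinset]
          exact hv
        rw [h, Set.Finite.mem_toFinset] at h2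
        exact h2
    intro f f' h
    apply Subtype.ext
    funext c
    exact Option.ext fun v => ⟨key f f' h c v, key f' f h.symm c v⟩
  have hT : #T ≤ #(K (m - 1)) := by
    have h1 : #T = sum fun i : Fin m => #(K i) := mk_sigma _
    rw [h1]
    calc sum (fun i : Fin m => #(K i)) ≤ sum (fun _ : Fin m => #(K (m - 1))) :=
          sum_le_sum _ _ fun i => KG_mono (by omega)
      _ = #(Fin m) * #(K (m - 1)) := by rw [sum_const']
      _ ≤ #(K (m - 1)) * #(K (m - 1)) := by
          refine mul_le_mul_left ?_ _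
          exact (lt_aleph0_of_finite _).le.trans (KG_aleph _)
      _ = #(K (m - 1)) := mul_eq_self (KG_aleph _)
  have hTi : Infinite T := by
    have := K_infinite 0
    exact Infinite.of_injective (fun a : K 0 => (⟨⟨0, h0⟩, a⟩ : T)) fun a b h =>
      eq_of_heq (Sigma.mk.inj h).2
  have hD : #D ≤ #(K (m - 1)) := by
    have h1 : #D = #((ℕ × ℕ) × ℕ) * #T := by
      simp only [D, mk_prod, lift_id]
    rw [h1, mk_eq_aleph0]
    exact (mul_le_mul' (KG_aleph _) hT).trans (mul_eq_self (KG_aleph _)).le
  have hDi : Infinite D := inferInstance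
  calc #{f : (ℕ × ℕ) × ℕ → Option Vl // ∃ p : PC, p.dom ⊆ supC F ∧ colp p = f}
      ≤ #(Finset D) := mk_le_of_injective hinj
    _ = #D := mk_finset_of_infinite D
    _ ≤ #(K (m - 1)) := hD
    _ < #(K (m - 1 + 1)) := mk_K_lt _
    _ = #(K m) := by rw [Nat.sub_add_cancel h0]

theorem exists_compat {ι : Type} (hι : Uncountable ι) (p : ι → PC) :
    ∃ i j, i ≠ j ∧ ∀ c v w, (p i).f (.inl c) = some v → (p j).f (.inl c) = some w → v = w := by
  classical
  by_contra hcon
  push Not at hcon
  let μ : Lam × ℕ → MeasureTheory.Measure Bool := fun _ => (PMF.uniformOfFintype Bool).toMeasure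
  have hfin : ∀ i, {c : Lam × ℕ | (p i).f (.inl c) ≠ none}.Finite := fun i =>
    Set.Finite.preimage (f := fun c : Lam × ℕ => (Sum.inl c : Crd))
      (fun c _ c' _ h => Sum.inl.inj h) (p i).fin
  let t : ι → Lam × ℕ → Set Bool := fun i c => {b | (p i).f (.inl c) = some (.inl b)}
  let A : ι → Set (Lam × ℕ → Bool) := fun i => Set.pi ((hfin i).toFinset : Set (Lam × ℕ)) (t i)
  have hmeas : ∀ i, MeasurableSet (A i) := fun i =>
    MeasurableSet.pi (Finset.countable_toSet _) fun c _ => MeasurableSet.of_discrete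
  have hpos : ∀ i, 0 < MeasureTheory.Measure.infinitePi μ (A i) := by
    intro i
    rw [MeasureTheory.Measure.infinitePi_pi μ (fun c _ => MeasurableSet.of_discrete)]
    rw [pos_iff_ne_zero, Finset.prod_ne_zero_iff]
    intro c hc
    rw [Set.Finite.mem_toFinset] at hc
    obtain ⟨v, hv⟩ := Option.ne_none_iff_exists'.1 hc
    have hok := (p i).ok' _ v hv
    rcases v with b | a
    · have h1 : b ∈ t i c := hv
      intro h0
      have h2 : (PMF.uniformOfFintype Bool).toMeasure {b} = 0 :=
        MeasureTheory.measure_mono_null (Set.singleton_subset_iff.2 h1) h0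
      rw [PMF.toMeasure_apply_singleton _ _ (MeasurableSet.singleton b)] at h2
      simp at h2
    · exact hok.elim
  have hdisj : Pairwise (Function.onFun Disjoint A) := by
    intro i j hij
    rw [Function.onFun, Set.disjoint_left]
    intro x hx hx'
    obtain ⟨c, v, w, hv, hw, hne⟩ := hcon i j hij
    have h1 := hx c (by
      rw [Finset.mem_coe, Set.Finite.mem_toFinset]
      exact fun h => by rw [hv] at h; exact Option.some_ne_none _ h)
    have h2 := hx' c (by
      rw [Finset.mem_coe, Set.Finite.mem_toFinset]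
      exact fun h => by rw [hw] at h; exact Option.some_ne_none _ h)
    change (p i).f (.inl c) = some (.inl (x c)) at h1
    change (p j).f (.inl c) = some (.inl (x c)) at h2
    rw [hv] at h1
    rw [hw] at h2
    exact hne ((Option.some.inj h1).trans (Option.some.inj h2).symm)
  have hc := MeasureTheory.Measure.countable_meas_pos_of_disjoint_iUnion
    (μ := MeasureTheory.Measure.infinitePi μ) hmeas hdisj
  have : {i : ι | 0 < MeasureTheory.Measure.infinitePi μ (A i)} = Set.univ :=
    Set.eq_univ_of_forall hpos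
  rw [this] at hc
  exact not_countable (Set.countable_univ_iff.1 hc)

/-- If for each `ξ` in `K m` there is a condition `p ξ` in `supC F` with a number `i ξ`, then there
are `ξ ≠ η` with `i ξ = i η` such that `p ξ` and `p η` are compatible. -/
theorem core_comb {F : Set (ℕ × ℕ)} (hF : F.Finite) {m : ℕ} (hm : ∀ q ∈ F, q.1 < m) (h0 : 0 < m)
    (p : K m → PC) (hp : ∀ ξ, (p ξ).dom ⊆ supC F) (i : K m → ℕ) :
    ∃ ξ η, ξ ≠ η ∧ i ξ = i η ∧ Cond.Comp (p ξ) (p η) := by
  let Y : Type := ℕ × {f : (ℕ × ℕ) × ℕ → Option Vl // ∃ p : PC, p.dom ⊆ supC F ∧ colp p = f}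
  let φ : K m → Y := fun ξ => (i ξ, ⟨colp (p ξ), p ξ, hp ξ, rfl⟩)
  have ha : ℵ₀ < #(K m) := by
    calc ℵ₀ ≤ #(K (m - 1)) := KG_aleph _
      _ < #(K (m - 1 + 1)) := mk_K_lt _
      _ = #(K m) := by rw [Nat.sub_add_cancel h0]
  have hY : #Y < #(K m) := by
    have h1 : #Y = ℵ₀ * #{f : (ℕ × ℕ) × ℕ → Option Vl // ∃ p : PC, p.dom ⊆ supC F ∧ colp p = f} := by
      simp only [Y, mk_prod, lift_id, mk_nat]
    rw [h1]
    exact mul_lt_of_lt (KG_aleph m) ha (mk_parts hF hm h0)
  obtain ⟨y, hy⟩ : ∃ y, Uncountable {ξ // φ ξ = y} := by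
    by_contra hcon
    push Not at hcon
    have h1 : #(K m) ≤ #Y * ℵ₀ := by
      calc #(K m) = #(Σ y : Y, {ξ // φ ξ = y}) := mk_congr (Equiv.sigmaFiberEquiv φ).symm
        _ = sum fun y : Y => #{ξ // φ ξ = y} := mk_sigma _
        _ ≤ sum fun _ : Y => ℵ₀ := sum_le_sum _ _ fun y => by
            have := hcon y
            exact mk_le_aleph0_iff.2 (by simpa using this)
        _ = #Y * ℵ₀ := by rw [sum_const']
    exact absurd h1 (not_le.2 (mul_lt_of_lt (KG_aleph m) hY ha))
  obtain ⟨ξ, η, hne, hcomp⟩ := exists_compat hy fun ξ => p ξ.1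
  have hφ : φ ξ.1 = φ η.1 := ξ.2.trans η.2.symm
  have h1 : i ξ.1 = i η.1 := congrArg Prod.fst hφ
  have h2 : colp (p ξ.1) = colp (p η.1) := congrArg (fun z : Y => z.2.1) hφ
  refine ⟨ξ.1, η.1, fun h => hne (Subtype.ext h), h1, ?_⟩
  rintro (c | c) v w hv hw
  · exact hcomp c v w hv hw
  · have h3 : colp (p ξ.1) c = some v := hv
    have h4 : colp (p η.1) c = some w := hw
    rw [h2, h4] at h3
    exact (Option.some.inj h3).symm

end Pool.Agent.LibBc83
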