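import Pool.Agent.LibBc83.P3
import Pool.Agent.LibBc83.RF

/-!
BC83 MA. Supports which are sets of coordinates; truth values and the coordinates on which they
depend.

Here `B = RO (Cond C V ok)` and the family of supports in the group is
`famOf G 𝓢 = {fixS G S : S ∈ 𝓢}`, `fixS G S = {g | ∀ c ∈ S, g • c = c}`.

Plan. `exists_suppC`: `X.supp`. `suppC_mono`: `fixS` is antitone, `Supp.mono`. `suppC_act`: if `h`
fixes the image of `S` under `g` then `g⁻¹ * h * g ∈ fixS G S`, and
`act h (act g x) = act g (act (g⁻¹ * h * g) x)`, `X.eq_act`, `smul_top'`. `dep_val`: `dep_of_inv`,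
`val_inv`. `dep_dig`: `dep_of_inv`, `dig_inv`. `dep_nbh`: `nbh_supp`. `dep_inh`: `inh_act` and
`ext_inh`, `Ext.congr` (also for the first argument). The `_act` lemmas: values of formulas:
`val_act` and `ev_congr_top` with `supp_om`; `hyp_act`: reindex the suprema (`act_surj`),
`rl_act`, `supp_nat`.
-/

namespace Pool.Agent.LibBc83

open Pool.Agent.LibTk83

namespace SM

section

variable {B : Type} [CompleteBooleanAlgebra B] {G : Type} [Group G] [MulAction G B]
  [OrdAct G B] {Fam : Set (Set G)} {X : SM B G Fam}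

private theorem MA_om (g : G) : X.eq X.om (X.act g X.om) = ⊤ := by
  rw [X.eqax.symm]
  exact X.supp_om {g} g rfl

private theorem MA_val1 (F : Fm) (g : G) (u : X.N) :
    X.val F (cons (X.act g u) fun _ => X.om) = g • X.val F (cons u fun _ => X.om) := by
  rw [← val_act]
  refine ev_congr_top X.eqax F _ _ fun n => ?_
  cases n with
  | zero => exact X.eqax.refl _
  | succ n => exact MA_om g

private theorem MA_val2 (F : Fm) (g : G) (a u : X.N) :
    X.val F (cons (X.act g a) (cons (X.act g u) fun _ => X.om)) =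
      g • X.val F (cons a (cons u fun _ => X.om)) := by
  rw [← val_act]
  refine ev_congr_top X.eqax F _ _ fun n => ?_
  match n with
  | 0 => exact X.eqax.refl _
  | 1 => exact X.eqax.refl _
  | n + 2 => exact MA_om g

theorem vAllGd_act (g : G) (u : X.N) : X.vAllGd (X.act g u) = g • X.vAllGd u := by
  exact MA_val1 _ g u

theorem vUn_act (g : G) (A u : X.N) : X.vUn (X.act g A) (X.act g u) = g • X.vUn A u := by
  exact MA_val2 _ g A u

theorem vGdS_act (g : G) (A : X.N) : X.vGdS (X.act g A) = g • X.vGdS A := by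
  exact MA_val1 _ g A

private theorem MA_rl (g : G) (t A : X.N) (n : ℕ) :
    X.rl (X.act g t) (X.nat n) (X.act g A) = g • X.rl t (X.nat n) A := by
  rw [← X.rl_act]
  exact ((X.ext_rl_mid (X.act g t) (X.act g A)).congr (X.supp_nat {g} n g rfl)).symm

theorem hyp_act (g : G) (t : X.N) (n : ℕ) : X.hyp (X.act g t) n = g • X.hyp t n := by
  unfold hyp
  rw [smul_iSup', ← (act_surj (X := X) g).iSup_comp]
  refine iSup_congr fun A => ?_
  rw [MA_rl, vGdS_act, smul_inf', smul_inf', smul_iSup', ← (act_surj (X := X) g).iSup_comp]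
  simp only [X.mem_act]

theorem ext_hyp (n : ℕ) : X.Ext (fun t => X.hyp t n) := by
  exact Ext.iSup fun A => Ext.inf (X.ext_rl_left (X.nat n) A) (Ext.const _)

theorem ext_inh_left (x : X.N) (j : ℕ) : X.Ext (fun h => X.inh h j x) := by
  exact Ext.iSup fun U => Ext.inf (X.ext_rl_left (X.nat j) U) (Ext.const _)

theorem rl_nat_act (g : G) (t A : X.N) (n : ℕ) :
    X.rl (X.act g t) (X.nat n) (X.act g A) = g • X.rl t (X.nat n) A := by
  exact MA_rl g t A n

end

variable {G C V : Type} {ok : C → V → Prop} [Group G] [MulAction G C] [OkAct G C ok]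
  {𝓢 : Set (Set C)} {X : SM (RO (Cond C V ok)) G (famOf G 𝓢)}

theorem exists_suppC (x : X.N) : ∃ S ∈ 𝓢, X.Supp (fixS G S) x := by
  obtain ⟨_, ⟨S, hS, rfl⟩, h⟩ := X.supp x
  exact ⟨S, hS, h⟩

theorem suppC_mono {S T : Set C} (h : S ⊆ T) {x : X.N} (hx : X.Supp (fixS G S) x) :
    X.Supp (fixS G T) x := by
  have h1 : fixS G T ⊆ fixS G S := fun g hg c hc => hg c (h hc)
  exact hx.mono h1

theorem suppC_act (g : G) {S : Set C} {x : X.N} (hx : X.Supp (fixS G S) x) :
    X.Supp (fixS G ((fun c => g • c) '' S)) (X.act g x) := by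
  intro h hh
  have h1 : X.act h (X.act g x) = X.act g (X.act (g⁻¹ * h * g) x) := by
    rw [← X.act_mul, ← X.act_mul]
    congr 1
    group
  rw [h1, X.eq_act, hx (g⁻¹ * h * g) (fun c hc => ?_), smul_top']
  rw [mul_smul, mul_smul, hh (g • c) ⟨c, hc, rfl⟩, inv_smul_smul]

theorem dep_val (h𝓢 : Supps G 𝓢) {S : Set C} (hS : S ∈ 𝓢) (f : Fm) (v : ℕ → X.N)
    (hv : ∀ n, X.Supp (fixS G S) (v n)) : Dep S (X.val f v) := by
  exact dep_of_inv h𝓢 hS fun g hg => val_inv f v hv hg

theorem dep_dig (h𝓢 : Supps G 𝓢) {S : Set C} (hS : S ∈ 𝓢) {u : X.N}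
    (hu : X.Supp (fixS G S) u) (n m : ℕ) : Dep S (X.dig u n m) := by
  exact dep_of_inv h𝓢 hS fun g hg => X.dig_inv hu hg n m

theorem dep_nbh (h𝓢 : Supps G 𝓢) {S : Set C} (hS : S ∈ 𝓢) {h : X.N}
    (hh : X.Supp (fixS G S) h) (j : ℕ) (s : List ℕ) : Dep S (X.nbh h j s) := by
  exact dep_of_inv h𝓢 hS fun g hg => nbh_supp hh hg j s

theorem dep_inh (h𝓢 : Supps G 𝓢) {S : Set C} (hS : S ∈ 𝓢) {h x : X.N}
    (hh : X.Supp (fixS G S) h) (hx : X.Supp (fixS G S) x) (j : ℕ) : Dep S (X.inh h j x) := by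
  refine dep_of_inv h𝓢 hS fun g hg => ?_
  rw [← inh_act, (ext_inh_left (X.act g x) j).congr (hh g hg)]
  exact (ext_inh h j).congr (hx g hg)

theorem dep_vSeq_hyp (h𝓢 : Supps G 𝓢) {S : Set C} (hS : S ∈ 𝓢) {t : X.N}
    (ht : X.Supp (fixS G S) t) (n : ℕ) : Dep S (X.vSeq t ⊓ X.hyp t n) := by
  refine Dep.inf (dep_of_inv h𝓢 hS fun g hg => ?_) (dep_of_inv h𝓢 hS fun g hg => ?_)
  · rw [← vSeq_act]
    exact ext_vSeq.congr (ht g hg)
  · rw [← hyp_act]
    exact (ext_hyp n).congr (ht g hg)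

/-- The truth value of: the `k`-th term of `g` is an intersection of a sequence of open sets. -/
theorem dep_rl_vGd (h𝓢 : Supps G 𝓢) {S : Set C} (hS : S ∈ 𝓢) {g : X.N}
    (hg : X.Supp (fixS G S) g) (k : ℕ) : Dep S (⨆ D, X.rl g (X.nat k) D ⊓ X.vGd D) := by
  refine dep_of_inv h𝓢 hS fun h hh => ?_
  rw [smul_iSup', ← (act_surj (X := X) h).iSup_comp (g := fun D => X.rl g (X.nat k) D ⊓ X.vGd D)]
  refine iSup_congr fun D => ?_
  rw [smul_inf', ← vGd_act, ← MA_rl]
  congr 1
  exact (X.ext_rl_left (X.nat k) (X.act h D)).congr (hg h hh)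

/-- A family of truth values which depend only on `S` is symmetric. -/
theorem symF_of_dep {S : Set C} (hS : S ∈ 𝓢) {x : ℕ → ℕ → RO (Cond C V ok)}
    (hx : ∀ n m, Dep S (x n m)) : SymF (famOf G 𝓢) x := by
  exact ⟨fixS G S, ⟨S, hS, rfl⟩, fun g hg n m => inv_of_dep (hx n m) hg⟩

/-- A condition with domain in `S` is fixed by `fixS G S`. -/
theorem smul_of_dom {S : Set C} {p : Cond C V ok} (hp : p.dom ⊆ S) {g : G} (hg : g ∈ fixS G S) :
    g • p = p := by
  rw [← Cond.res_eq_self_iff] at hp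
  have h1 : (g • p).dom ⊆ S := by
    rw [dom_smul]
    rintro _ ⟨c, hc, rfl⟩
    have hcS : c ∈ S := Cond.res_eq_self_iff.1 hp hc
    show g • c ∈ S
    rw [hg c hcS]
    exact hcS
  rw [← Cond.res_eq_self_iff.2 h1, res_smul hg, hp]

/-- The action on membership of conditions in truth values. -/
theorem smul_mem_smul {g : G} {b : RO (Cond C V ok)} {p : Cond C V ok} (h : p ∈ b) :
    g • p ∈ g • b := by
  rw [mem_smul, inv_smul_smul]
  exact h

end SM

end Pool.Agent.LibBc83
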