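import Pool.Agent.LibBc83.KC
import Pool.Agent.LibBc83.KG
import Pool.Agent.LibBc83.MA

/-!
BC83 KH. The sequence has no choice function.

Plan. Suppose that the value of `fN` is not `⊤`; then there are a name `f` and a condition `p` with
`p ∈ X.vSeq f` and `p` in the value of the second part of `Fm.choice` (`RO.ne_bot_iff`). Let
`supC F ∈ famC` be a support of `f` (`exists_suppC`), `F` finite, and `m > 0` larger than all first
components of elements of `F`. Let `Y k l = ⨆ y, X.rl f (X.nat m) y ⊓ X.dig y k l`; it depends only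
on `supC F` (`dep_of_inv`; it is invariant: reindex, `rl_nat_act`, `dig_act`), and so does
`E i ξ = codes Y i ξ` (`dep_coh`).
(1) There are `p₁ ≤ p` and `y` with `p₁ ∈ X.rl f (X.nat m) y` (`vSeq_ex`); since
`rl s (nat m) (AN X m) = ⊤`, `p₁ ∈ X.mem y (AN X m)`, so `p₁ ∈ X.vReal y` and
`p₁ ∈ sv m (X.dig y)`. Below `p₁`, `Y k l` and `X.dig y k l` are the same (`vSeq_uniq`, `ext_dig`),
so `p₁ ∈ ⨆ i, E i ⟨m, a⟩` for all `a : K m`, and `p₁ ∈ Y k l ⇨ (Y k l')ᶜ` for `l ≠ l'` (from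
`vReal_le`).
(2) Let `p₂ = p₁.res (supC F)`; it is in the same truth values (`Dep.res_mem_iff`). For each
`a : K m` choose `q a ≤ p₂` and `i a` with `q a ∈ E (i a) ⟨m, a⟩`; replace `q a` by
`(q a).res (supC F) ≤ p₂`. By `core_comb` there are `a ≠ b` with `i a = i b = i` and a common
extension `r` of `q a` and `q b`. So `r ∈ E i ⟨m, a⟩ ⊓ E i ⟨m, b⟩`, which is at most
`⨅ k, ⨅ l, (coh ⟨m, a⟩ k l ⇔ coh ⟨m, b⟩ k l) = ⊥` (`coh_ne`). Contradiction.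
-/

namespace Pool.Agent.LibBc83

open Pool.Agent.LibTk83

variable {X : SM (RO PC) Gp (famOf Gp famC)}

/-- The value of the formula: `f` is a choice function. -/
private theorem KH_choice (J s R f : X.N) :
    X.val (.choice 1 3 0) (cons f (X.asg0 J s R)) = X.vSeq f ⊓ ⨅ n, ⨅ A, ⨅ y,
      (X.mem n X.om ⇨ (X.rl s n A ⇨ (X.rl f n y ⇨ X.mem y A))) := by
  have h1 : X.val (.seq 1 0) (cons f (X.asg0 J s R)) = X.vSeq f := SM.val_seq _ 1 0 rfl
  have h2 : ∀ (w : ℕ → X.N) (a b c : ℕ),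
      ev X.mem X.eq (.rel a b c) w = X.rl (w a) (w b) (w c) := fun w a b c => X.val_rel w a b c
  unfold Fm.choice
  change X.val (.seq 1 0) _ ⊓ _ = _
  rw [h1]
  simp only [ev_all, ev_imp, ev_mem, h2]
  rfl

private theorem KH_dep {F : Set (ℕ × ℕ)} (hF : F.Finite) {f : X.N}
    (hf : X.Supp (fixS Gp (supC F)) f) (m k l : ℕ) :
    Dep (supC F) (⨆ y, X.rl f (X.nat m) y ⊓ X.dig y k l) := by
  refine dep_of_inv suppsC ⟨F, hF, rfl⟩ fun g hg => ?_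
  rw [smul_iSup']
  refine Function.Surjective.iSup_congr (X.act g) (SM.act_surj g) fun y => ?_
  rw [smul_inf', SM.dig_act, ← SM.rl_nat_act]
  congr 1
  exact ((X.ext_rl_left (X.nat m) (X.act g y)).congr (hf g hg)).symm

private theorem KH_dep_codes {S : Set Crd} {F : Set (ℕ × ℕ)} (hS : S = supC F)
    {Y : ℕ → ℕ → RO PC} (hY : ∀ k l, Dep S (Y k l)) (i : ℕ) (ξ : Lam) : Dep S (codes Y i ξ) := by
  subst hS
  unfold codes
  exact Dep.iInf fun k => Dep.iInf fun l =>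
    ((hY _ _).himp (dep_coh _ _ _ _)).inf ((dep_coh _ _ _ _).himp (hY _ _))

private theorem KH_codes_mono {x y : ℕ → ℕ → RO PC} {p : PC}
    (h : ∀ k l q, q ≤ p → (q ∈ x k l ↔ q ∈ y k l)) {i : ℕ} {ξ : Lam} {q : PC} (hq : q ≤ p)
    (hx : q ∈ codes x i ξ) : q ∈ codes y i ξ := by
  unfold codes at hx ⊢
  rw [RO.mem_iInf] at hx ⊢
  intro k
  have hk := hx k
  rw [RO.mem_iInf] at hk ⊢
  intro l
  have hl := hk l
  rw [RO.mem_inf, RO.mem_himp, RO.mem_himp] at hl ⊢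
  exact ⟨fun r hr hry => hl.1 r hr ((h _ _ r (hr.trans hq)).2 hry),
    fun r hr hrc => (h _ _ r (hr.trans hq)).1 (hl.2 r hr hrc)⟩

private theorem KH_codes_ne {Y : ℕ → ℕ → RO PC} {i : ℕ} {ξ η : Lam} (h : ξ ≠ η) {r : PC}
    (h1 : r ∈ codes Y i ξ) (h2 : r ∈ codes Y i η) : False := by
  have h3 : r ∈ ⨅ k, ⨅ l, (coh ξ k l ⇨ coh η k l) ⊓ (coh η k l ⇨ coh ξ k l) := by
    rw [RO.mem_iInf]
    intro k
    rw [RO.mem_iInf]
    intro l
    unfold codes at h1 h2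
    have a1 := RO.mem_iInf.1 (RO.mem_iInf.1 h1 k) l
    have a2 := RO.mem_iInf.1 (RO.mem_iInf.1 h2 k) l
    rw [RO.mem_inf, RO.mem_himp, RO.mem_himp] at a1 a2 ⊢
    exact ⟨fun q hq hc => a2.1 q hq (a1.2 q hq hc), fun q hq hc => a1.1 q hq (a2.2 q hq hc)⟩
  rw [coh_ne ξ η h] at h3
  exact RO.not_mem_bot h3

theorem val_fN {J s R : X.N} (hs : ∀ n y, X.rl s (X.nat n) y = X.eq y (AN X n)) :
    X.val fN (X.asg0 J s R) = ⊤ := by
  by_contra hcon
  have h1 : ∃ p : PC, p ∈ ⨆ f, X.val (.choice 1 3 0) (cons f (X.asg0 J s R)) := by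
    rw [← RO.ne_bot_iff]
    intro h
    apply hcon
    change ev X.mem X.eq (.neg (.ex (.choice 1 3 0))) _ = ⊤
    rw [ev_neg, ev_ex]
    have h' : (⨆ a, ev X.mem X.eq (.choice 1 3 0) (cons a (X.asg0 J s R))) = ⊥ := h
    rw [h', compl_bot]
  obtain ⟨p0, hp0⟩ := h1
  obtain ⟨p, -, f, hf⟩ := RO.mem_iSup.1 hp0 p0 le_rfl
  rw [KH_choice, RO.mem_inf] at hf
  obtain ⟨hseq, hch⟩ := hf
  obtain ⟨S, ⟨F, hF, rfl⟩, hfS⟩ := SM.exists_suppC f
  obtain ⟨m, h0, hm⟩ : ∃ m, 0 < m ∧ ∀ q ∈ F, q.1 < m := by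
    obtain ⟨M, hM⟩ := (hF.image Prod.fst).bddAbove
    exact ⟨M + 1, Nat.succ_pos M, fun q hq => Nat.lt_succ_of_le (hM ⟨q, hq, rfl⟩)⟩
  obtain ⟨Y, hY⟩ : ∃ Y : ℕ → ℕ → RO PC, ∀ k l, Y k l = ⨆ y, X.rl f (X.nat m) y ⊓ X.dig y k l :=
    ⟨_, fun _ _ => rfl⟩
  have hdY : ∀ k l, Dep (supC F) (Y k l) := fun k l => by rw [hY]; exact KH_dep hF hfS m k l
  have hdE := KH_dep_codes rfl hdY
  obtain ⟨p₁, hp₁, y, hy⟩ := RO.mem_iSup.1 (SM.vSeq_ex f m hseq) p le_rfl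
  have hmem : p₁ ∈ X.mem y (AN X m) := by
    have a1 := RO.mem_iInf.1 (RO.mem_iInf.1 (RO.mem_iInf.1 hch (X.nat m)) (AN X m)) y
    rw [X.nat_mem_om, hs, X.eqax.refl, top_himp, top_himp, RO.mem_himp] at a1
    exact a1 p₁ hp₁ hy
  rw [mem_AN, RO.mem_inf] at hmem
  have hYd : ∀ k l q, q ≤ p₁ → (q ∈ X.dig y k l ↔ q ∈ Y k l) := by
    intro k l q hq
    rw [hY]
    constructor
    · intro h
      exact le_iSup (fun y => X.rl f (X.nat m) y ⊓ X.dig y k l) y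
        (RO.mem_inf.2 ⟨RO.mem_of_le hq hy, h⟩)
    · intro h
      refine RO.mem_of_dense fun r hr => ?_
      obtain ⟨t, ht, y', hy'⟩ := RO.mem_iSup.1 h r hr
      rw [RO.mem_inf] at hy'
      have b1 : t ∈ X.eq y' y := by
        refine SM.vSeq_uniq f y' y m ?_
        rw [RO.mem_inf, RO.mem_inf]
        exact ⟨⟨RO.mem_of_le (ht.trans (hr.trans (hq.trans hp₁))) hseq, hy'.1⟩,
          RO.mem_of_le (ht.trans (hr.trans hq)) hy⟩
      exact ⟨t, ht, X.ext_dig k l y' y (RO.mem_inf.2 ⟨b1, hy'.2⟩)⟩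
  have hex : ∀ a : K m, ∃ q i, q ∈ codes Y i ⟨m, a⟩ := by
    intro a
    have a1 : p₁ ∈ ⨆ i, codes (X.dig y) i ⟨m, a⟩ := by
      have := hmem.2
      unfold sv at this
      exact RO.mem_iInf.1 this a
    obtain ⟨q, hq, i, hi⟩ := RO.mem_iSup.1 a1 p₁ le_rfl
    exact ⟨q, i, KH_codes_mono hYd hq hi⟩
  choose q i hq using hex
  obtain ⟨a, b, hab, hi, hcomp⟩ := core_comb hF hm h0 (fun a => (q a).res (supC F))
    (fun a => by rw [Cond.dom_res]; exact Set.inter_subset_right) i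
  have e1 : Cond.union ((q a).res (supC F)) ((q b).res (supC F)) ∈ codes Y (i a) ⟨m, a⟩ :=
    RO.mem_of_le (Cond.union_le_left _ _) (hdE _ _ _ (hq a))
  have e2 : Cond.union ((q a).res (supC F)) ((q b).res (supC F)) ∈ codes Y (i a) ⟨m, b⟩ := by
    rw [hi]
    exact RO.mem_of_le (Cond.union_le_right hcomp) (hdE _ _ _ (hq b))
  refine KH_codes_ne ?_ e1 e2
  intro h
  exact hab (by simpa using h)

end Pool.Agent.LibBc83
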