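import Pool.Agent.LibBc83.Br

/-!
BC83 L1. The nodes `nd T c i t`, in an arbitrary complete Boolean algebra.

`hc1`: some proposal is made at each step; `hc2`: not two of them. Plan. `nd_zero`, `nd_succ` are
`rfl`. `nd_total`, by induction on `i`:
`⊤ = ⨆ t, ⨆ w, nd i t ⊓ c i w`, and `nd i t ⊓ c i w` is at most `nd (i+1) w` or
`nd (i+1) t` (split `⊤` as `T w ⊔ (T w)ᶜ` if `t <+: w`, otherwise use the second part of the
definition). `nd_prefix` for `i' = i + 1`: `nd i t ⊓ nd (i+1) u ≠ ⊥` implies `t <+: u` by
`nd_disj i`. `nd_disj` by induction: distribute, use `nd_disj i` and `hc2`: first part against first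
part: the same proposal `u = u'`; first against second: `t = u'` and `w = u`, `u' <+: u`, and
`T u ⊓ (T u)ᶜ = ⊥`; second against second: `u = u'`. General `nd_prefix` by induction on `i'`:
`nd i t ⊓ nd (i'+1) u = ⨆ s, nd i t ⊓ nd i' s ⊓ nd (i'+1) u` by `nd_total`, and the nonzero terms
have `t <+: s <+: u`. `nd_le`: the first part of the definition is below `T u`; the second one by
induction.
-/

namespace Pool.Agent.LibBc83

variable {B : Type} [CompleteBooleanAlgebra B] {T : List ℕ → B} {c : ℕ → List ℕ → B}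

open Classical in
theorem nd_zero (t : List ℕ) : nd T c 0 t = if t = [] then ⊤ else ⊥ := by
  rfl

open Classical in
theorem nd_succ (i : ℕ) (u : List ℕ) :
    nd T c (i + 1) u = (⨆ t, ⨆ (_ : t <+: u), nd T c i t ⊓ c i u ⊓ T u) ⊔
      ⨆ w, nd T c i u ⊓ c i w ⊓ (if u <+: w then (T w)ᶜ else ⊤) := by
  rfl

private theorem L1_first (i : ℕ) (t u : List ℕ) (h : t <+: u) :
    nd T c i t ⊓ c i u ⊓ T u ≤ nd T c (i + 1) u := by
  rw [nd_succ]
  refine le_trans ?_ le_sup_left
  exact le_iSup_of_le t (le_iSup_of_le h le_rfl)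

private theorem L1_second (i : ℕ) (u w : List ℕ) (h : u <+: w) :
    nd T c i u ⊓ c i w ⊓ (T w)ᶜ ≤ nd T c (i + 1) u := by
  rw [nd_succ]
  refine le_trans ?_ le_sup_right
  refine le_iSup_of_le w ?_
  rw [if_pos h]

private theorem L1_third (i : ℕ) (u w : List ℕ) (h : ¬ u <+: w) :
    nd T c i u ⊓ c i w ≤ nd T c (i + 1) u := by
  rw [nd_succ]
  refine le_trans ?_ le_sup_right
  refine le_iSup_of_le w ?_
  rw [if_neg h, inf_top_eq]

theorem nd_total (hc1 : ∀ i, ⨆ w, c i w = ⊤) (i : ℕ) : ⨆ t, nd T c i t = ⊤ := by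
  induction i with
  | zero =>
    apply top_unique
    refine le_iSup_of_le [] ?_
    rw [nd_zero, if_pos rfl]
  | succ i ih =>
    apply top_unique
    have h1 : (⊤ : B) = ⨆ t, ⨆ w, nd T c i t ⊓ c i w := by
      have h2 : ∀ t, (⨆ w, nd T c i t ⊓ c i w) = nd T c i t := fun t => by
        rw [← inf_iSup_eq, hc1 i, inf_top_eq]
      simp only [h2]
      exact ih.symm
    rw [h1]
    refine iSup_le fun t => iSup_le fun w => ?_
    by_cases h : t <+: w
    · have h3 : nd T c i t ⊓ c i w =
          nd T c i t ⊓ c i w ⊓ T w ⊔ nd T c i t ⊓ c i w ⊓ (T w)ᶜ := by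
        rw [← inf_sup_left, sup_compl_eq_top, inf_top_eq]
      rw [h3]
      exact sup_le (le_iSup_of_le w (L1_first i t w h)) (le_iSup_of_le t (L1_second i t w h))
    · exact le_iSup_of_le t (L1_third i t w h)

theorem nd_disj (hc2 : ∀ i w w', w ≠ w' → c i w ⊓ c i w' = ⊥) (i : ℕ) (t t' : List ℕ)
    (h : t ≠ t') : nd T c i t ⊓ nd T c i t' = ⊥ := by
  rw [← disjoint_iff]
  induction i generalizing t t' with
  | zero =>
    rw [nd_zero, nd_zero]
    by_cases h1 : t = []
    · have h2 : t' ≠ [] := fun h2 => h (h1.trans h2.symm)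
      rw [if_neg h2]
      exact disjoint_bot_right
    · rw [if_neg h1]
      exact disjoint_bot_left
  | succ i ih =>
    have hc : ∀ w w', w ≠ w' → Disjoint (c i w) (c i w') := fun w w' hw =>
      disjoint_iff.2 (hc2 i w w' hw)
    -- first part against second part
    have mix : ∀ u u' s w : List ℕ, s <+: u → Disjoint (nd T c i s ⊓ c i u ⊓ T u)
        (nd T c i u' ⊓ c i w ⊓ (if u' <+: w then (T w)ᶜ else ⊤)) := by
      intro u u' s w hs
      by_cases h1 : s = u'
      · by_cases h2 : u = w
        · have h3 : u' <+: w := by rw [← h1, ← h2]; exact hs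
          rw [if_pos h3, ← h2]
          exact Disjoint.mono inf_le_right inf_le_right disjoint_compl_right
        · exact Disjoint.mono (inf_le_left.trans inf_le_right) (inf_le_left.trans inf_le_right)
            (hc u w h2)
      · exact Disjoint.mono (inf_le_left.trans inf_le_left) (inf_le_left.trans inf_le_left)
          (ih s u' h1)
    rw [nd_succ, nd_succ]
    rw [disjoint_sup_left, disjoint_sup_right, disjoint_sup_right]
    refine ⟨⟨?_, ?_⟩, ?_, ?_⟩
    · simp only [iSup_disjoint_iff, disjoint_iSup_iff]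
      intro s _ s' _
      exact Disjoint.mono (inf_le_left.trans inf_le_right) (inf_le_left.trans inf_le_right)
        (hc t t' h)
    · simp only [iSup_disjoint_iff, disjoint_iSup_iff]
      intro w s hs
      exact mix t t' s w hs
    · simp only [iSup_disjoint_iff, disjoint_iSup_iff]
      intro s hs w
      exact (mix t' t s w hs).symm
    · simp only [iSup_disjoint_iff, disjoint_iSup_iff]
      intro w w'
      exact Disjoint.mono (inf_le_left.trans inf_le_left) (inf_le_left.trans inf_le_left)
        (ih t t' h)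

theorem nd_prefix (hc1 : ∀ i, ⨆ w, c i w = ⊤) (hc2 : ∀ i w w', w ≠ w' → c i w ⊓ c i w' = ⊥)
    (i i' : ℕ) (h : i ≤ i') (t t' : List ℕ) (ht : ¬ t <+: t') :
    nd T c i t ⊓ nd T c i' t' = ⊥ := by
  rw [← disjoint_iff]
  induction i', h using Nat.le_induction generalizing t' with
  | base =>
    refine disjoint_iff.2 (nd_disj hc2 i t t' fun h => ht ?_)
    rw [h]
  | succ n hn ih =>
    rw [nd_succ (i := n), disjoint_sup_right]
    constructor
    · simp only [disjoint_iSup_iff]
      intro s hs
      exact Disjoint.mono_right (inf_le_left.trans inf_le_left)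
        (ih s fun h => ht (h.trans hs))
    · simp only [disjoint_iSup_iff]
      intro w
      exact Disjoint.mono_right (inf_le_left.trans inf_le_left) (ih t' ht)

theorem nd_le (i : ℕ) (t : List ℕ) (h : t ≠ []) : nd T c i t ≤ T t := by
  induction i with
  | zero =>
    rw [nd_zero, if_neg h]
    exact bot_le
  | succ i ih =>
    rw [nd_succ]
    refine sup_le ?_ ?_
    · exact iSup_le fun s => iSup_le fun _ => inf_le_right
    · exact iSup_le fun w => (inf_le_left.trans inf_le_left).trans ih

end Pool.Agent.LibBc83
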