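import Pool.Agent.LibBc83.L1

/-!
BC83 L3. The coordinates on which the nodes depend.

Plan. `mem_tr`: the set in the definition of `tr` is a lower set: if `p' ≤ p` then
`union (p'.res S₀) q ≤ union (p.res S₀) q` (for `q` with domain in `S₂ \ S₀`). `dep_tr`: by
`mem_tr`; let `p ∈ tr`, `p' ≤ p.res S₀`; apply `mem_tr` to `union (p'.res S₀) p ≤ p` to get `r`, and
take `union (r.res S₀) p'` (its restriction to `S₀` is `r.res S₀`). `nil_mem_tr`: `q = q₀`,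
`str x [] = ⊤`. `mem_cv`: the set in the definition of `cv` is a lower set. `dep_nd`: induction on
`i`, with `nd_succ`, `Dep.iSup`, `Dep.sup`, `Dep.inf`, `Dep.compl`, `Dep.mono`.
-/

namespace Pool.Agent.LibBc83

open Pool.Agent.LibTk83

variable {C V : Type} {ok : C → V → Prop}

private theorem L3_lower {S₀ S₂ : Set C} {p p' q : Cond C V ok} (hq : q.res (S₂ \ S₀) = q)
    (h : p' ≤ p) : Cond.union (p'.res S₀) q ≤ Cond.union (p.res S₀) q := by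
  intro c v hv
  rw [Cond.union_f] at hv ⊢
  by_cases hc : c ∈ S₀
  · have h1 : q.f c = none := by
      rw [← hq]
      exact Cond.res_f_of_not_mem (fun h2 => h2.2 hc) q
    rw [h1, Option.or_none] at hv ⊢
    exact Cond.res_mono S₀ h c v hv
  · rw [Cond.res_f_of_not_mem hc] at hv ⊢
    exact hv

theorem mem_tr {S₀ S₂ : Set C} {q₀ : Cond C V ok} {x : ℕ → ℕ → RO (Cond C V ok)} {s : List ℕ}
    {p : Cond C V ok} : p ∈ tr S₀ S₂ q₀ x s ↔ ∀ p', p' ≤ p → ∃ r, r ≤ p' ∧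
      ∃ q, q ≤ q₀ ∧ q.res (S₂ \ S₀) = q ∧ Cond.union (r.res S₀) q ∈ str x s := by
  constructor
  · intro h p' hp'
    obtain ⟨r, hr, s', ⟨q, hq, hq', hm⟩, hrs⟩ := h p' hp'
    exact ⟨r, hr, q, hq, hq', RO.mem_of_le (L3_lower hq' hrs) hm⟩
  · intro h p' hp'
    obtain ⟨r, hr, hm⟩ := h p' hp'
    exact ⟨r, hr, r, hm, le_rfl⟩

theorem mem_tr_of {S₀ S₂ : Set C} {q₀ : Cond C V ok} {x : ℕ → ℕ → RO (Cond C V ok)} {s : List ℕ}
    {p q : Cond C V ok} (hq : q ≤ q₀) (hq' : q.res (S₂ \ S₀) = q)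
    (h : Cond.union (p.res S₀) q ∈ str x s) : p ∈ tr S₀ S₂ q₀ x s :=
  mem_tr.2 fun p' hp' => ⟨p', le_rfl, q, hq, hq', RO.mem_of_le (L3_lower hq' hp') h⟩

theorem nil_mem_tr {S₀ S₂ : Set C} {q₀ : Cond C V ok} (hq : q₀.res (S₂ \ S₀) = q₀)
    {x : ℕ → ℕ → RO (Cond C V ok)} (p : Cond C V ok) : p ∈ tr S₀ S₂ q₀ x [] := by
  refine mem_tr_of le_rfl hq ?_
  unfold str
  rw [RO.mem_iInf]
  intro i
  rw [RO.mem_iInf]
  intro m
  rw [RO.mem_iInf]
  intro h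
  simp at h

private theorem L3_push {S : Set C} {p q : Cond C V ok} (h : q ≤ p.res S) :
    Cond.union (q.res S) p ≤ p ∧ Cond.union (q.res S) p ≤ q.res S ∧
      (Cond.union (q.res S) p).res S = q.res S := by
  refine ⟨Cond.union_le_right (Cond.comp_res h), Cond.union_le_left _ _, ?_⟩
  rw [Cond.res_union, Cond.res_res_self]
  refine le_antisymm (Cond.union_le_left _ _) (Cond.le_union le_rfl ?_)
  have h1 := Cond.res_mono S h
  rwa [Cond.res_res_self] at h1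

theorem dep_tr {S₀ S₂ : Set C} {q₀ : Cond C V ok} {x : ℕ → ℕ → RO (Cond C V ok)}
    {s : List ℕ} : Dep S₀ (tr S₀ S₂ q₀ x s) := by
  intro p hp
  rw [mem_tr] at hp ⊢
  intro p' hp'
  obtain ⟨h1, h2, -⟩ := L3_push hp'
  obtain ⟨r, hr, q, hq, hq', hm⟩ := hp _ h1
  obtain ⟨h3, -, h5⟩ := L3_push (hr.trans h2)
  refine ⟨_, h3, q, hq, hq', ?_⟩
  rw [h5]
  exact hm

theorem mem_cv {c₀ : ℕ → C} {dec : V → List ℕ} {i : ℕ} {w : List ℕ} {p : Cond C V ok}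
    {v : V} (h : p.f (c₀ i) = some v) (hv : dec v = w) : p ∈ cv c₀ dec i w :=
  fun q hq => ⟨q, le_rfl, p, ⟨v, h, hv⟩, hq⟩

private theorem L3_cv {c₀ : ℕ → C} {dec : V → List ℕ} {i : ℕ} {w : List ℕ} {p : Cond C V ok} :
    p ∈ cv c₀ dec i w ↔ ∀ q, q ≤ p → ∃ r, r ≤ q ∧ ∃ v, r.f (c₀ i) = some v ∧ dec v = w := by
  constructor
  · intro h q hq
    obtain ⟨r, hr, s, ⟨v, hv, hv'⟩, hrs⟩ := h q hq
    exact ⟨r, hr, v, hrs _ _ hv, hv'⟩
  · intro h q hq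
    obtain ⟨r, hr, v, hv, hv'⟩ := h q hq
    exact ⟨r, hr, r, ⟨v, hv, hv'⟩, le_rfl⟩

theorem dep_cv {c₀ : ℕ → C} {dec : V → List ℕ} {i : ℕ} {w : List ℕ} :
    Dep {c₀ i} (cv (ok := ok) c₀ dec i w) := by
  intro p hp
  rw [L3_cv] at hp ⊢
  intro q hq
  obtain ⟨h1, h2, -⟩ := L3_push hq
  obtain ⟨r, hr, v, hv, hv'⟩ := hp _ h1
  obtain ⟨h3, h4, -⟩ := L3_push (hr.trans h2)
  refine ⟨_, h3, v, h4 _ _ ?_, hv'⟩
  rw [Cond.res_f_of_mem (Set.mem_singleton _)]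
  exact hv

theorem cv_total {c₀ : ℕ → C} {dec : V → List ℕ} (h : ∀ i, ∃ v, ok (c₀ i) v) (i : ℕ) :
    ⨆ w, cv (ok := ok) c₀ dec i w = ⊤ := by
  rw [RO.eq_top_iff']
  intro p
  rcases hp : p.f (c₀ i) with _ | v
  · obtain ⟨v, hv⟩ := h i
    refine ⟨Cond.union (Cond.single (c₀ i) v hv) p, Cond.union_le_right ?_,
      le_iSup (fun w => cv (ok := ok) c₀ dec i w) (dec v) (mem_cv (v := v) ?_ rfl)⟩
    · refine Cond.comp_of_disj fun c hc hc' => ?_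
      rw [Cond.dom_single, Set.mem_singleton_iff] at hc
      rw [hc] at hc'
      exact hc' hp
    · rw [Cond.union_f, Cond.single_f_self, Option.some_or]
  · exact ⟨p, le_rfl, le_iSup (fun w => cv (ok := ok) c₀ dec i w) (dec v) (mem_cv hp rfl)⟩

theorem cv_disj {c₀ : ℕ → C} {dec : V → List ℕ} (i : ℕ) (w w' : List ℕ) (h : w ≠ w') :
    cv (ok := ok) c₀ dec i w ⊓ cv c₀ dec i w' = ⊥ := by
  by_contra hne
  obtain ⟨p, hp⟩ := RO.ne_bot_iff.1 hne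
  rw [RO.mem_inf, L3_cv, L3_cv] at hp
  obtain ⟨r, hr, v, hv, hv'⟩ := hp.1 p le_rfl
  obtain ⟨r', hr', v', hw, hw'⟩ := hp.2 r hr
  have h1 := hr' _ _ hv
  rw [hw] at h1
  have h2 := Option.some.inj h1
  exact h (by rw [← hv', ← hw', h2])

theorem dep_nd {S₀ : Set C} {c₀ : ℕ → C} {dec : V → List ℕ} {T : List ℕ → RO (Cond C V ok)}
    (hT : ∀ s, Dep S₀ (T s)) (i : ℕ) (t : List ℕ) :
    Dep (S₀ ∪ c₀ '' {l | l < i}) (nd T (cv c₀ dec) i t) := by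
  classical
  induction i generalizing t with
  | zero =>
    rw [nd_zero]
    split_ifs
    · exact dep_top
    · exact dep_bot
  | succ i ih =>
    rw [nd_succ]
    have h1 : S₀ ∪ c₀ '' {l | l < i} ⊆ S₀ ∪ c₀ '' {l | l < i + 1} := by
      refine Set.union_subset_union_right _ (Set.image_mono ?_)
      intro l hl
      exact Nat.lt_succ_of_lt hl
    have h2 : {c₀ i} ⊆ S₀ ∪ c₀ '' {l | l < i + 1} := by
      intro c hc
      rw [Set.mem_singleton_iff] at hc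
      exact Or.inr ⟨i, Nat.lt_succ_self i, hc.symm⟩
    have h3 : S₀ ⊆ S₀ ∪ c₀ '' {l | l < i + 1} := Set.subset_union_left
    refine Dep.sup (Dep.iSup fun s => Dep.iSup fun _ => ?_) (Dep.iSup fun w => ?_)
    · exact Dep.inf (Dep.inf ((ih s).mono h1) (dep_cv.mono h2)) ((hT t).mono h3)
    · refine Dep.inf (Dep.inf ((ih t).mono h1) (dep_cv.mono h2)) ?_
      split_ifs
      · exact ((hT w).mono h3).compl
      · exact dep_top

end Pool.Agent.LibBc83
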