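import Pool.Agent.LibBc83.L3

/-!
BC83 L4. Extending a condition so that it is defined at an initial segment of the coordinates
`c₀ i`, and decides the node.

Plan. `fill`: the domain of `p` is finite, so there is `i` with `c₀ l ∉ p.dom` for `l ≥ i`
(`c₀` is injective: the preimage of a finite set is finite, so bounded). Add the missing values at
`c₀ l`, `l < i` one after the other (prove by induction on `k ≤ i`: there is `p' ≤ p` whose domain
is contained in `p.dom ∪ c₀ '' {l | l < k}` and contains `c₀ '' {l | l < k}`).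
`decide`: `⨆ t, nd i t = ⊤` (`nd_total`), so there are `q ≤ p` and `t` with `q ∈ nd i t`; by
`dep_nd`, `q.res (S₀ ∪ c₀ '' {l | l < i})` is in `nd i t`, and so is
`p' = union (q.res (S₀ ∪ ..)) p`; `q` and `p` agree on `c₀ '' {l | l < i} ⊆ p.dom`, so
`p'.dom ⊆ p.dom ∪ S₀`.
-/

namespace Pool.Agent.LibBc83

open Pool.Agent.LibTk83

variable {C V : Type} {ok : C → V → Prop}

theorem fill {c₀ : ℕ → C} (inj : Function.Injective c₀) (h : ∀ i, ∃ v, ok (c₀ i) v)
    (p : Cond C V ok) : ∃ p' i, p' ≤ p ∧ ∀ l, c₀ l ∈ p'.dom ↔ l < i := by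
  have hfin : (c₀ ⁻¹' p.dom).Finite := p.dom_finite.preimage inj.injOn
  obtain ⟨n, hn⟩ := hfin.bddAbove
  obtain ⟨i, hi⟩ : ∃ i, i = n + 1 := ⟨_, rfl⟩
  have h0 : ∀ l, c₀ l ∈ p.dom → l < i := by
    intro l hl
    have h1 : l ≤ n := hn hl
    omega
  have hk : ∀ k, k ≤ i → ∃ p' : Cond C V ok, p' ≤ p ∧ (∀ l, c₀ l ∈ p'.dom → l < i) ∧
      ∀ l, l < k → c₀ l ∈ p'.dom := by
    intro k
    induction k with
    | zero => exact fun _ => ⟨p, le_rfl, h0, fun l hl => absurd hl (Nat.not_lt_zero l)⟩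
    | succ k ih =>
      intro hki
      obtain ⟨p', h1, h2, h3⟩ := ih (by omega)
      obtain ⟨v, hv⟩ := h k
      refine ⟨Cond.union p' (Cond.single (c₀ k) v hv), (Cond.union_le_left _ _).trans h1, ?_, ?_⟩
      · intro l hl
        rw [Cond.dom_union, Cond.dom_single] at hl
        rcases hl with hl | hl
        · exact h2 l hl
        · have h4 := inj (Set.mem_singleton_iff.1 hl)
          omega
      · intro l hl
        rw [Cond.dom_union, Cond.dom_single]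
        rcases Nat.lt_succ_iff_lt_or_eq.1 hl with h4 | h4
        · exact Or.inl (h3 l h4)
        · rw [h4]
          exact Or.inr rfl
  obtain ⟨p', h1, h2, h3⟩ := hk i le_rfl
  exact ⟨p', i, h1, fun l => ⟨h2 l, h3 l⟩⟩

theorem decide_nd {S₀ : Set C} {c₀ : ℕ → C} {dec : V → List ℕ} {T : List ℕ → RO (Cond C V ok)}
    (h0 : ∀ i, c₀ i ∉ S₀) (h : ∀ i, ∃ v, ok (c₀ i) v) (hT : ∀ s, Dep S₀ (T s)) {i : ℕ}
    {p : Cond C V ok} (hp : ∀ l, c₀ l ∈ p.dom ↔ l < i) :
    ∃ p' t, p' ≤ p ∧ (∀ l, c₀ l ∈ p'.dom ↔ l < i) ∧ p' ∈ nd T (cv c₀ dec) i t := by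
  have h1 : p ∈ ⨆ t, nd T (cv c₀ dec) i t := by
    rw [nd_total (cv_total h) i]
    exact RO.mem_top
  obtain ⟨r, hr, t, ht⟩ := RO.mem_iSup.1 h1 p le_rfl
  obtain ⟨h2, h3⟩ := (dep_nd hT i t).extend ht (hr.trans (Cond.le_res _ p))
  refine ⟨_, t, h3, fun l => ⟨fun hl => ?_, fun hl => Cond.dom_mono h3 ((hp l).2 hl)⟩, h2⟩
  rw [Cond.dom_union, Cond.dom_res] at hl
  rcases hl with ⟨-, hl | ⟨l', hl', hll⟩⟩ | hl
  · exact absurd hl (h0 l)
  · have h4 : c₀ l' ∈ p.dom := (hp l').2 hl'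
    rw [hll] at h4
    exact (hp l).1 h4
  · exact (hp l).1 hl

end Pool.Agent.LibBc83
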