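import Pool.Agent.LibBc83.L2
import Pool.Agent.LibBc83.L3

/-!
BC83 L5. The main step of the density argument.

We have `p ≤ r` with `p ∈ nd i t`, and `p` is defined at `c₀ l` only for `l < i`. Write
`T = tr S₀ S₂ q₀ x`. Plan.
1. `p ∈ T t`: if `t = []` by `nil_mem_tr`, otherwise by `nd_le`.
2. By `mem_tr` there are `p₁ ≤ p` and `q ≤ q₀`, `q.res (S₂ \ S₀) = q`, with
   `union (p₁.res S₀) q ∈ str x t`. Replace `p₁` by `p₂ = union (p₁.res S₀) p` (it is `≤ p`,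
   its restriction to `S₀` is `p₁.res S₀`, and it is defined at `c₀ l` iff `p` is, as
   `c₀ l ∉ S₂ ⊇ S₀`).
3. Let `a = p₂.res (S₂ \ S₀)ᶜ` and `z = union a q`. Then `z ≤ a`, `z ≤ q` (disjoint domains),
   `z ≤ r` (`r.dom ⊆ S₃`, and `S₃` is disjoint from `S₂ \ S₀` by `h23`), `z ≤ q₀`, and
   `z ∈ str x t` because `z ≤ union (p₁.res S₀) q`.
4. By `hmeet` for `z` and `hreal` there are `z₁ ≤ z` and `s` with `z₁ ∈ str x s ⊓ U j s`; by
   `str_total` there are `z₂ ≤ z₁` and `s' ⊇ s` with `max k t.length ≤ s'.length`, `z₂ ∈ str x s'`;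
   then `z₂ ∈ U j s'` by `hUm`, and `t <+: s'` by `str_prefix` (otherwise `z₂ ∈ ⊥`).
5. Take `v` with `ok (c₀ i) v`, `dec v = s'`, and
   `p' = union (z₂.res S₃) (union (single (c₀ i) v) p₂)`. It is `≤ p`: `z₂.res S₃` is compatible
   with `p₂`, since `z₂ ≤ a` and `S₃ ∩ (S₂ \ S₀) = ∅`; and `c₀ i` is not in the domains of `p₂` and
   of `z₂.res S₃` (`c₀ i ∉ S₃`).
   `p' ∈ U j s'` by `hU` (`z₂.res S₃ ∈ U j s'`). `p' ∈ T s'` by `mem_tr_of` with the condition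
   `z₂.res (S₂ \ S₀) ≤ q₀` (`z₂ ≤ q₀` and `hq`): `union (p'.res S₀) (z₂.res (S₂ \ S₀))` is equal to
   `z₂.res S₂` (because `p'.res S₀ = z₂.res S₀`, as `S₀ ⊆ S₃` and `z₂` extends `p₂` on `S₀`), and
   `z₂.res S₂ ∈ str x s'` (`Dep S₂ (str x s')`, from `hx` and `Dep.iInf`).
   `p' ∈ nd (i+1) s'`: first part of `nd_succ` with the prefix `t` of `s'` (`p' ≤ p ∈ nd i t`,
   `p' ∈ cv i s'` by `mem_cv`).
-/

namespace Pool.Agent.LibBc83

open Pool.Agent.LibTk83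

variable {C V : Type} {ok : C → V → Prop}

private theorem L5_dep_str {S : Set C} {x : ℕ → ℕ → RO (Cond C V ok)}
    (hx : ∀ n m, Dep S (x n m)) (s : List ℕ) : Dep S (str x s) :=
  Dep.iInf fun i => Dep.iInf fun m => Dep.iInf fun _ => hx i m

private theorem L5_or_left {a b : Option V} {v : V} (h : a = some v) : a.or b = some v := by
  rw [h, Option.some_or]

private theorem L5_or_right {a b : Option V} {v : V} (h : a = none) (h' : b = some v) :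
    a.or b = some v := by
  rw [h, Option.none_or, h']

theorem step {S₀ S₂ S₃ : Set C} {c₀ : ℕ → C} {dec : V → List ℕ} {r q₀ : Cond C V ok}
    {x : ℕ → ℕ → RO (Cond C V ok)} {U : ℕ → List ℕ → RO (Cond C V ok)}
    (H : Ctx S₀ S₂ S₃ c₀ dec r q₀ x U) {p : Cond C V ok} (hp : p ≤ r) {i : ℕ}
    (hpi : ∀ l, c₀ l ∈ p.dom ↔ l < i) {t : List ℕ}
    (ht : p ∈ nd (tr S₀ S₂ q₀ x) (cv c₀ dec) i t) (j k : ℕ) :
    ∃ p' s', p' ≤ p ∧ k ≤ s'.length ∧ p' ∈ nd (tr S₀ S₂ q₀ x) (cv c₀ dec) (i + 1) s' ∧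
      p' ∈ U j s' := by
  -- step 1
  have hT : p ∈ tr S₀ S₂ q₀ x t := by
    by_cases h : t = []
    · subst h
      exact nil_mem_tr H.hq p
    · exact RO.le_def.1 (nd_le i t h) p ht
  -- step 2
  obtain ⟨p₁, hp₁, q, hqq, hqr, hu⟩ := mem_tr.1 hT p le_rfl
  have hqd : q.dom ⊆ S₂ \ S₀ := Cond.res_eq_self_iff.1 hqr
  obtain ⟨p₂, hp₂⟩ : ∃ p₂, p₂ = Cond.union (p₁.res S₀) p := ⟨_, rfl⟩
  have h2p : p₂ ≤ p := by
    rw [hp₂]
    exact Cond.union_le_right (Cond.comp_res (hp₁.trans (Cond.le_res S₀ p)))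
  have h2in : ∀ c v, c ∈ S₀ → p₁.f c = some v → p₂.f c = some v := by
    intro c v hc hv
    rw [hp₂, Cond.union_f]
    exact L5_or_left (by rw [Cond.res_f_of_mem hc, hv])
  have h2out : ∀ c, c ∉ S₀ → p₂.f c = p.f c := by
    intro c hc
    rw [hp₂, Cond.union_f, Cond.res_f_of_not_mem hc, Option.none_or]
  have hci0 : c₀ i ∉ S₀ := fun h => H.hc2 i (H.h02 h)
  have h2i : p₂.f (c₀ i) = none := by
    rw [h2out _ hci0]
    by_contra h
    exact lt_irrefl i ((hpi i).1 h)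
  -- step 3
  obtain ⟨a, ha⟩ : ∃ a, a = p₂.res (S₂ \ S₀)ᶜ := ⟨_, rfl⟩
  have haf : ∀ c, c ∉ S₂ \ S₀ → a.f c = p₂.f c := fun c hc => by
    rw [ha]
    exact Cond.res_f_of_mem (S := (S₂ \ S₀)ᶜ) hc p₂
  have hS3 : ∀ c, c ∈ S₃ → c ∉ S₂ \ S₀ := fun c hc h => h.2 (H.h23 c h.1 hc)
  obtain ⟨z, hz⟩ : ∃ z, z = Cond.union a q := ⟨_, rfl⟩
  have hza : z ≤ a := by
    rw [hz]
    exact Cond.union_le_left a q
  have hzq : z ≤ q := by
    rw [hz]
    refine Cond.union_le_right (Cond.comp_of_disj fun c hc hc' => ?_)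
    rw [ha, Cond.dom_res] at hc
    exact hc.2 (hqd hc')
  have hzr : z ≤ r := by
    intro c v hv
    have hc3 : c ∈ S₃ :=
      Cond.res_eq_self_iff.1 H.hr (Cond.mem_dom_iff.2 ⟨v, hv⟩)
    apply hza
    rw [haf c (hS3 c hc3)]
    exact h2p c v (hp c v hv)
  have hzq0 : z ≤ q₀ := hzq.trans hqq
  have hzt : z ∈ str x t := by
    refine RO.mem_of_le (Cond.le_union ?_ hzq) hu
    intro c v hv
    by_cases hc : c ∈ S₀
    · rw [Cond.res_f_of_mem hc] at hv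
      apply hza
      rw [haf c fun h => h.2 hc]
      exact h2in c v hc hv
    · rw [Cond.res_f_of_not_mem hc] at hv
      exact absurd hv (by simp)
  -- step 4
  obtain ⟨z₁, hz₁, s, hs⟩ := RO.mem_iSup.1 (H.hmeet z hzr hzq0 j) z le_rfl
  rw [RO.mem_inf] at hs
  have hreal₁ : z₁ ∈ realV x := H.hreal z₁ (hz₁.trans hzr) (hz₁.trans hzq0)
  have htot := RO.le_def.1 (str_total x s (max k t.length)) z₁ (RO.mem_inf.2 ⟨hreal₁, hs.1⟩)
  obtain ⟨z₂, hz₂, s', hs'⟩ := RO.mem_iSup.1 htot z₁ le_rfl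
  obtain ⟨z₃, hz₃, hss', hz₃s⟩ := RO.mem_iSup.1 hs' z₂ le_rfl
  have hz31 : z₃ ≤ z₁ := hz₃.trans hz₂
  have hz3z : z₃ ≤ z := hz31.trans hz₁
  have hz3U : z₃ ∈ U j s' := H.hUm j s s' hss'.1 (RO.mem_of_le hz31 hs.2)
  have hlen : t.length ≤ s'.length := (le_max_right _ _).trans hss'.2
  have hts' : t <+: s' := by
    by_contra h
    have hbot := str_prefix x t s' hlen h
    have hmem : z₃ ∈ realV x ⊓ str x t ⊓ str x s' :=
      RO.mem_inf.2 ⟨RO.mem_inf.2 ⟨RO.mem_of_le hz31 hreal₁, RO.mem_of_le hz3z hzt⟩, hz₃s⟩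
    rw [hbot] at hmem
    exact RO.not_mem_bot hmem
  -- step 5
  obtain ⟨v, hv, hdv⟩ := H.hdec i s'
  obtain ⟨p', hp'⟩ : ∃ p', p' = Cond.union (z₃.res S₃) (Cond.union (Cond.single (c₀ i) v hv) p₂) :=
    ⟨_, rfl⟩
  have hp'3 : ∀ c w, c ∈ S₃ → z₃.f c = some w → p'.f c = some w := by
    intro c w hc hw
    rw [hp', Cond.union_f]
    exact L5_or_left (by rw [Cond.res_f_of_mem hc, hw])
  have hp'i : p'.f (c₀ i) = some v := by
    rw [hp', Cond.union_f]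
    refine L5_or_right (Cond.res_f_of_not_mem (H.hc3 i) _) ?_
    rw [Cond.union_f]
    exact L5_or_left (Cond.single_f_self hv)
  have hp'2 : p' ≤ p₂ := by
    intro c w hw
    by_cases hc : c ∈ S₃
    · refine hp'3 c w hc (hz3z c w (hza c w ?_))
      rw [haf c (hS3 c hc), hw]
    · rw [hp', Cond.union_f]
      refine L5_or_right (Cond.res_f_of_not_mem hc _) ?_
      rw [Cond.union_f]
      refine L5_or_right ?_ hw
      by_contra hne
      have hmem : c ∈ (Cond.single (c₀ i) v hv).dom := hne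
      rw [Cond.dom_single hv] at hmem
      have hci : c = c₀ i := hmem
      rw [hci, h2i] at hw
      exact absurd hw (by simp)
  have hp'p : p' ≤ p := hp'2.trans h2p
  have hp'U : p' ∈ U j s' := by
    refine RO.mem_of_le ?_ (H.hU j s' z₃ hz3U)
    rw [hp']
    exact Cond.union_le_left _ _
  have hp'T : p' ∈ tr S₀ S₂ q₀ x s' := by
    refine mem_tr_of (q := z₃.res (S₂ \ S₀)) ?_ (Cond.res_res_self _ _) ?_
    · have h := Cond.res_mono (S₂ \ S₀) (hz3z.trans hzq0)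
      rwa [H.hq] at h
    · refine RO.mem_of_le ?_ (L5_dep_str H.hx s' z₃ hz₃s)
      intro c w hw
      by_cases hc2 : c ∈ S₂
      · rw [Cond.res_f_of_mem hc2] at hw
        rw [Cond.union_f]
        by_cases hc0 : c ∈ S₀
        · refine L5_or_left ?_
          rw [Cond.res_f_of_mem hc0]
          exact hp'3 c w (H.h03 hc0) hw
        · refine L5_or_right (Cond.res_f_of_not_mem hc0 _) ?_
          rw [Cond.res_f_of_mem (S := S₂ \ S₀) ⟨hc2, hc0⟩, hw]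
      · rw [Cond.res_f_of_not_mem hc2] at hw
        exact absurd hw (by simp)
  refine ⟨p', s', hp'p, (le_max_left _ _).trans hss'.2, ?_, hp'U⟩
  rw [nd_succ]
  refine RO.le_def.1 le_sup_left p' ?_
  have hle : nd (tr S₀ S₂ q₀ x) (cv c₀ dec) i t ⊓ cv c₀ dec i s' ⊓ tr S₀ S₂ q₀ x s' ≤
      ⨆ t, ⨆ (_ : t <+: s'), nd (tr S₀ S₂ q₀ x) (cv c₀ dec) i t ⊓ cv c₀ dec i s' ⊓
        tr S₀ S₂ q₀ x s' :=
    le_iSup₂_of_le t hts' le_rfl
  exact RO.le_def.1 hle p' (RO.mem_inf.2 ⟨RO.mem_inf.2 ⟨RO.mem_of_le hp'p ht, mem_cv hp'i hdv⟩, hp'T⟩)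

end Pool.Agent.LibBc83
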