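import Pool.Agent.LibBc83.L4
import Pool.Agent.LibBc83.L5

/-!
BC83 L6. The theorem on the generic branch.

Plan: `x' = xb (tr S₀ S₂ q₀ x) (cv c₀ dec)`. `Dep` by `dep_nd`, `dep_tr`, `Dep.iSup`, `Dep.mono`.
For `r ∈ realV x'` use `realV_of` with `a = RO.of r` (`RO.of_le_iff`), and for the last part
`RO.mem_iSup`: in both cases let `p ≤ r` be given; by `fill`, `decide_nd` and `step` there are
`p' ≤ p`, `i` and a string `s'` of length at least `k` with `p' ∈ nd i s' ⊓ U j s'`; and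
`nd i s' ≤ str x' s'` by `nd_le_str`. The hypotheses on `cv` are `cv_total`, `cv_disj`
(from `H.hdec`).
-/

namespace Pool.Agent.LibBc83

open Pool.Agent.LibTk83

variable {C V : Type} {ok : C → V → Prop}

private theorem L6_key {S₀ S₂ S₃ : Set C} {c₀ : ℕ → C} {dec : V → List ℕ} {r q₀ : Cond C V ok}
    {x : ℕ → ℕ → RO (Cond C V ok)} {U : ℕ → List ℕ → RO (Cond C V ok)}
    (H : Ctx S₀ S₂ S₃ c₀ dec r q₀ x U) {p : Cond C V ok} (hp : p ≤ r) (j k : ℕ) :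
    ∃ p' i s', p' ≤ p ∧ k ≤ s'.length ∧ p' ∈ nd (tr S₀ S₂ q₀ x) (cv c₀ dec) i s' ∧
      p' ∈ U j s' := by
  have hok : ∀ i, ∃ v, ok (c₀ i) v := fun i => by
    obtain ⟨v, hv, -⟩ := H.hdec i []
    exact ⟨v, hv⟩
  obtain ⟨p₁, i, h₁, hd₁⟩ := fill H.inj hok p
  obtain ⟨p₂, t, h₂, hd₂, hn⟩ := decide_nd (dec := dec) (T := tr S₀ S₂ q₀ x)
    (fun i h => H.hc2 i (H.h02 h)) hok (fun _ => dep_tr) hd₁
  obtain ⟨p₃, s', h₃, hk, hn', hU⟩ := step H (h₂.trans (h₁.trans hp)) hd₂ hn j k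
  exact ⟨p₃, i + 1, s', h₃.trans (h₂.trans h₁), hk, hn', hU⟩

theorem branch {S₀ S₂ S₃ : Set C} {c₀ : ℕ → C} {dec : V → List ℕ} {r q₀ : Cond C V ok}
    {x : ℕ → ℕ → RO (Cond C V ok)} {U : ℕ → List ℕ → RO (Cond C V ok)}
    (H : Ctx S₀ S₂ S₃ c₀ dec r q₀ x U) :
    ∃ x' : ℕ → ℕ → RO (Cond C V ok), (∀ n m, Dep (S₀ ∪ Set.range c₀) (x' n m)) ∧
      r ∈ realV x' ∧ ∀ j, r ∈ ⨆ s, str x' s ⊓ U j s := by
  have hok : ∀ i, ∃ v, ok (c₀ i) v := fun i => by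
    obtain ⟨v, hv, -⟩ := H.hdec i []
    exact ⟨v, hv⟩
  refine ⟨xb (tr S₀ S₂ q₀ x) (cv c₀ dec), ?_, ?_, ?_⟩
  · intro n m
    unfold xb
    refine Dep.iSup fun i => Dep.iSup fun t => Dep.iSup fun _ => ?_
    refine Dep.mono ?_ (dep_nd (fun _ => dep_tr) i t)
    exact Set.union_subset_union_right _ (Set.image_subset_range _ _)
  · rw [← RO.of_le_iff]
    refine realV_of (cv_total hok) cv_disj (RO.of r) fun n => ?_
    rw [RO.of_le_iff, RO.mem_iSup]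
    intro q hq
    obtain ⟨p', i, s', hp', hk, hn, -⟩ := L6_key H hq 0 (n + 1)
    refine ⟨p', hp', i, ?_⟩
    have hle : nd (tr S₀ S₂ q₀ x) (cv c₀ dec) i s' ≤
        ⨆ t : List ℕ, ⨆ (_ : n < t.length), nd (tr S₀ S₂ q₀ x) (cv c₀ dec) i t :=
      le_iSup₂_of_le s' (by omega) le_rfl
    exact RO.le_def.1 hle p' hn
  · intro j
    rw [RO.mem_iSup]
    intro q hq
    obtain ⟨p', i, s', hp', -, hn, hU⟩ := L6_key H hq j 0
    exact ⟨p', hp', s', RO.mem_inf.2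
      ⟨RO.le_def.1 (nd_le_str i s' s' (List.prefix_refl s')) p' hn, hU⟩⟩

end Pool.Agent.LibBc83
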