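import Pool.Agent.LibBc83.MA

/-!
BC83 M1. First step of the choice argument.

Plan. `p.res S₀ ∈ X.vSeq t ⊓ X.hyp t n` (`dep_vSeq_hyp`). Unfold `hyp` and `vGdS_eq`, and use
`RO.mem_inf`, `RO.mem_iSup` (below a condition in a supremum there is a condition in one member):
there are `p₀ ≤ p.res S₀` and `A`, `x`, `g` with `p₀` in the last truth value. Let `S' ∈ 𝓢` contain
`S₀`, `p₀.dom` (`exists_supp_of_finite`) and supports of `g` and `x` (`exists_suppC`, `h𝓢.union`,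
`suppC_mono`). By `h𝓢.move S₀ S' T` there is `γ` which fixes `S₀` and moves `S' \ S₀` off `T`. Take
`S₁` the image of `S'` under `γ` (`h𝓢.trans`; `S₀ ⊆ S₁` since `γ` fixes `S₀`; if `γ • d ∈ T`,
`d ∈ S'`, then `d ∈ S₀`), `p₁ = γ • p₀`, `X.act γ A`, `X.act γ g`, `X.act γ x`.
`p₁ ≤ γ • p.res S₀ = p.res S₀` (`smul_of_dom`), `dom_smul`; the truth values: `smul_mem_smul`,
`smul_inf'`, `vSeq_act`, `rl_nat_act`, `X.mem_act`, `vAllGd_act`, `vUn_act`, and `X.act γ t` may be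
replaced by `t` since `X.eq (X.act γ t) t = ⊤` (`ext_vSeq`, `ext_rl_left`, `Ext.congr`).
-/

namespace Pool.Agent.LibBc83

open Pool.Agent.LibTk83

namespace SM

variable {G C V : Type} {ok : C → V → Prop} [Group G] [MulAction G C] [OkAct G C ok]
  {𝓢 : Set (Set C)} {X : SM (RO (Cond C V ok)) G (famOf G 𝓢)}

theorem first (h𝓢 : Supps G 𝓢) {S₀ T : Set C} (hS₀ : S₀ ∈ 𝓢) (hT : T ∈ 𝓢) {t : X.N}
    (ht : X.Supp (fixS G S₀) t) {n : ℕ} {p : Cond C V ok} (hp : p ∈ X.vSeq t ⊓ X.hyp t n) :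
    ∃ S₁ ∈ 𝓢, S₀ ⊆ S₁ ∧ (∀ c ∈ S₁, c ∈ T → c ∈ S₀) ∧
      ∃ (p₁ : Cond C V ok) (A g x : X.N), p₁ ≤ p.res S₀ ∧ p₁.dom ⊆ S₁ ∧
        X.Supp (fixS G S₁) g ∧ X.Supp (fixS G S₁) x ∧
        p₁ ∈ X.vSeq t ⊓ (X.rl t (X.nat n) A ⊓ (X.mem x A ⊓
          (X.vSeq g ⊓ (X.vAllGd g ⊓ X.vUn A g)))) := by
  have h1 := dep_vSeq_hyp h𝓢 hS₀ ht n p hp
  obtain ⟨hseq, hhyp⟩ := RO.mem_inf.1 h1
  unfold hyp at hhyp
  obtain ⟨r₁, hr₁, A, hA⟩ := RO.mem_iSup.1 hhyp _ le_rfl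
  obtain ⟨hrl, hA'⟩ := RO.mem_inf.1 hA
  obtain ⟨hAne, hAGd⟩ := RO.mem_inf.1 hA'
  obtain ⟨r₂, hr₂, x, hx⟩ := RO.mem_iSup.1 hAne _ le_rfl
  have hAGd₂ := RO.mem_of_le hr₂ hAGd
  rw [vGdS_eq] at hAGd₂
  obtain ⟨p₀, hp₀, g, hg⟩ := RO.mem_iSup.1 hAGd₂ _ le_rfl
  obtain ⟨hg1, hg'⟩ := RO.mem_inf.1 hg
  obtain ⟨hg2, hg3⟩ := RO.mem_inf.1 hg'
  have hp₀r₁ : p₀ ≤ r₁ := hp₀.trans hr₂
  have hp₀p : p₀ ≤ p.res S₀ := hp₀r₁.trans hr₁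
  obtain ⟨D, hD, hpD⟩ := exists_supp_of_finite h𝓢 p₀.dom_finite
  obtain ⟨Sg, hSg, hgs⟩ := exists_suppC g
  obtain ⟨Sx, hSx, hxs⟩ := exists_suppC x
  have hS' : S₀ ∪ (D ∪ (Sg ∪ Sx)) ∈ 𝓢 :=
    h𝓢.union _ hS₀ _ (h𝓢.union _ hD _ (h𝓢.union _ hSg _ hSx))
  obtain ⟨γ, hγ, hmove⟩ := h𝓢.move S₀ hS₀ _ hS' T hT
  refine ⟨(fun c => γ • c) '' (S₀ ∪ (D ∪ (Sg ∪ Sx))), h𝓢.trans _ hS' γ, ?_, ?_, γ • p₀,
    X.act γ A, X.act γ g, X.act γ x, ?_, ?_, ?_, ?_, ?_⟩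
  · intro c hc
    exact ⟨c, Or.inl hc, hγ c hc⟩
  · rintro c ⟨d, hd, rfl⟩ hcT
    by_cases hd₀ : d ∈ S₀
    · have h2 : (fun c => γ • c) d = d := hγ d hd₀
      rw [h2]
      exact hd₀
    · exact absurd hcT (hmove d hd hd₀)
  · have h2 : γ • p₀ ≤ γ • p.res S₀ := cond_smul_le γ hp₀p
    rwa [smul_of_dom (S := S₀) (p := p.res S₀)
      (by rw [Cond.dom_res]; exact Set.inter_subset_right) hγ] at h2
  · rw [dom_smul]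
    exact Set.image_mono fun c hc => Or.inr (Or.inl (hpD hc))
  · exact suppC_act γ (suppC_mono (fun c hc => Or.inr (Or.inr (Or.inl hc))) hgs)
  · exact suppC_act γ (suppC_mono (fun c hc => Or.inr (Or.inr (Or.inr hc))) hxs)
  · have e1 : γ • p₀ ∈ X.vSeq t := by
      have h2 := smul_mem_smul (g := γ) (RO.mem_of_le hp₀p hseq)
      rwa [← vSeq_act, ext_vSeq.congr (ht γ hγ)] at h2
    have e2 : γ • p₀ ∈ X.rl t (X.nat n) (X.act γ A) := by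
      have h2 := smul_mem_smul (g := γ) (RO.mem_of_le hp₀r₁ hrl)
      rwa [← rl_nat_act, (X.ext_rl_left (X.nat n) (X.act γ A)).congr (ht γ hγ)] at h2
    have e3 : γ • p₀ ∈ X.mem (X.act γ x) (X.act γ A) := by
      have h2 := smul_mem_smul (g := γ) (RO.mem_of_le hp₀ hx)
      rwa [← X.mem_act] at h2
    have e4 : γ • p₀ ∈ X.vSeq (X.act γ g) := by
      have h2 := smul_mem_smul (g := γ) hg1
      rwa [← vSeq_act] at h2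
    have e5 : γ • p₀ ∈ X.vAllGd (X.act γ g) := by
      have h2 := smul_mem_smul (g := γ) hg2
      rwa [← vAllGd_act] at h2
    have e6 : γ • p₀ ∈ X.vUn (X.act γ A) (X.act γ g) := by
      have h2 := smul_mem_smul (g := γ) hg3
      rwa [← vUn_act] at h2
    exact RO.mem_inf.2 ⟨e1, RO.mem_inf.2 ⟨e2, RO.mem_inf.2 ⟨e3, RO.mem_inf.2 ⟨e4,
      RO.mem_inf.2 ⟨e5, e6⟩⟩⟩⟩⟩

end SM

end Pool.Agent.LibBc83
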