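import Pool.Agent.LibBc83.MA

/-!
BC83 M2. Second step of the choice argument: an independent copy of the real `x`.

Plan. By `h𝓢.move S₀ S₁ (S₁ ∪ T)` there is `π` which fixes `S₀` and moves `S₁ \ S₀` off `S₁ ∪ T`.
Let `S₂` be the image of `S₁` under `π`, `x' = X.act π x`. If `c = π • d ∈ S₂`, `d ∈ S₁`, and
`c ∈ S₁` or `c ∈ T` then `d ∈ S₀`, so `c = d ∈ S₀`. `π • p₁` and `p₁` are compatible (`comp_smul`
with `S = S₀`, `q = p₁`; `p₁.dom ⊆ S₁`). Let `p₂ = union p₁ (π • p₁)` (use `Comp.symm`).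
`π • p₁` is in `X.rl t (X.nat n) (X.act π A)` and in `X.mem x' (X.act π A)` (`smul_mem_smul`,
`rl_nat_act`, `X.eq (X.act π t) t = ⊤`, `X.mem_act`), so `p₂ ∈ X.eq A (X.act π A)` (`vSeq_uniq`),
`p₂ ∈ X.mem x' A` (`X.eqax.memr`), and by `vUn_mem` and `RO.mem_iSup` there are `p₃ ≤ p₂` and `k`,
`D` with `p₃ ∈ X.rl g (X.nat k) D ⊓ X.mem x' D ≤ X.inh g k x'`.
-/

namespace Pool.Agent.LibBc83

open Pool.Agent.LibTk83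

namespace SM

variable {G C V : Type} {ok : C → V → Prop} [Group G] [MulAction G C] [OkAct G C ok]
  {𝓢 : Set (Set C)} {X : SM (RO (Cond C V ok)) G (famOf G 𝓢)}

private theorem M2_rl (u v a b : X.N) (h : X.eq u v = ⊤) : X.rl u a b = X.rl v a b :=
  (X.ext_rl_left a b).congr h

theorem second (h𝓢 : Supps G 𝓢) {S₀ S₁ T : Set C} (hS₀ : S₀ ∈ 𝓢) (hS₁ : S₁ ∈ 𝓢) (hT : T ∈ 𝓢)
    (h01 : S₀ ⊆ S₁) {t : X.N} (ht : X.Supp (fixS G S₀) t) {n : ℕ} {p₁ : Cond C V ok}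
    {A g x : X.N} (hd : p₁.dom ⊆ S₁) (hx : X.Supp (fixS G S₁) x)
    (hp : p₁ ∈ X.vSeq t ⊓ (X.rl t (X.nat n) A ⊓ (X.mem x A ⊓
      (X.vSeq g ⊓ (X.vAllGd g ⊓ X.vUn A g))))) :
    ∃ S₂ ∈ 𝓢, S₀ ⊆ S₂ ∧ (∀ c ∈ S₂, c ∈ S₁ → c ∈ S₀) ∧ (∀ c ∈ S₂, c ∈ T → c ∈ S₀) ∧
      ∃ (p₃ : Cond C V ok) (x' : X.N) (k : ℕ), p₃ ≤ p₁ ∧ X.Supp (fixS G S₂) x' ∧
        p₃ ∈ X.inh g k x' := by
  obtain ⟨π, hπ, hmove⟩ := h𝓢.move S₀ hS₀ S₁ hS₁ (S₁ ∪ T) (h𝓢.union S₁ hS₁ T hT)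
  obtain ⟨h1, h2, h3, h4, h5, h6⟩ : p₁ ∈ X.vSeq t ∧ p₁ ∈ X.rl t (X.nat n) A ∧ p₁ ∈ X.mem x A ∧
      p₁ ∈ X.vSeq g ∧ p₁ ∈ X.vAllGd g ∧ p₁ ∈ X.vUn A g := by
    simpa only [RO.mem_inf] using hp
  have hoff : ∀ c ∈ (fun c => π • c) '' S₁, c ∈ S₁ ∪ T → c ∈ S₀ := by
    rintro c ⟨d, hd, rfl⟩ hc
    by_cases hd0 : d ∈ S₀
    · have h7 : π • d = d := hπ d hd0
      change π • d ∈ S₀
      rwa [h7]
    · exact absurd hc (hmove d hd hd0)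
  refine ⟨(fun c => π • c) '' S₁, h𝓢.trans S₁ hS₁ π, fun c hc => ⟨c, h01 hc, hπ c hc⟩,
    fun c hc hc1 => hoff c hc (Or.inl hc1), fun c hc hcT => hoff c hc (Or.inr hcT), ?_⟩
  have hcomp : Cond.Comp (π • p₁) p₁ :=
    comp_smul hπ (Cond.comp_of_le (Cond.le_res _ _) le_rfl)
      (fun c hc hc0 hc' => hmove c (hd hc) hc0 (Or.inl (hd hc')))
  have hle1 : Cond.union p₁ (π • p₁) ≤ p₁ := Cond.union_le_left _ _
  have hle2 : Cond.union p₁ (π • p₁) ≤ π • p₁ := Cond.union_le_right hcomp.symm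
  have h7 : π • p₁ ∈ X.rl t (X.nat n) (X.act π A) := by
    have h8 : π • p₁ ∈ X.rl (X.act π t) (X.nat n) (X.act π A) := by
      rw [rl_nat_act]
      exact smul_mem_smul h2
    have h9 := M2_rl (X := X) (X.act π t) t (X.nat n) (X.act π A) (ht π hπ)
    rwa [h9] at h8
  have h8 : π • p₁ ∈ X.mem (X.act π x) (X.act π A) := by
    rw [X.mem_act]
    exact smul_mem_smul h3
  have h9 : Cond.union p₁ (π • p₁) ∈ X.eq A (X.act π A) :=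
    vSeq_uniq t A (X.act π A) n (RO.mem_inf.2 ⟨RO.mem_inf.2 ⟨RO.mem_of_le hle1 h1,
      RO.mem_of_le hle1 h2⟩, RO.mem_of_le hle2 h7⟩)
  have h10 : Cond.union p₁ (π • p₁) ∈ X.mem (X.act π x) A := by
    refine X.eqax.memr (X.act π x) (X.act π A) A (RO.mem_inf.2 ⟨?_, RO.mem_of_le hle2 h8⟩)
    rw [X.eqax.symm]
    exact h9
  have h11 : Cond.union p₁ (π • p₁) ∈
      ⨆ k, ⨆ D, X.rl g (X.nat k) D ⊓ X.mem (X.act π x) D :=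
    vUn_mem A g (X.act π x) (RO.mem_inf.2 ⟨RO.mem_of_le hle1 h6, h10⟩)
  rw [RO.mem_iSup] at h11
  obtain ⟨r, hr, k, hk⟩ := h11 _ le_rfl
  exact ⟨r, X.act π x, k, hr.trans hle1, suppC_act π hx, hk⟩

end SM

end Pool.Agent.LibBc83
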