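import Pool.Agent.LibBc83.MA

/-!
BC83 M3. Third step of the choice argument: a sequence of open sets for the `k`-th term of `g`,
independent of the copy.

Plan. `p₃` is in `b = ⨆ D, X.rl g (X.nat k) D ⊓ X.vGd D` (from `hp` and `vAllGd_rl`), which
depends only on `S₁` (`dep_rl_vGd`), so `p₃.res S₁ ∈ b`. By `RO.mem_iSup`, `vGd_eq` there are
`r₀ ≤ p₃.res S₁`, `D`, `h` with `r₀ ∈ X.rl g (X.nat k) D ⊓ (X.vSeq h ⊓ X.vGdC h D)`. Let `S' ∈ 𝓢`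
contain `S₁`, `r₀.dom` and a support of `h`. By `h𝓢.move S₁ S' (S₂ ∪ T)` there is `σ` which fixes
`S₁` and moves `S' \ S₁` off `S₂ ∪ T`. Let `S₃` be the image of `S'` under `σ`, `r = σ • r₀`,
`X.act σ D`, `X.act σ h`. If `c = σ • d ∈ S₃` is in `S₂` or in `T` then `d ∈ S₁`, so `c = d ∈ S₁`,
hence `c ∈ S₀` by `h21` or `h1T`. `r ≤ σ • p₃.res S₁ = p₃.res S₁` (`smul_of_dom`). The truth values
as in M1 (`vGdC_act`, `vSeq_act`, `rl_nat_act`, `X.eq (X.act σ g) g = ⊤`).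
-/

namespace Pool.Agent.LibBc83

open Pool.Agent.LibTk83

namespace SM

variable {G C V : Type} {ok : C → V → Prop} [Group G] [MulAction G C] [OkAct G C ok]
  {𝓢 : Set (Set C)} {X : SM (RO (Cond C V ok)) G (famOf G 𝓢)}

theorem third (h𝓢 : Supps G 𝓢) {S₀ S₁ S₂ T : Set C} (hS₁ : S₁ ∈ 𝓢) (hS₂ : S₂ ∈ 𝓢)
    (hT : T ∈ 𝓢) (h1T : ∀ c ∈ S₁, c ∈ T → c ∈ S₀) (h21 : ∀ c ∈ S₂, c ∈ S₁ → c ∈ S₀)
    {g x' : X.N} (hg : X.Supp (fixS G S₁) g) {p₃ : Cond C V ok} {k : ℕ}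
    (hp : p₃ ∈ X.vAllGd g) (hp' : p₃ ∈ X.inh g k x') :
    ∃ S₃ ∈ 𝓢, S₁ ⊆ S₃ ∧ (∀ c ∈ S₃, c ∈ S₂ → c ∈ S₀) ∧ (∀ c ∈ S₃, c ∈ T → c ∈ S₀) ∧
      ∃ (r : Cond C V ok) (D h : X.N), r ≤ p₃.res S₁ ∧ r.dom ⊆ S₃ ∧ X.Supp (fixS G S₃) h ∧
        r ∈ X.rl g (X.nat k) D ⊓ (X.vSeq h ⊓ X.vGdC h D) := by
  have hb : X.vAllGd g ⊓ X.inh g k x' ≤ ⨆ D, X.rl g (X.nat k) D ⊓ X.vGd D := by
    unfold inh
    rw [inf_iSup_eq]
    refine iSup_mono fun U => ?_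
    refine le_inf (inf_le_right.trans inf_le_left) ?_
    exact (inf_le_inf_left _ inf_le_left).trans (vAllGd_rl g U k)
  have h1 : p₃ ∈ ⨆ D, X.rl g (X.nat k) D ⊓ X.vGd D := hb (RO.mem_inf.2 ⟨hp, hp'⟩)
  have h2 : p₃.res S₁ ∈ ⨆ D, X.rl g (X.nat k) D ⊓ X.vGd D := dep_rl_vGd h𝓢 hS₁ hg k p₃ h1
  obtain ⟨r₁, hr₁, D, hD⟩ := RO.mem_iSup.1 h2 _ le_rfl
  obtain ⟨hD1, hD2⟩ := RO.mem_inf.1 hD
  rw [vGd_eq] at hD2
  obtain ⟨r₀, hr₀, h, hh⟩ := RO.mem_iSup.1 hD2 _ le_rfl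
  obtain ⟨hh1, hh2⟩ := RO.mem_inf.1 hh
  have hD1' : r₀ ∈ X.rl g (X.nat k) D := RO.mem_of_le hr₀ hD1
  obtain ⟨Sd, hSd, hdom⟩ := exists_supp_of_finite h𝓢 r₀.dom_finite
  obtain ⟨Sh, hSh, hsupp⟩ := exists_suppC h
  have hS' : S₁ ∪ Sd ∪ Sh ∈ 𝓢 := h𝓢.union _ (h𝓢.union _ hS₁ _ hSd) _ hSh
  obtain ⟨σ, hσ, hmove⟩ := h𝓢.move S₁ hS₁ (S₁ ∪ Sd ∪ Sh) hS' (S₂ ∪ T) (h𝓢.union _ hS₂ _ hT)
  have key : ∀ c ∈ (fun c => σ • c) '' (S₁ ∪ Sd ∪ Sh), c ∈ S₂ ∪ T → c ∈ S₁ := by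
    rintro _ ⟨d, hd, rfl⟩ hc
    have hd1 : d ∈ S₁ := by
      by_contra hd1
      exact hmove d hd hd1 hc
    have h3 : σ • d = d := hσ d hd1
    change σ • d ∈ S₁
    rw [h3]
    exact hd1
  refine ⟨(fun c => σ • c) '' (S₁ ∪ Sd ∪ Sh), h𝓢.trans _ hS' σ, ?_, ?_, ?_, σ • r₀, X.act σ D,
    X.act σ h, ?_, ?_, ?_, ?_⟩
  · intro c hc
    exact ⟨c, Or.inl (Or.inl hc), hσ c hc⟩
  · intro c hc hc2
    exact h21 c hc2 (key c hc (Or.inl hc2))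
  · intro c hc hcT
    exact h1T c (key c hc (Or.inr hcT)) hcT
  · have h3 : σ • p₃.res S₁ = p₃.res S₁ := by
      refine smul_of_dom (S := S₁) ?_ hσ
      intro c hc
      by_contra hcS
      obtain ⟨v, hv⟩ := Cond.mem_dom_iff.1 hc
      rw [Cond.res_f_of_not_mem hcS] at hv
      exact absurd hv (by simp)
    rw [← h3]
    exact cond_smul_le σ (hr₀.trans hr₁)
  · rw [dom_smul]
    exact Set.image_mono (hdom.trans (Set.subset_union_right.trans Set.subset_union_left))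
  · exact suppC_act σ (suppC_mono Set.subset_union_right hsupp)
  · refine RO.mem_inf.2 ⟨?_, RO.mem_inf.2 ⟨?_, ?_⟩⟩
    · have h3 : X.rl (X.act σ g) (X.nat k) (X.act σ D) = X.rl g (X.nat k) (X.act σ D) :=
        (ext_rl_left X (X.nat k) (X.act σ D)).congr (hg σ hσ)
      rw [← h3, rl_nat_act]
      exact smul_mem_smul hD1'
    · rw [vSeq_act]
      exact smul_mem_smul hh1
    · rw [vGdC_act]
      exact smul_mem_smul hh2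

end SM

end Pool.Agent.LibBc83
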