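import Pool.Agent.LibBc83.MA
import Pool.Agent.LibBc83.L6

/-!
BC83 M4. Fourth step of the choice argument: the generic branch.

Plan. Let `q₀ = p₃.res (S₂ \ S₀)`. Claim: if `p ≤ r` and `p ≤ q₀` then `p ∈ X.mem x' D`. Indeed
`X.inh g k x'` depends only on `S₁ ∪ S₂` (`dep_inh`, `h𝓢.union`, `suppC_mono`), so
`p₃.res (S₁ ∪ S₂) ∈ X.inh g k x'`, and `p ≤ p₃.res (S₁ ∪ S₂)` (on `S₁` because
`p ≤ r ≤ p₃.res S₁`, on `S₂ \ S₀` because `p ≤ q₀`; `S₂ ∩ S₀ ⊆ S₁`). Also `p ∈ X.vSeq g` and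
`p ∈ X.rl g (X.nat k) D`; by `vSeq_uniq` all terms of `g` at `k` are equal to `D`, so
`p ∈ X.mem x' D`. By `gd_mem'`: `p ∈ X.vReal x'` and `p ∈ ⨆ s, str (X.dig x') s ⊓ X.nbh h j s` for
each `j`; `p ∈ realV (X.dig x')` by `vReal_le`. So the hypotheses of `branch` (structure `Ctx`) hold
with `x = X.dig x'`, `U = X.nbh h` (`dep_dig`, `dep_nbh`, `nbh_mono`; `c₀ i ∉ S₂`: otherwise
`c₀ i ∈ S₀` by `h2T`, as `c₀ i ∈ T`; the same for `S₃`; `res_eq_self_iff`, `dom_res` for `r` and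
`q₀`). Let `x''` be the result; `rn x''` is a name by `hsym`; `r ∈ X.vReal (rn x'')` by
`vReal_rn`; `X.dig (rn x'') = x''` (`dig_rn`), so `r ∈ X.mem (rn x'') D` by `gd_mem`, hence
`r ∈ X.mem (rn x'') A` by `mem_of_vUn`, and `r ∈ X.rl t (X.nat n) A ⊓ X.mem (rn x'') A ≤
X.inh t n (rn x'')` (`r ≤ p₃.res S₁ ≤ p₁`, because `p₃ ≤ p₁` and `p₁.dom ⊆ S₁`).
-/

namespace Pool.Agent.LibBc83

open Pool.Agent.LibTk83

namespace SM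

variable {G C V : Type} {ok : C → V → Prop} [Group G] [MulAction G C] [OkAct G C ok]
  {𝓢 : Set (Set C)} {X : SM (RO (Cond C V ok)) G (famOf G 𝓢)}

private theorem M4_inh (g x D : X.N) (k : ℕ) :
    X.vSeq g ⊓ X.rl g (X.nat k) D ⊓ X.inh g k x ≤ X.mem x D := by
  unfold inh
  rw [inf_iSup_eq]
  refine iSup_le fun U => ?_
  have h1 : X.vSeq g ⊓ X.rl g (X.nat k) D ⊓ (X.rl g (X.nat k) U ⊓ X.mem x U) ≤ X.eq U D := by
    rw [X.eqax.symm U D]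
    refine le_trans ?_ (vSeq_uniq g D U k)
    exact inf_le_inf_left _ inf_le_left
  refine le_trans (le_inf h1 (inf_le_right.trans inf_le_right)) ?_
  exact X.eqax.memr x U D

theorem fourth (h𝓢 : Supps G 𝓢) {S₀ S₁ S₂ S₃ T : Set C} (hS₁ : S₁ ∈ 𝓢) (hS₂ : S₂ ∈ 𝓢)
    (hS₃ : S₃ ∈ 𝓢) (h01 : S₀ ⊆ S₁) (h02 : S₀ ⊆ S₂) (h13 : S₁ ⊆ S₃)
    (h32 : ∀ c ∈ S₃, c ∈ S₂ → c ∈ S₀) (h2T : ∀ c ∈ S₂, c ∈ T → c ∈ S₀)
    (h3T : ∀ c ∈ S₃, c ∈ T → c ∈ S₀)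
    {c₀ : ℕ → C} (inj : Function.Injective c₀) (hc0 : ∀ i, c₀ i ∉ S₀) (hcT : ∀ i, c₀ i ∈ T)
    {dec : V → List ℕ} (hdec : ∀ i s, ∃ v, ok (c₀ i) v ∧ dec v = s)
    {t A g x' D h : X.N} {n k : ℕ} {p₁ p₃ r : Cond C V ok} (hd : p₁.dom ⊆ S₁)
    (hp : p₁ ∈ X.vSeq t ⊓ (X.rl t (X.nat n) A ⊓ (X.vSeq g ⊓ X.vUn A g)))
    (hg : X.Supp (fixS G S₁) g) (hx' : X.Supp (fixS G S₂) x') (hh : X.Supp (fixS G S₃) h)
    (h3 : p₃ ≤ p₁) (h3' : p₃ ∈ X.inh g k x') (hr : r ≤ p₃.res S₁) (hrd : r.dom ⊆ S₃)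
    (hr' : r ∈ X.rl g (X.nat k) D ⊓ (X.vSeq h ⊓ X.vGdC h D)) :
    ∃ x'' : ℕ → ℕ → RO (Cond C V ok), (∀ n m, Dep (S₀ ∪ Set.range c₀) (x'' n m)) ∧
      ∀ hsym : SymF (famOf G 𝓢) x'', r ∈ X.inh t n (X.rn x'' hsym) := by
  have hp31 : p₃.res S₁ ≤ p₁ := by
    have h1 := Cond.res_mono S₁ h3
    rwa [Cond.res_eq_self_iff.2 hd] at h1
  have hrp : r ≤ p₁ := hr.trans hp31
  have hp' := hp
  rw [RO.mem_inf, RO.mem_inf, RO.mem_inf] at hp'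
  obtain ⟨-, hpA, hpg, hpU⟩ := hp'
  have hr'' := hr'
  rw [RO.mem_inf, RO.mem_inf] at hr''
  obtain ⟨hrD, hrh, hrG⟩ := hr''
  -- the key claim
  have hdep : Dep (S₁ ∪ S₂) (X.inh g k x') :=
    dep_inh h𝓢 (h𝓢.union S₁ hS₁ S₂ hS₂) (suppC_mono Set.subset_union_left hg)
      (suppC_mono Set.subset_union_right hx') k
  have key : ∀ p, p ≤ r → p ≤ p₃.res (S₂ \ S₀) → p ∈ X.mem x' D := by
    intro p hpr hpq
    have h1 : p ≤ p₃.res (S₁ ∪ S₂) := by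
      intro c v hv
      by_cases hc : c ∈ S₁ ∪ S₂
      · rw [Cond.res_f_of_mem hc] at hv
        by_cases hc1 : c ∈ S₁
        · exact hpr c v (hr c v (by rw [Cond.res_f_of_mem hc1]; exact hv))
        · have hc2 : c ∈ S₂ \ S₀ := ⟨hc.resolve_left hc1, fun h => hc1 (h01 h)⟩
          exact hpq c v (by rw [Cond.res_f_of_mem hc2]; exact hv)
      · rw [Cond.res_f_of_not_mem hc] at hv
        exact absurd hv (by simp)
    have h2 : p ∈ X.inh g k x' := RO.mem_of_le h1 (hdep p₃ h3')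
    refine RO.le_def.1 (M4_inh g x' D k) p ?_
    rw [RO.mem_inf, RO.mem_inf]
    exact ⟨⟨RO.mem_of_le (hpr.trans hrp) hpg, RO.mem_of_le hpr hrD⟩, h2⟩
  have key2 : ∀ p, p ≤ r → p ≤ p₃.res (S₂ \ S₀) →
      p ∈ X.vReal x' ⊓ ⨅ j, ⨆ s, str (X.dig x') s ⊓ X.nbh h j s := by
    intro p hpr hpq
    refine RO.le_def.1 (gd_mem' h D x') p ?_
    rw [RO.mem_inf, RO.mem_inf]
    exact ⟨⟨RO.mem_of_le hpr hrh, RO.mem_of_le hpr hrG⟩, key p hpr hpq⟩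
  have H : Ctx S₀ S₂ S₃ c₀ dec r (p₃.res (S₂ \ S₀)) (X.dig x') (X.nbh h) :=
    { h02 := h02
      h03 := h01.trans h13
      h23 := fun c h2 h3 => h32 c h3 h2
      inj := inj
      hc2 := fun i hi => hc0 i (h2T _ hi (hcT i))
      hc3 := fun i hi => hc0 i (h3T _ hi (hcT i))
      hdec := hdec
      hr := Cond.res_eq_self_iff.2 hrd
      hq := Cond.res_res_self _ _
      hx := fun n m => dep_dig h𝓢 hS₂ hx' n m
      hU := fun j s => dep_nbh h𝓢 hS₃ hh j s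
      hUm := fun j s t hst => nbh_mono h j hst
      hreal := fun p hpr hpq => RO.le_def.1 (vReal_le x') p (RO.mem_inf.1 (key2 p hpr hpq)).1
      hmeet := fun p hpr hpq j => RO.mem_iInf.1 (RO.mem_inf.1 (key2 p hpr hpq)).2 j }
  obtain ⟨x'', hdep'', hreal, hmeet⟩ := branch H
  refine ⟨x'', hdep'', fun hsym => ?_⟩
  have hdig : X.dig (X.rn x'' hsym) = x'' := by
    funext n m
    exact dig_rn X x'' hsym n m
  have hD : r ∈ X.mem (X.rn x'' hsym) D := by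
    refine RO.le_def.1 (gd_mem h D (X.rn x'' hsym)) r ?_
    rw [RO.mem_inf, RO.mem_inf, RO.mem_inf, vReal_rn, hdig]
    exact ⟨⟨hrh, hrG⟩, hreal, RO.mem_iInf.2 hmeet⟩
  have hA : r ∈ X.mem (X.rn x'' hsym) A := by
    refine RO.le_def.1 (mem_of_vUn A g (X.rn x'' hsym) D k) r ?_
    rw [RO.mem_inf, RO.mem_inf]
    exact ⟨⟨RO.mem_of_le hrp hpU, hrD⟩, hD⟩
  have hle : X.rl t (X.nat n) A ⊓ X.mem (X.rn x'' hsym) A ≤ X.inh t n (X.rn x'' hsym) :=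
    le_iSup (fun U => X.rl t (X.nat n) U ⊓ X.mem (X.rn x'' hsym) U) A
  refine RO.le_def.1 hle r ?_
  rw [RO.mem_inf]
  exact ⟨RO.mem_of_le hrp hpA, hA⟩

end SM

end Pool.Agent.LibBc83
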