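import Pool.Agent.LibBc83.RA

/-!
BC83 RG. Mixing: among the names `rn x`, with `x` fixed by `S`, there is one for which the truth
value of `φ` is greatest.

Plan. Let `K` be the type of all `x` which are fixed by `S`, with a well-order `<`
(`exists_wellOrder` or `WellOrderingRel`, `IsWellOrder.linearOrder`). For `y : K` put
`a y = φ (rn y) ⊓ (⨆ z, ⨆ (_ : z < y), φ (rn z))ᶜ`. The `a y` are pairwise disjoint, fixed by `S`
(`hi`, `supp_rn`: `g • φ (rn y) = φ (rn y)` by `Inv.of_supp`), and `φ (rn y) ≤ ⨆ z, a z` for each `y` (well-founded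
induction). Let `x n m = ⨆ y, a y ⊓ y n m`; it is fixed by `S`. Below `a y`, `x n m` and `y n m`
are equal (disjointness), so `a y ≤ X.eq (rn y) (rn x)` by `rn_le_eq`, and
`a y ≤ X.eq (rn y) (rn x) ⊓ φ (rn y) ≤ φ (rn x)`.
-/

namespace Pool.Agent.LibBc83

namespace SM

variable {B : Type} [CompleteBooleanAlgebra B] {G : Type} [Group G] [MulAction G B]
  [OrdAct G B] {Fam : Set (Set G)} (X : SM B G Fam)

theorem mix {S : Set G} (hS : S ∈ Fam) {φ : X.N → B} (hφ : X.Ext φ) (hi : X.Inv S φ) :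
    ∃ x : ℕ → ℕ → B, ∃ hx : ∀ g ∈ S, ∀ n m, g • x n m = x n m,
      ∀ (y : ℕ → ℕ → B) (hy : ∀ g ∈ S, ∀ n m, g • y n m = y n m),
        φ (X.rn y ⟨S, hS, hy⟩) ≤ φ (X.rn x ⟨S, hS, hx⟩) := by
  classical
  let K : Type := {y : ℕ → ℕ → B // ∀ g ∈ S, ∀ n m, g • y n m = y n m}
  let P : K → B := fun y => φ (X.rn y.1 ⟨S, hS, y.2⟩)
  let a : K → B := fun y => P y ⊓ (⨆ z : K, ⨆ (_ : WellOrderingRel z y), P z)ᶜ
  have hP : ∀ g ∈ S, ∀ y, g • P y = P y := fun g hg y =>
    hi.of_supp hφ (X.supp_rn y.1 ⟨S, hS, y.2⟩ y.2) hg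
  have ha : ∀ g ∈ S, ∀ y, g • a y = a y := by
    intro g hg y
    simp only [a, smul_inf', smul_compl', smul_iSup', hP g hg]
  have hlt : ∀ y z, WellOrderingRel z y → a y ⊓ a z = ⊥ := by
    intro y z hz
    rw [← le_bot_iff]
    have h1 : a z ≤ ⨆ z : K, ⨆ (_ : WellOrderingRel z y), P z :=
      inf_le_left.trans (le_iSup_of_le z (le_iSup_of_le hz le_rfl))
    exact (inf_le_inf inf_le_right h1).trans (compl_inf_self _).le
  have hdis : ∀ y z, y ≠ z → a y ⊓ a z = ⊥ := by
    intro y z hyz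
    rcases trichotomous_of (WellOrderingRel : K → K → Prop) y z with h | h | h
    · rw [inf_comm]
      exact hlt z y h
    · exact absurd h hyz
    · exact hlt y z h
  have hcov : ∀ y, P y ≤ ⨆ z, a z := by
    intro y
    induction y using (WellOrderingRel.isWellOrder : IsWellOrder K WellOrderingRel).wf.induction with
    | _ y ih =>
      have h1 : P y ≤ (⨆ z : K, ⨆ (_ : WellOrderingRel z y), P z) ⊔ a y := by
        simp only [a]
        rw [sup_inf_left, sup_compl_eq_top, inf_top_eq]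
        exact le_sup_right
      refine h1.trans (sup_le (iSup_le fun z => iSup_le fun hz => ih z hz) (le_iSup a y))
  let x : ℕ → ℕ → B := fun n m => ⨆ y : K, a y ⊓ y.1 n m
  have hx : ∀ g ∈ S, ∀ n m, g • x n m = x n m := by
    intro g hg n m
    simp only [x, smul_iSup', smul_inf', ha g hg]
    exact iSup_congr fun y => by rw [y.2 g hg n m]
  refine ⟨x, hx, fun y hy => ?_⟩
  refine (hcov ⟨y, hy⟩).trans (iSup_le fun z => ?_)
  have h1 : a z ≤ X.eq (X.rn z.1 ⟨S, hS, z.2⟩) (X.rn x ⟨S, hS, hx⟩) := by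
    refine le_trans (le_iInf fun n => le_iInf fun m => le_inf ?_ ?_)
      (X.rn_le_eq z.1 x ⟨S, hS, z.2⟩ ⟨S, hS, hx⟩)
    · rw [le_himp_iff]
      exact le_iSup (fun y : K => a y ⊓ y.1 n m) z
    · rw [le_himp_iff]
      simp only [x]
      rw [inf_iSup_eq]
      refine iSup_le fun w => ?_
      by_cases hw : w = z
      · subst hw
        exact inf_le_right.trans inf_le_right
      · rw [← inf_assoc, hdis z w (Ne.symm hw), bot_inf_eq]
        exact bot_le
  exact (le_inf h1 inf_le_left).trans (hφ _ _)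

end SM

end Pool.Agent.LibBc83
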