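import Pool.Agent.LibBc83.M1
import Pool.Agent.LibBc83.M2
import Pool.Agent.LibBc83.M3
import Pool.Agent.LibBc83.M4
import Pool.Agent.LibBc83.RG

/-!
BC83 M5. Conclusion of the choice argument.

Plan. `claim`: `T = S₀ ∪ Set.range c₀`; `first`, `second`, `third`, `fourth` (the conjunction in the
hypothesis `hp` of `fourth` is a weaker one). One gets `r ≤ p₃.res S₁ ≤ p₁.res S₁` and
`r ∈ X.inh t n (rn x'')`, which depends only on `T` (`dep_inh`; `rn x''` has the support `fixS G T`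
by `supp_rn`, `inv_of_dep`; `t` by `suppC_mono`). So `r.res T ∈ X.inh t n (rn x'')`; the domain of
`r` is contained in `S₃`, and `S₃ ∩ T ⊆ S₀`, so `r.res T = r.res S₀`. Since
`r.res S₀ ≤ p₁.res S₀ ≤ p.res S₀`, `q = union (r.res S₀) p` is `≤ p` (`comp_res`) and
`≤ r.res S₀`, so `q ∈ X.inh t n (rn x'')`.
`val_fT_C`: apply `val_fT`: for `t` take a support `S₀ ∈ 𝓢` (`exists_suppC`), `c₀` from `hfresh`, and
`S = fixS G T` with `T = S₀ ∪ Set.range c₀`. For each `n`, by `mix` with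
`φ y = X.inh t n y` (`ext_inh`; `Inv`: `inh_act` and `ext_inh_left`) there is `x` fixed by
`fixS G T` such that `φ (rn y) ≤ φ (rn x)` for all such `y`. By `claim` the conditions in
`φ (rn x)` are dense below each condition in `X.vSeq t ⊓ X.hyp t n`; use `RO.mem_of_dense`
(`inv_of_dep` for `x''`).
-/

namespace Pool.Agent.LibBc83

open Pool.Agent.LibTk83

namespace SM

variable {G C V : Type} {ok : C → V → Prop} [Group G] [MulAction G C] [OkAct G C ok]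
  {𝓢 : Set (Set C)} {X : SM (RO (Cond C V ok)) G (famOf G 𝓢)}

theorem claim (h𝓢 : Supps G 𝓢) {S₀ : Set C} (hS₀ : S₀ ∈ 𝓢) {c₀ : ℕ → C}
    (hT : S₀ ∪ Set.range c₀ ∈ 𝓢) (inj : Function.Injective c₀) (hc0 : ∀ i, c₀ i ∉ S₀)
    {dec : V → List ℕ} (hdec : ∀ i s, ∃ v, ok (c₀ i) v ∧ dec v = s) {t : X.N}
    (ht : X.Supp (fixS G S₀) t) {n : ℕ} {p : Cond C V ok} (hp : p ∈ X.vSeq t ⊓ X.hyp t n) :
    ∃ q, q ≤ p ∧ ∃ x : ℕ → ℕ → RO (Cond C V ok), (∀ n m, Dep (S₀ ∪ Set.range c₀) (x n m)) ∧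
      ∀ hsym : SymF (famOf G 𝓢) x, q ∈ X.inh t n (X.rn x hsym) := by
  set T : Set C := S₀ ∪ Set.range c₀ with hTdef
  have h0T : S₀ ⊆ T := Set.subset_union_left
  have hcT : ∀ i, c₀ i ∈ T := fun i => Or.inr ⟨i, rfl⟩
  obtain ⟨S₁, hS₁, h01, h1T, p₁, A, g, x, hp₁, hd₁, hg, hx, hp₁'⟩ := first h𝓢 hS₀ hT ht hp
  obtain ⟨S₂, hS₂, h02, h21, h2T, p₃, x', k, h31, hx', hp₃⟩ :=
    second h𝓢 hS₀ hS₁ hT h01 ht hd₁ hx hp₁'
  obtain ⟨a1, a2⟩ := RO.mem_inf.1 hp₁'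
  obtain ⟨a2, a3⟩ := RO.mem_inf.1 a2
  obtain ⟨a3, a4⟩ := RO.mem_inf.1 a3
  obtain ⟨a4, a5⟩ := RO.mem_inf.1 a4
  obtain ⟨a5, a6⟩ := RO.mem_inf.1 a5
  obtain ⟨S₃, hS₃, h13, h32, h3T, r, D, h, hr, hrd, hh, hr'⟩ :=
    third h𝓢 hS₁ hS₂ hT h1T h21 hg (RO.mem_of_le h31 a5) hp₃
  obtain ⟨x'', hdep, hx''⟩ := fourth h𝓢 hS₁ hS₂ hS₃ h01 h02 h13 h32 h2T h3T inj hc0 hcT hdec hd₁
    (RO.mem_inf.2 ⟨a1, RO.mem_inf.2 ⟨a2, RO.mem_inf.2 ⟨a4, a6⟩⟩⟩) hg hx' hh h31 hp₃ hr hrd hr'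
  have hrp : r ≤ p.res S₀ := by
    refine le_trans hr (le_trans (Cond.res_mono S₁ h31) ?_)
    rw [Cond.res_eq_self_iff.2 hd₁]
    exact hp₁
  have hcomp : Cond.Comp (r.res S₀) p := Cond.comp_res hrp
  refine ⟨Cond.union (r.res S₀) p, Cond.union_le_right hcomp, x'', hdep, fun hsym => ?_⟩
  have h1 := hx'' hsym
  have hd : Dep T (X.inh t n (X.rn x'' hsym)) :=
    dep_inh h𝓢 hT (suppC_mono h0T ht)
      (X.supp_rn x'' hsym fun g hg n m => inv_of_dep (hdep n m) hg) n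
  have h2 : r.res T ∈ X.inh t n (X.rn x'' hsym) := hd r h1
  have h3 : r.res T = r.res S₀ := by
    apply Cond.ext
    funext c
    by_cases hc : c ∈ S₀
    · rw [Cond.res_f_of_mem hc, Cond.res_f_of_mem (h0T hc)]
    · rw [Cond.res_f_of_not_mem hc]
      by_cases hcT' : c ∈ T
      · rw [Cond.res_f_of_mem hcT']
        by_contra hne
        exact hc (h3T c (hrd hne) hcT')
      · rw [Cond.res_f_of_not_mem hcT']
  rw [h3] at h2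
  exact RO.mem_of_le (Cond.union_le_left _ _) h2

theorem val_fT_C (h𝓢 : Supps G 𝓢) (dec : V → List ℕ)
    (hfresh : ∀ S₀ ∈ 𝓢, ∃ c₀ : ℕ → C, Function.Injective c₀ ∧ (∀ i, c₀ i ∉ S₀) ∧
      S₀ ∪ Set.range c₀ ∈ 𝓢 ∧ ∀ i s, ∃ v, ok (c₀ i) v ∧ dec v = s)
    (J s R : X.N) : X.val fT (X.asg0 J s R) = ⊤ := by
  refine X.val_fT (fun t => ?_) J s R
  obtain ⟨S₀, hS₀, ht⟩ := exists_suppC t
  obtain ⟨c₀, inj, hc0, hT, hdec⟩ := hfresh S₀ hS₀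
  refine ⟨fixS G (S₀ ∪ Set.range c₀), ⟨_, hT, rfl⟩, fun n => ?_⟩
  have hi : X.Inv (fixS G (S₀ ∪ Set.range c₀)) (X.inh t n) := by
    intro g hg x
    rw [← inh_act]
    exact ((ext_inh_left (X.act g x) n).congr (suppC_mono Set.subset_union_left ht g hg)).symm
  obtain ⟨x, hx, hmax⟩ := X.mix (S := fixS G (S₀ ∪ Set.range c₀)) ⟨_, hT, rfl⟩ (ext_inh t n) hi
  refine ⟨x, ⟨_, ⟨_, hT, rfl⟩, hx⟩, hx, ?_⟩
  intro p hp
  refine RO.mem_of_dense fun q hq => ?_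
  obtain ⟨r, hr, x'', hdep, hx''⟩ := claim h𝓢 hS₀ hT inj hc0 hdec ht (RO.mem_of_le hq hp)
  have hy : ∀ g ∈ fixS G (S₀ ∪ Set.range c₀), ∀ n m, g • x'' n m = x'' n m :=
    fun g hg n m => inv_of_dep (hdep n m) hg
  exact ⟨r, hr, hmax x'' hy (hx'' _)⟩

end SM

end Pool.Agent.LibBc83
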