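import Pool.Agent.LibBc83.T8

/-!
BC83 T9. (a) The real `z` without its first value is a real. (b) The set of the `n⌢x`, `x ∈ C`,
for `C = {x : ∀ j ∃ i Eqv (x, i, y, j)}`, is `{z : ∀ j ∃ i Eqv' (z, i, y, j)}`.

Plan. (a) `exists_seq` with the formula `.all (.imp (.suc 0 1) (.rel _ 0 2))` (assignment
`cons l (cons m v)`, `v = fun _ => z`; it says: for the successor `l'` of `l`, `Rel z l' m`; there
is exactly one such `m`, by `om_suc`, `suc_uniq`, `real_ex`, `real_uniq`). The sequence obtained is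
a real: its members are pairs of members of `w`. (b) From left to right: `Prep` gives
`Real E w z`, the value at the empty set and `Rel z m1 l ↔ Rel x m l` for the successor `m1` of
`m ∈ w` (one direction from `Prep`, the other one by `real_ex` for `x` and `real_uniq` for `z`).
From right to left: `w` is not empty, so `z (0) = n`; take for `x` the real of (a); it is in `C`
since `Eqv'` for `z` gives `Eqv` for `x` (`J (i, k) = m` is in `w` by `hJ`); `Prep` is clear.
-/

namespace Pool.Agent.LibBc83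

variable {M : Type} {E : M → M → Prop}

theorem tail_ex (hZ : IsZF E) {w z : M} (hw : Om E w) (hz : Real E w z) :
    ∃ x, Real E w x ∧ ∀ l l', E l w → Suc E l' l → ∀ m, Rel E x l m ↔ Rel E z l' m := by
  have key : ∀ l m, E l w → (Sat E (.all (.imp (.suc 0 1) (.rel 3 0 2)))
      (cons l (cons m (fun _ => z))) ↔ ∀ l', Suc E l' l → Rel E z l' m) := by
    intro l m _
    simp
  obtain ⟨g, hg1, hg2, hg3⟩ := exists_seq hZ (w := w) (.all (.imp (.suc 0 1) (.rel 3 0 2)))
    (fun _ => z) (by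
      intro l hl
      obtain ⟨l', hl', hl'w⟩ := om_suc hw hl
      obtain ⟨m, hm⟩ := real_ex hz hl'w
      refine ⟨m, fun m' => ?_⟩
      rw [key l m' hl]
      constructor
      · intro h
        exact real_uniq hz hl'w (h l' hl') hm
      · rintro rfl l'' hl''
        rw [suc_uniq hZ hl'' hl']
        exact hm)
  have hg4 : ∀ l l', E l w → Suc E l' l → ∀ m, Rel E g l m ↔ Rel E z l' m := by
    intro l l' hl hl' m
    rw [hg3 l m hl, key l m hl]
    constructor
    · intro h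
      exact h l' hl'
    · intro h l'' hl''
      rw [suc_uniq hZ hl'' hl']
      exact h
  refine ⟨g, ⟨?_, hg1⟩, hg4⟩
  intro p hp
  obtain ⟨l, m, hl, hop⟩ := hg2 p hp
  obtain ⟨l', hl', -⟩ := om_suc hw hl
  exact ⟨l, m, hl, (real_mem hZ hz ((hg4 l l' hl hl' m).1 ⟨p, hop, hp⟩)).2, hop⟩

theorem prep_iff (hZ : IsZF E) {w J n y C : M} (hw : Om E w) (hn : E n w) (hJ : IsJ E w J)
    (hC : Sup E w J y C) (z : M) :
    (∃ x, E x C ∧ Prep E w n x z) ↔
      Real E w z ∧ ∀ j, E j w → ∃ i, E i w ∧ Eqv' E w J n z i y j := by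
  have hJw : ∀ i k m, E i w → E k w → Rel3 E J i k m → E m w := by
    intro i k m hi hk hm
    obtain ⟨m₀, hm₀, hm₀'⟩ := hJ i k hi hk
    rw [(hm₀' m).1 hm]
    exact hm₀
  constructor
  · rintro ⟨x, hx, hz, h0, h1⟩
    obtain ⟨hxr, hx'⟩ := (hC x).1 hx
    have h2 : ∀ m m1 l, E m w → Suc E m1 m → (Rel E z m1 l ↔ Rel E x m l) := by
      intro m m1 l hm hm1
      constructor
      · intro h
        obtain ⟨l₀, hl₀⟩ := real_ex hxr hm
        obtain ⟨m2, hm2, hm2w⟩ := om_suc hw hm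
        have hm1w : E m1 w := by
          rw [suc_uniq hZ hm1 hm2]
          exact hm2w
        rw [real_uniq hz hm1w h (h1 m m1 l₀ hm hm1 hl₀)]
        exact hl₀
      · exact h1 m m1 l hm hm1
    refine ⟨hz, fun j hj => ?_⟩
    obtain ⟨i, hi, hE⟩ := hx' j hj
    refine ⟨i, hi, h0, fun k hk m m' hm hm' m1 hm1 l => ?_⟩
    rw [h2 m m1 l (hJw i k m hi hk hm) hm1]
    exact hE k hk m m' hm hm' l
  · rintro ⟨hz, h⟩
    obtain ⟨o, -, how⟩ := om_zero hw
    obtain ⟨i₀, -, hE₀⟩ := h o how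
    obtain ⟨x, hxr, hx⟩ := tail_ex hZ hw hz
    refine ⟨x, (hC x).2 ⟨hxr, fun j hj => ?_⟩, hz, hE₀.1, fun l l' m hl hl' hm =>
      (hx l l' hl hl' m).1 hm⟩
    obtain ⟨i, hi, hE⟩ := h j hj
    refine ⟨i, hi, fun k hk m m' hm hm' l => ?_⟩
    have hmw := hJw i k m hi hk hm
    obtain ⟨m1, hm1, -⟩ := om_suc hw hmw
    rw [hx m m1 hmw hm1 l]
    exact hE.2 k hk m m' hm hm' m1 hm1 l

end Pool.Agent.LibBc83
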