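import Pool.Agent.LibBc83.T7
import Pool.Agent.LibBc83.T9

/-!
BC83 T10. The set `Â` is in `Σ⁰₄`.

Plan: `a` is obtained from `R` by `hZ.sep`, with the formula which says: there are `n ∈ w`, `A` and
`x` with `Rel s n A`, `x ∈ A`, `Prep n x z` (first define a formula `Fm.prep` with its `simp` lemma
as in `Deep.lean`). For `n` in `w` let `P n = {z : ∃ A x, Rel s n A ∧ x ∈ A ∧ Prep n x z}`; it
exists by `hZ.sep`, and it is in `PiUpTo E w 3` by `prep_iff` and `pi3_sup'` (the term `A` of the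
sequence `s` is unique, `seq_uniq`, `seq_ex`). By `exists_seq` there is the sequence `n ↦ P n`, and
`a` is its union. So `Sig E 4 w a` (`Sig E 4` is `SigStep E w 3 (PiUpTo E w 3)`).
-/

namespace Pool.Agent.LibBc83

variable {M : Type} {E : M → M → Prop}

/-- The formula for `Prep`. -/
def Fm.prep (w n x z : ℕ) : Fm :=
  .and (.real w z) (.and (.all (.imp (.emp 0) (.rel (z+1) 0 (n+1))))
    (.all (.all (.all (.imp (.mem 2 (w+3)) (.imp (.suc 1 2) (.imp (.rel (x+3) 2 0)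
      (.rel (z+3) 1 0))))))))

@[simp] theorem sat_prep (v : ℕ → M) (w n x z : ℕ) :
    Sat E (.prep w n x z) v ↔ Prep E (v w) (v n) (v x) (v z) := by
  simp [Fm.prep, Prep]

theorem hat_sig4 (hZ : IsZF E) {w R J s : M} (hw : Om E w) (hR : ∀ x, E x R ↔ Real E w x)
    (hJ : IsJ E w J) (hs : Seq E w s)
    (hC : ∀ n C, E n w → Rel E s n C → ∃ y, Real E w y ∧ Sup E w J y C) :
    ∃ a, Hat E w s a ∧ Sig E 4 w a := by
  obtain ⟨a, ha⟩ := hZ.sep (.ex (.ex (.ex (.and (.mem 2 4) (.and (.rel 5 2 1)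
    (.and (.mem 0 1) (.prep 4 2 0 3))))))) (cons w (fun _ => s)) R
  have ha' : Hat E w s a := by
    intro z
    rw [ha z]
    simp only [sat_ex, sat_and, sat_mem, sat_rel, sat_prep, cons_zero, cons_succ]
    constructor
    · rintro ⟨-, h⟩
      exact h
    · intro h
      refine ⟨?_, h⟩
      obtain ⟨n, A, x, -, -, -, h⟩ := h
      exact (hR z).2 h.1
  have hP : ∀ n P, Sat E (.all (.iff (.mem 0 2) (.ex (.ex (.and (.rel 6 3 1)
      (.and (.mem 0 1) (.prep 5 3 0 2))))))) (cons n (cons P (cons w (fun _ => s)))) ↔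
      ∀ z, E z P ↔ ∃ A x, Rel E s n A ∧ E x A ∧ Prep E w n x z := by
    intro n P
    simp only [sat_all, sat_iff, sat_ex, sat_and, sat_mem, sat_rel, sat_prep, cons_zero, cons_succ]
  obtain ⟨g, hg1, -, hg3⟩ := exists_seq hZ (w := w) (.all (.iff (.mem 0 2) (.ex (.ex
      (.and (.rel 6 3 1) (.and (.mem 0 1) (.prep 5 3 0 2))))))) (cons w (fun _ => s)) (by
    intro n hn
    obtain ⟨P, hP1⟩ := hZ.sep (.ex (.ex (.and (.rel 5 3 1) (.and (.mem 0 1) (.prep 4 3 0 2)))))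
      (cons n (cons w (fun _ => s))) R
    have hP2 : ∀ z, E z P ↔ ∃ A x, Rel E s n A ∧ E x A ∧ Prep E w n x z := by
      intro z
      rw [hP1 z]
      simp only [sat_ex, sat_and, sat_mem, sat_rel, sat_prep, cons_zero, cons_succ]
      constructor
      · rintro ⟨-, h⟩
        exact h
      · intro h
        refine ⟨?_, h⟩
        obtain ⟨A, x, -, -, h⟩ := h
        exact (hR z).2 h.1
    refine ⟨P, fun P' => ?_⟩
    rw [hP n P']
    constructor
    · intro h
      exact hZ.ext _ _ fun z => (h z).trans (hP2 z).symm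
    · rintro rfl
      exact hP2)
  refine ⟨a, ha', ?_⟩
  have hg4 : ∀ n P, E n w → Rel E g n P →
      ∀ z, E z P ↔ ∃ A x, Rel E s n A ∧ E x A ∧ Prep E w n x z := by
    intro n P hn h
    exact (hP n P).1 ((hg3 n P hn).1 h)
  change SigStep E w 3 (PiUpTo E w 3) a
  unfold SigStep
  rw [if_neg (by norm_num)]
  refine ⟨g, hg1, ?_, ?_⟩
  · intro n P hn h
    obtain ⟨A, hA⟩ := seq_ex hs hn
    obtain ⟨y, -, hy⟩ := hC n A hn hA
    refine pi3_sup' hZ hw hR hJ (n := n) (y := y) fun z => ?_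
    rw [← prep_iff hZ hw hn hJ hy z, hg4 n P hn h z]
    constructor
    · rintro ⟨A', x, hA', hx, hp⟩
      rw [seq_uniq hs hn hA' hA] at hx
      exact ⟨x, hx, hp⟩
    · rintro ⟨x, hx, hp⟩
      exact ⟨A, x, hA, hx, hp⟩
  · intro z
    rw [ha' z]
    constructor
    · rintro ⟨n, A, x, hn, hA, hx, hp⟩
      obtain ⟨P, hP'⟩ := seq_ex hg1 hn
      exact ⟨n, P, hn, hP', (hg4 n P hn hP' z).2 ⟨A, x, hA, hx, hp⟩⟩
    · rintro ⟨n, P, hn, hP', hz⟩
      obtain ⟨A, x, hA, hx, hp⟩ := (hg4 n P hn hP' z).1 hz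
      exact ⟨n, A, x, hn, hA, hx, hp⟩

end Pool.Agent.LibBc83
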