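import Pool.Agent.LibBc83.T5
import Pool.Agent.LibBc83.T10

/-!
BC83 T11. The result for a model with the properties `Core`.

Plan: `ACR E 3`: let `w', t` be given; `w' = w` by `om_uniq`; the terms of `t` are nonempty and in
`Σ⁰₃`, use `gdS_of_sig3` and the last property in `Core`. `ACU E 3` follows from `ACR E 3`
(`UnifIn` implies `InCls`). `¬ ACU E 4`: apply it to `w, s`; the terms are nonempty, because `y`
itself is in the set `C` with `Sup E w J y C` (take `i = j`; `Eqv E w J y j y j`: the two values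
`m, m'` of `J` at `(j, k)` are equal by `IsJ`); they are in `Σ⁰₄` by `pi3_sup`, `sig4_of_pi3`, and
`hat_sig4` gives the second part of `UnifIn`. The choice function contradicts `Core`. `¬ ACR E 4` in
the same way, or from `ACR E 4 → ACU E 4`.
-/

namespace Pool.Agent.LibBc83

variable {M : Type} {E : M → M → Prop}

private theorem T11_acu {k : ℕ} (h : ACR E k) : ACU E k :=
  fun w s hw hs hne hu => h w s hw hs hne hu.1

theorem core_final (h : Core E) :
    ACR E 3 ∧ ACU E 3 ∧ ¬ ACP E 3 ∧ ¬ ACR E 4 ∧ ¬ ACU E 4 := by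
  obtain ⟨hZ, w, J, s, R, hw, hR, hJ, hs, hC, hno, hyes⟩ := h
  have h3 : ACR E 3 := by
    intro w' t hw' ht hne hcls
    obtain rfl := om_uniq hZ hw hw'
    exact hyes t ht fun n A hn hA => ⟨hne n A hn hA, gdS_of_sig3 hZ hw hR (hcls n A hn hA)⟩
  have hne : ∀ n A, E n w → Rel E s n A → ∃ x, E x A := by
    intro n C hn hA
    obtain ⟨y, hy, hsup⟩ := hC n C hn hA
    refine ⟨y, (hsup y).2 ⟨hy, fun j hj => ⟨j, hj, ?_⟩⟩⟩
    intro k hk m m' hm hm' l
    obtain ⟨m₀, -, hm₀⟩ := hJ j k hj hk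
    rw [(hm₀ m).1 hm, (hm₀ m').1 hm']
  have hp : ¬ ACP E 3 := by
    intro hac
    refine hno (hac w s hw hs hne fun n C hn hA => ?_)
    obtain ⟨y, hy, hsup⟩ := hC n C hn hA
    exact pi_sup hZ hw hR hJ hsup
  have h4 : ¬ ACU E 4 := by
    intro hacu
    apply hno
    refine hacu w s hw hs hne ⟨?_, hat_sig4 hZ hw hR hJ hs hC⟩
    · intro n C hn hA
      obtain ⟨y, hy, hsup⟩ := hC n C hn hA
      exact sig4_of_pi3 hZ hw (pi3_sup hZ hw hR hJ hsup)
  exact ⟨h3, T11_acu h3, hp, fun h => h4 (T11_acu h), h4⟩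

end Pool.Agent.LibBc83
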