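import Pool.Agent.LibBc83.M5
import Pool.Agent.LibBc83.KF
import Pool.Agent.LibBc83.KH
import Pool.Agent.LibBc83.I2
import Pool.Agent.LibBc83.T11

/-!
The model.
-/

namespace Pool.Agent.LibBc83

open Pool.Agent.LibTk83 SM

theorem exists_core : ∃ (M : Type) (E : M → M → Prop), Core E := by
  let X : SM (RO PC) Gp (famOf Gp famC) := mkSM (isFam_famOf suppsC)
  obtain ⟨R, hR⟩ := X.exists_RN
  obtain ⟨J, hJ⟩ := X.exists_JN
  obtain ⟨s, hs, hs'⟩ := exists_sN X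
  refine core_of X ?_ J s R (val_fR hR) (val_isJ hJ) (val_seqs hs) (val_fC hJ hs') (val_fN hs')
    (SM.val_fT_C suppsC decC freshC J s R)
  exact RO.ne_bot_iff.2 ⟨Cond.emp, RO.mem_top⟩

theorem exists_model : ∃ (M : Type) (E : M → M → Prop),
    IsZF E ∧ ACR E 3 ∧ ACU E 3 ∧ ¬ ACP E 3 ∧ ¬ ACR E 4 ∧ ¬ ACU E 4 := by
  obtain ⟨M, E, h⟩ := exists_core
  exact ⟨M, E, h.zf, core_final h⟩

end Pool.Agent.LibBc83
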