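import Pool.Agent.LibBc83.U3
import Pool.Agent.LibBc83.U4

/-!
BC83 U5. ZF proves `AC_ω(ℝ; unif Σ⁰₂)`.

Plan. Let `s` be a sequence of nonempty sets, uniformly in `Σ⁰₂`: the set `a` (`Hat E w s a`) is the
union of a sequence `g` of sets with `PiUpTo E w 1` (`Sig E 2` is `SigStep` for `k = 1`), which are
closed (`closedIn_of_pi1`). For `n, k ∈ w` let `Q (n, k)` say: there are `C` and `z ∈ C` with
`Rel g k C` and `z (0) = n`. For each `n ∈ w` there is `k ∈ w` with `Q (n, k)`: the `n`-th term of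
`s` has an element `x` (a real, as `Sig E 2 w A` consists of reals), `z` with `Prep n x z`
(`prep_ex`) is in `a`, so in some term of `g`. The choice function is given by `exists_seq`, with
the formula in `n` and `x`: there are `k ∈ w`, `C`, `D`, `z` with
`Q (n, k)`, no `k' ∈ w` with `Q (n, k')` is in `k`, `Rel g k C`, `D = {z ∈ C : z (0) = n}`,
`Left w D z`, `Real w x` and `Prep n x z`. There is exactly one such `x`: `om_least`, `om_tri` for
`k`; `seq_uniq`; `hZ.ext` for `D`; `cut_closed`, `left_ex`, `left_uniq`; `z` is in `C`, so in `a`, so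
`z = n'⌢x` for some `n'` and some `x` in the `n'`-th term of `s`, and `n' = n` as `z (0) = n`;
`prep_uniq`. This `x` is in the `n`-th term of `s`.
-/

namespace Pool.Agent.LibBc83

variable {M : Type} {E : M → M → Prop}

/-- there is `z` in the `k`-th term of `g` with `z (0) = n` -/
private def U5_Q (E : M → M → Prop) (g n k : M) : Prop :=
  ∃ C z, Rel E g k C ∧ E z C ∧ ∀ o, Emp E o → Rel E z o n

/-- the definition of the choice function -/
private def U5_F (E : M → M → Prop) (w g n x : M) : Prop :=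
  ∃ k C D z, E k w ∧ U5_Q E g n k ∧ (∀ k', E k' w → U5_Q E g n k' → ¬ E k' k) ∧ Rel E g k C ∧
    (∀ z', E z' D ↔ E z' C ∧ ∀ o, Emp E o → Rel E z' o n) ∧ Left E w D z ∧ Real E w x ∧
    Prep E w n x z

private def U5_q (g n k : ℕ) : Fm :=
  .ex (.ex (.and (.rel (g+2) (k+2) 1) (.and (.mem 0 1) (.all (.imp (.emp 0) (.rel 1 0 (n+3)))))))

private theorem U5_sat_q (g n k : ℕ) (v : ℕ → M) :
    Sat E (U5_q g n k) v ↔ U5_Q E (v g) (v n) (v k) := by
  simp [U5_q, U5_Q]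

private def U5_left (w D z : ℕ) : Fm :=
  .and (.mem z D) (.all (.imp (.mem 0 (w+1)) (.all (.imp (.mem 0 (D+2)) (.imp (.agr 1 (z+2) 0)
    (.all (.all (.imp (.rel (z+4) 3 1) (.imp (.rel 2 3 0) (.neg (.mem 0 1)))))))))))

private theorem U5_sat_left (w D z : ℕ) (v : ℕ → M) :
    Sat E (U5_left w D z) v ↔ Left E (v w) (v D) (v z) := by
  simp [U5_left, Left]

private def U5_prep (w n x z : ℕ) : Fm :=
  .and (.real w z) (.and (.all (.imp (.emp 0) (.rel (z+1) 0 (n+1))))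
    (.all (.all (.all (.imp (.mem 2 (w+3)) (.imp (.suc 1 2) (.imp (.rel (x+3) 2 0)
      (.rel (z+3) 1 0))))))))

private theorem U5_sat_prep (w n x z : ℕ) (v : ℕ → M) :
    Sat E (U5_prep w n x z) v ↔ Prep E (v w) (v n) (v x) (v z) := by
  simp [U5_prep, Prep]

/-- The formula of the choice function; the variables are `n`, `x`, `w`, `g`. -/
private def U5_f : Fm :=
  .ex (.ex (.ex (.ex (.and (.mem 3 6) (.and (U5_q 7 4 3)
    (.and (.all (.imp (.mem 0 7) (.imp (U5_q 8 5 0) (.neg (.mem 0 4)))))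
    (.and (.rel 7 3 2) (.and (.all (.iff (.mem 0 2) (.and (.mem 0 3)
      (.all (.imp (.emp 0) (.rel 1 0 6)))))) (.and (U5_left 6 1 0) (.and (.real 6 5)
        (U5_prep 6 4 5 0)))))))))))

private theorem U5_sat_f (w g n x : M) (v : ℕ → M) :
    Sat E U5_f (cons n (cons x (cons w (cons g v)))) ↔ U5_F E w g n x := by
  simp only [U5_f, U5_F, sat_ex, sat_and, sat_all, sat_imp, sat_neg, sat_iff, U5_sat_q,
    U5_sat_left, U5_sat_prep, sat_mem, sat_rel, sat_emp, sat_real]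
  exact Iff.rfl

/-- The sets in `Σ⁰₂` are unions of sequences of closed sets. -/
private theorem U5_sig {w a : M} (h : Sig E 2 w a) : ∃ g, Seq E w g ∧
    (∀ n z, E n w → Rel E g n z → ClosedIn E w z) ∧ Union E w a g := by
  have h1 : SigStep E w 1 (PiUpTo E w 1) a := h
  unfold SigStep at h1
  rw [if_neg one_ne_zero] at h1
  obtain ⟨g, hg, hg1, hg2⟩ := h1
  exact ⟨g, hg, fun n z hn hz => closedIn_of_pi1 (hg1 n z hn hz), hg2⟩

private theorem U5_real {w A x : M} (h : Sig E 2 w A) (hx : E x A) : Real E w x := by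
  obtain ⟨g, -, hg1, hg2⟩ := U5_sig h
  obtain ⟨k, C, hk, hC, hxC⟩ := (hg2 x).1 hx
  exact (hg1 k C hk hC).1 x hxC

private theorem U5_key (hZ : IsZF E) {w s a g : M} (hw : Om E w) (hs : Seq E w s)
    (hne : ∀ n A, E n w → Rel E s n A → ∃ x, E x A) (hin : InCls E (Sig E 2) w s)
    (ha : Hat E w s a) (hg1 : Seq E w g)
    (hg2 : ∀ n z, E n w → Rel E g n z → ClosedIn E w z) (hg3 : Union E w a g)
    {n : M} (hn : E n w) :
    ∃ x, (∃ A, Rel E s n A ∧ E x A) ∧ ∀ x', U5_F E w g n x' ↔ x' = x := by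
  obtain ⟨o, ho, how⟩ := om_zero hw
  -- some `k` is good
  have hex : ∃ k, E k w ∧ Sat E (U5_q 2 1 0) (cons k (cons n (cons g fun _ => w))) := by
    obtain ⟨A, hA⟩ := seq_ex hs hn
    obtain ⟨x, hx⟩ := hne n A hn hA
    obtain ⟨z, hz⟩ := prep_ex hZ hw hn (U5_real (hin n A hn hA) hx)
    have hza : E z a := (ha z).2 ⟨n, A, x, hn, hA, hx, hz⟩
    obtain ⟨k, C, hk, hC, hzC⟩ := (hg3 z).1 hza
    refine ⟨k, hk, ?_⟩
    rw [U5_sat_q]
    exact ⟨C, z, hC, hzC, hz.2.1⟩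
  obtain ⟨k, hk, hkQ, hkl⟩ := om_least hZ _ _ hex
  have hkQ' : U5_Q E g n k := (U5_sat_q 2 1 0 _).1 hkQ
  have hkl' : ∀ k', E k' w → U5_Q E g n k' → ¬ E k' k := fun k' hk' hQ =>
    hkl k' hk' ((U5_sat_q 2 1 0 _).2 hQ)
  obtain ⟨C, z₀, hC, hz₀, hz₀n⟩ := id hkQ'
  obtain ⟨D, hD, hDc⟩ := cut_closed hZ (n := n) hw (hg2 k C hk hC)
  obtain ⟨z, hz⟩ := left_ex hZ hw hDc ⟨z₀, (hD z₀).2 ⟨hz₀, hz₀n⟩⟩
  obtain ⟨hzC, hzn⟩ := (hD z).1 hz.1
  have hzr : Real E w z := hDc.1 z hz.1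
  obtain ⟨n', A, x, hn', hA, hx, hp⟩ := (ha z).1 ((hg3 z).2 ⟨k, C, hk, hC, hzC⟩)
  have hnn : n' = n := real_uniq hzr how (hp.2.1 o ho) (hzn o ho)
  subst hnn
  have hxr : Real E w x := U5_real (hin n' A hn' hA) hx
  refine ⟨x, ⟨A, hA, hx⟩, fun x' => ⟨?_, ?_⟩⟩
  · rintro ⟨k₂, C₂, D₂, z₂, hk₂, hQ₂, hl₂, hC₂, hD₂, hz₂, hx'r, hp₂⟩
    have e1 : k₂ = k := by
      rcases om_tri hZ hw hk₂ hk with h | h | h
      · exact absurd h (hkl' k₂ hk₂ hQ₂)
      · exact h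
      · exact absurd h (hl₂ k hk hkQ')
    subst e1
    have e2 : C₂ = C := seq_uniq hg1 hk₂ hC₂ hC
    subst e2
    have e3 : D₂ = D := hZ.ext D₂ D fun t => (hD₂ t).trans (hD t).symm
    subst e3
    have e4 : z₂ = z := left_uniq hZ hw hDc.1 hz₂ hz
    subst e4
    exact prep_uniq hZ hw hx'r hxr hp₂ hp
  · rintro rfl
    exact ⟨k, C, D, z, hk, hkQ', hkl', hC, hD, hz, hxr, hp⟩

theorem acu2 (hZ : IsZF E) : ACU E 2 := by
  rintro w s hw hs hne ⟨hin, a, ha, hsa⟩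
  obtain ⟨g, hg1, hg2, hg3⟩ := U5_sig hsa
  have key := fun n (hn : E n w) => U5_key hZ hw hs hne hin ha hg1 hg2 hg3 hn
  obtain ⟨f, hf, -, hf2⟩ := exists_seq hZ (w := w) U5_f (cons w (cons g fun _ => w)) (by
    intro n hn
    obtain ⟨x, -, hx⟩ := key n hn
    exact ⟨x, fun x' => (U5_sat_f w g n x' _).trans (hx x')⟩)
  refine ⟨f, hf, fun n A x hn hA hx => ?_⟩
  obtain ⟨x', ⟨A', hA', hx'⟩, hu⟩ := key n hn
  have h1 : U5_F E w g n x := (U5_sat_f w g n x _).1 ((hf2 n x hn).1 hx)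
  have h2 : x = x' := (hu x).1 h1
  have h3 : A = A' := seq_uniq hs hn hA hA'
  rw [h2, h3]
  exact hx'

end Pool.Agent.LibBc83
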