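import Pool.Agent.LibBc83.CoreDef

/-!
The facts on the second model.
-/

namespace Pool.Agent.LibBc83

section

variable {M : Type} (E : M → M → Prop)

/-- `z` is the `j`-th real coded by `y`: `z (k) = y (J (j, k))` for all `k`. -/
def Is (w J z y j : M) : Prop :=
  ∀ k, E k w → ∀ m, Rel3 E J j k m → ∀ l, Rel E z k l ↔ Rel E y m l

/-- `C` is the set of the reals which are not coded by `y`. -/
def Dg (w J y C : M) : Prop :=
  ∀ z, E z C ↔ Real E w z ∧ ∀ j, E j w → ¬ Is E w J z y j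

/-- What we need of the second model. -/
structure Core2 : Prop where
  zf : IsZF E
  data : ∃ w J s R, Om E w ∧ (∀ x, E x R ↔ Real E w x) ∧ IsJ E w J ∧ Seq E w s ∧
    (∀ n C, E n w → Rel E s n C → ∃ y, Real E w y ∧ Dg E w J y C) ∧
    ¬ ∃ f, Choice E w s f

end

namespace Fm

def is (w J z y j : ℕ) : Fm :=
  all (imp (mem 0 (w+1)) (all (imp (rel3 (J+2) (j+2) 1 0)
    (all (iff (rel (z+3) 2 0) (rel (y+3) 1 0))))))

def dg (w J y C : ℕ) : Fm :=
  all (iff (mem 0 (C+1)) (and (real (w+1) 0) (all (imp (mem 0 (w+2))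
    (neg (is (w+2) (J+2) 1 (y+2) 0))))))

end Fm

section

variable {M : Type} {E : M → M → Prop} (v : ℕ → M)

@[simp] theorem sat_is (w J z y j : ℕ) :
    Sat E (.is w J z y j) v ↔ Is E (v w) (v J) (v z) (v y) (v j) := by
  simp [Fm.is, Is]

@[simp] theorem sat_dg (w J y C : ℕ) :
    Sat E (.dg w J y C) v ↔ Dg E (v w) (v J) (v y) (v C) := by
  simp [Fm.dg, Dg]

end

end Pool.Agent.LibBc83
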