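import Pool.Agent.LibBc83.W3
import Pool.Agent.LibBc83.V0

/-!
BC83 W4. Each term of the sequence is a set of the form `Dg`.

Plan. `val_is`: as `val_eqv` in `RH.lean`: unfold `Fm.is`; `val_rel3`; the value is the infimum over
`k` of `⨅ l, (rl z (nat k) l ⇔ rl y (nat (pair j' k)) l)` over all names `l`; use `real_values`.
`val_fC2`: as `val_fC` in `KF.lean`: unfold; `n = nat n'` (`iInf_om`), `C` may be replaced by
`AN2 X n'`; the witness is `y = rn (yv2 n')` (symmetric: `dep_yv2` and `inv_of_dep`), `vReal y = ⊤`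
(`vReal_rn`, `realV_yv2`); the value of `.dg` unfolds to: for all `z`, `mem z (AN2 X n')` is
equivalent to `vReal z ⊓ ⨅ j, (val is)ᶜ`, which is `vReal z ⊓ ⨅ j, (isj (dig z) (yv2 n') j)ᶜ` by
`val_is`, `dig_rn`; use `mem_AN2`, `nin_eq`.
-/

namespace Pool.Agent.LibBc83

open Pool.Agent.LibTk83 SM

/-- each term of the sequence is a set of the form `Dg` -/
def fC2 : Fm :=
  .all (.all (.imp (.mem 1 2) (.imp (.rel 4 1 0) (.ex (.and (.real 3 0) (.dg 3 4 0 1))))))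

theorem val_is {B : Type} [CompleteBooleanAlgebra B] {G : Type} [Group G] [MulAction G B]
    [OrdAct G B] {Fam : Set (Set G)} {X : SM B G Fam} {J : X.N}
    (hJ : ∀ (i k : ℕ) (y : X.N),
      X.rl J (X.opN (X.nat i) (X.nat k)) y = X.eq y (X.nat (Nat.pair i k)))
    (v : ℕ → X.N) (w J' z y j j' : ℕ) (hw : v w = X.om) (hJ' : v J' = J)
    (hj : v j = X.nat j') :
    X.vReal (v z) ⊓ X.vReal (v y) ⊓ X.val (.is w J' z y j) v =
      X.vReal (v z) ⊓ X.vReal (v y) ⊓ isj (X.dig (v z)) (X.dig (v y)) j' := by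
  have h0 : X.val (.is w J' z y j) v = ⨅ n : ℕ, ⨅ l,
      (X.rl (v z) (X.nat n) l ⇨ X.rl (v y) (X.nat (Nat.pair j' n)) l) ⊓
      (X.rl (v y) (X.nat (Nat.pair j' n)) l ⇨ X.rl (v z) (X.nat n) l) := by
    rw [Fm.is]
    change (⨅ a, X.val (.imp (.mem 0 (w+1)) _) (cons a v)) = _
    have h1 : ∀ (f : Fm) (a : X.N), X.val (.imp (.mem 0 (w + 1)) f) (cons a v) =
        X.mem a X.om ⇨ X.val f (cons a v) := by
      intro f a
      change ev X.mem X.eq _ _ = _
      rw [ev_imp]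
      change X.mem a (v w) ⇨ _ = _
      rw [hw]
      rfl
    rw [iInf_congr fun a => h1 _ a, iInf_om (Ext.val _ v)]
    refine iInf_congr fun n => ?_
    change (⨅ m, X.val (.imp (.rel3 (J'+2) (j+2) 1 0) (.all (.iff (.rel (z+3) 2 0)
      (.rel (y+3) 1 0)))) (cons m (cons (X.nat n) v))) = _
    have h2 : ∀ m, X.val (.imp (.rel3 (J'+2) (j+2) 1 0) (.all (.iff (.rel (z+3) 2 0)
        (.rel (y+3) 1 0)))) (cons m (cons (X.nat n) v)) =
        X.eq m (X.nat (Nat.pair j' n)) ⇨ X.val (.all (.iff (.rel (z+3) 2 0)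
          (.rel (y+3) 1 0))) (cons m (cons (X.nat n) v)) := by
      intro m
      have h3 := val_rel3 hJ (cons m (cons (X.nat n) v)) (J'+2) (j+2) 1 0 j' n hJ' hj rfl
      change ev X.mem X.eq _ _ = _
      rw [ev_imp]
      change X.val (.rel3 (J'+2) (j+2) 1 0) _ ⇨ _ = _
      rw [h3]
      rfl
    rw [iInf_congr h2]
    have h4 : ∀ m, X.val (.all (.iff (.rel (z+3) 2 0) (.rel (y+3) 1 0)))
        (cons m (cons (X.nat n) v)) =
        ⨅ l, (X.rl (v z) (X.nat n) l ⇨ X.rl (v y) m l) ⊓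
          (X.rl (v y) m l ⇨ X.rl (v z) (X.nat n) l) := by
      intro m
      change (⨅ l, ev X.mem X.eq (.iff (.rel (z+3) 2 0) (.rel (y+3) 1 0))
        (cons l (cons m (cons (X.nat n) v)))) = _
      refine iInf_congr fun l => ?_
      rw [ev_iff]
      change (X.val (.rel (z+3) 2 0) _ ⇨ X.val (.rel (y+3) 1 0) _) ⊓
        (X.val (.rel (y+3) 1 0) _ ⇨ X.val (.rel (z+3) 2 0) _) = _
      rw [val_rel, val_rel]
      rfl
    rw [← h4]
    apply le_antisymm
    · refine (iInf_le _ (X.nat (Nat.pair j' n))).trans ?_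
      rw [X.eqax.refl, top_himp]
    · refine le_iInf fun m => ?_
      rw [le_himp_iff, inf_comm, X.eqax.symm]
      exact Ext.val (.all (.iff (.rel (z+3) 2 0) (.rel (y+3) 1 0))) (cons (X.nat n) v)
        (X.nat (Nat.pair j' n)) m
  rw [h0]
  unfold isj
  rw [inf_iInf, inf_iInf]
  exact iInf_congr fun n => real_values (v z) (v y) n (Nat.pair j' n)

variable {X : SM (RO PC2) Gp (famOf Gp fam2)}

private theorem W4_symF (k : ℕ) : SM.SymF (famOf Gp fam2) (yv2 k) :=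
  ⟨fixS Gp (sup2 (k + 1)), ⟨sup2 (k + 1), ⟨k + 1, rfl⟩, rfl⟩,
    fun _ hg n m => inv_of_dep (dep_yv2 k n m) hg⟩

private theorem W4_compl {B : Type} [CompleteBooleanAlgebra B] {a b c : B} (h : a ⊓ b = a ⊓ c) :
    a ⊓ bᶜ = a ⊓ cᶜ := by
  have key : ∀ x : B, a ⊓ xᶜ = a ⊓ (a ⊓ x)ᶜ := by
    intro x
    rw [compl_inf, inf_sup_left, inf_compl_self, bot_sup_eq]
  rw [key b, key c, h]

private theorem W4_top {J s R : X.N} (hJ : ∀ (i k : ℕ) (y : X.N),
      X.rl J (X.opN (X.nat i) (X.nat k)) y = X.eq y (X.nat (Nat.pair i k))) {n : X.N} {k : ℕ} :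
    X.val (.ex (.and (.real 3 0) (.dg 3 4 0 1))) (cons (AN2 X k) (cons n (X.asg0 J s R))) = ⊤ := by
  change ev X.mem X.eq _ _ = ⊤
  rw [ev_ex, eq_top_iff]
  refine le_iSup_of_le (X.rn (yv2 k) (W4_symF k)) ?_
  rw [ev_and]
  have hy : X.vReal (X.rn (yv2 k) (W4_symF k)) = ⊤ := by
    rw [SM.vReal_rn, realV_yv2]
  refine le_inf ?_ ?_
  · change ⊤ ≤ X.val (.real 3 0) _
    rw [SM.val_real _ _ _ rfl]
    exact hy.ge
  · change ⊤ ≤ ⨅ z, X.val (.iff (.mem 0 2) (.and (.real 4 0) (.all (.imp (.mem 0 5)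
      (.neg (.is 5 6 1 2 0)))))) _
    refine le_iInf fun z => ?_
    have key : X.mem z (AN2 X k) = ev X.mem X.eq (.and (.real 4 0) (.all (.imp (.mem 0 5)
      (.neg (.is 5 6 1 2 0))))) (cons z (cons (X.rn (yv2 k) (W4_symF k))
        (cons (AN2 X k) (cons n (X.asg0 J s R))))) := by
      rw [mem_AN2, nin_eq, ev_and, ev_all]
      change _ = X.val (.real 4 0) _ ⊓ ⨅ j, ev X.mem X.eq _ _
      rw [SM.val_real _ _ _ rfl]
      change _ = X.vReal z ⊓ _
      obtain ⟨W, hW⟩ : ∃ W, W = cons z (cons (X.rn (yv2 k) (W4_symF k))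
        (cons (AN2 X k) (cons n (X.asg0 J s R)))) := ⟨_, rfl⟩
      rw [← hW]
      have e1 : (⨅ j, ev X.mem X.eq (.imp (.mem 0 5) (.neg (.is 5 6 1 2 0))) (cons j W)) =
          ⨅ j, (X.val (.is 5 6 1 2 0) (cons (X.nat j) W))ᶜ := by
        have e2 : ∀ j : X.N, ev X.mem X.eq (.imp (.mem 0 5) (.neg (.is 5 6 1 2 0))) (cons j W) =
            (X.mem j X.om ⇨ (X.val (.is 5 6 1 2 0) (cons j W))ᶜ) := by
          intro j
          rw [ev_imp, hW]
          rfl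
        simp only [e2]
        exact SM.iInf_om (SM.Ext.compl (SM.Ext.val _ W))
      rw [e1]
      have e3 : ∀ j : ℕ, X.vReal z ⊓ isj (X.dig z) (yv2 k) j =
          X.vReal z ⊓ X.val (.is 5 6 1 2 0) (cons (X.nat j) W) := by
        intro j
        have h := val_is (X := X) hJ (cons (X.nat j) W) 5 6 1 2 0 j
          (by rw [hW]; rfl) (by rw [hW]; rfl) rfl
        have h2 : (cons (X.nat j) W) 1 = z := by rw [hW]; rfl
        have h3 : (cons (X.nat j) W) 2 = X.rn (yv2 k) (W4_symF k) := by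
          rw [hW]; rfl
        rw [h2, h3, hy, inf_top_eq] at h
        rw [h]
        congr 2
        funext a b
        exact (X.dig_rn _ _ a b).symm
      rw [inf_iInf, inf_iInf]
      exact iInf_congr fun j => W4_compl (e3 j)
    change ⊤ ≤ ev X.mem X.eq _ _
    rw [ev_iff, ← key]
    change ⊤ ≤ (X.mem z (AN2 X k) ⇨ X.mem z (AN2 X k)) ⊓ (X.mem z (AN2 X k) ⇨ X.mem z (AN2 X k))
    rw [himp_self, top_inf_eq]

theorem val_fC2 {J s R : X.N} (hJ : ∀ (i k : ℕ) (y : X.N),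
      X.rl J (X.opN (X.nat i) (X.nat k)) y = X.eq y (X.nat (Nat.pair i k)))
    (hs : ∀ n y, X.rl s (X.nat n) y = X.eq y (AN2 X n)) :
    X.val fC2 (X.asg0 J s R) = ⊤ := by
  change (⨅ n, ⨅ C, X.val (.imp (.mem 1 2) (.imp (.rel 4 1 0) (.ex (.and (.real 3 0)
    (.dg 3 4 0 1))))) (cons C (cons n (X.asg0 J s R)))) = ⊤
  rw [iInf_eq_top]
  intro n
  rw [iInf_eq_top]
  intro C
  change ev X.mem X.eq _ _ = ⊤
  rw [ev_imp, ev_imp, eq_top_iff, le_himp_iff, le_himp_iff, top_inf_eq]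
  change X.mem n X.om ⊓ X.val (.rel 4 1 0) (cons C (cons n (X.asg0 J s R))) ≤
    X.val (.ex (.and (.real 3 0) (.dg 3 4 0 1))) (cons C (cons n (X.asg0 J s R)))
  rw [SM.val_rel, X.mem_om, iSup_inf_eq]
  refine iSup_le fun k => ?_
  change X.eq n (X.nat k) ⊓ X.rl s n C ≤ _
  refine (X.ext_rl_mid s C n (X.nat k)).trans ?_
  change X.rl s (X.nat k) C ≤ _
  rw [hs, X.eqax.symm]
  have h1 := SM.Ext.val (.ex (.and (.real 3 0) (.dg 3 4 0 1))) (cons n (X.asg0 J s R))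
    (AN2 X k) C
  beta_reduce at h1
  rwa [W4_top hJ, inf_top_eq] at h1

end Pool.Agent.LibBc83
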