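import Pool.Agent.LibBc83.ZC
import Pool.Agent.LibBc83.W4

/-!
BC83 W6. From symmetric names to a model with the properties `Core2`.

Plan: as `core_of` in `ZC.lean` (copy the proof; the formula `fC2` instead of `fC`, `sat_dg`, and no
`fT`).
-/

namespace Pool.Agent.LibBc83

variable {B : Type} [CompleteBooleanAlgebra B] {G : Type} [Group G] [MulAction G B]
  [OrdAct G B] {Fam : Set (Set G)}

theorem core2_of (X : SM B G Fam) (hB : (⊤ : B) ≠ ⊥) (J s R : X.N)
    (hR : X.val fR (X.asg0 J s R) = ⊤) (hJ : X.val (.isJ 0 1) (X.asg0 J s R) = ⊤)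
    (hs : X.val (.seq 0 2) (X.asg0 J s R) = ⊤) (hC : X.val fC2 (X.asg0 J s R) = ⊤)
    (hN : X.val fN (X.asg0 J s R) = ⊤) :
    ∃ (M : Type) (E : M → M → Prop), Core2 E := by
  obtain ⟨M, E, c, h1, h2⟩ := henkin X.eqax ⊤ hB (X.asg0 J s R) 4 (by norm_num) (by
    intro n hn
    obtain ⟨m, rfl⟩ := Nat.exists_eq_add_of_le hn
    rw [show 4 + m = m + 4 by ring]
    rfl)
  have : Nonempty M := ⟨c 0⟩
  have e1 := h2 (.om 0) (SM.val_om (X.asg0 J s R) 0 rfl).ge
  have e2 := h2 fR hR.ge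
  have e3 := h2 (.isJ 0 1) hJ.ge
  have e4 := h2 (.seq 0 2) hs.ge
  have e5 := h2 fC2 hC.ge
  have e6 := h2 fN hN.ge
  rw [sat_om] at e1
  rw [sat_isJ] at e3
  rw [sat_seq] at e4
  simp only [fR, sat_all, sat_iff, sat_mem, sat_real, cons_zero, cons_succ] at e2
  simp only [fC2, sat_all, sat_imp, sat_ex, sat_and, sat_mem, sat_rel, sat_real, sat_dg,
    cons_zero, cons_succ] at e5
  simp only [fN, sat_neg, sat_ex, sat_choice, cons_zero, cons_succ] at e6
  exact ⟨M, E, isZF_of_ax (fun f hf v => h1 f (fun v => (val_ax X f hf v).ge) v),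
    c 0, c 1, c 2, c 3, e1, e2, e3, e4, e5, e6⟩

end Pool.Agent.LibBc83
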