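import Pool.Agent.LibBc83.W5
import Pool.Agent.LibBc83.W6
import Pool.Agent.LibBc83.I2
import Pool.Agent.LibBc83.U5
import Pool.Agent.LibBc83.V3

/-!
The second model.
-/

namespace Pool.Agent.LibBc83

open Pool.Agent.LibTk83 SM

theorem exists_core2 : ∃ (M : Type) (E : M → M → Prop), Core2 E := by
  let X : SM (RO PC2) Gp (famOf Gp fam2) := mkSM (isFam_famOfW suppsW2)
  obtain ⟨R, hR⟩ := X.exists_RN
  obtain ⟨J, hJ⟩ := X.exists_JN
  obtain ⟨s, hs, hs'⟩ := exists_sN2 X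
  refine core2_of X ?_ J s R (val_fR hR) (val_isJ hJ) (val_seqs hs) (val_fC2 hJ hs') (val_fN2 hs')
  exact RO.ne_bot_iff.2 ⟨Cond.emp, RO.mem_top⟩

theorem exists_model2 : ∃ (M : Type) (E : M → M → Prop), IsZF E ∧ ¬ ACU E 3 := by
  obtain ⟨M, E, h⟩ := exists_core2
  exact ⟨M, E, h.zf, core2_final h⟩

end Pool.Agent.LibBc83
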