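import Pool.Agent.LibBc83.SMb

/-!
BC83 NA. Pairing, union, separation for symmetric names.

Plan. `supp_of_mem`: for `g ∈ S`, `X.mem x (X.act g u) = g • X.mem (X.act g⁻¹ x) u`
(`X.mem_act`, `act_act_inv`) `= g • φ (X.act g⁻¹ x) = φ (X.act g (X.act g⁻¹ x)) = φ x`; so
`X.eq (X.act g u) u = ⊤` by `eq_top_of`.
The axioms: `comp_bdd` with `φ` the right side of the equation. `ax_pair`: `S` from
`exists_supp_fin X.fam (cons a fun _ => b) 2`, `ι = Bool`. `ax_sep`: `S` which supports `a` and all
`v n` with `n < f.bd`; by `ev_bd` one can replace `v` by an assignment whose values all have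
support `S` (replace `v n`, `n ≥ f.bd`, by `a`); `Inv` from `Inv.mem`, `inv_val`; the small family
is the one which represents `a` (`exists_rep`): `φ x ≤ X.mem x a ≤ ⨆ i, X.eq x (A i)`.
`ax_union`: `S` from `X.supp a`; `Inv`: reindex the supremum over `s` with the surjection
`X.act g` and use `Inv.mem`, `X.mem_act`; small family: for `a` given by `A, b` and each `A i` given
by `A' i, b' i` take `⟨i, j⟩ ↦ A' i j` (with `iSup_mem` for the supremum over the members of `a`).
-/

namespace Pool.Agent.LibBc83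

namespace SM

variable {B : Type} [CompleteBooleanAlgebra B] {G : Type} [Group G] [MulAction G B]
  [OrdAct G B] {Fam : Set (Set G)}

omit [OrdAct G B] in
theorem supp_of_mem {X : SM B G Fam} {u : X.N} {φ : X.N → B} (h : ∀ x, X.mem x u = φ x)
    {S : Set G} (hi : X.Inv S φ) : X.Supp S u := by
  intro g hg
  refine eq_top_of _ _ fun t => ?_
  obtain ⟨s, rfl⟩ := act_surj g t
  rw [X.mem_act, h, h, hi g hg]

variable (X : SM B G Fam)

theorem ax_pair (a b : X.N) : ∃ u, ∀ x, X.mem x u = X.eq x a ⊔ X.eq x b := by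
  obtain ⟨S, hS, h⟩ := exists_supp_fin (X := X) X.fam (cons a fun _ => b) 2
  have ha : X.Supp S a := h 0 (by norm_num)
  have hb : X.Supp S b := h 1 (by norm_num)
  obtain ⟨u, -, hu⟩ := comp_bdd (X := X) (φ := fun x => X.eq x a ⊔ X.eq x b)
    (Ext.sup (Ext.eq_left a) (Ext.eq_left b)) hS
    (Inv.sup (Inv.eq ha) (Inv.eq hb)) (ι := Bool) (fun i => if i then a else b)
    (fun x => sup_le (le_iSup_of_le true (by simp)) (le_iSup_of_le false (by simp)))
  exact ⟨u, hu⟩

theorem ax_sep (f : Fm) (v : ℕ → X.N) (a : X.N) :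
    ∃ u, ∀ x, X.mem x u = X.mem x a ⊓ X.val f (cons x v) := by
  obtain ⟨S, hS, h⟩ := exists_supp_fin (X := X) X.fam (cons a v) (f.bd + 1)
  have ha : X.Supp S a := h 0 (Nat.succ_pos _)
  obtain ⟨w, hw⟩ : ∃ w : ℕ → X.N, w = fun n => if n < f.bd then v n else a := ⟨_, rfl⟩
  have hwS : ∀ n, X.Supp S (w n) := by
    intro n
    rw [hw]
    by_cases hn : n < f.bd
    · simp only [hn, if_true]
      exact h (n + 1) (by omega)
    · simp only [hn, if_false]
      exact ha
  have hval : ∀ x, X.val f (cons x v) = X.val f (cons x w) := by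
    intro x
    refine ev_bd f _ _ fun n hn => ?_
    cases n with
    | zero => rfl
    | succ n =>
      change v n = w n
      have hn' : n < f.bd := by omega
      rw [hw]
      simp only [hn', if_true]
  obtain ⟨ι, A, b, hA⟩ := exists_rep X a
  obtain ⟨u, -, hu⟩ := comp_bdd (X := X) (φ := fun x => X.mem x a ⊓ X.val f (cons x w))
    (Ext.inf (Ext.mem_left a) (Ext.val f w)) hS
    (Inv.inf (Inv.mem ha) (inv_val f w hwS)) A
    (fun x => inf_le_left.trans (by
      rw [hA]
      exact iSup_mono fun i => inf_le_right))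
  exact ⟨u, fun x => by rw [hu, hval]⟩

theorem ax_union (a : X.N) : ∃ u, ∀ t, X.mem t u = ⨆ s, X.mem s a ⊓ X.mem t s := by
  obtain ⟨S, hS, ha⟩ := X.supp a
  obtain ⟨ι, A, b, hA⟩ := exists_rep X a
  choose κ A' b' hA' using fun i => exists_rep X (A i)
  have hInv : X.Inv S (fun t => ⨆ s, X.mem s a ⊓ X.mem t s) := by
    intro g hg t
    change (⨆ s, X.mem s a ⊓ X.mem (X.act g t) s) = g • ⨆ s, X.mem s a ⊓ X.mem t s
    rw [smul_iSup', ← (act_surj (X := X) g).iSup_comp]
    refine iSup_congr fun s => ?_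
    rw [X.mem_act, smul_inf']
    congr 1
    exact Inv.mem ha g hg s
  obtain ⟨u, -, hu⟩ := comp_bdd (X := X) (φ := fun t => ⨆ s, X.mem s a ⊓ X.mem t s)
    (Ext.iSup fun s => Ext.inf (Ext.const _) (Ext.mem_left s)) hS hInv
    (ι := Σ i, κ i) (fun p => A' p.1 p.2) (fun t => by
      change (⨆ s, X.mem s a ⊓ X.mem t s) ≤ _
      rw [iSup_mem hA (Ext.mem_right t)]
      refine iSup_le fun i => inf_le_right.trans ?_
      rw [hA' i]
      exact iSup_le fun j => inf_le_right.trans
        (le_iSup (fun p : (Σ i, κ i) => X.eq t (A' p.1 p.2)) ⟨i, j⟩))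
  exact ⟨u, hu⟩

end SM

end Pool.Agent.LibBc83
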