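import Pool.Agent.LibBc83.NA

/-!
BC83 NB. Power set for symmetric names.

Plan: let `a` be given by `A : ι → X.N`, `b : ι → B` (`exists_rep`), `S` a support of `a`
(`X.supp`). Apply `comp_bdd` to `φ t = ⨅ s, X.mem s t ⇨ X.mem s a` (`Ext.iInf`, `Ext.himp`,
`Ext.mem_right`; `Inv`: for `g ∈ S` reindex with the surjection `X.act g`; `X.mem_act`,
`Inv.mem`, `smul_himp'`, `smul_iInf'`). The small family: the index type is
`{β : ι → B // ∃ u, ∀ x, X.mem x u = ⨆ i, β i ⊓ X.eq x (A i)}`, and `A' β` is such a `u`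
(`Classical.choose`). For given `t` let `u` be the name of `t ∩ a` (`ax_sep` with the formula
`.mem 0 1`, `v 0 = t`): `X.mem x u = X.mem x a ⊓ X.mem x t = ⨆ i, (b i ⊓ X.mem (A i) t) ⊓ X.eq x (A i)`
(because `x ↦ X.mem x t` respects equality). So `β i = b i ⊓ X.mem (A i) t` is an index, and
`X.mem x (A' β) = X.mem x u` for all `x`, so `φ t ≤ X.eq t (A' β)` by `X.ext` (or `eq_eq`).
-/

namespace Pool.Agent.LibBc83

namespace SM

variable {B : Type} [CompleteBooleanAlgebra B] {G : Type} [Group G] [MulAction G B]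
  [OrdAct G B] {Fam : Set (Set G)} (X : SM B G Fam)

theorem ax_power (a : X.N) : ∃ u, ∀ t, X.mem t u = ⨅ s, X.mem s t ⇨ X.mem s a := by
  obtain ⟨ι, A, b, hA⟩ := exists_rep X a
  obtain ⟨S, hS, hSa⟩ := X.supp a
  have hφ : X.Ext (fun t => ⨅ s, X.mem s t ⇨ X.mem s a) :=
    Ext.iInf fun s => Ext.himp (Ext.mem_right s) (Ext.const _)
  have hi : X.Inv S (fun t => ⨅ s, X.mem s t ⇨ X.mem s a) := by
    intro g hg t
    have h1 : ∀ s, g • (X.mem s t ⇨ X.mem s a) =
        (fun s => X.mem s (X.act g t) ⇨ X.mem s a) (X.act g s) := by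
      intro s
      have h2 : X.mem (X.act g s) (X.act g a) = X.mem (X.act g s) a :=
        (Ext.mem_right (X.act g s)).congr (hSa g hg)
      change _ = X.mem (X.act g s) (X.act g t) ⇨ X.mem (X.act g s) a
      rw [smul_himp', ← X.mem_act, ← X.mem_act, h2]
    change (⨅ s, (fun s => X.mem s (X.act g t) ⇨ X.mem s a) s) = g • ⨅ s, X.mem s t ⇨ X.mem s a
    rw [smul_iInf', iInf_congr h1]
    exact ((act_surj g).iInf_comp _).symm
  have hsm : ∀ t, (⨅ s, X.mem s t ⇨ X.mem s a) ≤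
      ⨆ β : {β : ι → B // ∃ u, ∀ x, X.mem x u = ⨆ i, β i ⊓ X.eq x (A i)},
        X.eq t (Classical.choose β.2) := by
    intro t
    obtain ⟨u, hu⟩ := X.ax_sep (.mem 0 1) (fun _ => t) a
    have hu' : ∀ x, X.mem x u = X.mem x a ⊓ X.mem x t := hu
    have hβ : ∀ x, X.mem x u = ⨆ i, (b i ⊓ X.mem (A i) t) ⊓ X.eq x (A i) := by
      intro x
      rw [hu', hA, iSup_inf_eq]
      refine iSup_congr fun i => le_antisymm ?_ ?_
      · refine le_inf (le_inf (inf_le_left.trans inf_le_left) ?_) (inf_le_left.trans inf_le_right)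
        exact (inf_le_inf_right _ inf_le_right).trans (X.eqax.meml x (A i) t)
      · refine le_inf (le_inf (inf_le_left.trans inf_le_left) inf_le_right) ?_
        have h3 := X.eqax.meml (A i) x t
        rw [X.eqax.symm (A i) x] at h3
        exact (le_inf inf_le_right (inf_le_left.trans inf_le_right)).trans h3
    refine le_iSup_of_le ⟨fun i => b i ⊓ X.mem (A i) t, u, hβ⟩ ?_
    have hw := Classical.choose_spec (⟨u, hβ⟩ : ∃ u, ∀ x, X.mem x u =
      ⨆ i, (b i ⊓ X.mem (A i) t) ⊓ X.eq x (A i))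
    have hw' : ∀ x, X.mem x (Classical.choose (⟨u, hβ⟩ : ∃ u, ∀ x, X.mem x u =
      ⨆ i, (b i ⊓ X.mem (A i) t) ⊓ X.eq x (A i))) = X.mem x a ⊓ X.mem x t := by
      intro x
      rw [hw x, ← hβ x, hu' x]
    refine X.ext _ _ _ (fun x => ?_) (fun x => ?_)
    · rw [hw' x]
      refine le_inf ?_ inf_le_right
      exact (inf_le_inf_right _ (iInf_le _ x)).trans himp_inf_le
    · rw [hw' x]
      exact inf_le_right.trans inf_le_right
  obtain ⟨u, -, hu⟩ := comp_bdd hφ hS hi _ hsm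
  exact ⟨u, hu⟩

end SM

end Pool.Agent.LibBc83
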