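import Pool.Agent.LibBc83.NA

/-!
BC83 NC. Collection for symmetric names.

Plan: let `a` be given by `A : ι → X.N`, `b : ι → B` (`exists_rep`). Let
`J = {p : ι × B // ∃ y, X.val f (cons (A p.1) (cons y v)) = p.2}` and for `j : J` choose such a
`y j`. Apply `comp_bdd` with `φ z = ⨆ j : J, ⨆ g : G, X.eq z (X.act g (y j))`, the small family
`(j, g) ↦ X.act g (y j)`, and any `S ∈ Fam` (`X.fam.ne`): `φ` is invariant under all of `G`
(`X.eq (X.act h z) (X.act g (y j)) = h • X.eq z (X.act (h⁻¹ * g) (y j))`, by `X.eq_act`,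
`X.act_mul`; reindex the supremum over `G`). Let `u` be the name obtained. To show the inequality:
the left side is, with `ψ x = ⨆ y, X.val f (cons x (cons y v))`,
`X.mem x a ⊓ ψ x = ⨆ i, b i ⊓ X.eq x (A i) ⊓ ψ x ≤ ⨆ i, X.eq x (A i) ⊓ ψ (A i)`, and
`ψ (A i) = ⨆ j with first component i, X.val f (cons (A i) (cons (y j) v))`, where
`X.mem (y j) u = ⊤` (take `g = 1`). Finally
`X.eq x (A i) ⊓ X.val f (cons (A i) (cons (y j) v)) ≤ X.val f (cons x (cons (y j) v))` (`Ext.val`).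
-/

namespace Pool.Agent.LibBc83

namespace SM

variable {B : Type} [CompleteBooleanAlgebra B] {G : Type} [Group G] [MulAction G B]
  [OrdAct G B] {Fam : Set (Set G)} (X : SM B G Fam)

theorem ax_coll (f : Fm) (v : ℕ → X.N) (a : X.N) :
    ∃ u, ∀ x, X.mem x a ⊓ (⨆ y, X.val f (cons x (cons y v))) ≤
      ⨆ y, X.mem y u ⊓ X.val f (cons x (cons y v)) := by
  obtain ⟨ι, A, b, ha⟩ := X.exists_rep a
  let J : Type := {p : ι × B // ∃ y, X.val f (cons (A p.1) (cons y v)) = p.2}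
  have hJ : ∀ j : J, ∃ y, X.val f (cons (A j.1.1) (cons y v)) = j.1.2 := fun j => j.2
  choose y hy using hJ
  obtain ⟨S, hS⟩ := X.fam.ne
  obtain ⟨φ, hφ⟩ : ∃ φ : X.N → B, φ = fun z => ⨆ j : J, ⨆ g : G, X.eq z (X.act g (y j)) :=
    ⟨_, rfl⟩
  have hE : X.Ext φ := by
    rw [hφ]
    exact Ext.iSup fun j => Ext.iSup fun g => Ext.eq_left _
  have hI : X.Inv S φ := by
    intro g _ x
    rw [hφ]
    change (⨆ j : J, ⨆ h : G, X.eq (X.act g x) (X.act h (y j))) =
      g • ⨆ j : J, ⨆ h : G, X.eq x (X.act h (y j))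
    rw [smul_iSup']
    refine iSup_congr fun j => ?_
    rw [smul_iSup']
    rw [← (Equiv.mulLeft g).iSup_comp (g := fun h => X.eq (X.act g x) (X.act h (y j)))]
    refine iSup_congr fun h => ?_
    rw [Equiv.coe_mulLeft, X.act_mul, X.eq_act]
  have hb : ∀ z, φ z ≤ ⨆ i : J × G, X.eq z (X.act i.2 (y i.1)) := by
    intro z
    rw [hφ, iSup_prod]
  obtain ⟨u, -, hu⟩ := comp_bdd hE hS hI (fun i : J × G => X.act i.2 (y i.1)) hb
  refine ⟨u, fun x => ?_⟩
  have hmem : ∀ j : J, X.mem (y j) u = ⊤ := by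
    intro j
    rw [hu, hφ]
    refine top_le_iff.1 (le_iSup_of_le j (le_iSup_of_le 1 ?_))
    rw [X.act_one, X.eqax.refl]
  rw [ha x, iSup_inf_eq]
  refine iSup_le fun i => ?_
  rw [inf_iSup_eq]
  refine iSup_le fun z => ?_
  have hj := hy ⟨(i, X.val f (cons (A i) (cons z v))), z, rfl⟩
  refine le_iSup_of_le (y ⟨(i, X.val f (cons (A i) (cons z v))), z, rfl⟩) ?_
  rw [hmem, top_inf_eq]
  have h1 : X.eq x (A i) ⊓ X.val f (cons x (cons z v)) ≤ X.val f (cons (A i) (cons z v)) :=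
    Ext.val f (cons z v) x (A i)
  have h2 := Ext.val f (cons (y ⟨(i, X.val f (cons (A i) (cons z v))), z, rfl⟩) v) (A i) x
  refine le_trans ?_ h2
  refine le_inf ?_ ?_
  · rw [X.eqax.symm]
    exact inf_le_left.trans inf_le_right
  · refine le_trans ?_ (hj.symm.le)
    exact (inf_le_inf_right _ inf_le_right).trans h1

end SM

end Pool.Agent.LibBc83
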