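import Pool.Agent.LibBc83.NA

/-!
BC83 ND. Foundation for symmetric names.

Plan: let `d` be the right side. By `X.ind` show for all `t`: `X.mem t a ⊓ dᶜ = ⊥`. Let `t` be given
by `A, b` with `X.mem (A i) a ⊓ dᶜ = ⊥` for all `i`. Then
`X.mem t a ⊓ dᶜ ≤ (⨅ u, X.mem u t ⇨ (X.mem u a)ᶜ)ᶜ ⊓ dᶜ` (because
`X.mem t a ⊓ (⨅ u, ..) ≤ d`), and `(⨅ u, X.mem u t ⇨ (X.mem u a)ᶜ)ᶜ = ⨆ u, X.mem u t ⊓ X.mem u a
= ⨆ i, b i ⊓ X.mem (A i) a` (`iSup_mem`), which is disjoint from `dᶜ`.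
-/

namespace Pool.Agent.LibBc83

namespace SM

variable {B : Type} [CompleteBooleanAlgebra B] {G : Type} [Group G] [MulAction G B]
  {Fam : Set (Set G)} (X : SM B G Fam)

theorem ax_found (a : X.N) :
    (⨆ t, X.mem t a) ≤ ⨆ t, X.mem t a ⊓ ⨅ u, X.mem u t ⇨ (X.mem u a)ᶜ := by
  set d : B := ⨆ t, X.mem t a ⊓ ⨅ u, X.mem u t ⇨ (X.mem u a)ᶜ with hd
  refine iSup_le fun t => ?_
  refine X.ind (fun t => X.mem t a ≤ d) ?_ t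
  rintro t ⟨ι, A, b, hA, hb⟩
  have hE : X.Ext (fun x => (X.mem x a)ᶜ) := (Ext.mem_left a).compl
  have h1 : (⨅ u, X.mem u t ⇨ (X.mem u a)ᶜ) = ⨅ i, b i ⇨ (X.mem (A i) a)ᶜ := iInf_mem hb hE
  have h2 : X.mem t a ⊓ (⨅ u, X.mem u t ⇨ (X.mem u a)ᶜ) ≤ d :=
    le_iSup (fun t => X.mem t a ⊓ ⨅ u, X.mem u t ⇨ (X.mem u a)ᶜ) t
  have h3 : (⨅ u, X.mem u t ⇨ (X.mem u a)ᶜ)ᶜ ≤ d := by
    rw [h1, compl_iInf]
    refine iSup_le fun i => ?_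
    rw [himp_eq, compl_sup, compl_compl]
    exact inf_le_left.trans (hA i)
  calc X.mem t a = X.mem t a ⊓ (⨅ u, X.mem u t ⇨ (X.mem u a)ᶜ) ⊔
        X.mem t a ⊓ (⨅ u, X.mem u t ⇨ (X.mem u a)ᶜ)ᶜ := by
        rw [← inf_sup_left, sup_compl_eq_top, inf_top_eq]
    _ ≤ d := sup_le h2 (inf_le_right.trans h3)

end SM

end Pool.Agent.LibBc83
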