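import Pool.Agent.LibBc83.NA
import Pool.Agent.LibBc83.CoreDef

/-!
BC83 NE. Names of pairs.

Plan. `eq_upN_le` etc. as in `Pool/Agent/LibPlas90/Pairs.lean` (there for `upr`, `opr`, `eq_upr`,
`eq_opr` on `BSet`; the proofs can be copied, `mem_upN` plays the role of `mem_upr`).
`supp_upN`, `supp_opN` by `supp_of_mem` with `Inv.eq`, `Inv.sup`. `act_opN`: two names with the same
members are equal (`eq_top_of`); `X.mem x (X.act g u) = g • X.mem (X.act g⁻¹ x) u`.
`val_uPair`: unfold `Fm.uPair` and use `eq_eq`; the same for `val_oPair`; `val_rel`: the supremum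
over `p` of `X.eq p q ⊓ X.mem p f` is `X.mem q f` (`≤` by `X.eqax.meml`, `≥` with `p = q`).
-/

namespace Pool.Agent.LibBc83

namespace SM

variable {B : Type} [CompleteBooleanAlgebra B] {G : Type} [Group G] [MulAction G B]
  [OrdAct G B] {Fam : Set (Set G)} (X : SM B G Fam)

/-- The name of the unordered pair. -/
noncomputable def upN (a b : X.N) : X.N := (X.ax_pair a b).choose

theorem mem_upN (x a b : X.N) : X.mem x (X.upN a b) = X.eq x a ⊔ X.eq x b :=
  (X.ax_pair a b).choose_spec x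

/-- The name of the ordered pair. -/
noncomputable def opN (a b : X.N) : X.N := X.upN (X.upN a a) (X.upN a b)

private theorem NE_le_eq (x y x' y' : X.N) (c : B) (h1 : c ≤ X.eq x x' ⊔ X.eq x y')
    (h2 : c ≤ X.eq y x' ⊔ X.eq y y') (h3 : c ≤ X.eq x' x ⊔ X.eq x' y)
    (h4 : c ≤ X.eq y' x ⊔ X.eq y' y) : c ≤ X.eq (X.upN x y) (X.upN x' y') := by
  have key : ∀ t a a' b' : X.N, c ≤ X.eq a a' ⊔ X.eq a b' →
      c ⊓ X.eq t a ≤ X.eq t a' ⊔ X.eq t b' := by
    intro t a a' b' h
    refine (inf_le_inf_right _ h).trans ?_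
    rw [inf_sup_right]
    refine sup_le_sup ?_ ?_
    · rw [inf_comm]
      exact X.eqax.trans _ _ _
    · rw [inf_comm]
      exact X.eqax.trans _ _ _
  refine X.ext _ _ _ (fun t => ?_) (fun t => ?_)
  · rw [mem_upN, mem_upN, inf_sup_left]
    exact sup_le (key t x x' y' h1) (key t y x' y' h2)
  · rw [mem_upN, mem_upN, inf_sup_left]
    exact sup_le (key t x' x y h3) (key t y' x y h4)

private theorem NE_eq_le (x y x' y' : X.N) :
    X.eq (X.upN x y) (X.upN x' y') ≤ X.eq x x' ⊔ X.eq x y' := by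
  rw [← mem_upN]
  have h1 : (⊤ : B) ≤ X.mem x (X.upN x y) := by
    rw [mem_upN, X.eqax.refl, top_sup_eq]
  refine le_trans ?_ (X.eqax.memr x (X.upN x y) (X.upN x' y'))
  exact le_inf le_rfl (le_top.trans h1)

private theorem NE_eq_le' (x y x' y' : X.N) :
    X.eq (X.upN x y) (X.upN x' y') ≤ X.eq y x' ⊔ X.eq y y' := by
  rw [← mem_upN]
  have h1 : (⊤ : B) ≤ X.mem y (X.upN x y) := by
    rw [mem_upN, X.eqax.refl, sup_top_eq]
  refine le_trans ?_ (X.eqax.memr y (X.upN x y) (X.upN x' y'))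
  exact le_inf le_rfl (le_top.trans h1)

private theorem NE_bool (a b c d : B) :
    (a ⊔ b) ⊓ (c ⊔ d) ⊓ ((a ⊔ c) ⊓ (b ⊔ d)) ≤ (a ⊓ d) ⊔ (b ⊓ c) := by
  rw [inf_sup_right (a := a) (b := b)]
  rw [inf_sup_right]
  refine sup_le ?_ ?_
  · calc a ⊓ (c ⊔ d) ⊓ ((a ⊔ c) ⊓ (b ⊔ d)) ≤ (a ⊓ c ⊔ a ⊓ d) ⊓ (b ⊔ d) := by
          rw [← inf_sup_left]
          exact inf_le_inf_left _ inf_le_right
      _ ≤ _ := by
          rw [inf_sup_right]
          refine sup_le ?_ (inf_le_left.trans le_sup_left)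
          rw [inf_sup_left]
          refine sup_le ?_ ?_
          · refine le_trans ?_ le_sup_right
            exact le_inf inf_le_right (inf_le_left.trans inf_le_right)
          · refine le_trans ?_ le_sup_left
            exact le_inf (inf_le_left.trans inf_le_left) inf_le_right
  · calc b ⊓ (c ⊔ d) ⊓ ((a ⊔ c) ⊓ (b ⊔ d)) ≤ (b ⊓ c ⊔ b ⊓ d) ⊓ (a ⊔ c) := by
          rw [← inf_sup_left]
          exact inf_le_inf_left _ inf_le_left
      _ ≤ _ := by
          rw [inf_sup_right]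
          refine sup_le (inf_le_left.trans le_sup_right) ?_
          rw [inf_sup_left]
          refine sup_le ?_ ?_
          · refine le_trans ?_ le_sup_left
            exact le_inf inf_le_right (inf_le_left.trans inf_le_right)
          · refine le_trans ?_ le_sup_right
            exact le_inf (inf_le_left.trans inf_le_left) inf_le_right

private theorem NE_eq_upN (x y x' y' : X.N) :
    X.eq (X.upN x y) (X.upN x' y') = (X.eq x x' ⊓ X.eq y y') ⊔ (X.eq x y' ⊓ X.eq y x') := by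
  apply le_antisymm
  · have h1 := X.NE_eq_le x y x' y'
    have h2 := X.NE_eq_le' x y x' y'
    have h3 : X.eq (X.upN x y) (X.upN x' y') ≤ X.eq x x' ⊔ X.eq y x' := by
      rw [X.eqax.symm (X.upN x y), X.eqax.symm x, X.eqax.symm y]
      exact X.NE_eq_le x' y' x y
    have h4 : X.eq (X.upN x y) (X.upN x' y') ≤ X.eq x y' ⊔ X.eq y y' := by
      rw [X.eqax.symm (X.upN x y), X.eqax.symm x, X.eqax.symm y]
      exact X.NE_eq_le' x' y' x y
    exact (le_inf (le_inf h1 h2) (le_inf h3 h4)).trans (NE_bool _ _ _ _)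
  · refine sup_le (X.NE_le_eq _ _ _ _ _ ?_ ?_ ?_ ?_) (X.NE_le_eq _ _ _ _ _ ?_ ?_ ?_ ?_)
    · exact inf_le_left.trans le_sup_left
    · exact inf_le_right.trans le_sup_right
    · rw [X.eqax.symm x' x]
      exact inf_le_left.trans le_sup_left
    · rw [X.eqax.symm y' y]
      exact inf_le_right.trans le_sup_right
    · exact inf_le_left.trans le_sup_right
    · exact inf_le_right.trans le_sup_left
    · rw [X.eqax.symm x' y]
      exact inf_le_right.trans le_sup_right
    · rw [X.eqax.symm y' x]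
      exact inf_le_left.trans le_sup_left

private theorem NE_eq_upN_self (x x' : X.N) : X.eq (X.upN x x) (X.upN x' x') = X.eq x x' := by
  rw [NE_eq_upN, inf_idem, sup_idem]

private theorem NE_act_upN (g : G) (a b : X.N) :
    X.eq (X.act g (X.upN a b)) (X.upN (X.act g a) (X.act g b)) = ⊤ := by
  refine eq_top_of _ _ fun t => ?_
  obtain ⟨t, rfl⟩ := act_surj (X := X) g t
  rw [X.mem_act, mem_upN, mem_upN, smul_sup', X.eq_act, X.eq_act]

theorem eq_opN (a b a' b' : X.N) :
    X.eq (X.opN a b) (X.opN a' b') = X.eq a a' ⊓ X.eq b b' := by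
  unfold opN
  rw [NE_eq_upN, NE_eq_upN_self, NE_eq_upN, NE_eq_upN, NE_eq_upN]
  apply le_antisymm
  · refine sup_le ?_ ?_
    · rw [inf_sup_left]
      refine sup_le ?_ ?_
      · exact inf_le_right
      · refine le_inf inf_le_left ?_
        calc X.eq a a' ⊓ (X.eq a b' ⊓ X.eq b a') ≤ X.eq b a' ⊓ (X.eq a' a ⊓ X.eq a b') := by
              rw [X.eqax.symm a' a]
              exact le_inf (inf_le_right.trans inf_le_right)
                (le_inf inf_le_left (inf_le_right.trans inf_le_left))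
          _ ≤ X.eq b a' ⊓ X.eq a' b' := inf_le_inf_left _ (X.eqax.trans _ _ _)
          _ ≤ X.eq b b' := X.eqax.trans _ _ _
    · have h1 : X.eq a a' ⊓ X.eq a b' ⊔ X.eq a b' ⊓ X.eq a a' = X.eq a a' ⊓ X.eq a b' := by
        rw [inf_comm (X.eq a b'), sup_idem]
      have h2 : X.eq a a' ⊓ X.eq b a' ⊔ X.eq a a' ⊓ X.eq b a' = X.eq a a' ⊓ X.eq b a' :=
        sup_idem _
      rw [h1, h2]
      refine le_inf (inf_le_left.trans inf_le_left) ?_
      calc X.eq a a' ⊓ X.eq a b' ⊓ (X.eq a a' ⊓ X.eq b a')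
            ≤ X.eq b a' ⊓ (X.eq a' a ⊓ X.eq a b') := by
              rw [X.eqax.symm a' a]
              exact le_inf (inf_le_right.trans inf_le_right)
                (le_inf (inf_le_left.trans inf_le_left) (inf_le_left.trans inf_le_right))
          _ ≤ X.eq b a' ⊓ X.eq a' b' := inf_le_inf_left _ (X.eqax.trans _ _ _)
          _ ≤ X.eq b b' := X.eqax.trans _ _ _
  · refine le_trans ?_ le_sup_left
    exact le_inf inf_le_left le_sup_left

theorem supp_upN {S : Set G} {a b : X.N} (ha : X.Supp S a) (hb : X.Supp S b) :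
    X.Supp S (X.upN a b) := by
  exact supp_of_mem (fun x => X.mem_upN x a b) (Inv.sup (Inv.eq ha) (Inv.eq hb))

theorem supp_opN {S : Set G} {a b : X.N} (ha : X.Supp S a) (hb : X.Supp S b) :
    X.Supp S (X.opN a b) := by
  exact X.supp_upN (X.supp_upN ha ha) (X.supp_upN ha hb)

theorem act_opN (g : G) (a b : X.N) :
    X.eq (X.act g (X.opN a b)) (X.opN (X.act g a) (X.act g b)) = ⊤ := by
  refine eq_top_of _ _ fun t => ?_
  obtain ⟨t, rfl⟩ := act_surj (X := X) g t
  unfold opN
  rw [X.mem_act, mem_upN, mem_upN, smul_sup', ← X.eq_act, ← X.eq_act,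
    (Ext.eq_right (X.act g t)).congr (X.NE_act_upN g a a),
    (Ext.eq_right (X.act g t)).congr (X.NE_act_upN g a b)]

theorem ext_opN_left (b : X.N) {φ : X.N → B} (h : X.Ext φ) : X.Ext (fun a => φ (X.opN a b)) := by
  intro x y
  have h1 := h (X.opN x b) (X.opN y b)
  rwa [eq_opN, X.eqax.refl, inf_top_eq] at h1

theorem ext_opN_right (a : X.N) {φ : X.N → B} (h : X.Ext φ) : X.Ext (fun b => φ (X.opN a b)) := by
  intro x y
  have h1 := h (X.opN a x) (X.opN a y)
  rwa [eq_opN, X.eqax.refl, top_inf_eq] at h1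

/-- The truth value of: `(x, y)` is in `f`. -/
noncomputable def rl (f x y : X.N) : B := X.mem (X.opN x y) f

theorem ext_rl_left (x y : X.N) : X.Ext (fun f => X.rl f x y) := by
  exact Ext.mem_right (X.opN x y)

theorem ext_rl_mid (f y : X.N) : X.Ext (fun x => X.rl f x y) := by
  exact X.ext_opN_left y (Ext.mem_left f)

theorem ext_rl_right (f x : X.N) : X.Ext (fun y => X.rl f x y) := by
  exact X.ext_opN_right x (Ext.mem_left f)

theorem rl_act (g : G) (f x y : X.N) :
    X.rl (X.act g f) (X.act g x) (X.act g y) = g • X.rl f x y := by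
  unfold rl
  rw [← X.mem_act]
  exact ((Ext.mem_left (X.act g f)).congr (X.act_opN g x y)).symm

variable {X}

theorem val_uPair (v : ℕ → X.N) (z x y : ℕ) :
    X.val (.uPair z x y) v = X.eq (v z) (X.upN (v x) (v y)) := by
  rw [eq_eq]
  simp only [SM.val, Fm.uPair, ev_all, ev_iff, ev_or, ev_mem, ev_eq, cons_zero, cons_succ,
    mem_upN]

theorem val_oPair (v : ℕ → X.N) (p x y : ℕ) :
    X.val (.oPair p x y) v = X.eq (v p) (X.opN (v x) (v y)) := by
  have h : ∀ (w : ℕ → X.N) (z x y : ℕ),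
      ev X.mem X.eq (.uPair z x y) w = X.eq (w z) (X.upN (w x) (w y)) := fun w z x y =>
    val_uPair w z x y
  rw [eq_eq]
  simp only [SM.val, Fm.oPair, ev_all, ev_iff, ev_or, ev_mem, h, cons_zero, cons_succ, opN,
    mem_upN]

theorem val_rel (v : ℕ → X.N) (f x y : ℕ) :
    X.val (.rel f x y) v = X.rl (v f) (v x) (v y) := by
  have h : ∀ (w : ℕ → X.N) (z x y : ℕ),
      ev X.mem X.eq (.oPair z x y) w = X.eq (w z) (X.opN (w x) (w y)) := fun w z x y =>
    val_oPair w z x y
  simp only [SM.val, Fm.rel, ev_ex, ev_and, ev_mem, h, cons_zero, cons_succ, rl]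
  apply le_antisymm
  · exact iSup_le fun p => X.eqax.meml _ _ _
  · refine le_iSup_of_le (X.opN (v x) (v y)) ?_
    rw [X.eqax.refl, top_inf_eq]

end SM

end Pool.Agent.LibBc83
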