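import Pool.Agent.LibBc83.NE

/-!
BC83 NF. Names of the natural numbers and of `ω`.

Plan. `exists_nat`: by recursion; it is enough to have the name of the empty set (`comp_bdd` with
`φ = ⊥`, `ι = Empty`; some `S ∈ Fam` exists by `X.fam.ne`) and for each `u` the name of
`u ∪ {u}` (`comp_bdd` with `φ x = X.mem x u ⊔ X.eq x u`, the small family of `u` and `u` itself,
`ι = Option _`). `supp_nat` for each set `S`, by induction and `supp_of_mem`. `mem_nat'` by
induction. `eq_nat`, `mem_nat`: by strong induction; `mem_nat m n = ⨆ k < n, eq m k`; if `m < n`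
then `X.eq (nat m) (nat n) ≤ X.mem (nat m) (nat m)` (as `X.mem (nat m) (nat n) = ⊤`), and
`X.mem (nat m) (nat m) = ⨆ k < m, X.eq (nat m) (nat k) = ⊥` by induction.
`exists_om`: `comp_bdd` with `φ x = ⨆ n, X.eq x (nat n)`. `iInf_om`, `iSup_om` as `iInf_mem`,
`iSup_mem` (with `b = ⊤`).
-/

namespace Pool.Agent.LibBc83

namespace SM

variable {B : Type} [CompleteBooleanAlgebra B] {G : Type} [Group G] [MulAction G B]
  [OrdAct G B] {Fam : Set (Set G)} (X : SM B G Fam)

omit [OrdAct G B] in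
private theorem NF_ext_sup (u : X.N) : X.Ext (fun x => X.mem x u ⊔ X.eq x u) :=
  Ext.sup (Ext.mem_left u) (Ext.eq_left u)

private theorem NF_inv_bot (S : Set G) : X.Inv S (fun _ => (⊥ : B)) :=
  fun g _ _ => (smul_bot' g).symm

private theorem NF_succ (u : X.N) : ∃ u', ∀ x, X.mem x u' = X.mem x u ⊔ X.eq x u := by
  obtain ⟨S, hS, hSu⟩ := X.supp u
  obtain ⟨ι, A, b, hA⟩ := exists_rep X u
  have hs : X.Supp S u := hSu
  obtain ⟨u', -, hu'⟩ := comp_bdd (NF_ext_sup X u) hS (Inv.sup (Inv.mem hs) (Inv.eq hs))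
    (fun o : Option ι => o.elim u A) (by
      intro x
      refine sup_le ?_ ?_
      · rw [hA]
        refine iSup_le fun i => ?_
        exact le_iSup_of_le (some i) inf_le_right
      · exact le_iSup_of_le none le_rfl)
  exact ⟨u', hu'⟩

private theorem NF_zero : ∃ u' : X.N, ∀ x, X.mem x u' = ⊥ := by
  obtain ⟨S, hS⟩ := X.fam.ne
  obtain ⟨u', -, hu'⟩ := comp_bdd (X := X) (Ext.const (⊥ : B)) hS (NF_inv_bot X S)
    (fun o : Empty => o.elim) (fun x => bot_le)
  exact ⟨u', hu'⟩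

theorem exists_nat : ∃ nat : ℕ → X.N, (∀ x, X.mem x (nat 0) = ⊥) ∧
    ∀ n x, X.mem x (nat (n + 1)) = X.mem x (nat n) ⊔ X.eq x (nat n) := by
  obtain ⟨e, he⟩ := NF_zero X
  choose s hs using NF_succ X
  exact ⟨fun n => Nat.rec e (fun _ u => s u) n, he, fun n x => hs _ x⟩

/-- The names of the natural numbers. -/
noncomputable def nat : ℕ → X.N := X.exists_nat.choose

theorem mem_nat_zero (x : X.N) : X.mem x (X.nat 0) = ⊥ := X.exists_nat.choose_spec.1 x

theorem mem_nat_succ (n : ℕ) (x : X.N) :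
    X.mem x (X.nat (n + 1)) = X.mem x (X.nat n) ⊔ X.eq x (X.nat n) :=
  X.exists_nat.choose_spec.2 n x

theorem mem_nat' (n : ℕ) (x : X.N) : X.mem x (X.nat n) = ⨆ k, ⨆ (_ : k < n), X.eq x (X.nat k) := by
  induction n with
  | zero =>
    rw [mem_nat_zero]
    simp
  | succ n ih => rw [mem_nat_succ, ih, Nat.iSup_lt_succ]

private theorem NF_mem_lt {m n : ℕ} (h : m < n) : X.mem (X.nat m) (X.nat n) = ⊤ := by
  rw [mem_nat', eq_top_iff]
  refine le_iSup_of_le m (le_iSup_of_le h ?_)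
  rw [X.eqax.refl]

private theorem NF_eq_le {m n : ℕ} (h : m < n) :
    X.eq (X.nat m) (X.nat n) ≤ X.mem (X.nat m) (X.nat m) := by
  have h1 := X.eqax.memr (X.nat m) (X.nat n) (X.nat m)
  rwa [NF_mem_lt X h, inf_top_eq, X.eqax.symm] at h1

private theorem NF_mem_self (m : ℕ) : X.mem (X.nat m) (X.nat m) = ⊥ := by
  induction m using Nat.strong_induction_on with
  | _ m ih =>
    rw [mem_nat', eq_bot_iff]
    refine iSup_le fun k => iSup_le fun hk => ?_
    rw [X.eqax.symm]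
    exact (NF_eq_le X hk).trans (ih k hk).le

theorem eq_nat_ne {m n : ℕ} (h : m ≠ n) : X.eq (X.nat m) (X.nat n) = ⊥ := by
  rcases lt_or_gt_of_ne h with h1 | h1
  · rw [eq_bot_iff]
    exact (NF_eq_le X h1).trans (NF_mem_self X m).le
  · rw [eq_bot_iff, X.eqax.symm]
    exact (NF_eq_le X h1).trans (NF_mem_self X n).le

theorem mem_nat_of_lt {m n : ℕ} (h : m < n) : X.mem (X.nat m) (X.nat n) = ⊤ := NF_mem_lt X h

theorem mem_nat_of_le {m n : ℕ} (h : n ≤ m) : X.mem (X.nat m) (X.nat n) = ⊥ := by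
  rw [mem_nat', eq_bot_iff]
  refine iSup_le fun k => iSup_le fun hk => ?_
  rw [eq_nat_ne X (by omega)]

theorem supp_nat (S : Set G) (n : ℕ) : X.Supp S (X.nat n) := by
  induction n with
  | zero => exact supp_of_mem X.mem_nat_zero (NF_inv_bot X S)
  | succ n ih => exact supp_of_mem (X.mem_nat_succ n) (Inv.sup (Inv.mem ih) (Inv.eq ih))

private theorem NF_inv_om (S : Set G) : X.Inv S (fun x => ⨆ n, X.eq x (X.nat n)) := by
  intro g hg x
  change (⨆ n, X.eq (X.act g x) (X.nat n)) = g • ⨆ n, X.eq x (X.nat n)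
  rw [smul_iSup']
  exact iSup_congr fun n => Inv.eq (X.supp_nat S n) g hg x

theorem exists_om : ∃ u, ∀ x, X.mem x u = ⨆ n, X.eq x (X.nat n) := by
  obtain ⟨S, hS⟩ := X.fam.ne
  obtain ⟨u, -, hu⟩ := comp_bdd (X := X) (Ext.iSup fun n => Ext.eq_left (X.nat n)) hS
    (NF_inv_om X S) X.nat (fun x => le_rfl)
  exact ⟨u, hu⟩

/-- The name of the set of the natural numbers. -/
noncomputable def om : X.N := X.exists_om.choose

theorem mem_om (x : X.N) : X.mem x X.om = ⨆ n, X.eq x (X.nat n) := X.exists_om.choose_spec x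

theorem supp_om (S : Set G) : X.Supp S X.om := supp_of_mem X.mem_om (NF_inv_om X S)

theorem nat_mem_om (n : ℕ) : X.mem (X.nat n) X.om = ⊤ := by
  rw [mem_om, eq_top_iff]
  refine le_iSup_of_le n ?_
  rw [X.eqax.refl]

variable {X}

private theorem NF_om_rep (x : X.N) : X.mem x X.om = ⨆ n, (⊤ : B) ⊓ X.eq x (X.nat n) := by
  rw [mem_om]
  simp only [top_inf_eq]

theorem iInf_om {φ : X.N → B} (h : X.Ext φ) : (⨅ x, X.mem x X.om ⇨ φ x) = ⨅ n, φ (X.nat n) := by
  rw [iInf_mem NF_om_rep h]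
  simp only [top_himp]

theorem iSup_om {φ : X.N → B} (h : X.Ext φ) : (⨆ x, X.mem x X.om ⊓ φ x) = ⨆ n, φ (X.nat n) := by
  rw [iSup_mem NF_om_rep h]
  simp only [top_inf_eq]

theorem iInf_nat {φ : X.N → B} (h : X.Ext φ) (n : ℕ) :
    (⨅ x, X.mem x (X.nat n) ⇨ φ x) = ⨅ k, ⨅ (_ : k < n), φ (X.nat k) := by
  apply le_antisymm
  · refine le_iInf fun k => le_iInf fun hk => (iInf_le _ (X.nat k)).trans ?_
    rw [mem_nat_of_lt X hk, top_himp]
  · refine le_iInf fun x => ?_
    rw [le_himp_iff, mem_nat', inf_iSup_eq]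
    refine iSup_le fun k => ?_
    rw [inf_iSup_eq]
    refine iSup_le fun hk => ?_
    rw [inf_comm, X.eqax.symm]
    exact (inf_le_inf_left _ (iInf₂_le k hk)).trans (h _ _)

end SM

end Pool.Agent.LibBc83
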