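import Pool.Agent.LibBc83.NF

/-!
BC83 NG. `X.om` is the least inductive set.
-/

namespace Pool.Agent.LibBc83

namespace SM

variable {B : Type} [CompleteBooleanAlgebra B] {G : Type} [Group G] [MulAction G B]
  [OrdAct G B] {Fam : Set (Set G)} {X : SM B G Fam}

omit [OrdAct G B] in
private theorem NG_val_emp (v : ℕ → X.N) (x : ℕ) :
    X.val (.emp x) v = ⨅ t, (X.mem t (v x))ᶜ := by
  simp [SM.val, Fm.emp]

omit [OrdAct G B] in
private theorem NG_val_suc (v : ℕ → X.N) (y x : ℕ) :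
    X.val (.suc y x) v = ⨅ t, (X.mem t (v y) ⇨ X.mem t (v x) ⊔ X.eq t (v x)) ⊓
      (X.mem t (v x) ⊔ X.eq t (v x) ⇨ X.mem t (v y)) := by
  simp [SM.val, Fm.suc]

omit [OrdAct G B] in
private theorem NG_val_step (v : ℕ → X.N) (x : ℕ) :
    X.val (.ex (.and (.suc 0 1) (.mem 0 (x + 2)))) v =
      ⨆ y, X.val (.suc 0 1) (cons y v) ⊓ X.mem y (v (x + 1)) := by
  simp [SM.val]

omit [OrdAct G B] in
private theorem NG_val_ind (v : ℕ → X.N) (x : ℕ) :
    X.val (.ind x) v = (⨆ z, X.val (.emp 0) (cons z v) ⊓ X.mem z (v x)) ⊓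
      ⨅ z, X.mem z (v x) ⇨
        X.val (.ex (.and (.suc 0 1) (.mem 0 (x + 2)))) (cons z v) := by
  simp [SM.val, Fm.ind]

omit [OrdAct G B] in
private theorem NG_emp_le (v : ℕ → X.N) (z : X.N) :
    X.val (.emp 0) (cons z v) ≤ (⨅ t, (X.mem t z)ᶜ) := by
  rw [NG_val_emp]
  rfl

theorem val_emp_nat (v : ℕ → X.N) (x : ℕ) (h : v x = X.nat 0) : X.val (.emp x) v = ⊤ := by
  rw [NG_val_emp, h]
  simp [mem_nat_zero]

theorem val_suc_nat (v : ℕ → X.N) (x y n : ℕ) (hx : v x = X.nat n) (hy : v y = X.nat (n + 1)) :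
    X.val (.suc y x) v = ⊤ := by
  rw [NG_val_suc, hx, hy]
  simp [mem_nat_succ]

theorem val_ind_om (v : ℕ → X.N) (x : ℕ) (h : v x = X.om) : X.val (.ind x) v = ⊤ := by
  rw [NG_val_ind, h, iInf_om (Ext.val _ v)]
  apply top_unique
  refine le_inf ?_ (le_iInf fun n => ?_)
  · refine le_iSup_of_le (X.nat 0) ?_
    rw [val_emp_nat (cons (X.nat 0) v) 0 rfl, nat_mem_om, top_inf_eq]
  · rw [NG_val_step]
    refine le_iSup_of_le (X.nat (n + 1)) ?_
    rw [val_suc_nat (cons (X.nat (n + 1)) (cons (X.nat n) v)) 1 0 n rfl rfl, cons_succ, h,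
      nat_mem_om, top_inf_eq]

private theorem NG_emp_eq (v : ℕ → X.N) (z : X.N) :
    X.val (.emp 0) (cons z v) ≤ X.eq z (X.nat 0) := by
  refine X.ext _ _ _ (fun t => ?_) (fun t => ?_)
  · refine (inf_le_inf_right _ ((NG_emp_le v z).trans (iInf_le _ t))).trans ?_
    rw [compl_inf_self]
    exact bot_le
  · rw [mem_nat_zero, inf_bot_eq]
    exact bot_le

private theorem NG_suc_eq (v : ℕ → X.N) (y : X.N) (n : ℕ) :
    X.val (.suc 0 1) (cons y (cons (X.nat n) v)) ≤ X.eq y (X.nat (n + 1)) := by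
  rw [NG_val_suc]
  refine X.ext _ _ _ (fun t => ?_) (fun t => ?_)
  · rw [← le_himp_iff, mem_nat_succ]
    exact (iInf_le _ t).trans inf_le_left
  · rw [← le_himp_iff, mem_nat_succ]
    exact (iInf_le _ t).trans inf_le_right

private theorem NG_ind_le (v : ℕ → X.N) (x n : ℕ) :
    X.val (.ind x) v ≤ X.mem (X.nat n) (v x) := by
  induction n with
  | zero =>
    rw [NG_val_ind]
    refine inf_le_left.trans (iSup_le fun z => ?_)
    exact (inf_le_inf_right _ (NG_emp_eq v z)).trans (X.eqax.meml _ _ _)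
  | succ n ih =>
    have h1 : X.val (.ind x) v ≤ X.mem (X.nat n) (v x) ⇨
        X.val (.ex (.and (.suc 0 1) (.mem 0 (x + 2)))) (cons (X.nat n) v) := by
      rw [NG_val_ind]
      exact inf_le_right.trans (iInf_le _ (X.nat n))
    have h2 : X.val (.ind x) v ≤
        X.val (.ex (.and (.suc 0 1) (.mem 0 (x + 2)))) (cons (X.nat n) v) :=
      (le_inf h1 ih).trans himp_inf_le
    refine h2.trans ?_
    rw [NG_val_step]
    refine iSup_le fun y => ?_
    exact (inf_le_inf_right _ (NG_suc_eq v y n)).trans (X.eqax.meml _ _ _)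

theorem val_om (v : ℕ → X.N) (x : ℕ) (h : v x = X.om) : X.val (.om x) v = ⊤ := by
  have h1 : X.val (.om x) v = X.val (.ind x) v ⊓
      ⨅ u, X.val (.ind 0) (cons u v) ⇨ ⨅ t, X.mem t (v x) ⇨ X.mem t u := by
    simp [SM.val, Fm.om]
  rw [h1, val_ind_om v x h, h, top_inf_eq]
  apply top_unique
  refine le_iInf fun u => ?_
  rw [le_himp_iff, top_inf_eq, iInf_om (Ext.mem_left u)]
  exact le_iInf fun n => NG_ind_le (cons u v) 0 n

end SM

end Pool.Agent.LibBc83
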