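import Pool.Agent.LibBc83.Cnd

/-!
BC83 P1. Elementary facts on conditions (finite partial functions `p : C → Option V`).

All are immediate from the definitions in `Cnd.lean` (`res S p` is `p` on `S` and `none` elsewhere;
`union p q` is `(p.f c).or (q.f c)`; `q ≤ p` iff `q` extends `p`). Useful: first prove `res_f`,
`union_f`.
-/

namespace Pool.Agent.LibBc83

namespace Cond

variable {C V : Type} {ok : C → V → Prop}

theorem res_f_of_mem {S : Set C} {c : C} (h : c ∈ S) (p : Cond C V ok) :
    (p.res S).f c = p.f c := by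
  unfold res
  exact if_pos h

theorem res_f_of_not_mem {S : Set C} {c : C} (h : c ∉ S) (p : Cond C V ok) :
    (p.res S).f c = none := by
  unfold res
  exact if_neg h

theorem union_f (p q : Cond C V ok) (c : C) : (union p q).f c = (p.f c).or (q.f c) := rfl

theorem mem_dom_iff {p : Cond C V ok} {c : C} : c ∈ p.dom ↔ ∃ v, p.f c = some v := Option.ne_none_iff_exists'

theorem dom_finite (p : Cond C V ok) : p.dom.Finite := p.fin

theorem le_res (S : Set C) (p : Cond C V ok) : p ≤ p.res S := by
  intro c v h
  by_cases hc : c ∈ S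
  · rwa [res_f_of_mem hc] at h
  · rw [res_f_of_not_mem hc] at h
    exact absurd h (by simp)

theorem res_mono (S : Set C) {p q : Cond C V ok} (h : q ≤ p) : q.res S ≤ p.res S := by
  intro c v hv
  by_cases hc : c ∈ S
  · rw [res_f_of_mem hc] at hv ⊢
    exact h c v hv
  · rw [res_f_of_not_mem hc] at hv
    exact absurd hv (by simp)

theorem res_anti {S T : Set C} (h : S ⊆ T) (p : Cond C V ok) : p.res T ≤ p.res S := by
  intro c v hv
  by_cases hc : c ∈ S
  · rw [res_f_of_mem hc] at hv
    rwa [res_f_of_mem (h hc)]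
  · rw [res_f_of_not_mem hc] at hv
    exact absurd hv (by simp)

theorem res_res {S T : Set C} (h : S ⊆ T) (p : Cond C V ok) : (p.res T).res S = p.res S := by
  refine Cond.ext (funext fun c => ?_)
  by_cases hc : c ∈ S
  · rw [res_f_of_mem hc, res_f_of_mem (h hc), res_f_of_mem hc]
  · rw [res_f_of_not_mem hc, res_f_of_not_mem hc]

theorem res_res_self (S : Set C) (p : Cond C V ok) : (p.res S).res S = p.res S := res_res subset_rfl p

theorem dom_res (S : Set C) (p : Cond C V ok) : (p.res S).dom = p.dom ∩ S := by
  ext c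
  rw [Set.mem_inter_iff, mem_dom_iff, mem_dom_iff]
  by_cases hc : c ∈ S
  · rw [res_f_of_mem hc]
    exact ⟨fun h => ⟨h, hc⟩, fun h => h.1⟩
  · rw [res_f_of_not_mem hc]
    exact ⟨fun ⟨v, hv⟩ => absurd hv (by simp), fun h => absurd h.2 hc⟩

theorem dom_union (p q : Cond C V ok) : (union p q).dom = p.dom ∪ q.dom := by
  ext c
  rw [Set.mem_union, mem_dom_iff, mem_dom_iff, mem_dom_iff, union_f]
  rcases hp : p.f c with _ | u
  · rw [Option.none_or]
    exact ⟨fun h => Or.inr h, fun h => h.resolve_left fun ⟨v, hv⟩ => absurd hv (by simp)⟩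
  · rw [Option.some_or]
    exact ⟨fun h => Or.inl h, fun _ => ⟨u, rfl⟩⟩

theorem dom_mono {p q : Cond C V ok} (h : q ≤ p) : p.dom ⊆ q.dom := by
  intro c hc
  obtain ⟨v, hv⟩ := mem_dom_iff.1 hc
  exact mem_dom_iff.2 ⟨v, h c v hv⟩

theorem res_eq_self_iff {S : Set C} {p : Cond C V ok} : p.res S = p ↔ p.dom ⊆ S := by
  constructor
  · intro h c hc
    by_contra hS
    apply hc
    rw [← h, res_f_of_not_mem hS]
  · intro h
    refine Cond.ext (funext fun c => ?_)
    by_cases hc : c ∈ S
    · exact res_f_of_mem hc p
    · rw [res_f_of_not_mem hc]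
      by_contra hne
      exact hc (h fun h0 => hne h0.symm)

theorem union_le_left (p q : Cond C V ok) : union p q ≤ p := by
  intro c v hv
  rw [union_f, hv, Option.some_or]

theorem union_le_right {p q : Cond C V ok} (h : Comp p q) : union p q ≤ q := by
  intro c v hv
  rw [union_f]
  rcases hp : p.f c with _ | u
  · rw [Option.none_or, hv]
  · rw [Option.some_or, h c u v hp hv]

theorem comp_of_le {p q r : Cond C V ok} (h : r ≤ p) (h' : r ≤ q) : Comp p q := by
  intro c v w hv hw
  have h1 := h c v hv
  rw [h' c w hw] at h1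
  exact (Option.some.inj h1).symm

theorem le_union {p q r : Cond C V ok} (h : r ≤ p) (h' : r ≤ q) : r ≤ union p q := by
  intro c v hv
  rw [union_f] at hv
  rcases hp : p.f c with _ | u
  · rw [hp, Option.none_or] at hv
    exact h' c v hv
  · rw [hp, Option.some_or] at hv
    exact h c v (hp.trans hv)

theorem comp_of_disj {p q : Cond C V ok} (h : ∀ c, c ∈ p.dom → c ∉ q.dom) : Comp p q := by
  intro c v w hv hw
  exact absurd (mem_dom_iff.2 ⟨w, hw⟩) (h c (mem_dom_iff.2 ⟨v, hv⟩))

theorem Comp.symm {p q : Cond C V ok} (h : Comp p q) : Comp q p := fun c v w hv hw => (h c w v hw hv).symm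

theorem res_union (S : Set C) (p q : Cond C V ok) :
    (union p q).res S = union (p.res S) (q.res S) := by
  refine Cond.ext (funext fun c => ?_)
  by_cases hc : c ∈ S
  · rw [res_f_of_mem hc, union_f, union_f, res_f_of_mem hc, res_f_of_mem hc]
  · rw [res_f_of_not_mem hc, union_f, res_f_of_not_mem hc, res_f_of_not_mem hc, Option.none_or]

/-- If `q` extends the restriction of `p` to `S` then the restriction of `q` to `S` is compatible
with `p`. -/
theorem comp_res {S : Set C} {p q : Cond C V ok} (h : q ≤ p.res S) : Comp (q.res S) p := by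
  intro c v w hv hw
  by_cases hc : c ∈ S
  · rw [res_f_of_mem hc] at hv
    have h1 := h c w (by rw [res_f_of_mem hc]; exact hw)
    rw [hv] at h1
    exact Option.some.inj h1
  · rw [res_f_of_not_mem hc] at hv
    exact absurd hv (by simp)

theorem single_f_self {c : C} {v : V} (h : ok c v) : (single c v h).f c = some v := by
  unfold single
  exact if_pos rfl

theorem dom_single {c : C} {v : V} (h : ok c v) : (single c v h).dom = {c} := by
  classical
  ext c'
  rw [Set.mem_singleton_iff]
  constructor
  · intro hc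
    by_contra hne
    apply hc
    unfold single
    exact if_neg hne
  · intro hc
    rw [hc]
    exact mem_dom_iff.2 ⟨v, single_f_self h⟩

end Cond

end Pool.Agent.LibBc83
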