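import Pool.Agent.LibBc83.P1

/-!
BC83 P2. Regular open sets which depend only on the coordinates in `S`.

`Dep S b` says: `p ∈ b` implies `p.res S ∈ b`. Since `b` is a lower set and `p ≤ p.res S`, this is
an equivalence. For infima it is immediate (`RO.mem_iInf`, `RO.mem_inf`). For complements: let
`p ∈ bᶜ` and `q ≤ p.res S`, `q ∈ b`; then `q.res S ∈ b`, it is compatible with `p`
(`Cond.comp_res`), and the union is below `p` and in `b`, a contradiction (`RO.mem_compl`).
Suprema and `⇨` follow by taking complements (`compl_iInf`, `himp_eq`, `compl_compl`), as in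
`RO.comap_iSup`.
-/

namespace Pool.Agent.LibBc83

open Pool.Agent.LibTk83

variable {C V : Type} {ok : C → V → Prop} {S : Set C}

theorem Dep.res_mem_iff {b : RO (Cond C V ok)} (h : Dep S b) {p : Cond C V ok} :
    p.res S ∈ b ↔ p ∈ b := by
  exact ⟨fun hp => RO.mem_of_le (Cond.le_res S p) hp, fun hp => h p hp⟩

theorem Dep.mono {T : Set C} (hST : S ⊆ T) {b : RO (Cond C V ok)} (h : Dep S b) : Dep T b := by
  intro p hp
  exact RO.mem_of_le (Cond.res_anti hST p) (h p hp)

theorem Dep.inf {a b : RO (Cond C V ok)} (ha : Dep S a) (hb : Dep S b) : Dep S (a ⊓ b) := by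
  intro p hp
  rw [RO.mem_inf] at hp ⊢
  exact ⟨ha p hp.1, hb p hp.2⟩

theorem Dep.iInf {ι : Sort*} {b : ι → RO (Cond C V ok)} (h : ∀ i, Dep S (b i)) :
    Dep S (⨅ i, b i) := by
  intro p hp
  rw [RO.mem_iInf] at hp ⊢
  exact fun i => h i p (hp i)

theorem Dep.compl {b : RO (Cond C V ok)} (h : Dep S b) : Dep S bᶜ := by
  intro p hp
  rw [RO.mem_compl] at hp ⊢
  intro q hq hqb
  have h1 : q.res S ∈ b := h q hqb
  have h2 : Cond.Comp (q.res S) p := Cond.comp_res hq
  exact hp _ (Cond.union_le_right h2) (RO.mem_of_le (Cond.union_le_left (q.res S) p) h1)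

theorem Dep.iSup {ι : Sort*} {b : ι → RO (Cond C V ok)} (h : ∀ i, Dep S (b i)) :
    Dep S (⨆ i, b i) := by
  have h1 : (⨆ i, b i) = (⨅ i, (b i)ᶜ)ᶜ := by
    rw [compl_iInf]
    simp only [compl_compl]
  rw [h1]
  exact Dep.compl (Dep.iInf fun i => Dep.compl (h i))

theorem Dep.sup {a b : RO (Cond C V ok)} (ha : Dep S a) (hb : Dep S b) : Dep S (a ⊔ b) := by
  have h1 : a ⊔ b = (aᶜ ⊓ bᶜ)ᶜ := by
    rw [compl_inf, compl_compl, compl_compl]
  rw [h1]
  exact Dep.compl (Dep.inf (Dep.compl ha) (Dep.compl hb))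

theorem Dep.himp {a b : RO (Cond C V ok)} (ha : Dep S a) (hb : Dep S b) : Dep S (a ⇨ b) := by
  rw [himp_eq]
  exact Dep.sup hb (Dep.compl ha)

theorem dep_top : Dep S (⊤ : RO (Cond C V ok)) := by
  intro p _
  exact RO.mem_top

theorem dep_bot : Dep S (⊥ : RO (Cond C V ok)) := by
  rw [← compl_top]
  exact Dep.compl dep_top

/-- If `q ∈ b`, `b` depends only on `S`, and `q` extends `p` on `S`, then `p` has an extension in
`b` which differs from `p` only on `S`. -/
theorem Dep.extend {b : RO (Cond C V ok)} (h : Dep S b) {p q : Cond C V ok} (hq : q ∈ b)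
    (hpq : q ≤ p.res S) :
    Cond.union (q.res S) p ∈ b ∧ Cond.union (q.res S) p ≤ p := by
  exact ⟨RO.mem_of_le (Cond.union_le_left (q.res S) p) (h q hq),
    Cond.union_le_right (Cond.comp_res hpq)⟩

end Pool.Agent.LibBc83
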