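import Pool.Agent.LibBc83.P2

/-!
BC83 P3. The regular open sets which are fixed by all automorphisms fixing `S` are those which
depend only on `S`.

Plan. `exists_supp_of_finite`: induction on the finite set (`Set.Finite.induction_on`), with
`ne`, `cover`, `union` of `Supps`. `dep_of_inv`: let `p ∈ b`; show `p.res S ∈ b` by
`RO.mem_of_dense`: let `q ≤ p.res S`. Take supports `T ⊇ p.dom` and `T' ⊇ q.dom` and, by `move`,
`g` which fixes `S` pointwise and moves `T \ S` off `T'`. Then `g • p ∈ g • b = b`, and `g • p` and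
`q` are compatible: if both are defined at `c` then `g⁻¹ • c ∈ p.dom ⊆ T` and `c ∈ T'`, so
`g⁻¹ • c ∈ S` by the choice of `g`, hence `g⁻¹ • c = c`, and `q` extends `p` at `c`. Take the union.
`inv_of_dep`: `p ∈ g • b ↔ g⁻¹ • p ∈ b ↔ (g⁻¹ • p).res S ∈ b`, and `(g⁻¹ • p).res S = p.res S`.
`isFam_famOf`: `dir` from `fixS (S ∪ T)`; `conj`: for `S` and `g` take `fixS` of the image of `S`
under `g`; if `h` fixes `g • c` then `g⁻¹ * h * g` fixes `c`. The last two: note that
`(g • p).f (g • c) = p.f c`.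
-/

namespace Pool.Agent.LibBc83

open Pool.Agent.LibTk83

variable {G C V : Type} {ok : C → V → Prop} [Group G] [MulAction G C] {𝓢 : Set (Set C)}

theorem isFam_famOf (h : Supps G 𝓢) : IsFam (famOf G 𝓢) where
  ne := h.ne.image _
  inv := by
    rintro _ ⟨S, hS, rfl⟩ g hg c hc
    rw [inv_smul_eq_iff]
    exact (hg c hc).symm
  dir := by
    rintro _ ⟨S, hS, rfl⟩ _ ⟨T, hT, rfl⟩
    exact ⟨fixS G (S ∪ T), ⟨S ∪ T, h.union S hS T hT, rfl⟩, fun g hg =>
      ⟨fun c hc => hg c (Or.inl hc), fun c hc => hg c (Or.inr hc)⟩⟩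
  conj := by
    rintro _ ⟨S, hS, rfl⟩ g
    refine ⟨fixS G ((fun c => g • c) '' S), ⟨_, h.trans S hS g, rfl⟩, fun k hk c hc => ?_⟩
    have h1 : k • g • c = g • c := hk (g • c) ⟨c, hc, rfl⟩
    rw [mul_smul, mul_smul, h1, inv_smul_smul]

theorem exists_supp_of_finite (h : Supps G 𝓢) {D : Set C} (hD : D.Finite) :
    ∃ S ∈ 𝓢, D ⊆ S := by
  induction D, hD using Set.Finite.induction_on with
  | empty =>
    obtain ⟨S, hS⟩ := h.ne
    exact ⟨S, hS, Set.empty_subset S⟩
  | @insert a D _ _ ih =>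
    obtain ⟨S, hS, hDS⟩ := ih
    obtain ⟨T, hT, haT⟩ := h.cover a
    refine ⟨S ∪ T, h.union S hS T hT, ?_⟩
    rw [Set.insert_subset_iff]
    exact ⟨Or.inr haT, hDS.trans Set.subset_union_left⟩

variable [OkAct G C ok]

/-- If `g` fixes `S` and moves the other elements of the domain of `p` off the domain of `q`, and
`q` and `p` are compatible on `S`, then `g • p` is compatible with `q`. -/
private theorem P3_comp {S : Set C} {p q : Cond C V ok} {g : G} (hg : g ∈ fixS G S)
    (hpq : Cond.Comp (p.res S) q) (h : ∀ c ∈ p.dom, c ∉ S → g • c ∉ q.dom) :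
    Cond.Comp (g • p) q := by
  intro c v w hv hw
  rw [smul_f] at hv
  have h1 : g⁻¹ • c ∈ p.dom := Cond.mem_dom_iff.2 ⟨v, hv⟩
  have h2 : g⁻¹ • c ∈ S := by
    by_contra h3
    apply h _ h1 h3
    rw [smul_inv_smul]
    exact Cond.mem_dom_iff.2 ⟨w, hw⟩
  have h3 : c = g⁻¹ • c := by
    have h4 := hg _ h2
    rwa [smul_inv_smul] at h4
  rw [← h3] at hv h2
  refine hpq c v w ?_ hw
  rw [Cond.res_f_of_mem h2]
  exact hv

theorem dep_of_inv (h𝓢 : Supps G 𝓢) {S : Set C} (hS : S ∈ 𝓢) {b : RO (Cond C V ok)}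
    (h : ∀ g ∈ fixS G S, g • b = b) : Dep S b := by
  intro p hp
  refine RO.mem_of_dense fun q hq => ?_
  obtain ⟨T, hT, hpT⟩ := exists_supp_of_finite h𝓢 p.dom_finite
  obtain ⟨T', hT', hqT'⟩ := exists_supp_of_finite h𝓢 q.dom_finite
  obtain ⟨g, hg, hmove⟩ := h𝓢.move S hS T hT T' hT'
  have h1 : g • p ∈ b := by
    rw [← h g hg, mem_smul, inv_smul_smul]
    exact hp
  have h2 : Cond.Comp (g • p) q := by
    refine P3_comp hg (fun c v w hv hw => ?_) (fun c hc hcS hcq => ?_)
    · have h3 := hq c v hv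
      rw [hw] at h3
      exact (Option.some.inj h3).symm
    · exact hmove c (hpT hc) hcS (hqT' hcq)
  exact ⟨Cond.union (g • p) q, Cond.union_le_right h2, RO.mem_of_le (Cond.union_le_left _ _) h1⟩

private theorem P3_res {S : Set C} {p : Cond C V ok} {g : G} (hg : g ∈ fixS G S) :
    (g • p).res S = p.res S := by
  apply Cond.ext
  funext c
  by_cases hc : c ∈ S
  · rw [Cond.res_f_of_mem hc, Cond.res_f_of_mem hc, smul_f]
    have h1 : g⁻¹ • c = c := by
      rw [inv_smul_eq_iff]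
      exact (hg c hc).symm
    rw [h1]
  · rw [Cond.res_f_of_not_mem hc, Cond.res_f_of_not_mem hc]

theorem inv_of_dep {S : Set C} {b : RO (Cond C V ok)} (h : Dep S b) {g : G}
    (hg : g ∈ fixS G S) : g • b = b := by
  have hg' : g⁻¹ ∈ fixS G S := fun c hc => by
    rw [inv_smul_eq_iff]
    exact (hg c hc).symm
  apply RO.ext
  intro p
  rw [mem_smul, ← h.res_mem_iff, P3_res hg', h.res_mem_iff]

/-- If `g` fixes `S` and moves the other elements of the domain of `p` off the domain of `q`, and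
`q` and `p` are compatible on `S`, then `g • p` is compatible with `q`. -/
theorem comp_smul {S : Set C} {p q : Cond C V ok} {g : G} (hg : g ∈ fixS G S)
    (hpq : Cond.Comp (p.res S) q) (h : ∀ c ∈ p.dom, c ∉ S → g • c ∉ q.dom) :
    Cond.Comp (g • p) q := P3_comp hg hpq h

theorem res_smul {S : Set C} {p : Cond C V ok} {g : G} (hg : g ∈ fixS G S) :
    (g • p).res S = p.res S := P3_res hg

theorem dom_smul (g : G) (p : Cond C V ok) : (g • p).dom = (fun c => g • c) '' p.dom := by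
  ext c
  constructor
  · intro hc
    obtain ⟨v, hv⟩ := Cond.mem_dom_iff.1 hc
    rw [smul_f] at hv
    exact ⟨g⁻¹ • c, Cond.mem_dom_iff.2 ⟨v, hv⟩, smul_inv_smul g c⟩
  · rintro ⟨d, hd, rfl⟩
    obtain ⟨v, hv⟩ := Cond.mem_dom_iff.1 hd
    refine Cond.mem_dom_iff.2 ⟨v, ?_⟩
    rw [smul_f]
    change p.f (g⁻¹ • g • d) = some v
    rw [inv_smul_smul]
    exact hv

end Pool.Agent.LibBc83
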