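import Pool.Agent.LibBc83.NF
import Pool.Agent.LibBc83.Br

/-!
BC83 RA. Names of relations between natural numbers.

Plan. `exists_rn`: `comp_bdd` with `φ t = ⨆ n, ⨆ m, x n m ⊓ X.eq t (X.opN (X.nat n) (X.nat m))` and
the small family `(n, m) ↦ X.opN (X.nat n) (X.nat m)` (`Ext.iSup`, `Ext.inf`, `Ext.const`,
`Ext.eq_left`; `Inv`: `smul_iSup'`, `smul_inf'`, `Inv.eq` with `supp_opN`, `supp_nat`).
`dig_rn`: `X.eq (opN (nat n) (nat m)) (opN (nat n') (nat m'))` is `⊤` or `⊥` by `eq_opN`,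
`eq_nat_ne`. `supp_rn`: `supp_of_mem`. `dig_act`: `rl_act` and `supp_nat` (`ext_rl_mid`,
`ext_rl_right`, `Ext.congr`). `rn_le_eq`: `X.ext` and `mem_rn`.
-/

namespace Pool.Agent.LibBc83

namespace SM

variable {B : Type} [CompleteBooleanAlgebra B] {G : Type} [Group G] [MulAction G B]
  [OrdAct G B] {Fam : Set (Set G)} (X : SM B G Fam)

/-- The family `x` of truth values is symmetric. -/
def SymF {B G : Type} [Group G] [MulAction G B] (Fam : Set (Set G)) (x : ℕ → ℕ → B) : Prop :=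
  ∃ S ∈ Fam, ∀ g ∈ S, ∀ n m, g • x n m = x n m

/-- The truth value of: `(n, m)` is in `u`. -/
noncomputable def dig (u : X.N) (n m : ℕ) : B := X.rl u (X.nat n) (X.nat m)

private theorem RA_inv {x : ℕ → ℕ → B} {S : Set G} (h : ∀ g ∈ S, ∀ n m, g • x n m = x n m) :
    X.Inv S (fun t => ⨆ n, ⨆ m, x n m ⊓ X.eq t (X.opN (X.nat n) (X.nat m))) := by
  intro g hg t
  beta_reduce
  rw [smul_iSup']
  refine iSup_congr fun n => ?_
  rw [smul_iSup']
  refine iSup_congr fun m => ?_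
  rw [smul_inf', h g hg n m]
  exact congrArg _ (Inv.eq (X.supp_opN (X.supp_nat S n) (X.supp_nat S m)) g hg t)

theorem exists_rn (x : ℕ → ℕ → B) (hx : SymF Fam x) :
    ∃ u : X.N, ∀ t, X.mem t u = ⨆ n, ⨆ m, x n m ⊓ X.eq t (X.opN (X.nat n) (X.nat m)) := by
  obtain ⟨S, hS, h⟩ := hx
  obtain ⟨u, -, hu⟩ := comp_bdd (X := X)
    (φ := fun t => ⨆ n, ⨆ m, x n m ⊓ X.eq t (X.opN (X.nat n) (X.nat m)))
    (Ext.iSup fun n => Ext.iSup fun m => Ext.inf (Ext.const _) (Ext.eq_left _)) hS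
    (X.RA_inv h) (ι := ℕ × ℕ) (fun p => X.opN (X.nat p.1) (X.nat p.2))
    (fun t => iSup_le fun n => iSup_le fun m => inf_le_right.trans
      (le_iSup (fun p : ℕ × ℕ => X.eq t (X.opN (X.nat p.1) (X.nat p.2))) (n, m)))
  exact ⟨u, hu⟩

/-- The name of the relation with the truth values `x n m`. -/
noncomputable def rn (x : ℕ → ℕ → B) (hx : SymF Fam x) : X.N := (X.exists_rn x hx).choose

theorem mem_rn (x : ℕ → ℕ → B) (hx : SymF Fam x) (t : X.N) :
    X.mem t (X.rn x hx) = ⨆ n, ⨆ m, x n m ⊓ X.eq t (X.opN (X.nat n) (X.nat m)) :=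
  (X.exists_rn x hx).choose_spec t

theorem dig_rn (x : ℕ → ℕ → B) (hx : SymF Fam x) (n m : ℕ) : X.dig (X.rn x hx) n m = x n m := by
  unfold dig rl
  rw [mem_rn]
  apply le_antisymm
  · refine iSup_le fun n' => iSup_le fun m' => ?_
    rw [eq_opN]
    by_cases hn : n = n'
    · by_cases hm : m = m'
      · subst hn
        subst hm
        exact inf_le_left
      · rw [X.eq_nat_ne hm, inf_bot_eq, inf_bot_eq]
        exact bot_le
    · rw [X.eq_nat_ne hn, bot_inf_eq, inf_bot_eq]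
      exact bot_le
  · refine le_iSup_of_le n (le_iSup_of_le m ?_)
    rw [X.eqax.refl, inf_top_eq]

theorem supp_rn (x : ℕ → ℕ → B) (hx : SymF Fam x) {S : Set G}
    (h : ∀ g ∈ S, ∀ n m, g • x n m = x n m) : X.Supp S (X.rn x hx) :=
  supp_of_mem (X.mem_rn x hx) (X.RA_inv h)

theorem dig_act (g : G) (u : X.N) (n m : ℕ) : X.dig (X.act g u) n m = g • X.dig u n m := by
  unfold dig
  rw [← rl_act]
  have h1 := (X.ext_rl_mid (X.act g u) (X.nat m)).congr (X.supp_nat Set.univ n g (Set.mem_univ g))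
  have h2 := (X.ext_rl_right (X.act g u) (X.act g (X.nat n))).congr
    (X.supp_nat Set.univ m g (Set.mem_univ g))
  beta_reduce at h1 h2
  rw [h2, h1]

theorem ext_dig (n m : ℕ) : X.Ext (fun u => X.dig u n m) :=
  X.ext_rl_left (X.nat n) (X.nat m)

theorem dig_inv {S : Set G} {u : X.N} (hu : X.Supp S u) {g : G} (hg : g ∈ S) (n m : ℕ) :
    g • X.dig u n m = X.dig u n m := by
  rw [← dig_act]
  exact (X.ext_dig n m).congr (hu g hg)

theorem symF_dig (u : X.N) : SymF Fam (X.dig u) := by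
  obtain ⟨S, hS, h⟩ := X.supp u
  exact ⟨S, hS, fun g hg n m => X.dig_inv h hg n m⟩

private theorem RA_le (x y : ℕ → ℕ → B) (hx : SymF Fam x) (hy : SymF Fam y) (c : B)
    (hc : ∀ n m, c ≤ x n m ⇨ y n m) (t : X.N) :
    c ⊓ X.mem t (X.rn x hx) ≤ X.mem t (X.rn y hy) := by
  rw [mem_rn, mem_rn, inf_iSup_eq]
  refine iSup_le fun n => ?_
  rw [inf_iSup_eq]
  refine iSup_le fun m => le_iSup_of_le n (le_iSup_of_le m ?_)
  rw [← inf_assoc]
  exact inf_le_inf_right _ (le_himp_iff.1 (hc n m))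

theorem rn_le_eq (x y : ℕ → ℕ → B) (hx : SymF Fam x) (hy : SymF Fam y) :
    (⨅ n, ⨅ m, (x n m ⇨ y n m) ⊓ (y n m ⇨ x n m)) ≤ X.eq (X.rn x hx) (X.rn y hy) :=
  X.ext _ _ _
    (X.RA_le x y hx hy _ fun n m => (iInf_le _ n).trans ((iInf_le _ m).trans inf_le_left))
    (X.RA_le y x hy hx _ fun n m => (iInf_le _ n).trans ((iInf_le _ m).trans inf_le_right))

/-- The action on the name of a relation. -/
theorem act_rn (g : G) (x : ℕ → ℕ → B) (hx : SymF Fam x) (hx' : SymF Fam fun n m => g • x n m) :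
    X.eq (X.act g (X.rn x hx)) (X.rn (fun n m => g • x n m) hx') = ⊤ := by
  refine eq_top_of _ _ fun t => ?_
  obtain ⟨t, rfl⟩ := act_surj (X := X) g t
  rw [X.mem_act, mem_rn, mem_rn, smul_iSup']
  refine iSup_congr fun n => ?_
  rw [smul_iSup']
  refine iSup_congr fun m => ?_
  rw [smul_inf']
  exact congrArg _ (Inv.eq (X.supp_opN (X.supp_nat Set.univ n) (X.supp_nat Set.univ m)) g
    (Set.mem_univ g) t).symm

end SM

end Pool.Agent.LibBc83
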