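import Pool.Agent.LibBc83.RA

/-!
BC83 RB. Names of reals.

Plan. `val_real`: both sides unfold (`simp only [Fm.real, Fm.ex1rel, ...]`, `val_rel`,
`val_oPair`) to the same expression. `vReal_unfold`: unfold, `iInf_om`, `iSup_om` (all predicates
respect equality: `Ext.iSup`, `ext_rl_mid`, ... or `Ext.val` before unfolding).
From `vReal_unfold`: `vReal_rl`: `rl u (nat n) y = mem (opN (nat n) y) u`, and the first part gives
`⨆ n', ⨆ m, eq (opN (nat n) y) (opN (nat n') (nat m)) ≤ ⨆ m, eq y (nat m)` (`eq_opN`).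
`vReal_le`: the second part gives, for each `n`, a name `y` with
`rl u (nat n) z ⇔ eq z y` for all `z`; `y` is some `nat m` by `vReal_rl` (with `z = y`); two
different `nat m` cannot both be equal to `y` (`eq_nat_ne`). `vReal_rn`: `≤` by `vReal_le`,
`dig_rn`; `≥`: first part is `⊤` by `mem_rn`; second part: for each `n` the truth value
`realV x ≤ ⨆ m, x n m`, and below `realV x ⊓ x n m` the witness is `nat m`:
`rl (rn x) (nat n) z = ⨆ m', x n m' ⊓ eq z (nat m')`.
`vReal_le_eq`: `X.ext`: for the members `p` of `u`, below `vReal u`: `p = opN (nat n) (nat m)` for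
some `n, m`, so `mem p u ⊓ eq p (opN (nat n) (nat m)) ≤ dig u n m`.
`exists_rset`: `comp_bdd` with the small family `x ↦ rn x.1 x.2` on `{x // SymF Fam x}`.
`vReal_act`: `vReal` is the value of a formula: `val_act`, and `supp_om` (`ev_congr_top`).
-/

namespace Pool.Agent.LibBc83

namespace SM

variable {B : Type} [CompleteBooleanAlgebra B] {G : Type} [Group G] [MulAction G B]
  [OrdAct G B] {Fam : Set (Set G)} (X : SM B G Fam)

/-- The truth value of: `u` is a real. -/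
noncomputable def vReal (u : X.N) : B := X.val (.real 1 0) (cons u fun _ => X.om)

variable {X}

private theorem RB_val (v : ℕ → X.N) (w x : ℕ) : X.val (.real w x) v =
    (⨅ p, X.mem p (v x) ⇨ ⨆ a, ⨆ b, X.mem a (v w) ⊓ (X.mem b (v w) ⊓ X.eq p (X.opN a b))) ⊓
    ⨅ n, X.mem n (v w) ⇨ ⨆ y, ⨅ z, (X.rl (v x) n z ⇨ X.eq z y) ⊓ (X.eq z y ⇨ X.rl (v x) n z) := by
  have h1 : ∀ (w : ℕ → X.N) (z x y : ℕ),
      ev X.mem X.eq (.oPair z x y) w = X.eq (w z) (X.opN (w x) (w y)) := fun w z x y =>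
    val_oPair w z x y
  have h2 : ∀ (w : ℕ → X.N) (z x y : ℕ),
      ev X.mem X.eq (.rel z x y) w = X.rl (w z) (w x) (w y) := fun w z x y =>
    val_rel w z x y
  simp only [SM.val, Fm.real, Fm.ex1rel, ev_all, ev_iff, ev_ex, ev_imp, ev_and, ev_mem, ev_eq,
    h1, h2, cons_zero, cons_succ]

theorem val_real (v : ℕ → X.N) (w x : ℕ) (h : v w = X.om) :
    X.val (.real w x) v = X.vReal (v x) := by
  rw [vReal, RB_val, RB_val, h]
  rfl

private theorem RB_ext2 (u : X.N) : X.Ext (fun n => ⨆ y, ⨅ z, (X.rl u n z ⇨ X.eq z y) ⊓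
    (X.eq z y ⇨ X.rl u n z)) :=
  Ext.iSup fun y => Ext.iInf fun z => Ext.inf (Ext.himp (X.ext_rl_mid u z) (Ext.const _))
    (Ext.himp (Ext.const _) (X.ext_rl_mid u z))

theorem vReal_unfold (u : X.N) : X.vReal u =
    (⨅ p, X.mem p u ⇨ ⨆ n, ⨆ m, X.eq p (X.opN (X.nat n) (X.nat m))) ⊓
    ⨅ n, ⨆ y, ⨅ z, (X.rl u (X.nat n) z ⇨ X.eq z y) ⊓ (X.eq z y ⇨ X.rl u (X.nat n) z) := by
  have h0 : X.vReal u =
      (⨅ p, X.mem p u ⇨ ⨆ a, ⨆ b, X.mem a X.om ⊓ (X.mem b X.om ⊓ X.eq p (X.opN a b))) ⊓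
      ⨅ n, X.mem n X.om ⇨ ⨆ y, ⨅ z, (X.rl u n z ⇨ X.eq z y) ⊓ (X.eq z y ⇨ X.rl u n z) := by
    rw [vReal, RB_val]
    rfl
  rw [h0, iInf_om (RB_ext2 u)]
  congr 1
  refine iInf_congr fun p => ?_
  congr 1
  have h1 : ∀ a, (⨆ b, X.mem a X.om ⊓ (X.mem b X.om ⊓ X.eq p (X.opN a b))) =
      X.mem a X.om ⊓ ⨆ m, X.eq p (X.opN a (X.nat m)) := by
    intro a
    rw [← inf_iSup_eq, iSup_om (X.ext_opN_right a (Ext.eq_right p))]
  rw [iSup_congr h1]
  exact iSup_om (Ext.iSup fun m => X.ext_opN_left (X.nat m) (Ext.eq_right p))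

theorem ext_vReal : X.Ext X.vReal := Ext.val (.real 1 0) (fun _ => X.om)

theorem vReal_act (g : G) (u : X.N) : X.vReal (X.act g u) = g • X.vReal u := by
  unfold vReal
  rw [← val_act]
  refine ev_congr_top X.eqax _ _ _ fun n => ?_
  cases n with
  | zero => exact X.eqax.refl _
  | succ n =>
    change X.eq X.om (X.act g X.om) = ⊤
    rw [X.eqax.symm]
    exact X.supp_om {g} g rfl

private theorem RB_fst (u p : X.N) :
    X.vReal u ⊓ X.mem p u ≤ ⨆ n, ⨆ m, X.eq p (X.opN (X.nat n) (X.nat m)) := by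
  rw [← le_himp_iff, vReal_unfold]
  exact inf_le_left.trans (iInf_le _ p)

theorem vReal_rl (u y : X.N) (n : ℕ) : X.vReal u ⊓ X.rl u (X.nat n) y ≤ ⨆ m, X.eq y (X.nat m) := by
  refine (RB_fst u (X.opN (X.nat n) y)).trans ?_
  refine iSup_le fun n' => iSup_le fun m => le_iSup_of_le m ?_
  rw [eq_opN]
  exact inf_le_right

theorem vReal_le (u : X.N) : X.vReal u ≤ realV (X.dig u) := by
  unfold realV
  refine le_iInf fun n => ?_
  have hC : X.vReal u ≤ ⨆ y, X.vReal u ⊓
      ⨅ z, (X.rl u (X.nat n) z ⇨ X.eq z y) ⊓ (X.eq z y ⇨ X.rl u (X.nat n) z) := by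
    rw [← inf_iSup_eq]
    refine le_inf le_rfl ?_
    conv_lhs => rw [vReal_unfold]
    exact inf_le_right.trans (iInf_le _ n)
  have h1 : ∀ y z : X.N, (⨅ z, (X.rl u (X.nat n) z ⇨ X.eq z y) ⊓
      (X.eq z y ⇨ X.rl u (X.nat n) z)) ⊓ X.rl u (X.nat n) z ≤ X.eq z y := by
    intro y z
    rw [← le_himp_iff]
    exact (iInf_le _ z).trans inf_le_left
  have h2 : ∀ y z : X.N, (⨅ z, (X.rl u (X.nat n) z ⇨ X.eq z y) ⊓
      (X.eq z y ⇨ X.rl u (X.nat n) z)) ⊓ X.eq z y ≤ X.rl u (X.nat n) z := by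
    intro y z
    rw [← le_himp_iff]
    exact (iInf_le _ z).trans inf_le_right
  refine hC.trans (iSup_le fun y => ?_)
  obtain ⟨C, hCd⟩ : ∃ C : B, C = ⨅ z, (X.rl u (X.nat n) z ⇨ X.eq z y) ⊓
      (X.eq z y ⇨ X.rl u (X.nat n) z) := ⟨_, rfl⟩
  have h1' := h1 y
  have h2' := h2 y
  rw [← hCd] at h1' h2' ⊢
  refine le_inf ?_ (le_iInf fun m => le_iInf fun m' => le_iInf fun hmm => ?_)
  · have h3 : C ≤ X.rl u (X.nat n) y := by
      have := h2' y
      rwa [X.eqax.refl, inf_top_eq] at this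
    have h4 : X.vReal u ⊓ C ≤ ⨆ m, X.eq y (X.nat m) :=
      (inf_le_inf_left _ h3).trans (vReal_rl u y n)
    calc X.vReal u ⊓ C ≤ C ⊓ ⨆ m, X.eq y (X.nat m) := le_inf inf_le_right h4
      _ = ⨆ m, C ⊓ X.eq y (X.nat m) := inf_iSup_eq _ _
      _ ≤ ⨆ m, X.dig u n m := iSup_mono fun m => by
          rw [X.eqax.symm]
          exact h2' (X.nat m)
  · rw [le_compl_iff_disjoint_right, disjoint_iff, eq_bot_iff, ← X.eq_nat_ne hmm]
    refine le_trans ?_ (X.eqax.trans (X.nat m) y (X.nat m'))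
    rw [X.eqax.symm y (X.nat m')]
    refine le_inf ?_ ?_
    · refine le_trans ?_ (h1' (X.nat m))
      exact le_inf (inf_le_left.trans inf_le_right) (inf_le_right.trans inf_le_left)
    · refine le_trans ?_ (h1' (X.nat m'))
      exact le_inf (inf_le_left.trans inf_le_right) (inf_le_right.trans inf_le_right)

private theorem RB_rl_rn (x : ℕ → ℕ → B) (hx : SymF Fam x) (n : ℕ) (z : X.N) :
    X.rl (X.rn x hx) (X.nat n) z = ⨆ m', x n m' ⊓ X.eq z (X.nat m') := by
  unfold rl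
  rw [mem_rn]
  apply le_antisymm
  · refine iSup_le fun n' => iSup_le fun m' => ?_
    rw [eq_opN]
    by_cases h : n = n'
    · subst h
      refine le_iSup_of_le m' (inf_le_inf_left _ inf_le_right)
    · rw [X.eq_nat_ne h, bot_inf_eq, inf_bot_eq]
      exact bot_le
  · refine iSup_le fun m' => le_iSup_of_le n (le_iSup_of_le m' ?_)
    rw [eq_opN, X.eqax.refl, top_inf_eq]

theorem vReal_rn (x : ℕ → ℕ → B) (hx : SymF Fam x) : X.vReal (X.rn x hx) = realV x := by
  have hd : X.dig (X.rn x hx) = x := by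
    funext n m
    exact X.dig_rn x hx n m
  apply le_antisymm
  · have := vReal_le (X.rn x hx)
    rwa [hd] at this
  · rw [vReal_unfold]
    refine le_inf (le_iInf fun p => ?_) (le_iInf fun n => ?_)
    · rw [le_himp_iff, mem_rn]
      exact inf_le_right.trans (iSup_mono fun n => iSup_mono fun m => inf_le_right)
    · have h1 : realV x ≤ ⨆ m, realV x ⊓ x n m := by
        rw [← inf_iSup_eq]
        exact le_inf le_rfl ((iInf_le _ n).trans inf_le_left)
      have h2 : ∀ m m', m ≠ m' → realV x ⊓ (x n m ⊓ x n m') ≤ ⊥ := by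
        intro m m' hmm
        have h3 : realV x ≤ (x n m ⊓ x n m')ᶜ :=
          (iInf_le _ n).trans (inf_le_right.trans ((iInf_le _ m).trans ((iInf_le _ m').trans
            (iInf_le _ hmm))))
        refine (inf_le_inf_right _ h3).trans ?_
        rw [compl_inf_self]
      refine h1.trans (iSup_le fun m => le_iSup_of_le (X.nat m) (le_iInf fun z => ?_))
      rw [RB_rl_rn]
      refine le_inf ?_ ?_
      · rw [le_himp_iff, inf_iSup_eq]
        refine iSup_le fun m' => ?_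
        by_cases h : m = m'
        · subst h
          exact inf_le_right.trans inf_le_right
        · refine le_trans ?_ ((h2 m m' h).trans bot_le)
          exact le_inf (inf_le_left.trans inf_le_left)
            (le_inf (inf_le_left.trans inf_le_right) (inf_le_right.trans inf_le_left))
      · rw [le_himp_iff]
        refine le_iSup_of_le m (le_inf ?_ inf_le_right)
        exact inf_le_left.trans inf_le_right

theorem vReal_le_eq (u : X.N) (hu : SymF Fam (X.dig u)) :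
    X.vReal u ≤ X.eq u (X.rn (X.dig u) hu) := by
  refine X.ext _ _ _ (fun p => ?_) (fun p => ?_)
  · rw [mem_rn]
    have h1 := RB_fst u p
    calc X.vReal u ⊓ X.mem p u ≤ X.mem p u ⊓ ⨆ n, ⨆ m, X.eq p (X.opN (X.nat n) (X.nat m)) :=
          le_inf inf_le_right h1
      _ = ⨆ n, ⨆ m, X.mem p u ⊓ X.eq p (X.opN (X.nat n) (X.nat m)) := by
          rw [inf_iSup_eq]
          exact iSup_congr fun n => inf_iSup_eq _ _
      _ ≤ _ := iSup_mono fun n => iSup_mono fun m => le_inf (by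
          rw [inf_comm]
          exact X.eqax.meml _ _ _) inf_le_right
  · rw [mem_rn]
    refine inf_le_right.trans (iSup_le fun n => iSup_le fun m => ?_)
    rw [inf_comm, X.eqax.symm]
    exact X.eqax.meml _ _ _

/-- Names of sets of reals. -/
theorem exists_rset {φ : X.N → B} (hφ : X.Ext φ) {S : Set G} (hS : S ∈ Fam) (hi : X.Inv S φ) :
    ∃ u, X.Supp S u ∧ ∀ x, X.mem x u = X.vReal x ⊓ φ x := by
  refine comp_bdd (X := X) (φ := fun x => X.vReal x ⊓ φ x) (Ext.inf ext_vReal hφ) hS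
    (Inv.inf (fun g _ x => vReal_act g x) hi)
    (ι := {x : ℕ → ℕ → B // SymF Fam x}) (fun i => X.rn i.1 i.2) (fun x => ?_)
  exact inf_le_left.trans ((vReal_le_eq x (X.symF_dig x)).trans
    (le_iSup (fun i : {x : ℕ → ℕ → B // SymF Fam x} => X.eq x (X.rn i.1 i.2))
      ⟨X.dig x, X.symF_dig x⟩))

end SM

end Pool.Agent.LibBc83
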