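import Pool.Agent.LibBc83.RB
import Pool.Agent.LibBc83.RC

/-!
BC83 RD. Truth values of: open set, intersection of a sequence of open sets, union of a sequence.

Plan: unfold the formulas (`Fm.opn`, `Fm.gd`, `Fm.gdS`, `Fm.union` in `Deep.lean` and
`CoreDef.lean`) with `val_rel`, `val_real`, `val_seq`; quantifiers over `n ∈ ω` become
infima and suprema over `n : ℕ` by `iInf_om`, `iSup_om`. It is useful to note that
`X.mem x X.om ⇨ φ x` under `⨅ x` is at most `φ (X.nat n)` (`nat_mem_om`), so the `≤` directions need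
no extensionality, except for `vUn_mem`, where one has `⨆ n, ⨆ z, mem n om ⊓ (rl g n z ⊓ mem x z)`
and uses `mem_om` and `ext_rl_mid`. `vGdC_act`: value of a formula, `val_act`, `supp_om`,
`ev_congr_top`.
-/

namespace Pool.Agent.LibBc83

namespace SM

variable {B : Type} [CompleteBooleanAlgebra B] {G : Type} [Group G] [MulAction G B]
  [OrdAct G B] {Fam : Set (Set G)} (X : SM B G Fam)

/-- `U` is an open set of reals. -/
noncomputable def vOpen (U : X.N) : B := X.val (.opn 1 0) (cons U fun _ => X.om)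

/-- `A` is the union of the sequence `g`. -/
noncomputable def vUn (A g : X.N) : B := X.val (.union 2 0 1) (cons A (cons g fun _ => X.om))

/-- `C` is an intersection of a sequence of open sets. -/
noncomputable def vGd (C : X.N) : B := X.val (.gd 1 0) (cons C fun _ => X.om)

/-- The terms of `g` are intersections of sequences of open sets. -/
noncomputable def vAllGd (g : X.N) : B :=
  X.val (.all (.all (.imp (.mem 1 3) (.imp (.rel 2 1 0) (.gd 3 0))))) (cons g fun _ => X.om)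

/-- `C` is the intersection of the sequence `h` of open sets. -/
noncomputable def vGdC (h C : X.N) : B :=
  X.val (.and (.all (.all (.imp (.mem 1 4) (.imp (.rel 2 1 0) (.opn 4 0)))))
    (.all (.iff (.mem 0 2) (.and (.real 3 0)
      (.all (.all (.imp (.mem 1 5) (.imp (.rel 3 1 0) (.mem 2 0)))))))))
    (cons h (cons C fun _ => X.om))

/-- `A` is a union of a sequence of intersections of sequences of open sets. -/
noncomputable def vGdS (A : X.N) : B := X.val (.gdS 1 0) (cons A fun _ => X.om)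

variable {X}

private def RD_rho (w x : ℕ) : ℕ → ℕ
  | 0 => x
  | _ + 1 => w

private theorem RD_val1 (f : Fm) (v : ℕ → X.N) (w x : ℕ) (h : v w = X.om) :
    X.val (f.ren (RD_rho w x)) v = X.val f (cons (v x) fun _ => X.om) := by
  unfold SM.val
  rw [ev_ren]
  congr 1
  funext n
  cases n with
  | zero => rfl
  | succ n => exact h

private theorem RD_val_gd (v : ℕ → X.N) (w C : ℕ) (h : v w = X.om) :
    ev X.mem X.eq (.gd w C) v = X.vGd (v C) :=
  RD_val1 (.gd 1 0) v w C h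

private theorem RD_val_opn (v : ℕ → X.N) (w U : ℕ) (h : v w = X.om) :
    ev X.mem X.eq (.opn w U) v = X.vOpen (v U) :=
  RD_val1 (.opn 1 0) v w U h

private theorem RD_val_rel (v : ℕ → X.N) (f x y : ℕ) :
    ev X.mem X.eq (.rel f x y) v = X.rl (v f) (v x) (v y) := val_rel v f x y

private theorem RD_val_real (v : ℕ → X.N) (w x : ℕ) (h : v w = X.om) :
    ev X.mem X.eq (.real w x) v = X.vReal (v x) := val_real v w x h

private theorem RD_val_seq (v : ℕ → X.N) (w g : ℕ) (h : v w = X.om) :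
    ev X.mem X.eq (.seq w g) v = X.vSeq (v g) := val_seq v w g h

private theorem RD_vGdC_eq (h C : X.N) : X.vGdC h C =
    (⨅ j, ⨅ U, X.mem j X.om ⇨ (X.rl h j U ⇨ X.vOpen U)) ⊓
      ⨅ x, (X.mem x C ⇨ (X.vReal x ⊓ ⨅ j, ⨅ U, X.mem j X.om ⇨ (X.rl h j U ⇨ X.mem x U))) ⊓
        ((X.vReal x ⊓ ⨅ j, ⨅ U, X.mem j X.om ⇨ (X.rl h j U ⇨ X.mem x U)) ⇨ X.mem x C) := by
  unfold vGdC SM.val
  simp only [ev_and, ev_all, ev_imp, ev_iff, ev_mem, RD_val_rel, cons_zero, cons_succ]
  congr 1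

private theorem RD_vUn_eq (A g : X.N) : X.vUn A g =
    ⨅ x, (X.mem x A ⇨ ⨆ n, ⨆ z, X.mem n X.om ⊓ (X.rl g n z ⊓ X.mem x z)) ⊓
      ((⨆ n, ⨆ z, X.mem n X.om ⊓ (X.rl g n z ⊓ X.mem x z)) ⇨ X.mem x A) := by
  unfold vUn SM.val Fm.union
  simp only [ev_and, ev_all, ev_ex, ev_iff, ev_mem, RD_val_rel, cons_zero, cons_succ]

private theorem RD_vAllGd_eq (g : X.N) : X.vAllGd g =
    ⨅ k, ⨅ C, X.mem k X.om ⇨ (X.rl g k C ⇨ X.vGd C) := by
  unfold vAllGd SM.val
  simp only [ev_all, ev_imp, ev_mem, RD_val_rel, cons_zero, cons_succ]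
  refine iInf_congr fun j => iInf_congr fun U => ?_
  rw [RD_val_gd _ _ _ (by rfl)]
  rfl

private theorem RD_ext (h x : X.N) :
    (⨅ j, ⨅ U, X.mem j X.om ⇨ (X.rl h j U ⇨ X.mem x U)) =
      ⨅ j, ⨅ U, X.rl h (X.nat j) U ⇨ X.mem x U := by
  have h1 : X.Ext (fun j => ⨅ U, X.rl h j U ⇨ X.mem x U) :=
    Ext.iInf fun U => Ext.himp (X.ext_rl_mid h U) (Ext.const _)
  rw [← iInf_om h1]
  refine iInf_congr fun j => ?_
  rw [himp_iInf_eq]

private theorem RD_om_act (g : G) : X.eq (X.act g X.om) X.om = ⊤ :=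
  X.supp_om Set.univ g (Set.mem_univ g)

theorem vGdS_eq (A : X.N) : X.vGdS A = ⨆ g, X.vSeq g ⊓ (X.vAllGd g ⊓ X.vUn A g) := by
  unfold vGdS SM.val Fm.gdS
  simp only [ev_ex, ev_and]
  refine iSup_congr fun g => ?_
  rw [RD_val_seq _ _ _ (by rfl), RD_vAllGd_eq]
  congr 1
  congr 1
  simp only [ev_all, ev_imp, ev_mem, RD_val_rel, cons_zero, cons_succ]
  refine iInf_congr fun j => iInf_congr fun U => ?_
  rw [RD_val_gd _ _ _ (by rfl)]
  rfl

theorem val_gdS (v : ℕ → X.N) (w A : ℕ) (h : v w = X.om) :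
    X.val (.gdS w A) v = X.vGdS (v A) := by
  exact RD_val1 (.gdS 1 0) v w A h

theorem vGd_eq (C : X.N) : X.vGd C = ⨆ h, X.vSeq h ⊓ X.vGdC h C := by
  unfold vGd SM.val Fm.gd
  simp only [ev_ex, ev_and]
  refine iSup_congr fun h => ?_
  rw [RD_val_seq _ _ _ (by rfl)]
  rfl

theorem vAllGd_rl (g C : X.N) (k : ℕ) : X.vAllGd g ⊓ X.rl g (X.nat k) C ≤ X.vGd C := by
  rw [RD_vAllGd_eq, ← le_himp_iff]
  refine (iInf_le _ (X.nat k)).trans ((iInf_le _ C).trans ?_)
  rw [nat_mem_om, top_himp]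

theorem vUn_mem (A g x : X.N) :
    X.vUn A g ⊓ X.mem x A ≤ ⨆ k, ⨆ C, X.rl g (X.nat k) C ⊓ X.mem x C := by
  rw [RD_vUn_eq, ← le_himp_iff]
  refine (iInf_le _ x).trans (inf_le_left.trans (himp_le_himp_left ?_))
  refine iSup_le fun n => iSup_le fun z => ?_
  rw [mem_om, iSup_inf_eq]
  refine iSup_le fun k => ?_
  refine le_iSup_of_le k (le_iSup_of_le z ?_)
  rw [← inf_assoc]
  exact inf_le_inf_right _ (X.ext_rl_mid g z _ _)

theorem mem_of_vUn (A g x C : X.N) (k : ℕ) :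
    X.vUn A g ⊓ X.rl g (X.nat k) C ⊓ X.mem x C ≤ X.mem x A := by
  rw [RD_vUn_eq, inf_assoc, ← le_himp_iff]
  refine (iInf_le _ x).trans (inf_le_right.trans (himp_le_himp_right ?_))
  refine le_iSup_of_le (X.nat k) (le_iSup_of_le C ?_)
  rw [nat_mem_om, top_inf_eq]

theorem vGdC_act (g : G) (h C : X.N) : X.vGdC (X.act g h) (X.act g C) = g • X.vGdC h C := by
  unfold vGdC
  rw [← val_act]
  refine ev_congr_top X.eqax _ _ _ fun n => ?_
  match n with
  | 0 => exact X.eqax.refl _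
  | 1 => exact X.eqax.refl _
  | n + 2 =>
    change X.eq X.om (X.act g X.om) = ⊤
    rw [X.eqax.symm]
    exact RD_om_act g

theorem vGdC_open (h C U : X.N) (j : ℕ) : X.vGdC h C ⊓ X.rl h (X.nat j) U ≤ X.vOpen U := by
  rw [RD_vGdC_eq, ← le_himp_iff]
  refine inf_le_left.trans ((iInf_le _ (X.nat j)).trans ((iInf_le _ U).trans ?_))
  rw [nat_mem_om, top_himp]

theorem vGdC_mem (h C x : X.N) : X.vGdC h C ⊓ X.mem x C ≤
    X.vReal x ⊓ ⨅ j, ⨅ U, X.rl h (X.nat j) U ⇨ X.mem x U := by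
  rw [RD_vGdC_eq, ← le_himp_iff, ← RD_ext]
  exact inf_le_right.trans ((iInf_le _ x).trans inf_le_left)

theorem vGdC_of (h C x : X.N) :
    X.vGdC h C ⊓ (X.vReal x ⊓ ⨅ j, ⨅ U, X.rl h (X.nat j) U ⇨ X.mem x U) ≤ X.mem x C := by
  rw [RD_vGdC_eq, ← le_himp_iff, ← RD_ext]
  exact inf_le_right.trans ((iInf_le _ x).trans inf_le_right)

theorem ext_vGd : X.Ext X.vGd := by
  exact Ext.val _ _

theorem vGd_act (g : G) (C : X.N) : X.vGd (X.act g C) = g • X.vGd C := by
  unfold vGd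
  rw [← val_act]
  refine ev_congr_top X.eqax _ _ _ fun n => ?_
  match n with
  | 0 => exact X.eqax.refl _
  | n + 1 =>
    change X.eq X.om (X.act g X.om) = ⊤
    rw [X.eqax.symm]
    exact RD_om_act g

end SM

end Pool.Agent.LibBc83
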