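import Pool.Agent.LibBc83.Fml

/-!
Abstract properties of the symmetric names over a complete Boolean algebra.
-/

namespace Pool.Agent.LibBc83

open scoped Pointwise

/-- The group acts by automorphisms of the order. -/
class OrdAct (G B : Type) [Group G] [MulAction G B] [CompleteBooleanAlgebra B] : Prop where
  mono : ∀ (g : G) (a b : B), a ≤ b → g • a ≤ g • b

section OrdAct

variable {G B : Type} [Group G] [CompleteBooleanAlgebra B] [MulAction G B] [OrdAct G B]

/-- The automorphism given by an element of the group. -/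
def actIso (g : G) : B ≃o B where
  toFun a := g • a
  invFun a := g⁻¹ • a
  left_inv a := inv_smul_smul g a
  right_inv a := smul_inv_smul g a
  map_rel_iff' := by
    intro a b
    constructor
    · intro h
      have := OrdAct.mono g⁻¹ _ _ h
      simpa using this
    · exact OrdAct.mono g a b

theorem smul_iSup' (g : G) {ι : Sort*} (a : ι → B) : (g • ⨆ i, a i) = ⨆ i, g • a i :=
  (actIso g).map_iSup a

theorem smul_iInf' (g : G) {ι : Sort*} (a : ι → B) : (g • ⨅ i, a i) = ⨅ i, g • a i :=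
  (actIso g).map_iInf a

theorem smul_inf' (g : G) (a b : B) : g • (a ⊓ b) = g • a ⊓ g • b := (actIso g).map_inf a b

theorem smul_sup' (g : G) (a b : B) : g • (a ⊔ b) = g • a ⊔ g • b := (actIso g).map_sup a b

theorem smul_top' (g : G) : g • (⊤ : B) = ⊤ := (actIso g).map_top

theorem smul_bot' (g : G) : g • (⊥ : B) = ⊥ := (actIso g).map_bot

theorem smul_compl' (g : G) (a : B) : g • aᶜ = (g • a)ᶜ :=
  (compl_unique (by rw [← smul_inf', inf_compl_eq_bot, smul_bot'])
    (by rw [← smul_sup', sup_compl_eq_top, smul_top'])).symm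

theorem smul_himp' (g : G) (a b : B) : g • (a ⇨ b) = g • a ⇨ g • b := by
  rw [himp_eq, smul_sup', smul_compl', himp_eq]

theorem smul_le_iff' (g : G) (a b : B) : g • a ≤ g • b ↔ a ≤ b := (actIso g).le_iff_le

end OrdAct

/-- A family of supports: sets of elements of the group. -/
structure IsFam {G : Type} [Group G] (Fam : Set (Set G)) : Prop where
  ne : Fam.Nonempty
  inv : ∀ S ∈ Fam, ∀ g ∈ S, g⁻¹ ∈ S
  dir : ∀ S ∈ Fam, ∀ T ∈ Fam, ∃ U ∈ Fam, U ⊆ S ∩ T
  conj : ∀ S ∈ Fam, ∀ g : G, ∃ T ∈ Fam, ∀ h ∈ T, g⁻¹ * h * g ∈ S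

/-- The symmetric names. -/
structure SM (B : Type) [CompleteBooleanAlgebra B] (G : Type) [Group G] [MulAction G B]
    (Fam : Set (Set G)) where
  /-- the names -/
  N : Type 1
  /-- the truth value of membership -/
  mem : N → N → B
  /-- the truth value of equality -/
  eq : N → N → B
  /-- the action of the group -/
  act : G → N → N
  fam : IsFam Fam
  act_one : ∀ x, act 1 x = x
  act_mul : ∀ g h x, act (g * h) x = act g (act h x)
  eqax : EqAx mem eq
  mem_act : ∀ g x y, mem (act g x) (act g y) = g • mem x y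
  eq_act : ∀ g x y, eq (act g x) (act g y) = g • eq x y
  ext : ∀ (u v : N) (c : B), (∀ x, c ⊓ mem x u ≤ mem x v) → (∀ x, c ⊓ mem x v ≤ mem x u) →
    c ≤ eq u v
  ind : ∀ P : N → Prop, (∀ u, (∃ (ι : Type) (A : ι → N) (b : ι → B), (∀ i, P (A i)) ∧
    ∀ x, mem x u = ⨆ i, b i ⊓ eq x (A i)) → P u) → ∀ u, P u
  supp : ∀ x, ∃ S ∈ Fam, ∀ g ∈ S, eq (act g x) x = ⊤
  comp : ∀ (ι : Type) (A : ι → N) (b : ι → B), ∀ S ∈ Fam,
    (∀ g ∈ S, ∀ x, (⨆ i, b i ⊓ eq (act g x) (A i)) = g • ⨆ i, b i ⊓ eq x (A i)) →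
    ∃ u, (∀ g ∈ S, eq (act g u) u = ⊤) ∧ ∀ x, mem x u = ⨆ i, b i ⊓ eq x (A i)

namespace SM

variable {B : Type} [CompleteBooleanAlgebra B] {G : Type} [Group G] [MulAction G B]
  [OrdAct G B] {Fam : Set (Set G)} (X : SM B G Fam)

/-- `φ` respects equality. -/
def Ext (φ : X.N → B) : Prop := ∀ x y, X.eq x y ⊓ φ x ≤ φ y

/-- `x` has the support `S`. -/
def Supp (S : Set G) (x : X.N) : Prop := ∀ g ∈ S, X.eq (X.act g x) x = ⊤

/-- `φ` is invariant under `S`. -/
def Inv (S : Set G) (φ : X.N → B) : Prop := ∀ g ∈ S, ∀ x, φ (X.act g x) = g • φ x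

/-- The truth value of a formula. -/
noncomputable def val (f : Fm) (v : ℕ → X.N) : B := ev X.mem X.eq f v

end SM

end Pool.Agent.LibBc83
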