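import Pool.Agent.LibBc83.SM

/-!
Basic lemmas on symmetric names.
-/

namespace Pool.Agent.LibBc83

namespace SM

variable {B : Type} [CompleteBooleanAlgebra B] {G : Type} [Group G] [MulAction G B]
  [OrdAct G B] {Fam : Set (Set G)} {X : SM B G Fam}

/-! ### Predicates which respect equality -/

omit [OrdAct G B]

theorem Ext.congr {φ : X.N → B} (h : X.Ext φ) {x y : X.N} (hxy : X.eq x y = ⊤) : φ x = φ y := by
  apply le_antisymm
  · have := h x y
    rwa [hxy, top_inf_eq] at this
  · have := h y x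
    rwa [X.eqax.symm, hxy, top_inf_eq] at this

theorem Ext.const (a : B) : X.Ext (fun _ => a) := fun _ _ => inf_le_right

theorem Ext.inf {φ ψ : X.N → B} (h : X.Ext φ) (h' : X.Ext ψ) : X.Ext (fun x => φ x ⊓ ψ x) := by
  intro x y
  refine le_inf ?_ ?_
  · exact (inf_le_inf_left _ inf_le_left).trans (h x y)
  · exact (inf_le_inf_left _ inf_le_right).trans (h' x y)

theorem Ext.sup {φ ψ : X.N → B} (h : X.Ext φ) (h' : X.Ext ψ) : X.Ext (fun x => φ x ⊔ ψ x) := by
  intro x y
  rw [inf_sup_left]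
  exact sup_le_sup (h x y) (h' x y)

theorem Ext.himp {φ ψ : X.N → B} (h : X.Ext φ) (h' : X.Ext ψ) : X.Ext (fun x => φ x ⇨ ψ x) := by
  intro x y
  rw [le_himp_iff]
  have h1 : X.eq x y ⊓ φ y ≤ φ x := by
    rw [X.eqax.symm]
    exact h y x
  calc X.eq x y ⊓ (φ x ⇨ ψ x) ⊓ φ y ≤ X.eq x y ⊓ ((φ x ⇨ ψ x) ⊓ φ x) := by
        refine le_inf (inf_le_left.trans inf_le_left) (le_inf (inf_le_left.trans inf_le_right) ?_)
        refine le_trans ?_ h1
        exact le_inf (inf_le_left.trans inf_le_left) inf_le_right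
    _ ≤ X.eq x y ⊓ ψ x := inf_le_inf_left _ himp_inf_le
    _ ≤ ψ y := h' x y

theorem Ext.compl {φ : X.N → B} (h : X.Ext φ) : X.Ext (fun x => (φ x)ᶜ) := by
  have := Ext.himp h (Ext.const ⊥)
  simpa using this

theorem Ext.iInf {ι : Sort*} {φ : ι → X.N → B} (h : ∀ i, X.Ext (φ i)) :
    X.Ext (fun x => ⨅ i, φ i x) := by
  intro x y
  exact le_iInf fun i => (inf_le_inf_left _ (iInf_le _ i)).trans (h i x y)

theorem Ext.iSup {ι : Sort*} {φ : ι → X.N → B} (h : ∀ i, X.Ext (φ i)) :
    X.Ext (fun x => ⨆ i, φ i x) := by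
  intro x y
  rw [inf_iSup_eq]
  exact iSup_mono fun i => h i x y

theorem Ext.mem_left (u : X.N) : X.Ext (fun x => X.mem x u) := fun x y => X.eqax.meml x y u

theorem Ext.mem_right (y : X.N) : X.Ext (fun x => X.mem y x) := fun u v => X.eqax.memr y u v

theorem Ext.eq_left (y : X.N) : X.Ext (fun x => X.eq x y) := by
  intro x z
  rw [X.eqax.symm x z]
  exact X.eqax.trans _ _ _

theorem Ext.eq_right (y : X.N) : X.Ext (fun x => X.eq y x) := by
  intro x z
  rw [inf_comm]
  exact X.eqax.trans _ _ _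

theorem Ext.val (f : Fm) (v : ℕ → X.N) : X.Ext (fun x => X.val f (cons x v)) := by
  intro x y
  refine ev_congr X.eqax f _ _ _ fun n => ?_
  cases n with
  | zero => exact le_rfl
  | succ n =>
    change _ ≤ X.eq (v n) (v n)
    rw [X.eqax.refl]
    exact le_top

theorem Ext.val₁ (f : Fm) (a : X.N) (v : ℕ → X.N) :
    X.Ext (fun x => X.val f (cons a (cons x v))) := by
  intro x y
  refine ev_congr X.eqax f _ _ _ fun n => ?_
  match n with
  | 0 =>
    change _ ≤ X.eq a a
    rw [X.eqax.refl]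
    exact le_top
  | 1 => exact le_rfl
  | n + 2 =>
    change _ ≤ X.eq (v n) (v n)
    rw [X.eqax.refl]
    exact le_top

/-- Infima over all members of a set. -/
theorem iInf_mem {u : X.N} {ι : Type} {A : ι → X.N} {b : ι → B}
    (hu : ∀ x, X.mem x u = ⨆ i, b i ⊓ X.eq x (A i)) {φ : X.N → B} (h : X.Ext φ) :
    (⨅ x, X.mem x u ⇨ φ x) = ⨅ i, b i ⇨ φ (A i) := by
  apply le_antisymm
  · refine le_iInf fun i => (iInf_le _ (A i)).trans (himp_le_himp_right ?_)
    rw [hu]
    refine le_iSup_of_le i ?_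
    rw [X.eqax.refl, inf_top_eq]
  · refine le_iInf fun x => ?_
    rw [le_himp_iff, hu, inf_iSup_eq]
    refine iSup_le fun i => ?_
    rw [← inf_assoc]
    have h1 : (⨅ i, b i ⇨ φ (A i)) ⊓ b i ≤ φ (A i) := by
      rw [← le_himp_iff]
      exact iInf_le _ i
    refine (inf_le_inf_right _ h1).trans ?_
    rw [inf_comm, X.eqax.symm]
    exact h _ _

/-- Suprema over all members of a set. -/
theorem iSup_mem {u : X.N} {ι : Type} {A : ι → X.N} {b : ι → B}
    (hu : ∀ x, X.mem x u = ⨆ i, b i ⊓ X.eq x (A i)) {φ : X.N → B} (h : X.Ext φ) :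
    (⨆ x, X.mem x u ⊓ φ x) = ⨆ i, b i ⊓ φ (A i) := by
  apply le_antisymm
  · refine iSup_le fun x => ?_
    rw [hu, iSup_inf_eq]
    refine iSup_mono fun i => ?_
    rw [inf_assoc]
    exact inf_le_inf_left _ (h _ _)
  · refine iSup_le fun i => ?_
    refine le_iSup_of_le (A i) (inf_le_inf_right _ ?_)
    rw [hu]
    refine le_iSup_of_le i ?_
    rw [X.eqax.refl, inf_top_eq]

variable (X) in
/-- Each name is given by a small family of names. -/
theorem exists_rep (u : X.N) : ∃ (ι : Type) (A : ι → X.N) (b : ι → B),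
    ∀ x, X.mem x u = ⨆ i, b i ⊓ X.eq x (A i) := by
  refine X.ind (fun u => ∃ (ι : Type) (A : ι → X.N) (b : ι → B),
    ∀ x, X.mem x u = ⨆ i, b i ⊓ X.eq x (A i)) ?_ u
  rintro u ⟨ι, A, b, -, h⟩
  exact ⟨ι, A, b, h⟩

/-- Equality is extensional equality. -/
theorem eq_eq (u v : X.N) :
    X.eq u v = ⨅ t, (X.mem t u ⇨ X.mem t v) ⊓ (X.mem t v ⇨ X.mem t u) := by
  apply le_antisymm
  · refine le_iInf fun t => le_inf ?_ ?_
    · rw [le_himp_iff]
      exact X.eqax.memr _ _ _
    · rw [le_himp_iff, X.eqax.symm]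
      exact X.eqax.memr _ _ _
  · refine X.ext _ _ _ (fun x => ?_) (fun x => ?_)
    · rw [← le_himp_iff]
      exact (iInf_le _ x).trans inf_le_left
    · rw [← le_himp_iff]
      exact (iInf_le _ x).trans inf_le_right

theorem eq_top_of (u v : X.N) (h : ∀ t, X.mem t u = X.mem t v) : X.eq u v = ⊤ := by
  rw [eq_eq]
  simp [h]

/-! ### The action -/

theorem act_inv_act (g : G) (x : X.N) : X.act g⁻¹ (X.act g x) = x := by
  rw [← X.act_mul, inv_mul_cancel, X.act_one]

theorem act_act_inv (g : G) (x : X.N) : X.act g (X.act g⁻¹ x) = x := by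
  rw [← X.act_mul, mul_inv_cancel, X.act_one]

theorem act_surj (g : G) : Function.Surjective (X.act g) := fun x => ⟨_, act_act_inv g x⟩

theorem Supp.act_eq {S : Set G} {x : X.N} (h : X.Supp S x) {g : G} (hg : g ∈ S) :
    X.eq (X.act g x) x = ⊤ := h g hg

theorem Supp.mono {S T : Set G} (h : T ⊆ S) {x : X.N} (hx : X.Supp S x) : X.Supp T x :=
  fun g hg => hx g (h hg)

theorem exists_supp_fin (hF : IsFam Fam) (v : ℕ → X.N) (k : ℕ) :
    ∃ S ∈ Fam, ∀ n, n < k → X.Supp S (v n) := by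
  induction k with
  | zero =>
    obtain ⟨S, hS⟩ := hF.ne
    exact ⟨S, hS, fun n hn => absurd hn (Nat.not_lt_zero n)⟩
  | succ k ih =>
    obtain ⟨S, hS, h⟩ := ih
    obtain ⟨T, hT, h'⟩ := X.supp (v k)
    obtain ⟨U, hU, hUST⟩ := hF.dir S hS T hT
    refine ⟨U, hU, fun n hn => ?_⟩
    rcases Nat.lt_succ_iff_lt_or_eq.1 hn with h1 | rfl
    · exact (h n h1).mono (hUST.trans Set.inter_subset_left)
    · exact fun g hg => h' g (hUST hg).2

/-- `x` and `act g x` have the same value, for a predicate which respects equality. -/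
theorem Inv.of_supp {S : Set G} {φ : X.N → B} (h : X.Inv S φ) (hφ : X.Ext φ) {x : X.N}
    (hx : X.Supp S x) {g : G} (hg : g ∈ S) : g • φ x = φ x := by
  rw [← h g hg x]
  exact hφ.congr (hx g hg)

theorem Inv.inter {S T : Set G} {φ : X.N → B} (h : X.Inv S φ) (hT : T ⊆ S) : X.Inv T φ :=
  fun g hg x => h g (hT hg) x

include X in
theorem inv_const [OrdAct G B] {S : Set G} {a : B} (h : ∀ g ∈ S, g • a = a) :
    X.Inv S (fun _ => a) := fun g hg _ => (h g hg).symm

variable [OrdAct G B]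

/-- The truth values of the formulas are invariant. -/
theorem val_act (g : G) (f : Fm) (v : ℕ → X.N) :
    X.val f (fun n => X.act g (v n)) = g • X.val f v := by
  induction f generalizing v with
  | mem i j => exact X.mem_act g _ _
  | eq i j => exact X.eq_act g _ _
  | neg f ih =>
    change (X.val f _)ᶜ = g • (X.val f v)ᶜ
    rw [ih, smul_compl']
  | and f g' ihf ihg =>
    change X.val f _ ⊓ X.val g' _ = g • (X.val f v ⊓ X.val g' v)
    rw [ihf, ihg, smul_inf']
  | all f ih =>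
    change (⨅ a, X.val f (cons a fun n => X.act g (v n))) = g • ⨅ a, X.val f (cons a v)
    rw [smul_iInf']
    refine Function.Surjective.iInf_congr (g := fun a => g • X.val f (cons a v)) (X.act g⁻¹) ?_ ?_
    · exact act_surj g⁻¹
    · intro a
      rw [← ih]
      congr 1
      funext n
      cases n with
      | zero => exact act_act_inv g a
      | succ n => rfl

/-- The value of a formula with symmetric parameters is invariant. -/
theorem val_inv {S : Set G} (f : Fm) (v : ℕ → X.N) (h : ∀ n, X.Supp S (v n)) {g : G}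
    (hg : g ∈ S) : g • X.val f v = X.val f v := by
  rw [← val_act]
  exact ev_congr_top X.eqax f _ _ fun n => h n g hg

theorem inv_val {S : Set G} (f : Fm) (v : ℕ → X.N) (h : ∀ n, X.Supp S (v n)) :
    X.Inv S (fun x => X.val f (cons x v)) := by
  intro g hg x
  rw [← val_act]
  refine ev_congr_top X.eqax f _ _ fun n => ?_
  cases n with
  | zero => exact X.eqax.refl _
  | succ n =>
    change X.eq (v n) (X.act g (v n)) = ⊤
    rw [X.eqax.symm]
    exact h n g hg

theorem inv_val₁ {S : Set G} (f : Fm) (a : X.N) (v : ℕ → X.N) (ha : X.Supp S a)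
    (h : ∀ n, X.Supp S (v n)) : X.Inv S (fun x => X.val f (cons a (cons x v))) := by
  intro g hg x
  rw [← val_act]
  refine ev_congr_top X.eqax f _ _ fun n => ?_
  match n with
  | 0 =>
    change X.eq a (X.act g a) = ⊤
    rw [X.eqax.symm]
    exact ha g hg
  | 1 => exact X.eqax.refl _
  | n + 2 =>
    change X.eq (v n) (X.act g (v n)) = ⊤
    rw [X.eqax.symm]
    exact h n g hg

theorem Inv.inf {S : Set G} {φ ψ : X.N → B} (h : X.Inv S φ) (h' : X.Inv S ψ) :
    X.Inv S (fun x => φ x ⊓ ψ x) := fun g hg x => by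
  simp only [h g hg, h' g hg, smul_inf']

theorem Inv.sup {S : Set G} {φ ψ : X.N → B} (h : X.Inv S φ) (h' : X.Inv S ψ) :
    X.Inv S (fun x => φ x ⊔ ψ x) := fun g hg x => by
  simp only [h g hg, h' g hg, smul_sup']

omit [OrdAct G B] in
theorem Inv.mem {S : Set G} {u : X.N} (h : X.Supp S u) : X.Inv S (fun x => X.mem x u) := by
  intro g hg x
  rw [← X.mem_act]
  have := (Ext.mem_right (X.act g x)).congr (h g hg)
  exact this.symm

omit [OrdAct G B] in
theorem Inv.eq {S : Set G} {u : X.N} (h : X.Supp S u) : X.Inv S (fun x => X.eq x u) := by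
  intro g hg x
  rw [← X.eq_act]
  have := (Ext.eq_right (X.act g x)).congr (h g hg)
  exact this.symm

omit [OrdAct G B] in
/-- Comprehension, for a predicate which holds only for the names in a small family. -/
theorem comp_bdd {φ : X.N → B} (hφ : X.Ext φ) {S : Set G} (hS : S ∈ Fam) (hi : X.Inv S φ)
    {ι : Type} (A : ι → X.N) (hA : ∀ x, φ x ≤ ⨆ i, X.eq x (A i)) :
    ∃ u, X.Supp S u ∧ ∀ x, X.mem x u = φ x := by
  have key : ∀ x, (⨆ i, φ (A i) ⊓ X.eq x (A i)) = φ x := by
    intro x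
    apply le_antisymm
    · refine iSup_le fun i => ?_
      rw [inf_comm, X.eqax.symm]
      exact hφ _ _
    · calc φ x ≤ (⨆ i, X.eq x (A i)) ⊓ φ x := le_inf (hA x) le_rfl
        _ = ⨆ i, X.eq x (A i) ⊓ φ x := iSup_inf_eq _ _
        _ ≤ ⨆ i, φ (A i) ⊓ X.eq x (A i) := iSup_mono fun i => le_inf (hφ _ _) inf_le_left
  obtain ⟨u, hu, hu'⟩ := X.comp ι A (fun i => φ (A i)) S hS (fun g hg x => by
    rw [key, key]
    exact hi g hg x)
  exact ⟨u, hu, fun x => (hu' x).trans (key x)⟩

end SM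

end Pool.Agent.LibBc83
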