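import Pool.Agent.LibBc83.CoreDef

/-!
BC83 T1. Pairs and `ω` in an arbitrary model `(M, E)` of ZF (ordinary two-valued set theory; only
`hZ.ext`, `hZ.pair` are used).

Plan: `upair_uniq` by extensionality. `op_ex`: by `hZ.pair` take `a = {x}`, `b = {x, y}`, `p = {a, b}`;
`E z p ↔ z = a ∨ z = b ↔ UPair z x x ∨ UPair z x y` by `upair_uniq`. `op_inj`: the usual argument
for Kuratowski pairs: `{x}` is an element of `p`, so it is `{x'}` or `{x', y'}`, ... `op_uniq` and
`om_uniq` by extensionality. The others are immediate from the definitions.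
-/

namespace Pool.Agent.LibBc83

variable {M : Type} {E : M → M → Prop}

theorem upair_uniq (hZ : IsZF E) {z z' x y : M} (h : UPair E z x y) (h' : UPair E z' x y) :
    z = z' := by
  exact hZ.ext z z' fun t => (h t).trans (h' t).symm

theorem op_ex (hZ : IsZF E) (x y : M) : ∃ p, OPair E p x y := by
  obtain ⟨a, ha⟩ := hZ.pair x x
  obtain ⟨b, hb⟩ := hZ.pair x y
  obtain ⟨p, hp⟩ := hZ.pair a b
  refine ⟨p, fun z => ?_⟩
  rw [hp z]
  constructor
  · rintro (rfl | rfl)
    · exact Or.inl ha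
    · exact Or.inr hb
  · rintro (h | h)
    · exact Or.inl (upair_uniq hZ h ha)
    · exact Or.inr (upair_uniq hZ h hb)

theorem op_inj (hZ : IsZF E) {p x y x' y' : M} (h : OPair E p x y) (h' : OPair E p x' y') :
    x = x' ∧ y = y' := by
  obtain ⟨a, ha⟩ := hZ.pair x x
  obtain ⟨b, hb⟩ := hZ.pair x y
  obtain ⟨b', hb'⟩ := hZ.pair x' y'
  have hx : x = x' := by
    rcases (h' a).1 ((h a).2 (Or.inl ha)) with h2 | h2
    · rcases (ha x').1 ((h2 x').2 (Or.inl rfl)) with h3 | h3 <;> exact h3.symm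
    · rcases (ha x').1 ((h2 x').2 (Or.inl rfl)) with h3 | h3 <;> exact h3.symm
  subst hx
  refine ⟨rfl, ?_⟩
  have h3 : y = x ∨ y = y' := by
    rcases (h' b).1 ((h b).2 (Or.inr hb)) with h2 | h2
    · rcases (h2 y).1 ((hb y).2 (Or.inr rfl)) with h3 | h3 <;> exact Or.inl h3
    · exact (h2 y).1 ((hb y).2 (Or.inr rfl))
  have h4 : y' = x ∨ y' = y := by
    rcases (h b').1 ((h' b').2 (Or.inr hb')) with h2 | h2
    · rcases (h2 y').1 ((hb' y').2 (Or.inr rfl)) with h3 | h3 <;> exact Or.inl h3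
    · exact (h2 y').1 ((hb' y').2 (Or.inr rfl))
  rcases h3 with h3 | h3
  · rcases h4 with h4 | h4
    · rw [h3, h4]
    · exact h4.symm
  · exact h3

theorem op_uniq (hZ : IsZF E) {p q x y : M} (h : OPair E p x y) (h' : OPair E q x y) : p = q := by
  exact hZ.ext p q fun t => (h t).trans (h' t).symm

theorem om_uniq (hZ : IsZF E) {w w' : M} (h : Om E w) (h' : Om E w') : w = w' := by
  exact hZ.ext w w' fun t => ⟨h.2 w' h'.1 t, h'.2 w h.1 t⟩

theorem emp_uniq (hZ : IsZF E) {x y : M} (h : Emp E x) (h' : Emp E y) : x = y := by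
  exact hZ.ext x y fun t => iff_of_false (h t) (h' t)

theorem suc_uniq (hZ : IsZF E) {x y y' : M} (h : Suc E y x) (h' : Suc E y' x) : y = y' := by
  exact hZ.ext y y' fun t => (h t).trans (h' t).symm

theorem om_zero {w : M} (h : Om E w) : ∃ z, Emp E z ∧ E z w := by
  exact h.1.1

theorem om_suc {w n : M} (h : Om E w) (hn : E n w) : ∃ m, Suc E m n ∧ E m w := by
  exact h.1.2 n hn

theorem suc_self {x y : M} (h : Suc E y x) : E x y := by
  exact (h x).2 (Or.inr rfl)

theorem agr_refl (n x : M) : Agr E n x x := by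
  exact fun i _ m => Iff.rfl

theorem agr_symm {n x y : M} (h : Agr E n x y) : Agr E n y x := by
  exact fun i hi m => (h i hi m).symm

/-- The only value of a sequence. -/
theorem seq_uniq {w g n z z' : M} (h : Seq E w g) (hn : E n w) (h1 : Rel E g n z)
    (h2 : Rel E g n z') : z = z' := by
  obtain ⟨a, ha⟩ := h n hn
  exact ((ha z).1 h1).trans ((ha z').1 h2).symm

theorem seq_ex {w g n : M} (h : Seq E w g) (hn : E n w) : ∃ z, Rel E g n z := by
  obtain ⟨a, ha⟩ := h n hn
  exact ⟨a, (ha a).2 rfl⟩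

/-- The only value of a real. -/
theorem real_uniq {w x n m m' : M} (h : Real E w x) (hn : E n w) (h1 : Rel E x n m)
    (h2 : Rel E x n m') : m = m' := by
  obtain ⟨a, ha⟩ := h.2 n hn
  exact ((ha m).1 h1).trans ((ha m').1 h2).symm

theorem real_ex {w x n : M} (h : Real E w x) (hn : E n w) : ∃ m, Rel E x n m := by
  obtain ⟨a, ha⟩ := h.2 n hn
  exact ⟨a, (ha a).2 rfl⟩

/-- The values of a real are in `w`. -/
theorem real_mem (hZ : IsZF E) {w x n m : M} (h : Real E w x) (h1 : Rel E x n m) :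
    E n w ∧ E m w := by
  obtain ⟨p, hp, hpx⟩ := h1
  obtain ⟨n', m', hn', hm', hp'⟩ := h.1 p hpx
  obtain ⟨h2, h3⟩ := op_inj hZ hp hp'
  rw [h2, h3]
  exact ⟨hn', hm'⟩

theorem compl_uniq (hZ : IsZF E) {w A A' c : M} (h : Compl E w A c) (h' : Compl E w A' c) :
    A = A' := by
  exact hZ.ext A A' fun t => (h t).trans (h' t).symm

end Pool.Agent.LibBc83
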