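import Pool.Agent.LibBc83.T1

/-!
BC83 T2. Existence of sequences, from the axiom scheme of replacement.

Plan: apply `hZ.repl` to `w` and to the formula
`F := .ex (.and (.oPair 2 1 0) (f.ren ρ))`, where `ρ 0 = 1`, `ρ 1 = 0`, `ρ (k + 2) = k + 3`; under
the assignment `cons n (cons p v)` it says: there is `z` with `p = (n, z)` and `f (n, z, v)`
(use `sat_ren`; the assignment `cons z (cons n (cons p v)) ∘ ρ` is `cons n (cons z v)` by `funext`
and cases on the number of the variable). For `n ∈ w` there is exactly one such `p`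
(`op_ex`, `op_uniq`). Let `g` be the set given by `hZ.repl`; use `op_inj`, `op_uniq`.
-/

namespace Pool.Agent.LibBc83

variable {M : Type} {E : M → M → Prop}

private def T2_rho : ℕ → ℕ
  | 0 => 1
  | 1 => 0
  | k + 2 => k + 3

private theorem T2_comp (z n p : M) (v : ℕ → M) :
    cons z (cons n (cons p v)) ∘ T2_rho = cons n (cons z v) := by
  funext k
  match k with
  | 0 => rfl
  | 1 => rfl
  | k + 2 => rfl

/-- If for each `n` in `w` there is exactly one `z` with `f (n, z, v)` then this defines a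
sequence. -/
theorem exists_seq (hZ : IsZF E) {w : M} (f : Fm) (v : ℕ → M)
    (h : ∀ n, E n w → ∃ z, ∀ z', Sat E f (cons n (cons z' v)) ↔ z' = z) :
    ∃ g, Seq E w g ∧ (∀ p, E p g → ∃ n z, E n w ∧ OPair E p n z) ∧
      ∀ n z, E n w → (Rel E g n z ↔ Sat E f (cons n (cons z v))) := by
  have key : ∀ n p, Sat E (.ex (.and (.oPair 2 1 0) (f.ren T2_rho))) (cons n (cons p v)) ↔
      ∃ z, OPair E p n z ∧ Sat E f (cons n (cons z v)) := by
    intro n p
    rw [sat_ex]
    refine exists_congr fun z => ?_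
    rw [sat_and, sat_oPair, sat_ren, T2_comp]
    exact Iff.rfl
  obtain ⟨g, hg⟩ := hZ.repl (.ex (.and (.oPair 2 1 0) (f.ren T2_rho))) v w (by
    intro n hn
    obtain ⟨z, hz⟩ := h n hn
    obtain ⟨p, hp⟩ := op_ex hZ n z
    refine ⟨p, (key n p).2 ⟨z, hp, (hz z).2 rfl⟩, ?_⟩
    intro q hq
    obtain ⟨z', hq', hs⟩ := (key n q).1 hq
    rw [(hz z').1 hs] at hq'
    exact op_uniq hZ hq' hp)
  have hg' : ∀ p, E p g ↔ ∃ n, E n w ∧ ∃ z, OPair E p n z ∧ Sat E f (cons n (cons z v)) := by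
    intro p
    rw [hg p]
    exact exists_congr fun n => and_congr_right fun _ => key n p
  have hrel : ∀ n z, E n w → (Rel E g n z ↔ Sat E f (cons n (cons z v))) := by
    intro n z hn
    constructor
    · rintro ⟨p, hp, hpg⟩
      obtain ⟨n', _, z', hp', hs⟩ := (hg' p).1 hpg
      obtain ⟨h1, h2⟩ := op_inj hZ hp hp'
      rw [h1, h2]
      exact hs
    · intro hs
      obtain ⟨p, hp⟩ := op_ex hZ n z
      exact ⟨p, hp, (hg' p).2 ⟨n, hn, z, hp, hs⟩⟩
  refine ⟨g, ?_, ?_, hrel⟩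
  · intro n hn
    obtain ⟨z, hz⟩ := h n hn
    exact ⟨z, fun z' => (hrel n z' hn).trans (hz z')⟩
  · intro p hp
    obtain ⟨n, hn, z, hp', _⟩ := (hg' p).1 hp
    exact ⟨n, z, hn, hp'⟩

end Pool.Agent.LibBc83
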