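import Pool.Agent.LibBc83.T2

/-!
BC83 T3. A closed set is an intersection of a sequence of open sets.

Plan: `C` is the complement of the open set `c`. Let
`U n = {y : y real, there is x ∈ C with Agr n x y}` (`U n` exists by `hZ.sep`, as a subset of `R`,
with the formula `.ex (.and (.mem 0 _) (.agr _ 0 1))`; uniqueness by `hZ.ext`). By `exists_seq`
with the formula `z = U n`, that is
`.all (.iff (.mem 0 2) (.and (.real _ 0) (.ex (.and (.mem 0 _) (.agr 2 0 1)))))` under the
assignment `cons n (cons z v)`, `v = cons C (cons w (fun _ => w))`, there is the sequence `h` of the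
sets `U n`. Each `U n` is open: if `y` is in `U n` by `x`, and `Agr n y y'`, then `Agr n x y'`.
`C` is contained in each `U n` (`agr_refl`; the members of `C` are reals by `hC`). If `y` is a real
which is not in `C` then `y ∈ c`, so for some `n` in `w` each real `x` with `Agr n y x` is in `c`,
hence `y ∉ U n`, since `C ∩ c = ∅`.
-/

namespace Pool.Agent.LibBc83

variable {M : Type} {E : M → M → Prop}

theorem gd_of_closed (hZ : IsZF E) {w R C c : M} (hw : Om E w) (hR : ∀ x, E x R ↔ Real E w x)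
    (hc : Open E w c) (hC : Compl E w C c) : Gd E w C := by
  -- the sets `U n`
  have hU : ∀ n, ∃ U, ∀ y, E y U ↔ Real E w y ∧ ∃ x, E x C ∧ Agr E n x y := by
    intro n
    obtain ⟨U, hU⟩ := hZ.sep (.ex (.and (.mem 0 3) (.agr 2 0 1))) (cons n (cons C (fun _ => w))) R
    refine ⟨U, fun y => ?_⟩
    rw [hU y, hR y]
    simp only [sat_ex, sat_and, sat_mem, sat_agr]
    exact Iff.rfl
  have hF : ∀ n z, Sat E (.all (.iff (.mem 0 2) (.and (.real 4 0)
      (.ex (.and (.mem 0 4) (.agr 2 0 1)))))) (cons n (cons z (cons C (cons w (fun _ => w))))) ↔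
      ∀ y, E y z ↔ Real E w y ∧ ∃ x, E x C ∧ Agr E n x y := by
    intro n z
    simp only [sat_all, sat_iff, sat_real, sat_ex, sat_and, sat_mem, sat_agr]
    exact Iff.rfl
  obtain ⟨h, hs, -, hr⟩ := exists_seq hZ (w := w) (.all (.iff (.mem 0 2) (.and (.real 4 0)
      (.ex (.and (.mem 0 4) (.agr 2 0 1)))))) (cons C (cons w (fun _ => w))) (by
    intro n _
    obtain ⟨U, hUn⟩ := hU n
    refine ⟨U, fun z' => ?_⟩
    rw [hF]
    constructor
    · intro h1
      exact hZ.ext _ _ fun t => by rw [h1 t, hUn t]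
    · rintro rfl
      exact hUn)
  have key : ∀ n U, E n w → Rel E h n U →
      ∀ y, E y U ↔ Real E w y ∧ ∃ x, E x C ∧ Agr E n x y := by
    intro n U hn hnU
    exact (hF n U).1 ((hr n U hn).1 hnU)
  refine ⟨h, hs, ?_, ?_⟩
  · intro j U hj hjU
    refine ⟨fun x hx => ((key j U hj hjU x).1 hx).1, fun x hx => ⟨j, hj, fun y hy hxy => ?_⟩⟩
    obtain ⟨-, x0, hx0, ha⟩ := (key j U hj hjU x).1 hx
    exact (key j U hj hjU y).2 ⟨hy, x0, hx0, fun i hi m => (ha i hi m).trans (hxy i hi m)⟩
  · intro x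
    constructor
    · intro hx
      have hreal := ((hC x).1 hx).1
      exact ⟨hreal, fun j U hj hjU => (key j U hj hjU x).2 ⟨hreal, x, hx, agr_refl j x⟩⟩
    · rintro ⟨hreal, hall⟩
      by_contra hx
      have hxc : E x c := by
        by_contra hxc
        exact hx ((hC x).2 ⟨hreal, hxc⟩)
      obtain ⟨n, hn, hn2⟩ := hc.2 x hxc
      obtain ⟨U, hnU⟩ := seq_ex hs hn
      obtain ⟨-, x0, hx0, ha⟩ := (key n U hn hnU x).1 (hall n U hn hnU)
      have hx0' := (hC x0).1 hx0
      exact hx0'.2 (hn2 x0 hx0'.1 (agr_symm ha))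

end Pool.Agent.LibBc83
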