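import Pool.Agent.LibBc83.T2

/-!
BC83 T4. The complement of the union of a sequence of closed sets is an intersection of a sequence
of open sets.

Plan: `PiUpTo E w 1 z` says that there is an open `U` with `Compl E w z U` (unfold; `SigStep` for
`k = 0`). This `U` is the set of the reals which are not in `z` (its members are reals). So for each
`n` in `w` there is exactly one open set `U` such that: `x ∈ U ↔ Real x ∧ ¬ ∃ z, Rel g n z ∧ x ∈ z`
for all `x`. Apply `exists_seq` with the formula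
`.all (.iff (.mem 0 2) (.and (.real _ 0) (.neg (.ex (.and (.rel _ 2 0) (.mem 1 0))))))` (check the
numbers of the variables: assignment `cons n (cons U v)`, `v = cons g (cons w (fun _ => w))`). The
sequence obtained shows `Gd E w C`: `x ∈ C ↔ Real x ∧ x ∉ c ↔ Real x ∧ x` is in no term of `g`.
-/

namespace Pool.Agent.LibBc83

variable {M : Type} {E : M → M → Prop}

theorem gd_of_pi2 (hZ : IsZF E) {w C c g : M} (hw : Om E w) (hg : Seq E w g)
    (hg1 : ∀ n z, E n w → Rel E g n z → PiUpTo E w 1 z) (hu : Union E w c g)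
    (hC : Compl E w C c) : Gd E w C := by
  have key : ∀ n, E n w → ∃ U, Open E w U ∧
      ∀ x, E x U ↔ Real E w x ∧ ¬ ∃ z, Rel E g n z ∧ E x z := by
    intro n hn
    obtain ⟨z, hz⟩ := hg n hn
    rcases hg1 n z hn ((hz z).2 rfl) with h1 | ⟨U, hU, hUz⟩
    · exact h1.elim
    · have hU' : Open E w U := hU
      refine ⟨U, hU', fun x => ⟨fun hx => ⟨hU'.1 x hx, ?_⟩, ?_⟩⟩
      · rintro ⟨z', hz', hxz'⟩
        rw [(hz z').1 hz'] at hxz'
        exact ((hUz x).1 hxz').2 hx
      · rintro ⟨hx, hx2⟩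
        by_contra hxU
        exact hx2 ⟨z, (hz z).2 rfl, (hUz x).2 ⟨hx, hxU⟩⟩
  have hF : ∀ n U, Sat E (.all (.iff (.mem 0 2) (.and (.real 4 0)
      (.neg (.ex (.and (.rel 4 2 0) (.mem 1 0))))))) (cons n (cons U (cons g (cons w fun _ => w)))) ↔
      ∀ x, E x U ↔ Real E w x ∧ ¬ ∃ z, Rel E g n z ∧ E x z := by
    intro n U
    simp only [sat_all, sat_iff, sat_mem, sat_and, sat_real, sat_neg, sat_ex, sat_rel, cons_zero,
      cons_succ, cons]
  obtain ⟨h, hh1, -, hh3⟩ := exists_seq hZ (w := w) (.all (.iff (.mem 0 2) (.and (.real 4 0)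
      (.neg (.ex (.and (.rel 4 2 0) (.mem 1 0))))))) (cons g (cons w fun _ => w)) (by
    intro n hn
    obtain ⟨U, _, hU2⟩ := key n hn
    refine ⟨U, fun U' => ?_⟩
    rw [hF]
    constructor
    · intro hU'
      exact hZ.ext _ _ fun t => (hU' t).trans (hU2 t).symm
    · rintro rfl
      exact hU2)
  refine ⟨h, hh1, fun j U hj hjU => ?_, fun x => ?_⟩
  · obtain ⟨U0, hU0, hU02⟩ := key j hj
    have h2 := (hF j U).1 ((hh3 j U hj).1 hjU)
    have h3 : U = U0 := hZ.ext _ _ fun t => (h2 t).trans (hU02 t).symm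
    rw [h3]
    exact hU0
  · rw [hC x, hu x]
    refine and_congr_right fun hx => ?_
    constructor
    · intro hnx j U hj hjU
      have h2 := (hF j U).1 ((hh3 j U hj).1 hjU)
      refine (h2 x).2 ⟨hx, ?_⟩
      rintro ⟨z, hz1, hz2⟩
      exact hnx ⟨j, z, hj, hz1, hz2⟩
    · rintro hall ⟨n, z, hn, hz1, hz2⟩
      obtain ⟨U, hU⟩ := hh1 n hn
      have h1 : Rel E h n U := (hU U).2 rfl
      have h2 := (hF n U).1 ((hh3 n U hn).1 h1)
      exact ((h2 x).1 (hall n U hn h1)).2 ⟨z, hz1, hz2⟩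

end Pool.Agent.LibBc83
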