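import Pool.Agent.LibBc83.T3
import Pool.Agent.LibBc83.T4

/-!
BC83 T5. The sets in `Σ⁰₃` are unions of sequences of intersections of sequences of open sets.

Plan: unfold `PiUpTo E w 2`: `PiUpTo E w 1 z` or `z` is the complement of some `c` with
`SigStep E w 1 (PiUpTo E w 1) c`, which is the case of `gd_of_pi2`; `PiUpTo E w 1 z` means that `z`
is the complement of an open set (the alternative is `False`), use `gd_of_closed`. `Sig E 3 w A` is
`SigStep E w 2 (PiUpTo E w 2) A`, `k = 2 ≠ 0`.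
-/

namespace Pool.Agent.LibBc83

variable {M : Type} {E : M → M → Prop}

theorem gd_of_piUpTo2 (hZ : IsZF E) {w R z : M} (hw : Om E w) (hR : ∀ x, E x R ↔ Real E w x)
    (h : PiUpTo E w 2 z) : Gd E w z := by
  rcases h with (h | ⟨c, hc, hC⟩) | ⟨c, hc, hC⟩
  · exact h.elim
  · have h1 : Open E w c := by
      unfold SigStep at hc
      rwa [if_pos rfl] at hc
    exact gd_of_closed hZ hw hR h1 hC
  · have h1 : ∃ g, Seq E w g ∧ (∀ n z, E n w → Rel E g n z → PiUpTo E w 1 z) ∧ Union E w c g := by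
      unfold SigStep at hc
      rwa [if_neg (by norm_num : ¬ (1 : ℕ) = 0)] at hc
    obtain ⟨g, hg, hg1, hu⟩ := h1
    exact gd_of_pi2 hZ hw hg hg1 hu hC

theorem gdS_of_sig3 (hZ : IsZF E) {w R A : M} (hw : Om E w) (hR : ∀ x, E x R ↔ Real E w x)
    (h : Sig E 3 w A) : GdS E w A := by
  have h1 : ∃ g, Seq E w g ∧ (∀ n z, E n w → Rel E g n z → PiUpTo E w 2 z) ∧ Union E w A g := by
    unfold Sig SigStep at h
    rwa [if_neg (by norm_num : ¬ (3 - 1 : ℕ) = 0)] at h
  obtain ⟨g, hg, hg1, hu⟩ := h1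
  exact ⟨g, hg, fun k C hk hC => gd_of_piUpTo2 hZ hw hR (hg1 k C hk hC), hu⟩

end Pool.Agent.LibBc83
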