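import Pool.Agent.LibBc83.T2

/-!
BC83 T6. A set `{z : ∀ j ∈ w, ∃ i ∈ w, K (i, j, z)}`, with `{z : K (i, j, z)}` closed for each
`i, j`, is in `Π⁰₃`. Here `K (i, j, z)` is `Sat E f (cons z (cons i (cons j v)))`.

Plan. (1) `closed_ex`: for `i, j ∈ w` let `L = {z ∈ R : K (i, j, z)}` (`hZ.sep` with the formula
`f` itself and the assignment `cons i (cons j v)`) and `U = {z ∈ R : ¬ K (i, j, z)}` (with
`.neg f`); `U` is open by `hcl`, `L` is the complement of `U`, so `PiUpTo E w 1 L`.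
(2) `pi2_ex`: for `j ∈ w` let `c' = {z ∈ R : ∃ i ∈ w, K}`, `W = {z ∈ R : ∀ i ∈ w, ¬ K}`. By
`exists_seq` there is the sequence `i ↦ L i` (the formula says: for all `z`, `z ∈ L ↔ z ∈ R ∧ K`;
its part `K` is `f.ren ρ` for the right `ρ`; put `R` and `w` and `j` before `v` in the assignment),
`c'` is the union of this sequence, `W` is the complement of `c'`. So `PiUpTo E w 2 W`.
(3) `pi3_of`: the complement `c` of `C` is the union of the sequence `j ↦ W j` (`exists_seq`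
again), so `C` is in `PiUpTo E w 3`.
`PiUpTo E w (k + 1) z` is by definition `PiUpTo E w k z ∨ ∃ c, SigStep E w k (PiUpTo E w k) c ∧
Compl E w z c`; `SigStep E w k P c` is `Open E w c` for `k = 0` and the existence of a sequence for
`k ≠ 0`.
-/

namespace Pool.Agent.LibBc83

variable {M : Type} {E : M → M → Prop}

private def T6_r1 : ℕ → ℕ
  | 0 => 0
  | 1 => 1
  | k + 2 => k + 4

private def T6_r2 : ℕ → ℕ
  | 0 => 1
  | 1 => 0
  | k + 2 => k + 3

private def T6_r3 : ℕ → ℕ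
  | 0 => 1
  | 1 => 0
  | 2 => 2
  | k + 3 => k + 5

private def T6_r4 : ℕ → ℕ
  | 0 => 2
  | 1 => 0
  | 2 => 1
  | k + 3 => k + 4

theorem closed_ex (hZ : IsZF E) {w R i j : M} (hw : Om E w) (hR : ∀ x, E x R ↔ Real E w x)
    (f : Fm) (v : ℕ → M)
    (hcl : ∀ z, Real E w z → ¬ Sat E f (cons z (cons i (cons j v))) →
      ∃ n, E n w ∧ ∀ z', Real E w z' → Agr E n z z' → ¬ Sat E f (cons z' (cons i (cons j v)))) :
    ∃ L, (∀ z, E z L ↔ Real E w z ∧ Sat E f (cons z (cons i (cons j v)))) ∧ PiUpTo E w 1 L := by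
  obtain ⟨L, hL⟩ := hZ.sep f (cons i (cons j v)) R
  obtain ⟨U, hU⟩ := hZ.sep (.neg f) (cons i (cons j v)) R
  refine ⟨L, fun z => by rw [hL, hR], Or.inr ⟨U, ?_, ?_⟩⟩
  · change Open E w U
    refine ⟨fun x hx => (hR x).1 ((hU x).1 hx).1, fun x hx => ?_⟩
    have hx' := (hU x).1 hx
    obtain ⟨n, hn, hn2⟩ := hcl x ((hR x).1 hx'.1) hx'.2
    exact ⟨n, hn, fun y hy hxy => (hU y).2 ⟨(hR y).2 hy, hn2 y hy hxy⟩⟩
  · intro x
    rw [hL, hU, hR, sat_neg]
    tauto

theorem pi2_ex (hZ : IsZF E) {w R j : M} (hw : Om E w) (hR : ∀ x, E x R ↔ Real E w x)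
    (f : Fm) (v : ℕ → M)
    (hcl : ∀ i z, E i w → Real E w z → ¬ Sat E f (cons z (cons i (cons j v))) →
      ∃ n, E n w ∧ ∀ z', Real E w z' → Agr E n z z' → ¬ Sat E f (cons z' (cons i (cons j v)))) :
    ∃ W, (∀ z, E z W ↔ Real E w z ∧ ∀ i, E i w → ¬ Sat E f (cons z (cons i (cons j v)))) ∧
      PiUpTo E w 2 W := by
  have hG : ∀ i L, Sat E (.all (.iff (.mem 0 2) (.and (.real 3 0) (f.ren T6_r1))))
      (cons i (cons L (cons w (cons j v)))) ↔
      ∀ z, E z L ↔ Real E w z ∧ Sat E f (cons z (cons i (cons j v))) := by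
    intro i L
    have e : ∀ z, cons z (cons i (cons L (cons w (cons j v)))) ∘ T6_r1 =
        cons z (cons i (cons j v)) := by
      intro z
      funext n
      match n with
      | 0 => rfl
      | 1 => rfl
      | k + 2 => rfl
    simp only [sat_all, sat_iff, sat_mem, sat_and, sat_real, sat_ren, e, cons_zero, cons]
  have hex : ∀ i, E i w → ∃ L, (∀ z, E z L ↔ Real E w z ∧ Sat E f (cons z (cons i (cons j v)))) ∧
      PiUpTo E w 1 L := fun i hi => closed_ex hZ hw hR f v (fun z hz hz2 => hcl i z hi hz hz2)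
  obtain ⟨g, hg1, -, hg3⟩ := exists_seq hZ (w := w)
      (.all (.iff (.mem 0 2) (.and (.real 3 0) (f.ren T6_r1)))) (cons w (cons j v)) (by
    intro i hi
    obtain ⟨L, hL1, _⟩ := hex i hi
    refine ⟨L, fun L' => ?_⟩
    rw [hG]
    constructor
    · intro hL'
      exact hZ.ext _ _ fun t => (hL' t).trans (hL1 t).symm
    · rintro rfl
      exact hL1)
  have e2 : ∀ i z, cons i (cons z (cons w (cons j v))) ∘ T6_r2 = cons z (cons i (cons j v)) := by
    intro i z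
    funext n
    match n with
    | 0 => rfl
    | 1 => rfl
    | k + 2 => rfl
  obtain ⟨c', hc'⟩ := hZ.sep (.ex (.and (.mem 0 2) (f.ren T6_r2))) (cons w (cons j v)) R
  obtain ⟨W, hW⟩ := hZ.sep (.all (.imp (.mem 0 2) (.neg (f.ren T6_r2)))) (cons w (cons j v)) R
  have hc2 : ∀ z, E z c' ↔ Real E w z ∧ ∃ i, E i w ∧ Sat E f (cons z (cons i (cons j v))) := by
    intro z
    rw [hc', hR]
    simp only [sat_ex, sat_and, sat_mem, sat_ren, e2, cons_zero, cons]
  have hW2 : ∀ z, E z W ↔ Real E w z ∧ ∀ i, E i w → ¬ Sat E f (cons z (cons i (cons j v))) := by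
    intro z
    rw [hW, hR]
    simp only [sat_all, sat_imp, sat_neg, sat_mem, sat_ren, e2, cons_zero, cons]
  refine ⟨W, hW2, Or.inr ⟨c', ⟨g, hg1, ?_, ?_⟩, ?_⟩⟩
  · intro i L hi hL
    obtain ⟨L0, hL1, hL2⟩ := hex i hi
    have h2 := (hG i L).1 ((hg3 i L hi).1 hL)
    have h3 : L = L0 := hZ.ext _ _ fun t => (h2 t).trans (hL1 t).symm
    rw [h3]
    exact hL2
  · intro z
    rw [hc2]
    constructor
    · rintro ⟨hz, i, hi, hs⟩
      obtain ⟨L, hL⟩ := hg1 i hi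
      have h1 : Rel E g i L := (hL L).2 rfl
      have h2 := (hG i L).1 ((hg3 i L hi).1 h1)
      exact ⟨i, L, hi, h1, (h2 z).2 ⟨hz, hs⟩⟩
    · rintro ⟨i, L, hi, hL, hz⟩
      have h2 := (hG i L).1 ((hg3 i L hi).1 hL)
      exact ⟨((h2 z).1 hz).1, i, hi, ((h2 z).1 hz).2⟩
  · intro z
    rw [hW2, hc2]
    constructor
    · rintro ⟨hz, h⟩
      refine ⟨hz, ?_⟩
      rintro ⟨_, i, hi, hs⟩
      exact h i hi hs
    · rintro ⟨hz, h⟩
      exact ⟨hz, fun i hi hs => h ⟨hz, i, hi, hs⟩⟩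

theorem pi3_of' (hZ : IsZF E) {w R C : M} (hw : Om E w) (hR : ∀ x, E x R ↔ Real E w x)
    (f : Fm) (v : ℕ → M)
    (hcl : ∀ i j z, E i w → E j w → Real E w z → ¬ Sat E f (cons z (cons i (cons j v))) →
      ∃ n, E n w ∧ ∀ z', Real E w z' → Agr E n z z' → ¬ Sat E f (cons z' (cons i (cons j v))))
    (hC : ∀ z, E z C ↔ Real E w z ∧
      ∀ j, E j w → ∃ i, E i w ∧ Sat E f (cons z (cons i (cons j v)))) :
    Pi E 3 w C := by
  have hG : ∀ j W, Sat E (.all (.iff (.mem 0 2) (.and (.real 3 0)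
      (.all (.imp (.mem 0 4) (.neg (f.ren T6_r3))))))) (cons j (cons W (cons w v))) ↔
      ∀ z, E z W ↔ Real E w z ∧ ∀ i, E i w → ¬ Sat E f (cons z (cons i (cons j v))) := by
    intro j W
    have e : ∀ i z, cons i (cons z (cons j (cons W (cons w v)))) ∘ T6_r3 =
        cons z (cons i (cons j v)) := by
      intro i z
      funext n
      match n with
      | 0 => rfl
      | 1 => rfl
      | 2 => rfl
      | k + 3 => rfl
    simp only [sat_all, sat_iff, sat_mem, sat_and, sat_real, sat_imp, sat_neg, sat_ren, e,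
      cons_zero, cons]
  have hex : ∀ j, E j w → ∃ W, (∀ z, E z W ↔ Real E w z ∧
      ∀ i, E i w → ¬ Sat E f (cons z (cons i (cons j v)))) ∧ PiUpTo E w 2 W :=
    fun j hj => pi2_ex hZ hw hR f v (fun i z hi hz hz2 => hcl i j z hi hj hz hz2)
  obtain ⟨g, hg1, -, hg3⟩ := exists_seq hZ (w := w) (.all (.iff (.mem 0 2) (.and (.real 3 0)
      (.all (.imp (.mem 0 4) (.neg (f.ren T6_r3))))))) (cons w v) (by
    intro j hj
    obtain ⟨W, hW1, _⟩ := hex j hj
    refine ⟨W, fun W' => ?_⟩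
    rw [hG]
    constructor
    · intro hW'
      exact hZ.ext _ _ fun t => (hW' t).trans (hW1 t).symm
    · rintro rfl
      exact hW1)
  have e2 : ∀ i j z, cons i (cons j (cons z (cons w v))) ∘ T6_r4 =
      cons z (cons i (cons j v)) := by
    intro i j z
    funext n
    match n with
    | 0 => rfl
    | 1 => rfl
    | 2 => rfl
    | k + 3 => rfl
  obtain ⟨c, hc⟩ := hZ.sep (.ex (.and (.mem 0 2) (.all (.imp (.mem 0 3) (.neg (f.ren T6_r4))))))
    (cons w v) R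
  have hc2 : ∀ z, E z c ↔ Real E w z ∧ ∃ j, E j w ∧
      ∀ i, E i w → ¬ Sat E f (cons z (cons i (cons j v))) := by
    intro z
    rw [hc, hR]
    simp only [sat_ex, sat_and, sat_mem, sat_all, sat_imp, sat_neg, sat_ren, e2, cons_zero, cons]
  refine ⟨c, ⟨g, hg1, ?_, ?_⟩, ?_⟩
  · intro j W hj hW
    obtain ⟨W0, hW1, hW2⟩ := hex j hj
    have h2 := (hG j W).1 ((hg3 j W hj).1 hW)
    have h3 : W = W0 := hZ.ext _ _ fun t => (h2 t).trans (hW1 t).symm
    rw [h3]
    exact hW2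
  · intro z
    rw [hc2]
    constructor
    · rintro ⟨hz, j, hj, hs⟩
      obtain ⟨W, hW⟩ := hg1 j hj
      have h1 : Rel E g j W := (hW W).2 rfl
      have h2 := (hG j W).1 ((hg3 j W hj).1 h1)
      exact ⟨j, W, hj, h1, (h2 z).2 ⟨hz, hs⟩⟩
    · rintro ⟨j, W, hj, hW, hz⟩
      have h2 := (hG j W).1 ((hg3 j W hj).1 hW)
      exact ⟨((h2 z).1 hz).1, j, hj, ((h2 z).1 hz).2⟩
  · intro z
    rw [hC, hc2]
    constructor
    · rintro ⟨hz, h⟩
      refine ⟨hz, ?_⟩
      rintro ⟨_, j, hj, hs⟩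
      obtain ⟨i, hi, hi2⟩ := h j hj
      exact hs i hi hi2
    · rintro ⟨hz, h⟩
      refine ⟨hz, fun j hj => ?_⟩
      by_contra hcon
      push Not at hcon
      exact h ⟨hz, j, hj, hcon⟩

theorem pi3_of (hZ : IsZF E) {w R C : M} (hw : Om E w) (hR : ∀ x, E x R ↔ Real E w x)
    (f : Fm) (v : ℕ → M)
    (hcl : ∀ i j z, E i w → E j w → Real E w z → ¬ Sat E f (cons z (cons i (cons j v))) →
      ∃ n, E n w ∧ ∀ z', Real E w z' → Agr E n z z' → ¬ Sat E f (cons z' (cons i (cons j v))))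
    (hC : ∀ z, E z C ↔ Real E w z ∧
      ∀ j, E j w → ∃ i, E i w ∧ Sat E f (cons z (cons i (cons j v)))) :
    PiUpTo E w 3 C := Or.inr (pi3_of' hZ hw hR f v hcl hC)

end Pool.Agent.LibBc83
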