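import Pool.Agent.LibBc83.T6

/-!
BC83 T7. (a) A set in `Π⁰₁ ∪ Π⁰₂ ∪ Π⁰₃` is in `Σ⁰₄`: it is the union of a constant sequence.
(b) `{z : ∀ j ∃ i Eqv (z, i, y, j)}` is in `Π⁰₃`.

Plan. (a) `exists_seq` with the formula `.eq 1 2` and the assignment with `v 0 = C`; `Union`
because `w` is not empty (`om_zero`). (b) `pi3_of` with the formula `.eqv 5 4 0 1 3 2` (variables:
`0 = z`, `1 = i`, `2 = j`, then `v = cons y (cons J (fun _ => w))`, so `3 = y`, `4 = J`, `5 = w`).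
Closedness: if `Eqv` fails for `z, i, j` then there are `k, m, m', l` with `J (i, k) = m`,
`J (j, k) = m'` and not `Rel z m l ↔ Rel y m' l`; `m` is in `w` (`hJ`), take for `n` the successor
of `m` (`om_suc`, `suc_self`): if `Agr n z z'` then `Rel z m l ↔ Rel z' m l`.
-/

namespace Pool.Agent.LibBc83

variable {M : Type} {E : M → M → Prop}

theorem sig4_of_pi3 (hZ : IsZF E) {w C : M} (hw : Om E w) (hC : PiUpTo E w 3 C) :
    Sig E 4 w C := by
  obtain ⟨g, hg, _, hg2⟩ := exists_seq hZ (w := w) (.eq 1 2) (cons C (fun _ => C))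
    (fun n _ => ⟨C, fun z' => Iff.rfl⟩)
  have hg3 : ∀ n z, E n w → (Rel E g n z ↔ z = C) := fun n z hn => hg2 n z hn
  obtain ⟨o, _, ho⟩ := om_zero hw
  refine ⟨g, hg, ?_, ?_⟩
  · intro n z hn hz
    rw [(hg3 n z hn).1 hz]
    exact hC
  · intro x
    constructor
    · intro hx
      exact ⟨o, C, ho, (hg3 o C ho).2 rfl, hx⟩
    · rintro ⟨n, z, hn, hz, hx⟩
      rw [(hg3 n z hn).1 hz] at hx
      exact hx

theorem pi_sup (hZ : IsZF E) {w R J y C : M} (hw : Om E w) (hR : ∀ x, E x R ↔ Real E w x)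
    (hJ : IsJ E w J) (hC : Sup E w J y C) : Pi E 3 w C := by
  refine pi3_of' hZ hw hR (.eqv 5 4 0 1 3 2) (cons y (cons J (fun _ => w))) ?_ ?_
  · intro i j z hi hj hz hn
    simp only [sat_eqv, cons_zero, cons_succ] at hn ⊢
    have hn' : ¬ Eqv E w J z i y j := hn
    unfold Eqv at hn'
    push Not at hn'
    obtain ⟨k, hk, m, m', hm, hm', l, hl⟩ := hn'
    obtain ⟨m0, hm0, hJ0⟩ := hJ i k hi hk
    have hmw : E m w := by
      rw [(hJ0 m).1 hm]
      exact hm0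
    obtain ⟨n, hn1, hn2⟩ := om_suc hw hmw
    refine ⟨n, hn2, fun z' _ hagr hE => ?_⟩
    have h1 : Rel E z m l ↔ Rel E z' m l := hagr m (suc_self hn1) l
    have h2 : Rel E z' m l ↔ Rel E y m' l := hE k hk m m' hm hm' l
    have h3 : Rel E z m l ↔ Rel E y m' l := h1.trans h2
    tauto
  · intro z
    simp only [sat_eqv, cons_zero, cons_succ]
    exact hC z

theorem pi3_sup (hZ : IsZF E) {w R J y C : M} (hw : Om E w) (hR : ∀ x, E x R ↔ Real E w x)
    (hJ : IsJ E w J) (hC : Sup E w J y C) : PiUpTo E w 3 C := Or.inr (pi_sup hZ hw hR hJ hC)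

end Pool.Agent.LibBc83
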