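import Pool.Agent.LibBc83.T6

/-!
BC83 T8. `{z : ∀ j ∃ i Eqv' (z, i, y, j)}` is in `Π⁰₃`, where `Eqv'` is the relation `Eqv` for the
real `z` without its first value, which must be `n`.

Plan: define the formula `Fm.eqv'` (write it as in `CoreDef.lean`, with a `simp` lemma `sat_eqv'`),
apply `pi3_of` as in T7 with `v = cons y (cons J (cons n (fun _ => w)))`. Closedness: if `Eqv'`
fails for `z, i, j` then (a) there is the empty `o` with not `Rel z o n`: `o ∈ w` (`om_zero`,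
`emp_uniq`), take the successor of `o`; or (b) there are `k, m, m', m1, l` with `J (i, k) = m`,
`J (j, k) = m'`, `Suc m1 m` and not `Rel z m1 l ↔ Rel y m' l`: `m1 ∈ w` (`om_suc`, `suc_uniq`), take
the successor of `m1`.
-/

namespace Pool.Agent.LibBc83

variable {M : Type} {E : M → M → Prop}

/-- `z (0) = n` and `z (J (i, k) + 1) = y (J (j, k))` for all `k`. -/
def Eqv' (E : M → M → Prop) (w J n z i y j : M) : Prop :=
  (∀ o, Emp E o → Rel E z o n) ∧
  ∀ k, E k w → ∀ m m', Rel3 E J i k m → Rel3 E J j k m' → ∀ m1, Suc E m1 m →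
    ∀ l, Rel E z m1 l ↔ Rel E y m' l

/-- The formula for `Eqv'`. -/
def Fm.eqv' (w J n z i y j : ℕ) : Fm :=
  .and (.all (.imp (.emp 0) (.rel (z+1) 0 (n+1))))
    (.all (.imp (.mem 0 (w+1)) (.all (.all (.imp (.rel3 (J+3) (i+3) 2 1)
      (.imp (.rel3 (J+3) (j+3) 2 0) (.all (.imp (.suc 0 2)
        (.all (.iff (.rel (z+5) 1 0) (.rel (y+5) 2 0)))))))))))

@[simp] theorem sat_eqv' (v : ℕ → M) (w J n z i y j : ℕ) :
    Sat E (.eqv' w J n z i y j) v ↔
      Eqv' E (v w) (v J) (v n) (v z) (v i) (v y) (v j) := by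
  simp [Fm.eqv', Eqv']

private theorem T8_closed (hZ : IsZF E) {w J n z i y j : M} (hw : Om E w) (hJ : IsJ E w J)
    (hi : E i w) (h : ¬ Eqv' E w J n z i y j) :
    ∃ p, E p w ∧ ∀ z', Real E w z' → Agr E p z z' → ¬ Eqv' E w J n z' i y j := by
  by_cases h1 : ∀ o, Emp E o → Rel E z o n
  · have h2 : ¬ ∀ k, E k w → ∀ m m', Rel3 E J i k m → Rel3 E J j k m' → ∀ m1, Suc E m1 m →
        ∀ l, Rel E z m1 l ↔ Rel E y m' l := fun h3 => h ⟨h1, h3⟩
    push Not at h2
    obtain ⟨k, hk, m, m', hm, hm', m1, hm1, l, hl⟩ := h2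
    obtain ⟨m₀, hm₀, hm₀'⟩ := hJ i k hi hk
    have hmw : E m w := by
      rw [(hm₀' m).1 hm]
      exact hm₀
    obtain ⟨m2, hm2, hm2w⟩ := om_suc hw hmw
    have hm1w : E m1 w := by
      rw [suc_uniq hZ hm1 hm2]
      exact hm2w
    obtain ⟨p, hp, hpw⟩ := om_suc hw hm1w
    refine ⟨p, hpw, fun z' _ hag hE => ?_⟩
    have h4 := hag m1 (suc_self hp) l
    have h5 := hE.2 k hk m m' hm hm' m1 hm1 l
    tauto
  · push Not at h1
    obtain ⟨o, ho, hno⟩ := h1
    obtain ⟨o', ho', ho'w⟩ := om_zero hw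
    have how : E o w := by
      rw [emp_uniq hZ ho ho']
      exact ho'w
    obtain ⟨p, hp, hpw⟩ := om_suc hw how
    refine ⟨p, hpw, fun z' _ hag hE => ?_⟩
    exact hno ((hag o (suc_self hp) n).2 (hE.1 o ho))

theorem pi3_sup' (hZ : IsZF E) {w R J n y C : M} (hw : Om E w) (hR : ∀ x, E x R ↔ Real E w x)
    (hJ : IsJ E w J)
    (hC : ∀ z, E z C ↔ Real E w z ∧ ∀ j, E j w → ∃ i, E i w ∧ Eqv' E w J n z i y j) :
    PiUpTo E w 3 C := by
  refine pi3_of hZ hw hR (.eqv' 6 4 5 0 1 3 2)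
    (cons y (cons J (cons n (fun _ => w)))) ?_ ?_
  · intro i j z hi hj hz h
    rw [sat_eqv'] at h
    obtain ⟨p, hp, hp'⟩ := T8_closed hZ hw hJ hi h
    refine ⟨p, hp, fun z' hz' hag => ?_⟩
    rw [sat_eqv']
    exact hp' z' hz' hag
  · intro z
    rw [hC z]
    refine and_congr_right fun _ => forall_congr' fun j => imp_congr_right fun _ =>
      exists_congr fun i => and_congr_right fun _ => ?_
    rw [sat_eqv']
    exact Iff.rfl

end Pool.Agent.LibBc83
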