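import Pool.Agent.LibBc83.T2

/-!
BC83 U1. Arithmetic of `ω` in an arbitrary model `(M, E)` of ZF: induction, the order.

Plan. `om_induct`: let `b = {n ∈ w : f (n)}` (`hZ.sep`); it is inductive, so `w ⊆ b` (`Om`).
`not_mem_self`: `hZ.found` for `{x}` (`hZ.pair x x`). `om_mem_trans`: induction on `i` with the
formula `.all (.imp (.mem 0 1) (.mem 0 2))` and `v 0 = w` (`j ∈ i → j ∈ w` for all `j`).
`om_trans`: induction on `i` with the formula `∀ j ∈ i, ∀ k ∈ j, k ∈ i`. `om_tri`: first, by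
induction on `j`: `Emp i → i = j ∨ i ∈ j`; then by induction on `j`: for all `i ∈ w`,
`i ∈ j → (the successor i' of i) i' ∈ j ∨ i' = j`; then trichotomy by induction on `i`.
`om_least`: `hZ.found` for `{n ∈ w : f (n)}`. `om_zero_or_suc`: induction. `zero_mem_suc`:
induction (or from `om_tri` and `om_trans`). `mem_max`: from `om_tri`, `om_trans`.
-/

namespace Pool.Agent.LibBc83

variable {M : Type} {E : M → M → Prop}

theorem om_induct (hZ : IsZF E) {w : M} (hw : Om E w) (f : Fm) (v : ℕ → M)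
    (h0 : ∀ z, Emp E z → Sat E f (cons z v))
    (hs : ∀ n m, E n w → Suc E m n → Sat E f (cons n v) → Sat E f (cons m v)) :
    ∀ n, E n w → Sat E f (cons n v) := by
  obtain ⟨b, hb⟩ := hZ.sep f v w
  have hI : Ind E b := by
    refine ⟨?_, fun x hx => ?_⟩
    · obtain ⟨z, hz, hzw⟩ := om_zero hw
      exact ⟨z, hz, (hb z).2 ⟨hzw, h0 z hz⟩⟩
    · obtain ⟨hxw, hxs⟩ := (hb x).1 hx
      obtain ⟨m, hm, hmw⟩ := om_suc hw hxw
      exact ⟨m, hm, (hb m).2 ⟨hmw, hs x m hxw hm hxs⟩⟩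
  intro n hn
  exact ((hb n).1 (hw.2 b hI n hn)).2

private theorem U1_ind (hZ : IsZF E) {w : M} (hw : Om E w) (P : M → Prop) (f : Fm) (v : ℕ → M)
    (hP : ∀ x, Sat E f (cons x v) ↔ P x) (h0 : ∀ z, Emp E z → P z)
    (hs : ∀ n m, E n w → Suc E m n → P n → P m) : ∀ n, E n w → P n := fun n hn =>
  (hP n).1 (om_induct hZ hw f v (fun z hz => (hP z).2 (h0 z hz))
    (fun n m hn hm h => (hP m).2 (hs n m hn hm ((hP n).1 h))) n hn)

private theorem U1_zero_le (hZ : IsZF E) {w o : M} (hw : Om E w) (ho : Emp E o) :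
    ∀ j, E j w → o = j ∨ E o j := by
  exact U1_ind hZ hw (fun j => o = j ∨ E o j) (.or (.eq 1 0) (.mem 1 0)) (fun _ => o)
    (fun x => by simp [cons]) (fun z hz => Or.inl (emp_uniq hZ ho hz))
    (fun n m hn hm ih => Or.inr ((hm o).2 (ih.elim Or.inr Or.inl)))

private theorem U1_suc_le (hZ : IsZF E) {w : M} (hw : Om E w) :
    ∀ j, E j w → ∀ i, E i j → ∀ i', Suc E i' i → E i' j ∨ i' = j := by
  exact U1_ind hZ hw (fun j => ∀ i, E i j → ∀ i', Suc E i' i → E i' j ∨ i' = j)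
    (.all (.imp (.mem 0 1) (.all (.imp (.suc 0 1) (.or (.mem 0 2) (.eq 0 2)))))) (fun _ => w)
    (fun x => by simp [cons]) (fun z hz i hi => absurd hi (hz i))
    (fun n m hn hm ih i hi i' hi' => by
      rcases (hm i).1 hi with h | h
      · rcases ih i h i' hi' with h' | h'
        · exact Or.inl ((hm i').2 (Or.inl h'))
        · exact Or.inl ((hm i').2 (Or.inr h'))
      · rw [h] at hi'
        exact Or.inr (suc_uniq hZ hi' hm))

theorem not_mem_self (hZ : IsZF E) (x : M) : ¬ E x x := by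
  intro hx
  obtain ⟨z, hz⟩ := hZ.pair x x
  obtain ⟨t, ht, hu⟩ := hZ.found z ⟨x, (hz x).2 (Or.inl rfl)⟩
  have htx : t = x := (hz t).1 ht |>.elim id id
  rw [htx] at hu
  exact hu x hx ((hz x).2 (Or.inl rfl))

theorem om_mem_trans (hZ : IsZF E) {w i j : M} (hw : Om E w) (hi : E i w) (hj : E j i) :
    E j w := by
  exact U1_ind hZ hw (fun i => ∀ j, E j i → E j w) (.all (.imp (.mem 0 1) (.mem 0 2))) (fun _ => w)
    (fun x => by simp [cons]) (fun z hz j hj => absurd hj (hz j))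
    (fun n m hn hm ih j hj => ((hm j).1 hj).elim (ih j) (fun h => h ▸ hn)) i hi j hj

theorem om_trans (hZ : IsZF E) {w i j k : M} (hw : Om E w) (hi : E i w) (hj : E j i)
    (hk : E k j) : E k i := by
  exact U1_ind hZ hw (fun i => ∀ j, E j i → ∀ k, E k j → E k i)
    (.all (.imp (.mem 0 1) (.all (.imp (.mem 0 1) (.mem 0 2))))) (fun _ => w)
    (fun x => by simp [cons]) (fun z hz j hj => absurd hj (hz j))
    (fun n m hn hm ih j hj k hk => (hm k).2 (Or.inl (((hm j).1 hj).elim (fun h => ih j h k hk)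
      (fun h => h ▸ hk)))) i hi j hj k hk

theorem om_tri (hZ : IsZF E) {w i j : M} (hw : Om E w) (hi : E i w) (hj : E j w) :
    E i j ∨ i = j ∨ E j i := by
  exact U1_ind hZ hw (fun i => E i j ∨ i = j ∨ E j i)
    (.or (.mem 0 1) (.or (.eq 0 1) (.mem 1 0))) (fun _ => j)
    (fun x => by simp [cons])
    (fun z hz => (U1_zero_le hZ hw hz j hj).elim (fun h => Or.inr (Or.inl h)) Or.inl)
    (fun n m hn hm ih => by
      rcases ih with h | h | h
      · rcases U1_suc_le hZ hw j hj n h m hm with h' | h'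
        · exact Or.inl h'
        · exact Or.inr (Or.inl h')
      · exact Or.inr (Or.inr ((hm j).2 (Or.inr h.symm)))
      · exact Or.inr (Or.inr ((hm j).2 (Or.inl h)))) i hi

theorem om_least (hZ : IsZF E) {w : M} (f : Fm) (v : ℕ → M)
    (h : ∃ n, E n w ∧ Sat E f (cons n v)) :
    ∃ n, E n w ∧ Sat E f (cons n v) ∧ ∀ m, E m w → Sat E f (cons m v) → ¬ E m n := by
  obtain ⟨b, hb⟩ := hZ.sep f v w
  obtain ⟨n, hn, hs⟩ := h
  obtain ⟨t, ht, hu⟩ := hZ.found b ⟨n, (hb n).2 ⟨hn, hs⟩⟩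
  obtain ⟨htw, hts⟩ := (hb t).1 ht
  exact ⟨t, htw, hts, fun m hm hms hmt => hu m hmt ((hb m).2 ⟨hm, hms⟩)⟩

theorem om_zero_or_suc (hZ : IsZF E) {w i : M} (hw : Om E w) (hi : E i w) :
    Emp E i ∨ ∃ j, E j w ∧ Suc E i j := by
  exact U1_ind hZ hw (fun i => Emp E i ∨ ∃ j, E j w ∧ Suc E i j)
    (.or (.emp 0) (.ex (.and (.mem 0 2) (.suc 1 0)))) (fun _ => w)
    (fun x => by simp [cons]) (fun z hz => Or.inl hz)
    (fun n m hn hm _ => Or.inr ⟨n, hn, hm⟩) i hi

theorem zero_mem_suc (hZ : IsZF E) {w o i j : M} (hw : Om E w) (ho : Emp E o) (hj : E j w)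
    (hi : Suc E i j) : E o i := by
  exact (hi o).2 ((U1_zero_le hZ hw ho j hj).elim Or.inr Or.inl)

/-- For two elements of `ω` there is a common upper bound in `ω`. -/
theorem mem_max (hZ : IsZF E) {w i j : M} (hw : Om E w) (hi : E i w) (hj : E j w) :
    ∃ n, E n w ∧ E i n ∧ E j n := by
  rcases om_tri hZ hw hi hj with h | h | h
  · obtain ⟨n, hn, hnw⟩ := om_suc hw hj
    exact ⟨n, hnw, (hn i).2 (Or.inl h), (hn j).2 (Or.inr rfl)⟩
  · obtain ⟨n, hn, hnw⟩ := om_suc hw hj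
    exact ⟨n, hnw, (hn i).2 (Or.inr h), (hn j).2 (Or.inr rfl)⟩
  · obtain ⟨n, hn, hnw⟩ := om_suc hw hi
    exact ⟨n, hnw, (hn i).2 (Or.inr rfl), (hn j).2 (Or.inl h)⟩

/-- The members of the successor of `i`. -/
theorem mem_suc_iff {i j m : M} (h : Suc E m i) : E j m ↔ E j i ∨ j = i := by
  exact h j

end Pool.Agent.LibBc83
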