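import Pool.Agent.LibBc83.U1

/-!
BC83 U2. The leftmost element of a closed set of reals, in an arbitrary model of ZF: uniqueness, and
approximations.

`LeftTo w D i y`: `y` is in `D`, and for `j ∈ i` the value `y (j)` is least among the values `x (j)`
of the `x ∈ D` which agree with `y` below `j` (least: no value is a member of `y (j)`).
Plan. `real_ext`: the members of a real are pairs of members of `w`. `leftTo_agr`: induction on `i`
with `om_induct` (write the formulas for `Agr`, `LeftTo`; or prove by `om_least` that there is no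
least `j ∈ i` at which `y` and `y'` differ: for such a `j` they agree below `j`, so both values are
least in the same set of values, and by `om_tri` two least values are equal). `leftTo_ex`: by
`om_induct`, with the formula `∃ y, LeftTo (i, y)`: for empty `i` each `y ∈ D`; for the successor
`i'` of `i`: let `y` be good for `i`; by `om_least` there is a least value `m` among the `x (i)`,
`x ∈ D`, `Agr i y x`; let `x` attain it; then `x` is good for `i'` (for `j ∈ i`, `x (j) = y (j)`,
and agreement with `x` below `j` is agreement with `y` below `j`; use `om_trans`).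
-/

namespace Pool.Agent.LibBc83

variable {M : Type} {E : M → M → Prop}

/-- `D` is a closed set of reals. -/
def ClosedIn (E : M → M → Prop) (w D : M) : Prop :=
  (∀ x, E x D → Real E w x) ∧
  ∀ z, Real E w z → (∀ n, E n w → ∃ y, E y D ∧ Agr E n z y) → E z D

/-- `y` is leftmost in `D` up to `i`. -/
def LeftTo (E : M → M → Prop) (D i y : M) : Prop :=
  E y D ∧ ∀ j, E j i → ∀ x, E x D → Agr E j y x → ∀ m m', Rel E y j m → Rel E x j m' → ¬ E m' m

/-- `z` is the leftmost element of `D`. -/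
def Left (E : M → M → Prop) (w D z : M) : Prop :=
  E z D ∧ ∀ j, E j w → ∀ x, E x D → Agr E j z x → ∀ m m', Rel E z j m → Rel E x j m' → ¬ E m' m

theorem real_ext (hZ : IsZF E) {w x y : M} (hx : Real E w x) (hy : Real E w y)
    (h : ∀ n, E n w → ∀ m, Rel E x n m ↔ Rel E y n m) : x = y := by
  have key : ∀ x y, Real E w x → (∀ n, E n w → ∀ m, Rel E x n m → Rel E y n m) →
      ∀ t, E t x → E t y := by
    intro x y hx h t ht
    obtain ⟨n, m, hn, _, hp⟩ := hx.1 t ht
    obtain ⟨q, hq, hqy⟩ := h n hn m ⟨t, hp, ht⟩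
    rw [op_uniq hZ hp hq]
    exact hqy
  exact hZ.ext x y fun t => ⟨key x y hx (fun n hn m => (h n hn m).1) t,
    key y x hy (fun n hn m => (h n hn m).2) t⟩

/-- The formula for `LeftTo`. -/
private def U2_leftTo (D i y : ℕ) : Fm :=
  .and (.mem y D) (.all (.imp (.mem 0 (i+1)) (.all (.imp (.mem 0 (D+2)) (.imp (.agr 1 (y+2) 0)
    (.all (.all (.imp (.rel (y+4) 3 1) (.imp (.rel 2 3 0) (.neg (.mem 0 1)))))))))))

private theorem U2_sat_leftTo (v : ℕ → M) (D i y : ℕ) :
    Sat E (U2_leftTo D i y) v ↔ LeftTo E (v D) (v i) (v y) := by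
  simp [U2_leftTo, LeftTo]

private theorem U2_agr_trans {n x y z : M} (h : Agr E n x y) (h' : Agr E n y z) :
    Agr E n x z := fun i hi m => (h i hi m).trans (h' i hi m)

theorem leftTo_agr (hZ : IsZF E) {w D i y y' : M} (hw : Om E w) (hD : ∀ x, E x D → Real E w x)
    (hi : E i w) (hy : LeftTo E D i y) (hy' : LeftTo E D i y') : Agr E i y y' := by
  by_contra hcon
  have h1 : ∃ n, E n w ∧ Sat E (.and (.mem 0 1) (.neg (.all (.iff (.rel 3 1 0) (.rel 4 1 0)))))
      (cons n (cons i (cons y (fun _ => y')))) := by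
    unfold Agr at hcon
    push Not at hcon
    obtain ⟨j, hj, hne⟩ := hcon
    refine ⟨j, om_mem_trans hZ hw hi hj, ?_⟩
    simp only [sat_and, sat_neg, sat_all, sat_iff, sat_rel, sat_mem, cons_zero, cons_succ]
    refine ⟨hj, fun hall => ?_⟩
    obtain ⟨m, hm⟩ := hne
    exact absurd (hall m) (by tauto)
  obtain ⟨j, hjw, hj, hmin⟩ := om_least hZ _ _ h1
  simp only [sat_and, sat_neg, sat_all, sat_iff, sat_rel, sat_mem, cons_zero, cons_succ] at hj hmin
  obtain ⟨hji, hne⟩ := hj
  have hag : Agr E j y y' := by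
    intro l hl
    by_contra hcon'
    exact hmin l (om_mem_trans hZ hw hjw hl) ⟨om_trans hZ hw hi hji hl, hcon'⟩ hl
  obtain ⟨m, hm⟩ := real_ex (hD y hy.1) hjw
  obtain ⟨m', hm'⟩ := real_ex (hD y' hy'.1) hjw
  have h2 : ¬ E m' m := hy.2 j hji y' hy'.1 hag m m' hm hm'
  have h3 : ¬ E m m' := hy'.2 j hji y hy.1 (agr_symm hag) m' m hm' hm
  have h4 : m = m' := by
    rcases om_tri hZ hw (real_mem hZ (hD y hy.1) hm).2 (real_mem hZ (hD y' hy'.1) hm').2 with
      h | h | h
    · exact absurd h h3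
    · exact h
    · exact absurd h h2
  subst h4
  refine hne fun a => ⟨fun h => ?_, fun h => ?_⟩
  · rw [real_uniq (hD y hy.1) hjw h hm]
    exact hm'
  · rw [real_uniq (hD y' hy'.1) hjw h hm']
    exact hm

theorem leftTo_ex (hZ : IsZF E) {w D : M} (hw : Om E w) (hD : ∀ x, E x D → Real E w x)
    (hne : ∃ x, E x D) : ∀ i, E i w → ∃ y, LeftTo E D i y := by
  have key : ∀ i, E i w → Sat E (.ex (U2_leftTo 2 1 0)) (cons i fun _ => D) := by
    refine om_induct hZ hw _ _ (fun z hz => ?_) (fun n m hn hm ih => ?_)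
    · obtain ⟨y, hy⟩ := hne
      rw [sat_ex]
      refine ⟨y, ?_⟩
      rw [U2_sat_leftTo]
      exact ⟨hy, fun j hj => absurd hj (hz j)⟩
    · rw [sat_ex] at ih ⊢
      obtain ⟨y, hy⟩ := ih
      rw [U2_sat_leftTo] at hy
      have hy' : LeftTo E D n y := hy
      have hyD : E y D := hy'.1
      have h1 : ∃ a, E a w ∧ Sat E (.ex (.and (.mem 0 2) (.and (.agr 3 4 0) (.rel 0 3 1))))
          (cons a (cons D (cons n (fun _ => y)))) := by
        obtain ⟨a, ha⟩ := real_ex (hD y hyD) hn
        refine ⟨a, (real_mem hZ (hD y hyD) ha).2, ?_⟩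
        simp only [sat_ex, sat_and, sat_agr, sat_rel, sat_mem, cons_zero, cons_succ]
        exact ⟨y, hyD, agr_refl n y, ha⟩
      obtain ⟨a, haw, ha, hmin⟩ := om_least hZ _ _ h1
      simp only [sat_ex, sat_and, sat_agr, sat_rel, sat_mem, cons_zero, cons_succ] at ha hmin
      obtain ⟨x, hxD, hyx, hxa⟩ := ha
      refine ⟨x, ?_⟩
      rw [U2_sat_leftTo]
      refine (show LeftTo E D m x from ⟨hxD, fun j hj x' hx' hag m1 m2 hm1 hm2 => ?_⟩)
      rcases (mem_suc_iff hm).1 hj with hjn | rfl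
      · refine hy'.2 j hjn x' hx' ?_ m1 m2 ((hyx j hjn m1).2 hm1) hm2
        intro l hl b
        exact (hyx l (om_trans hZ hw hn hjn hl) b).trans (hag l hl b)
      · rw [real_uniq (hD x hxD) hn hm1 hxa]
        exact hmin m2 (real_mem hZ (hD x' hx') hm2).2 ⟨x', hx', U2_agr_trans hyx hag, hm2⟩
  intro i hi
  have h2 := key i hi
  rw [sat_ex] at h2
  obtain ⟨y, hy⟩ := h2
  rw [U2_sat_leftTo] at hy
  exact ⟨y, hy⟩

theorem leftTo_mono (hZ : IsZF E) {w D i j y : M} (hw : Om E w) (hi : E i w) (hj : E j i)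
    (hy : LeftTo E D i y) : LeftTo E D j y := by
  exact ⟨hy.1, fun k hk => hy.2 k (om_trans hZ hw hi hj hk)⟩

theorem Left.leftTo (hZ : IsZF E) {w D i z : M} (hw : Om E w) (hi : E i w)
    (hz : Left E w D z) : LeftTo E D i z := by
  exact ⟨hz.1, fun j hj => hz.2 j (om_mem_trans hZ hw hi hj)⟩

theorem left_uniq (hZ : IsZF E) {w D z z' : M} (hw : Om E w) (hD : ∀ x, E x D → Real E w x)
    (hz : Left E w D z) (hz' : Left E w D z') : z = z' := by
  refine real_ext hZ (hD z hz.1) (hD z' hz'.1) fun n hn m => ?_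
  obtain ⟨n', hn', hn'w⟩ := om_suc hw hn
  exact leftTo_agr hZ hw hD hn'w (Left.leftTo hZ hw hn'w hz) (Left.leftTo hZ hw hn'w hz') n
    (suc_self hn') m

end Pool.Agent.LibBc83
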