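import Pool.Agent.LibBc83.U2

/-!
BC83 U3. Each nonempty closed set of reals has a leftmost element.

Plan. By `exists_seq` there is the sequence `z` with: `z (i) = m` iff there is `y` with
`LeftTo E D i' y` for the successor `i'` of `i`, and `Rel y i m` (write the formula; existence of
`y` by `leftTo_ex`, uniqueness of `m` by `leftTo_agr`, `i ∈ i'`, `real_uniq`). `z` is a real
(`exists_seq` says that the members of `z` are pairs; the values are in `w`, `real_mem`). For
`i ∈ w` and `y` with `LeftTo E D i y`: `Agr i z y` (for `j ∈ i` let `j'` be the successor of `j`,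
`j' = i` or `j' ∈ i` (`om_tri`, `om_trans`, `not_mem_self`), so `LeftTo E D j' y` by
`leftTo_mono`). So `z` is in the closed set `D`. It is leftmost: for `j ∈ w` take `y` which is good
for the successor `j'` of `j`; `Agr j' z y`.
-/

namespace Pool.Agent.LibBc83

variable {M : Type} {E : M → M → Prop}

private def U3_left (D i y : ℕ) : Fm :=
  .and (.mem y D) (.all (.imp (.mem 0 (i + 1)) (.all (.imp (.mem 0 (D + 2))
    (.imp (.agr 1 (y + 2) 0) (.all (.all (.imp (.rel (y + 4) 3 1) (.imp (.rel 2 3 0)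
      (.neg (.mem 0 1)))))))))))

private theorem U3_sat_left (D i y : ℕ) (v : ℕ → M) :
    Sat E (U3_left D i y) v ↔ LeftTo E (v D) (v i) (v y) := by
  simp [U3_left, LeftTo]

private def U3_fm : Fm := .ex (.and (.suc 0 1) (.ex (.and (U3_left 4 1 0) (.rel 0 2 3))))

private theorem U3_sat (i m : M) (v : ℕ → M) : Sat E U3_fm (cons i (cons m v)) ↔
    ∃ i', Suc E i' i ∧ ∃ y, LeftTo E (v 0) i' y ∧ Rel E y i m := by
  unfold U3_fm
  rw [sat_ex]
  refine exists_congr fun i' => ?_
  rw [sat_and, sat_suc, sat_ex]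
  refine and_congr Iff.rfl (exists_congr fun y => ?_)
  rw [sat_and, U3_sat_left, sat_rel]
  rfl

theorem left_ex (hZ : IsZF E) {w D : M} (hw : Om E w) (hD : ClosedIn E w D)
    (hne : ∃ x, E x D) : ∃ z, Left E w D z := by
  have hR := hD.1
  have hex : ∀ n, E n w → ∃ z, ∀ z', Sat E U3_fm (cons n (cons z' fun _ => D)) ↔ z' = z := by
    intro n hn
    obtain ⟨n', hn', hn'w⟩ := om_suc hw hn
    obtain ⟨y, hy⟩ := leftTo_ex hZ hw hR hne n' hn'w
    obtain ⟨m, hm⟩ := real_ex (hR y hy.1) hn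
    refine ⟨m, fun z' => ?_⟩
    rw [U3_sat]
    constructor
    · rintro ⟨i', hi', y', hy', hz'⟩
      have h1 : i' = n' := suc_uniq hZ hi' hn'
      rw [h1] at hy'
      have h2 := leftTo_agr hZ hw hR hn'w hy hy' n (suc_self hn') z'
      exact real_uniq (hR y hy.1) hn (h2.2 hz') hm
    · rintro rfl
      exact ⟨n', hn', y, hy, hm⟩
  obtain ⟨g, hg1, hg2, hg3⟩ := exists_seq hZ U3_fm (fun _ => D) hex
  have hrel : ∀ n m, E n w → (Rel E g n m ↔ ∃ i', Suc E i' n ∧ ∃ y, LeftTo E D i' y ∧ Rel E y n m) :=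
    fun n m hn => (hg3 n m hn).trans (U3_sat n m _)
  have hA : ∀ j j' y m, E j w → Suc E j' j → E j' w → LeftTo E D j' y →
      (Rel E g j m ↔ Rel E y j m) := by
    intro j j' y m hj hj' hj'w hy
    rw [hrel j m hj]
    constructor
    · rintro ⟨i', hi', y', hy', hm⟩
      have h1 : i' = j' := suc_uniq hZ hi' hj'
      rw [h1] at hy'
      exact (leftTo_agr hZ hw hR hj'w hy hy' j (suc_self hj') m).2 hm
    · intro hm
      exact ⟨j', hj', y, hy, hm⟩
  have hB : ∀ n y, E n w → LeftTo E D n y → Agr E n g y := by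
    intro n y hn hy j hj m
    have hjw : E j w := om_mem_trans hZ hw hn hj
    obtain ⟨j', hj', hj'w⟩ := om_suc hw hjw
    refine hA j j' y m hjw hj' hj'w ?_
    rcases om_tri hZ hw hj'w hn with h | h | h
    · exact leftTo_mono hZ hw hn h hy
    · rw [h]
      exact hy
    · exfalso
      rcases (mem_suc_iff hj').1 h with h1 | h1
      · exact not_mem_self hZ j (om_trans hZ hw hjw h1 hj)
      · rw [h1] at hj
        exact not_mem_self hZ j hj
  have hgR : Real E w g := by
    refine ⟨fun p hp => ?_, hg1⟩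
    obtain ⟨n, m, hn, hpn⟩ := hg2 p hp
    obtain ⟨i', hi', y, hy, hm⟩ := (hrel n m hn).1 ⟨p, hpn, hp⟩
    exact ⟨n, m, hn, (real_mem hZ (hR y hy.1) hm).2, hpn⟩
  have hgD : E g D := by
    refine hD.2 g hgR fun n hn => ?_
    obtain ⟨y, hy⟩ := leftTo_ex hZ hw hR hne n hn
    exact ⟨y, hy.1, hB n y hn hy⟩
  refine ⟨g, hgD, fun j hj x hx hgx m m' hm hm' => ?_⟩
  obtain ⟨j', hj', hj'w⟩ := om_suc hw hj
  obtain ⟨y, hy⟩ := leftTo_ex hZ hw hR hne j' hj'w
  have h1 := hB j' y hj'w hy
  have h2 : Agr E j y x := by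
    intro i hi m
    have h3 : E i j' := (mem_suc_iff hj').2 (Or.inl hi)
    exact ((h1 i h3 m).symm).trans (hgx i hi m)
  exact hy.2 j (suc_self hj') x hx h2 m m' ((hA j j' y m hj hj' hj'w hy).1 hm) hm'

end Pool.Agent.LibBc83
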