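import Pool.Agent.LibBc83.V0
import Pool.Agent.LibBc83.U1
import Pool.Agent.LibBc83.T6

/-!
BC83 V1. The set of the reals which are not coded by `y`: it is not empty, and it is in `Π⁰₂`.

Plan. `dg_ne`: diagonalization: by `exists_seq` there is `z` with: `z (k) = l` iff there are `m`, `l'`
with `J (k, k) = m`, `y (m) = l'`, `Suc l l'` (formula; `hJ`, `real_ex`, `real_uniq`, `om_suc`,
`suc_uniq`); it is a real. If `z` were the `j`-th real coded by `y` then for `k = j`: the value `l`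
of `z` at `j` is the value `l'` of `y` at `J (j, j)`, and `Suc l l'`, so `l' ∈ l' `: contradiction with
`not_mem_self`. `is_closed`: if `z` is not the `j`-th real coded by `y` there are `k, m, l` with
`J (j, k) = m` and not `Rel z k l ↔ Rel y m l`; take the successor of `k`. `pi2_dg`: `pi2_ex` with
the formula for `Is` (variables `0 = z`, `1 = i`, `2 = j` (not used), then `y, J, w`), and
`hZ.ext`. `sig3_of_pi2`: constant sequence, as in T7. -/

namespace Pool.Agent.LibBc83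

variable {M : Type} {E : M → M → Prop}

theorem dg_ne (hZ : IsZF E) {w J y C : M} (hw : Om E w) (hJ : IsJ E w J) (hy : Real E w y)
    (hC : Dg E w J y C) : ∃ z, E z C := by
  have hS : ∀ k l, Sat E (.ex (.ex (.and (.rel3 5 2 2 1) (.and (.rel 4 1 0) (.suc 3 0)))))
      (cons k (cons l (cons y (cons J (fun _ => w))))) ↔
      ∃ m l', Rel3 E J k k m ∧ Rel E y m l' ∧ Suc E l l' := by
    intro k l
    simp only [sat_ex, sat_and, sat_rel3, sat_rel, sat_suc, cons]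
  have hval : ∀ k, E k w → ∃ m0 l0 l1, E l1 w ∧ Rel3 E J k k m0 ∧ Rel E y m0 l0 ∧ Suc E l1 l0 ∧
      (∀ m, Rel3 E J k k m → m = m0) ∧ (∀ l, Rel E y m0 l → l = l0) := by
    intro k hk
    obtain ⟨m0, hm0, hJ0⟩ := hJ k k hk hk
    obtain ⟨l0, hl0⟩ := real_ex hy hm0
    obtain ⟨l1, hl1, hl1w⟩ := om_suc hw (real_mem hZ hy hl0).2
    exact ⟨m0, l0, l1, hl1w, (hJ0 m0).2 rfl, hl0, hl1, fun m hm => (hJ0 m).1 hm,
      fun l hl => real_uniq hy hm0 hl hl0⟩
  obtain ⟨g, hg1, hg2, hg3⟩ := exists_seq hZ (w := w)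
    (.ex (.ex (.and (.rel3 5 2 2 1) (.and (.rel 4 1 0) (.suc 3 0)))))
    (cons y (cons J (fun _ => w))) (by
    intro k hk
    obtain ⟨m0, l0, l1, hl1w, hm0, hl0, hl1, hum, hul⟩ := hval k hk
    refine ⟨l1, fun l' => ?_⟩
    rw [hS]
    constructor
    · rintro ⟨m, l2, h1, h2, h3⟩
      rw [hum m h1] at h2
      rw [hul l2 h2] at h3
      exact suc_uniq hZ h3 hl1
    · rintro rfl
      exact ⟨m0, l0, hm0, hl0, hl1⟩)
  have hg4 : ∀ k l, E k w → (Rel E g k l ↔ ∃ m l', Rel3 E J k k m ∧ Rel E y m l' ∧ Suc E l l') :=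
    fun k l hk => (hg3 k l hk).trans (hS k l)
  have hreal : Real E w g := by
    refine ⟨fun p hp => ?_, hg1⟩
    obtain ⟨n, z, hn, hz⟩ := hg2 p hp
    refine ⟨n, z, hn, ?_, hz⟩
    obtain ⟨m, l2, h1, h2, h3⟩ := (hg4 n z hn).1 ⟨p, hz, hp⟩
    obtain ⟨m0, l0, l1, hl1w, hm0, hl0, hl1, hum, hul⟩ := hval n hn
    rw [hum m h1] at h2
    rw [hul l2 h2] at h3
    rw [suc_uniq hZ h3 hl1]
    exact hl1w
  refine ⟨g, (hC g).2 ⟨hreal, fun j hj hIs => ?_⟩⟩
  obtain ⟨m0, l0, l1, hl1w, hm0, hl0, hl1, hum, hul⟩ := hval j hj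
  have h1 : Rel E g j l1 := (hg4 j l1 hj).2 ⟨m0, l0, hm0, hl0, hl1⟩
  have h2 : Rel E y m0 l1 := (hIs j hj m0 hm0 l1).1 h1
  have h3 : l1 = l0 := hul l1 h2
  have h4 : E l0 l1 := suc_self hl1
  rw [h3] at h4
  exact not_mem_self hZ l0 h4

theorem is_closed {w J z y j : M} (hw : Om E w) (h : ¬ Is E w J z y j) :
    ∃ n, E n w ∧ ∀ z', Agr E n z z' → ¬ Is E w J z' y j := by
  unfold Is at h
  push Not at h
  obtain ⟨k, hk, m, hm, l, hl⟩ := h
  obtain ⟨n, hn1, hn2⟩ := om_suc hw hk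
  refine ⟨n, hn2, fun z' hagr hE => ?_⟩
  have h1 : Rel E z k l ↔ Rel E z' k l := hagr k (suc_self hn1) l
  have h2 : Rel E z' k l ↔ Rel E y m l := hE k hk m hm l
  have h3 : Rel E z k l ↔ Rel E y m l := h1.trans h2
  tauto

theorem pi2_dg (hZ : IsZF E) {w R J y C : M} (hw : Om E w) (hR : ∀ x, E x R ↔ Real E w x)
    (hC : Dg E w J y C) : PiUpTo E w 2 C := by
  obtain ⟨W, hW1, hW2⟩ := pi2_ex hZ (j := w) hw hR (.is 5 4 0 3 1)
    (cons y (cons J (fun _ => w))) (by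
    intro i z hi hz hn
    simp only [sat_is, cons_zero, cons_succ] at hn ⊢
    obtain ⟨n, hn1, hn2⟩ := is_closed hw hn
    exact ⟨n, hn1, fun z' _ hagr => hn2 z' hagr⟩)
  have h1 : C = W := by
    refine hZ.ext _ _ fun z => ?_
    rw [hW1]
    simp only [sat_is, cons_zero, cons_succ]
    exact hC z
  rw [h1]
  exact hW2

theorem sig3_of_pi2 (hZ : IsZF E) {w C : M} (hw : Om E w) (hC : PiUpTo E w 2 C) :
    Sig E 3 w C := by
  obtain ⟨g, hg, _, hg2⟩ := exists_seq hZ (w := w) (.eq 1 2) (cons C (fun _ => C))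
    (fun n _ => ⟨C, fun z' => Iff.rfl⟩)
  have hg3 : ∀ n z, E n w → (Rel E g n z ↔ z = C) := fun n z hn => hg2 n z hn
  obtain ⟨o, _, ho⟩ := om_zero hw
  refine ⟨g, hg, ?_, ?_⟩
  · intro n z hn hz
    rw [(hg3 n z hn).1 hz]
    exact hC
  · intro x
    constructor
    · intro hx
      exact ⟨o, C, ho, (hg3 o C ho).2 rfl, hx⟩
    · rintro ⟨n, z, hn, hz, hx⟩
      rw [(hg3 n z hn).1 hz] at hx
      exact hx

end Pool.Agent.LibBc83
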