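import Pool.Agent.LibBc83.V1
import Pool.Agent.LibBc83.T9

/-!
BC83 V2. The set of the `n⌢x`, `x ∈ C`, for the set `C` of the reals which are not coded by `y`.

`Is' n z y j`: `z (0) = n` implies that `z` without its first value is the `j`-th real coded by `y`.
Plan. `prep_iff'`: as `prep_iff` in T9, with `tail_ex`: `∀ j ∈ w, ¬ Is'` says that `z (0) = n`
(`w` is not empty) and that the tail of `z` is not coded by `y`. `pi2_prep`: `pi2_ex` with the formula for
`Is'`; closedness: if `Is'` fails for `z` then `z (0) = n` and there are `k, m, l, k'` with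
`J (j, k) = m`, `Suc k' k` and not `Rel z k' l ↔ Rel y m l`; take `n'` which contains the empty set
and `k'` (`mem_max`): a real `z'` which agrees with `z` below `n'` has `z' (0) = n` and the same
value at `k'`.
-/

namespace Pool.Agent.LibBc83

variable {M : Type} {E : M → M → Prop}

def Is' (E : M → M → Prop) (w J n z y j : M) : Prop :=
  (∀ o, Emp E o → Rel E z o n) →
    ∀ k, E k w → ∀ m, Rel3 E J j k m → ∀ k', Suc E k' k → ∀ l, Rel E z k' l ↔ Rel E y m l

theorem prep_iff' (hZ : IsZF E) {w J n y C : M} (hw : Om E w) (hn : E n w) (hJ : IsJ E w J)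
    (hC : Dg E w J y C) (z : M) :
    (∃ x, E x C ∧ Prep E w n x z) ↔ Real E w z ∧ ∀ j, E j w → ¬ Is' E w J n z y j := by
  constructor
  · rintro ⟨x, hx, hz, h0, h1⟩
    obtain ⟨hxr, hx'⟩ := (hC x).1 hx
    refine ⟨hz, fun j hj hIs' => hx' j hj ?_⟩
    intro k hk m hm l
    obtain ⟨k', hk', hk'w⟩ := om_suc hw hk
    rw [← hIs' h0 k hk m hm k' hk' l]
    constructor
    · exact h1 k k' l hk hk'
    · intro h
      obtain ⟨l₀, hl₀⟩ := real_ex hxr hk
      rw [real_uniq hz hk'w h (h1 k k' l₀ hk hk' hl₀)]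
      exact hl₀
  · rintro ⟨hz, h⟩
    obtain ⟨o, -, how⟩ := om_zero hw
    have h0 : ∀ o, Emp E o → Rel E z o n := by
      by_contra hcon
      exact h o how fun hA => absurd hA hcon
    obtain ⟨x, hxr, hx⟩ := tail_ex hZ hw hz
    refine ⟨x, (hC x).2 ⟨hxr, fun j hj hIs => h j hj ?_⟩, hz, h0, fun l l' m hl hl' hm =>
      (hx l l' hl hl' m).1 hm⟩
    intro _ k hk m hm k' hk' l
    rw [← hx k k' hk hk' l]
    exact hIs k hk m hm l

/-- The formula for `Is'`. -/
private def V2_fm (w J n z y j : ℕ) : Fm :=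
  .imp (.all (.imp (.emp 0) (.rel (z+1) 0 (n+1))))
    (.all (.imp (.mem 0 (w+1)) (.all (.imp (.rel3 (J+2) (j+2) 1 0)
      (.all (.imp (.suc 0 2) (.all (.iff (.rel (z+4) 1 0) (.rel (y+4) 2 0)))))))))

private theorem V2_sat (v : ℕ → M) (w J n z y j : ℕ) :
    Sat E (V2_fm w J n z y j) v ↔
      Is' E (v w) (v J) (v n) (v z) (v y) (v j) := by
  simp [V2_fm, Is']

private theorem V2_closed (hZ : IsZF E) {w J n z y j : M} (hw : Om E w)
    (h : ¬ Is' E w J n z y j) :
    ∃ p, E p w ∧ ∀ z', Real E w z' → Agr E p z z' → ¬ Is' E w J n z' y j := by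
  unfold Is' at h
  push Not at h
  obtain ⟨h0, k, hk, m, hm, k', hk', l, hl⟩ := h
  obtain ⟨o, ho, how⟩ := om_zero hw
  obtain ⟨k2, hk2, hk2w⟩ := om_suc hw hk
  have hk'w : E k' w := by
    rw [suc_uniq hZ hk' hk2]
    exact hk2w
  obtain ⟨p, hpw, hop, hkp⟩ := mem_max hZ hw how hk'w
  refine ⟨p, hpw, fun z' _ hag hIs => ?_⟩
  have h1 : ∀ o', Emp E o' → Rel E z' o' n := by
    intro o' ho'
    rw [emp_uniq hZ ho' ho]
    exact (hag o hop n).1 (h0 o ho)
  have h2 := hIs h1 k hk m hm k' hk' l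
  have h3 := hag k' hkp l
  tauto

theorem pi2_prep (hZ : IsZF E) {w R J n y P : M} (hw : Om E w) (hR : ∀ x, E x R ↔ Real E w x)
    (hP : ∀ z, E z P ↔ Real E w z ∧ ∀ j, E j w → ¬ Is' E w J n z y j) : PiUpTo E w 2 P := by
  obtain ⟨W, hW, hW2⟩ := pi2_ex hZ (j := w) hw hR (V2_fm 6 4 5 0 3 1)
    (cons y (cons J (cons n (fun _ => w)))) (by
      intro i z hi hz h
      rw [V2_sat] at h
      obtain ⟨p, hp, hp'⟩ := V2_closed hZ hw h
      refine ⟨p, hp, fun z' hz' hag => ?_⟩
      rw [V2_sat]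
      exact hp' z' hz' hag)
  have hPW : P = W := by
    refine hZ.ext _ _ fun z => ?_
    rw [hP, hW]
    refine and_congr_right fun _ => forall_congr' fun i => imp_congr_right fun _ =>
      not_congr ?_
    rw [V2_sat]
    exact Iff.rfl
  rw [hPW]
  exact hW2

end Pool.Agent.LibBc83
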