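import Pool.Agent.LibBc83.P3
import Pool.Agent.LibBc83.RF
import Pool.Agent.LibBc83.KD
import Pool.Agent.LibBc83.MA

/-!
Homogeneity for supports such that only finite sets can be moved; the second system of coordinates:
for each `n` one generic function from `ω` to `K2 n`, and the permutations of its arguments.
-/

namespace Pool.Agent.LibBc83

open Pool.Agent.LibTk83 SM

section

variable {G C V : Type} {ok : C → V → Prop} [Group G] [MulAction G C] {𝓢 : Set (Set C)}

/-- The family of the supports. -/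
structure SuppsW (G : Type) {C : Type} [Group G] [MulAction G C] (𝓢 : Set (Set C)) : Prop where
  ne : 𝓢.Nonempty
  union : ∀ S ∈ 𝓢, ∀ T ∈ 𝓢, S ∪ T ∈ 𝓢
  trans : ∀ S ∈ 𝓢, ∀ g : G, (fun c => g • c) '' S ∈ 𝓢
  move : ∀ S₀ ∈ 𝓢, ∀ A D : Set C, A.Finite → D.Finite →
    ∃ g : G, g ∈ fixS G S₀ ∧ ∀ c ∈ A, c ∉ S₀ → g • c ∉ D

theorem isFam_famOfW (h : SuppsW G 𝓢) : IsFam (famOf G 𝓢) where
  ne := h.ne.image _
  inv := by
    rintro _ ⟨S, hS, rfl⟩ g hg c hc
    rw [inv_smul_eq_iff]
    exact (hg c hc).symm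
  dir := by
    rintro _ ⟨S, hS, rfl⟩ _ ⟨T, hT, rfl⟩
    exact ⟨fixS G (S ∪ T), ⟨S ∪ T, h.union S hS T hT, rfl⟩, fun g hg =>
      ⟨fun c hc => hg c (Or.inl hc), fun c hc => hg c (Or.inr hc)⟩⟩
  conj := by
    rintro _ ⟨S, hS, rfl⟩ g
    refine ⟨fixS G ((fun c => g • c) '' S), ⟨_, h.trans S hS g, rfl⟩, fun k hk c hc => ?_⟩
    have h1 : k • g • c = g • c := hk (g • c) ⟨c, hc, rfl⟩
    rw [mul_smul, mul_smul, h1, inv_smul_smul]

variable [OkAct G C ok]

theorem dep_of_invW (h𝓢 : SuppsW G 𝓢) {S : Set C} (hS : S ∈ 𝓢) {b : RO (Cond C V ok)}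
    (h : ∀ g ∈ fixS G S, g • b = b) : Dep S b := by
  intro p hp
  refine RO.mem_of_dense fun q hq => ?_
  obtain ⟨g, hg, hmove⟩ := h𝓢.move S hS p.dom q.dom p.dom_finite q.dom_finite
  have h1 : g • p ∈ b := by
    rw [← h g hg, mem_smul, inv_smul_smul]
    exact hp
  have h2 : Cond.Comp (g • p) q := by
    refine comp_smul hg (fun c v w hv hw => ?_) (fun c hc hcS hcq => ?_)
    · have h3 := hq c v hv
      rw [hw] at h3
      exact (Option.some.inj h3).symm
    · exact hmove c hc hcS hcq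
  exact ⟨Cond.union (g • p) q, Cond.union_le_right h2, RO.mem_of_le (Cond.union_le_left _ _) h1⟩

end

/-- `K2 0` is the power set of `ω`, and `K2 (n + 1)` is the power set of `K2 n`. -/
def K2 : ℕ → Type
  | 0 => Set ℕ
  | n + 1 => Set (K2 n)

/-- The coordinates: the argument `pos` of the generic function number `row`. -/
structure Crd2 where
  row : ℕ
  pos : ℕ

/-- The values. -/
abbrev Vl2 : Type := Σ n, K2 n

def ok2 (c : Crd2) (v : Vl2) : Prop := v.1 = c.row

instance : MulAction Gp Crd2 where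
  smul g c := ⟨c.row, g c.row c.pos⟩
  one_smul := fun _ => rfl
  mul_smul := fun _ _ _ => rfl

theorem smul_crd2 (g : Gp) (n k : ℕ) : g • (⟨n, k⟩ : Crd2) = ⟨n, g n k⟩ := rfl

/-- The coordinates in the rows before `n`. -/
def sup2 (n : ℕ) : Set Crd2 := {c | c.row < n}

/-- The supports. -/
def fam2 : Set (Set Crd2) := Set.range sup2

/-- The conditions. -/
abbrev PC2 : Type := Cond Crd2 Vl2 ok2

/-- The truth value of: the value of the generic function number `n` at `k` is `a`. -/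
def hit2 (n k : ℕ) (a : K2 n) : RO PC2 := RO.gen {p | p.f ⟨n, k⟩ = some ⟨n, a⟩}

/-- The names of the reals which depend only on the rows before `n`. -/
def NX2 (n : ℕ) : Type := {x : ℕ → ℕ → RO PC2 // (∀ k l, Dep (sup2 n) (x k l)) ∧ realV x = ⊤}

/-- The truth value of: the functions `x` and `y` are equal. -/
noncomputable def eqF {B : Type} [CompleteBooleanAlgebra B] (x y : ℕ → ℕ → B) : B :=
  ⨅ k, ⨅ l, (x k l ⇨ y k l) ⊓ (y k l ⇨ x k l)

/-- The truth value of: `x` is the `j`-th real coded by `y`. -/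
noncomputable def isj {B : Type} [CompleteBooleanAlgebra B] (x y : ℕ → ℕ → B) (j : ℕ) : B :=
  ⨅ k, ⨅ l, (x k l ⇨ y (Nat.pair j k) l) ⊓ (y (Nat.pair j k) l ⇨ x k l)

/-- The truth value of: `x` is not in the model given by the rows before `n`. -/
noncomputable def nin (n : ℕ) (x : ℕ → ℕ → RO PC2) : RO PC2 := ⨅ z : NX2 n, (eqF x z.1)ᶜ

end Pool.Agent.LibBc83
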