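import Pool.Agent.LibBc83.W0

/-!
BC83 W1. The second system of coordinates has the required properties; the truth values `hit2`.

Plan. `suppsW2`: `sup2 m ∪ sup2 n = sup2 (max m n)`; the image of `sup2 n` under `g` is `sup2 n`
(`g` keeps the rows); `move`: let `N` be larger than all positions which occur in `A ∪ D`; `g n`
is the identity for the rows `< n₀` (where `S₀ = sup2 n₀`), and for the other rows it exchanges
`k` and `k + N` for `k < N` and fixes the other numbers (an involution,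
`Function.Involutive.toPerm`); then `g • c ∉ D` for `c ∈ A` in the rows `≥ n₀`.
The facts on `hit2` as in KB: the set in the definition is a lower set; extend a condition by
`Cond.single`. `eqF_comm`, `eqF_trans`, `eqF_smul` are immediate (`smul_iInf'`, `smul_inf'`,
`smul_himp'`).
-/

namespace Pool.Agent.LibBc83

open Pool.Agent.LibTk83 SM

instance okAct2 : OkAct Gp Crd2 ok2 where
  ok_smul := by
    intro g c v h
    exact h

private theorem W1_union (m n : ℕ) : sup2 m ∪ sup2 n = sup2 (max m n) := by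
  ext c
  simp only [sup2, Set.mem_union, Set.mem_ofPred_eq, lt_max_iff]

private theorem W1_trans (g : Gp) (n : ℕ) : (fun c => g • c) '' sup2 n = sup2 n := by
  ext c
  constructor
  · rintro ⟨d, hd, rfl⟩
    exact hd
  · intro hc
    exact ⟨g⁻¹ • c, hc, smul_inv_smul g c⟩

/-- The involution which exchanges `k` and `k + N` for `k < N`. -/
private def W1_h (N x : ℕ) : ℕ :=
  if x < N then x + N else if x < N + N then x - N else x

private theorem W1_inv (N : ℕ) : Function.Involutive (W1_h N) := by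
  intro x
  unfold W1_h
  split_ifs <;> omega

theorem suppsW2 : SuppsW Gp fam2 := by
  refine ⟨⟨sup2 0, 0, rfl⟩, ?_, ?_, ?_⟩
  · rintro _ ⟨m, rfl⟩ _ ⟨n, rfl⟩
    exact ⟨max m n, (W1_union m n).symm⟩
  · rintro _ ⟨n, rfl⟩ g
    exact ⟨n, (W1_trans g n).symm⟩
  · rintro _ ⟨n₀, rfl⟩ A D hA hD
    obtain ⟨B, hB⟩ := (((hA.union hD).image Crd2.pos)).bddAbove
    have hb : ∀ c ∈ A ∪ D, c.pos < B + 1 := by
      intro c hc
      have h1 : c.pos ≤ B := hB ⟨c, hc, rfl⟩
      omega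
    classical
    refine ⟨fun n => if n < n₀ then 1 else (W1_inv (B + 1)).toPerm, ?_, ?_⟩
    · rintro ⟨n, k⟩ hc
      have hn : n < n₀ := hc
      rw [smul_crd2, if_pos hn]
      rfl
    · rintro ⟨n, k⟩ hc hc' hd
      have hn : ¬ n < n₀ := hc'
      rw [smul_crd2, if_neg hn, Function.Involutive.coe_toPerm] at hd
      have h1 : k < B + 1 := hb _ (Or.inl hc)
      have h2 := hb _ (Or.inr hd)
      change W1_h (B + 1) k < B + 1 at h2
      unfold W1_h at h2
      rw [if_pos h1] at h2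
      omega

theorem K2_nonempty (n : ℕ) : Nonempty (K2 n) := by
  cases n with
  | zero => exact ⟨(∅ : Set ℕ)⟩
  | succ n => exact ⟨(∅ : Set (K2 n))⟩

private theorem W1_ext {p : PC2} {c : Crd2} {v : Vl2} (h : ok2 c v) (hn : p.f c = none) :
    ∃ q, q ≤ p ∧ q.f c = some v := by
  have hc : Cond.Comp p (Cond.single c v h) := by
    apply Cond.comp_of_disj
    intro d hd hd'
    rw [Cond.dom_single, Set.mem_singleton_iff] at hd'
    rw [hd'] at hd
    exact hd hn
  exact ⟨Cond.union p (Cond.single c v h), Cond.union_le_left _ _,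
    Cond.union_le_right hc c v (Cond.single_f_self h)⟩

theorem mem_hit2_of {n k : ℕ} {a : K2 n} {p : PC2} (h : p.f ⟨n, k⟩ = some ⟨n, a⟩) :
    p ∈ hit2 n k a := by
  unfold hit2
  rw [RO.mem_gen]
  exact fun q hq => ⟨q, le_rfl, p, h, hq⟩

private theorem W1_dec (p : PC2) (n k : ℕ) :
    ∃ q, q ≤ p ∧ ∃ a : K2 n, q.f ⟨n, k⟩ = some ⟨n, a⟩ := by
  rcases hp : p.f ⟨n, k⟩ with _ | v
  · obtain ⟨a⟩ := K2_nonempty n
    obtain ⟨q, hq, hqv⟩ := W1_ext (p := p) (c := ⟨n, k⟩) (v := ⟨n, a⟩) rfl hp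
    exact ⟨q, hq, a, hqv⟩
  · obtain ⟨m, a⟩ := v
    have h : m = n := p.ok' _ _ hp
    subst h
    exact ⟨p, le_rfl, a, hp⟩

private theorem W1_val {n k : ℕ} {a : K2 n} {p : PC2} (h : p ∈ hit2 n k a) {q : PC2}
    (hq : q ≤ p) {b : K2 n} (hb : q.f ⟨n, k⟩ = some ⟨n, b⟩) : b = a := by
  have h1 := RO.mem_of_le hq h
  unfold hit2 at h1
  rw [RO.mem_gen] at h1
  obtain ⟨r, hr, s, hs, hrs⟩ := h1 q le_rfl
  have h2 := hr _ _ hb
  have h3 := hrs _ _ hs
  rw [h2] at h3
  have h4 := Option.some.inj h3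
  simpa using h4

theorem hit2_total (n k : ℕ) : ⨆ a, hit2 n k a = ⊤ := by
  rw [RO.eq_top_iff']
  intro p
  obtain ⟨q, hq, a, ha⟩ := W1_dec p n k
  exact ⟨q, hq, le_iSup (hit2 n k) a (mem_hit2_of ha)⟩

theorem hit2_disj (n k : ℕ) (a b : K2 n) (h : a ≠ b) : hit2 n k a ⊓ hit2 n k b = ⊥ := by
  refine le_bot_iff.1 fun p hp => ?_
  rw [RO.mem_inf] at hp
  obtain ⟨q, hq, c, hc⟩ := W1_dec p n k
  exact absurd ((W1_val hp.1 hq hc).symm.trans (W1_val hp.2 hq hc)) h

theorem hit2_surj (n : ℕ) (a : K2 n) : ⨆ k, hit2 n k a = ⊤ := by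
  rw [RO.eq_top_iff']
  intro p
  obtain ⟨k, hk⟩ : ∃ k, p.f ⟨n, k⟩ = none := by
    by_contra hcon
    push Not at hcon
    have hinj : Function.Injective (fun k : ℕ => (⟨n, k⟩ : Crd2)) := by
      intro k k' h
      exact congrArg Crd2.pos h
    exact (Set.infinite_of_injective_forall_mem hinj hcon) p.fin
  obtain ⟨q, hq, hqv⟩ := W1_ext (p := p) (c := ⟨n, k⟩) (v := ⟨n, a⟩) rfl hk
  exact ⟨q, hq, le_iSup (fun k => hit2 n k a) k (mem_hit2_of hqv)⟩

theorem dep_hit2 (n k : ℕ) (a : K2 n) : Dep (sup2 (n + 1)) (hit2 n k a) := by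
  intro p hp
  refine RO.mem_of_dense fun q hq => ?_
  obtain ⟨r, hr, b, hb⟩ := W1_dec q n k
  have hmem : (⟨n, k⟩ : Crd2) ∈ sup2 (n + 1) := Nat.lt_succ_self n
  by_cases hab : b = a
  · subst hab
    exact ⟨r, hr, mem_hit2_of hb⟩
  · exfalso
    rcases hpc : p.f ⟨n, k⟩ with _ | v
    · obtain ⟨s, hs, hsv⟩ := W1_ext (p := p) (c := ⟨n, k⟩) (v := ⟨n, b⟩) rfl hpc
      exact hab (W1_val hp hs hsv)
    · have h1 : (p.res (sup2 (n + 1))).f ⟨n, k⟩ = some v := by
        rw [Cond.res_f_of_mem hmem, hpc]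
      have h2 := hr _ _ (hq _ _ h1)
      rw [hb] at h2
      have h3 : p.f ⟨n, k⟩ = some ⟨n, b⟩ := by rw [hpc, h2]
      exact hab (W1_val hp le_rfl h3)

theorem eqF_comm {B : Type} [CompleteBooleanAlgebra B] (x y : ℕ → ℕ → B) :
    eqF x y = eqF y x := by
  unfold eqF
  exact iInf_congr fun k => iInf_congr fun l => inf_comm _ _

theorem eqF_trans {B : Type} [CompleteBooleanAlgebra B] (x y z : ℕ → ℕ → B) :
    eqF x y ⊓ eqF y z ≤ eqF x z := by
  have key : ∀ a b c : B, (a ⇨ b) ⊓ (b ⇨ c) ≤ a ⇨ c := by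
    intro a b c
    rw [le_himp_iff]
    calc (a ⇨ b) ⊓ (b ⇨ c) ⊓ a = ((a ⇨ b) ⊓ a) ⊓ (b ⇨ c) := by
          rw [inf_assoc, inf_comm (b ⇨ c) a, ← inf_assoc]
      _ ≤ b ⊓ (b ⇨ c) := inf_le_inf_right _ himp_inf_le
      _ ≤ c := by rw [inf_comm]; exact himp_inf_le
  unfold eqF
  refine le_iInf fun k => le_iInf fun l => ?_
  have h1 : (⨅ k, ⨅ l, (x k l ⇨ y k l) ⊓ (y k l ⇨ x k l)) ≤
      (x k l ⇨ y k l) ⊓ (y k l ⇨ x k l) := (iInf_le _ k).trans (iInf_le _ l)
  have h2 : (⨅ k, ⨅ l, (y k l ⇨ z k l) ⊓ (z k l ⇨ y k l)) ≤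
      (y k l ⇨ z k l) ⊓ (z k l ⇨ y k l) := (iInf_le _ k).trans (iInf_le _ l)
  refine (inf_le_inf h1 h2).trans (le_inf ?_ ?_)
  · exact (inf_le_inf inf_le_left inf_le_left).trans (key _ _ _)
  · refine (inf_le_inf inf_le_right inf_le_right).trans ?_
    rw [inf_comm]
    exact key _ _ _

theorem eqF_smul (g : Gp) (x y : ℕ → ℕ → RO PC2) :
    eqF (fun k l => g • x k l) (fun k l => g • y k l) = g • eqF x y := by
  unfold eqF
  rw [smul_iInf']
  refine iInf_congr fun k => ?_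
  rw [smul_iInf']
  refine iInf_congr fun l => ?_
  rw [smul_inf', smul_himp', smul_himp']

theorem realV_smul (g : Gp) (x : ℕ → ℕ → RO PC2) :
    realV (fun k l => g • x k l) = g • realV x := by
  unfold realV
  rw [smul_iInf']
  refine iInf_congr fun n => ?_
  rw [smul_inf', smul_iSup', smul_iInf']
  congr 1
  refine iInf_congr fun m => ?_
  rw [smul_iInf']
  refine iInf_congr fun m' => ?_
  rw [smul_iInf']
  refine iInf_congr fun _ => ?_
  rw [smul_compl', smul_inf']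

/-- The group maps the names which depend on the rows before `n` to such names. -/
theorem dep_sup2_smul (g : Gp) (n : ℕ) {b : RO PC2} (h : Dep (sup2 n) b) :
    Dep (sup2 n) (g • b) := by
  intro p hp
  rw [mem_smul] at hp ⊢
  have h1 := h _ hp
  have h2 : g⁻¹ • p.res (sup2 n) = (g⁻¹ • p).res (sup2 n) := by
    apply Cond.ext
    funext c
    rw [smul_f]
    by_cases hc : c ∈ sup2 n
    · have hc' : (g⁻¹)⁻¹ • c ∈ sup2 n := hc
      rw [Cond.res_f_of_mem hc', Cond.res_f_of_mem hc, smul_f]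
    · have hc' : (g⁻¹)⁻¹ • c ∉ sup2 n := hc
      rw [Cond.res_f_of_not_mem hc', Cond.res_f_of_not_mem hc]
  rw [h2]
  exact h1

theorem nin_smul (g : Gp) (n : ℕ) (x : ℕ → ℕ → RO PC2) :
    nin n (fun k l => g • x k l) = g • nin n x := by
  have hmk : ∀ (g : Gp) (z : NX2 n), (∀ k l, Dep (sup2 n) (g • z.1 k l)) ∧
      realV (fun k l => g • z.1 k l) = ⊤ := by
    intro g z
    refine ⟨fun k l => dep_sup2_smul g n (z.2.1 k l), ?_⟩
    rw [realV_smul, z.2.2, smul_top']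
  unfold nin
  rw [smul_iInf']
  apply le_antisymm
  · refine le_iInf fun z => ?_
    refine (iInf_le _ (⟨fun k l => g • z.1 k l, hmk g z⟩ : NX2 n)).trans ?_
    rw [eqF_smul, smul_compl']
  · refine le_iInf fun z => ?_
    refine (iInf_le _ (⟨fun k l => g⁻¹ • z.1 k l, hmk g⁻¹ z⟩ : NX2 n)).trans ?_
    rw [smul_compl', ← eqF_smul]
    simp only [smul_inv_smul]
    exact le_rfl

end Pool.Agent.LibBc83
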