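import Pool.Agent.LibBc83.W0

/-!
BC83 W2. Cardinalities for the second model: `K2 n` maps onto the set of the names of reals which
depend only on the rows before `n`.

Plan. A regular open set `b` with `Dep (sup2 n) b` is determined by
`{p | p ∈ b ∧ p.dom ⊆ sup2 n}` (`p ∈ b ↔ p.res (sup2 n) ∈ b`, `Dep.res_mem_iff`), so by a set of
conditions with domain in `sup2 n`. Let `P n` be the type of these conditions. `mk_P`: `#(P 0) = 1`;
`#(P (n + 1)) ≤ #(K2 n)`: such a condition is determined by a finite set of pairs (coordinate in a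
row `i ≤ n`, value `⟨i, a⟩`); the type of these pairs embeds into `ℕ × ℕ × Σ i : Fin (n+1), K2 i`, of
cardinality `≤ #(K2 n)` (infinite; `#(K2 i) ≤ #(K2 n)` for `i ≤ n` by Cantor; `Cardinal.mk_finset_of_infinite`).
So `#(NX2 n) ≤ #(ℕ → ℕ → Set (P n)) = (2 ^ #(P n)) ^ ℵ₀ = 2 ^ (#(P n) * ℵ₀)`, which is
`≤ 2 ^ ℵ₀ = #(K2 0)` for `n = 0` and `≤ 2 ^ #(K2 (n-1)) = #(K2 n)` for `n ≥ 1`. `NX2 n` is not empty
(a constant real, `fun k l => if l = 0 then ⊤ else ⊥`), so there is a surjection.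
-/

namespace Pool.Agent.LibBc83

open Pool.Agent.LibTk83 Cardinal

private noncomputable def W2_x : ℕ → ℕ → RO PC2 := fun _ l => if l = 0 then ⊤ else ⊥

private theorem W2_x_zero (k : ℕ) : W2_x k 0 = ⊤ := if_pos rfl

private theorem W2_x_ne (k : ℕ) {l : ℕ} (h : l ≠ 0) : W2_x k l = ⊥ := if_neg h

theorem NX2_nonempty (n : ℕ) : Nonempty (NX2 n) := by
  refine ⟨⟨W2_x, ?_, ?_⟩⟩
  · intro k l p hp
    by_cases hl : l = 0
    · rw [hl, W2_x_zero]
      exact RO.mem_top
    · rw [W2_x_ne k hl] at hp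
      exact absurd hp RO.not_mem_bot
  · unfold realV
    rw [iInf_eq_top]
    intro k
    rw [inf_eq_top_iff]
    constructor
    · rw [eq_top_iff, ← W2_x_zero k]
      exact le_iSup (fun m : ℕ => W2_x k m) 0
    · rw [iInf_eq_top]
      intro m
      rw [iInf_eq_top]
      intro m'
      rw [iInf_eq_top]
      intro hne
      by_cases hm : m = 0
      · have hm' : m' ≠ 0 := fun h => hne (hm.trans h.symm)
        rw [W2_x_ne k hm', inf_bot_eq, compl_bot]
      · rw [W2_x_ne k hm, bot_inf_eq, compl_bot]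

private theorem W2_mk_K2_lt (n : ℕ) : #(K2 n) < #(K2 (n + 1)) := by
  change #(K2 n) < #(Set (K2 n))
  rw [mk_set]
  exact cantor _

private theorem W2_K2_infinite (n : ℕ) : Infinite (K2 n) := by
  induction n with
  | zero => exact (inferInstance : Infinite (Set ℕ))
  | succ n ih =>
    have := ih
    exact (inferInstance : Infinite (Set (K2 n)))

private theorem W2_mono : Monotone fun n => #(K2 n) :=
  monotone_nat_of_le_succ fun n => (W2_mk_K2_lt n).le

private theorem W2_aleph (n : ℕ) : ℵ₀ ≤ #(K2 n) := by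
  have := W2_K2_infinite n
  exact aleph0_le_mk _

/-- The conditions with domain in the rows before `n`. -/
private def W2_P (n : ℕ) : Type := {p : PC2 // p.dom ⊆ sup2 n}

private theorem W2_mk_P_zero : #(W2_P 0) ≤ ℵ₀ := by
  have h : Subsingleton (W2_P 0) := by
    constructor
    rintro ⟨p, hp⟩ ⟨q, hq⟩
    apply Subtype.ext
    apply Cond.ext
    funext c
    have h1 : p.f c = none := by
      by_contra h
      exact absurd (hp h : c.row < 0) (Nat.not_lt_zero _)
    have h2 : q.f c = none := by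
      by_contra h
      exact absurd (hq h : c.row < 0) (Nat.not_lt_zero _)
    change p.f c = q.f c
    rw [h1, h2]
  exact (Cardinal.le_one_iff_subsingleton.2 h).trans one_le_aleph0

private theorem W2_mk_P_succ (n : ℕ) : #(W2_P (n + 1)) ≤ #(K2 n) := by
  classical
  let T : Type := Σ i : Fin (n + 1), K2 i
  let D : Type := ℕ × T
  have hfin : ∀ p : W2_P (n + 1),
      {x : D | p.1.f ⟨x.2.1, x.1⟩ = some ⟨x.2.1, x.2.2⟩}.Finite := by
    rintro ⟨p, hp⟩
    refine Set.Finite.of_finite_image (f := fun x : D => (⟨x.2.1, x.1⟩ : Crd2)) (p.fin.subset ?_) ?_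
    · rintro _ ⟨x, hx, rfl⟩
      change p.f ⟨x.2.1, x.1⟩ ≠ none
      rw [show p.f ⟨x.2.1, x.1⟩ = _ from hx]
      exact Option.some_ne_none _
    · rintro ⟨k, ⟨i, a⟩⟩ hx ⟨k', ⟨i', a'⟩⟩ hx' h
      change (⟨i, k⟩ : Crd2) = ⟨i', k'⟩ at h
      have h1 : (i : ℕ) = i' := congrArg Crd2.row h
      have h2 : k = k' := congrArg Crd2.pos h
      have h3 : i = i' := Fin.ext h1
      subst h2
      subst h3
      have h4 := (show p.f ⟨i, k⟩ = _ from hx).symm.trans (show p.f ⟨i, k⟩ = _ from hx')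
      have h5 := Option.some.inj h4
      have h6 : a = a' := by simpa using h5
      rw [h6]
  have hinj : Function.Injective fun p => (hfin p).toFinset := by
    have key : ∀ p q : W2_P (n + 1),
        (hfin p).toFinset = (hfin q).toFinset → ∀ c v, p.1.f c = some v → q.1.f c = some v := by
      rintro ⟨p, hp⟩ q h ⟨r, k⟩ v hv
      change p.f ⟨r, k⟩ = some v at hv
      have hr : r < n + 1 := by
        have h0 : (⟨r, k⟩ : Crd2) ∈ sup2 (n + 1) := by
          apply hp
          exact fun h => by rw [hv] at h; exact Option.some_ne_none _ h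
        exact h0
      have hok := p.ok' _ v hv
      rcases v with ⟨r', a⟩
      have h1 : r' = r := hok
      subst h1
      have h2 : (((k, (⟨⟨r', hr⟩, a⟩ : T)) : D)) ∈ (hfin ⟨p, hp⟩).toFinset := by
        rw [Set.Finite.mem_toFinset]
        exact hv
      rw [h, Set.Finite.mem_toFinset] at h2
      exact h2
    intro p q h
    apply Subtype.ext
    apply Cond.ext
    funext c
    exact Option.ext fun v => ⟨key p q h c v, key q p h.symm c v⟩
  have hT : #T ≤ #(K2 n) := by
    have h1 : #T = sum fun i : Fin (n + 1) => #(K2 i) := mk_sigma _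
    rw [h1]
    calc sum (fun i : Fin (n + 1) => #(K2 i)) ≤ sum (fun _ : Fin (n + 1) => #(K2 n)) :=
          sum_le_sum _ _ fun i => W2_mono (by omega)
      _ = #(Fin (n + 1)) * #(K2 n) := by rw [sum_const']
      _ ≤ #(K2 n) * #(K2 n) := by
          refine mul_le_mul_left ?_ _
          exact (lt_aleph0_of_finite _).le.trans (W2_aleph _)
      _ = #(K2 n) := mul_eq_self (W2_aleph _)
  have hTn : Nonempty T := by
    have := W2_K2_infinite 0
    exact ⟨⟨⟨0, Nat.succ_pos n⟩, Classical.arbitrary (K2 0)⟩⟩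
  have hD : #D ≤ #(K2 n) := by
    have h1 : #D = #ℕ * #T := by
      simp only [D, mk_prod, lift_id]
    rw [h1, mk_eq_aleph0]
    exact (mul_le_mul' (W2_aleph _) hT).trans (mul_eq_self (W2_aleph _)).le
  have hDi : Infinite D := inferInstance
  calc #(W2_P (n + 1)) ≤ #(Finset D) := mk_le_of_injective hinj
    _ = #D := mk_finset_of_infinite D
    _ ≤ #(K2 n) := hD

private theorem W2_emb (n : ℕ) : #(NX2 n) ≤ #(ℕ → ℕ → Set (W2_P n)) := by
  refine mk_le_of_injective (f := fun x k l => {p : W2_P n | p.1 ∈ x.1 k l}) ?_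
  rintro ⟨x, hx, hx'⟩ ⟨y, hy, hy'⟩ h
  apply Subtype.ext
  change x = y
  funext k l
  apply RO.ext
  intro p
  have hdom : (p.res (sup2 n)).dom ⊆ sup2 n := by
    rw [Cond.dom_res]
    exact Set.inter_subset_right
  have h1 := congrFun (congrFun h k) l
  have h2 : (⟨p.res (sup2 n), hdom⟩ : W2_P n) ∈ {p : W2_P n | p.1 ∈ x k l} ↔
      (⟨p.res (sup2 n), hdom⟩ : W2_P n) ∈ {p : W2_P n | p.1 ∈ y k l} := by
    have h3 : {p : W2_P n | p.1 ∈ x k l} = {p : W2_P n | p.1 ∈ y k l} := h1
    rw [h3]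
  have h4 : p.res (sup2 n) ∈ x k l ↔ p.res (sup2 n) ∈ y k l := h2
  rw [(hx k l).res_mem_iff, (hy k l).res_mem_iff] at h4
  exact h4

private theorem W2_fun (P : Type) {κ : Cardinal.{0}} (hκ : ℵ₀ ≤ κ) (hP : #P ≤ κ) :
    #(ℕ → ℕ → Set P) ≤ 2 ^ κ := by
  have h1 : #(ℕ → ℕ → Set P) = 2 ^ (#P * ℵ₀ * ℵ₀) := by
    rw [← power_def, ← power_def, mk_set, mk_nat, ← power_mul, ← power_mul, mul_assoc]
  rw [h1]
  refine power_le_power_left two_ne_zero ?_
  calc #P * ℵ₀ * ℵ₀ ≤ κ * κ * κ := mul_le_mul' (mul_le_mul' hP hκ) hκ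
    _ = κ := by rw [mul_eq_self hκ, mul_eq_self hκ]

theorem mk_NX2 (n : ℕ) : #(NX2 n) ≤ #(K2 n) := by
  refine (W2_emb n).trans ?_
  cases n with
  | zero =>
    have h1 : #(K2 0) = 2 ^ ℵ₀ := by
      change #(Set ℕ) = _
      rw [mk_set, mk_nat]
    rw [h1]
    exact W2_fun _ le_rfl W2_mk_P_zero
  | succ n =>
    have h1 : #(K2 (n + 1)) = 2 ^ #(K2 n) := by
      change #(Set (K2 n)) = _
      rw [mk_set]
    rw [h1]
    exact W2_fun _ (W2_aleph n) (W2_mk_P_succ n)

theorem exists_pi2 (n : ℕ) : ∃ f : K2 n → NX2 n, Function.Surjective f := by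
  have := NX2_nonempty n
  obtain ⟨g⟩ := (Cardinal.le_def _ _).1 (mk_NX2 n)
  exact ⟨Function.invFun g, Function.invFun_surjective g.injective⟩

end Pool.Agent.LibBc83
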