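import Pool.Agent.LibBc83.W1
import Pool.Agent.LibBc83.W2
import Pool.Agent.LibBc83.RH

/-!
BC83 W3. The real `yv2 n` which codes all reals of the model given by the rows before `n`; names of
the data.

Plan. `realV_yv2`: below `hit2 n (m.unpair.1) a` the values `yv2 n m l` are the values of
the real `pi2 n a` at `m.unpair.2` (`hit2_disj`); use `hit2_total` and `realV (pi2 n a).1 = ⊤`.
`nin_eq`: `≤`: for `j`: `⊤ = ⨆ a, hit2 n j a`, and
`isj x (yv2 n) j ⊓ hit2 n j a ≤ eqF x (pi2 n a).1`; `≥`: each `z : NX2 n` is `pi2 n a` for some `a`,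
`⊤ = ⨆ j, hit2 n j a` (`hit2_surj`), and `eqF x z.1 ⊓ hit2 n j a ≤ isj x (yv2 n) j`.
`dep_yv2`: `dep_hit2`, and `Dep (sup2 n)` implies `Dep (sup2 (n + 1))`. `exists_AN2`: `exists_rset`
with `φ u = nin n (X.dig u)` (`ext_dig`, `dig_act`, `nin_smul`), then `supp_of_mem` for the support
`Set.univ`. `exists_sN2`: `exists_seqN`.
-/

namespace Pool.Agent.LibBc83

open Pool.Agent.LibTk83 SM

/-- A surjection from `K2 n` to the names of reals which depend only on the rows before `n`. -/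
noncomputable def pi2 (n : ℕ) : K2 n → NX2 n := (exists_pi2 n).choose

theorem pi2_surj (n : ℕ) : Function.Surjective (pi2 n) := (exists_pi2 n).choose_spec

/-- The real which codes the sequence of the reals with the names `pi2 n (G k)`, where `G` is the
generic function number `n`. -/
noncomputable def yv2 (n : ℕ) (m l : ℕ) : RO PC2 :=
  ⨆ a : K2 n, hit2 n m.unpair.1 a ⊓ (pi2 n a).1 m.unpair.2 l

private theorem W3_real {B : Type} [CompleteBooleanAlgebra B] {x : ℕ → ℕ → B} :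
    realV x = ⊤ ↔ ∀ m, (⨆ l, x m l) = ⊤ ∧ ∀ l l', l ≠ l' → x m l ⊓ x m l' = ⊥ := by
  unfold realV
  rw [iInf_eq_top]
  refine forall_congr' fun m => ?_
  rw [inf_eq_top_iff]
  refine and_congr Iff.rfl ?_
  simp only [iInf_eq_top, compl_eq_top]

private theorem W3_disj (n j : ℕ) (a b : K2 n) (h : a ≠ b) (c d : RO PC2) :
    hit2 n j a ⊓ c ⊓ (hit2 n j b ⊓ d) = ⊥ := by
  rw [inf_inf_inf_comm, hit2_disj n j a b h, bot_inf_eq]

theorem realV_yv2 (n : ℕ) : realV (yv2 n) = ⊤ := by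
  rw [W3_real]
  intro m
  constructor
  · unfold yv2
    rw [iSup_comm]
    refine (iSup_congr fun a => ?_).trans (hit2_total n m.unpair.1)
    rw [← inf_iSup_eq, ((W3_real.1 (pi2 n a).2.2) m.unpair.2).1, inf_top_eq]
  · intro l l' h
    unfold yv2
    rw [iSup_inf_iSup, iSup_eq_bot]
    rintro ⟨a, b⟩
    by_cases hab : a = b
    · subst hab
      rw [inf_inf_inf_comm, ((W3_real.1 (pi2 n a).2.2) m.unpair.2).2 l l' h, inf_bot_eq]
    · exact W3_disj _ _ _ _ hab _ _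

theorem dep_yv2 (n m l : ℕ) : Dep (sup2 (n + 1)) (yv2 n m l) := by
  unfold yv2
  refine Dep.iSup fun a => (dep_hit2 n _ a).inf (Dep.mono (S := sup2 n) ?_ ((pi2 n a).2.1 _ _))
  intro c hc
  exact Nat.lt_succ_of_lt hc

private theorem W3_key (n j k l : ℕ) (a : K2 n) :
    hit2 n j a ⊓ yv2 n (Nat.pair j k) l = hit2 n j a ⊓ (pi2 n a).1 k l := by
  unfold yv2
  simp only [Nat.unpair_pair]
  apply le_antisymm
  · rw [inf_iSup_eq]
    refine iSup_le fun b => ?_
    by_cases hab : a = b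
    · subst hab
      exact inf_le_inf_left _ inf_le_right
    · rw [← inf_assoc, hit2_disj n j a b hab, bot_inf_eq]
      exact bot_le
  · refine le_inf inf_le_left ?_
    exact le_iSup (fun b : K2 n => hit2 n j b ⊓ (pi2 n b).1 k l) a

private theorem W3_imp {B : Type} [CompleteBooleanAlgebra B] {h x y z : B} (e : h ⊓ y = h ⊓ z) :
    ((x ⇨ y) ⊓ (y ⇨ x)) ⊓ h ≤ (x ⇨ z) ⊓ (z ⇨ x) := by
  refine le_inf ?_ ?_
  · rw [le_himp_iff]
    have h1 : (x ⇨ y) ⊓ (y ⇨ x) ⊓ h ⊓ x ≤ h ⊓ y := by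
      refine le_inf (inf_le_left.trans inf_le_right) ?_
      refine le_trans ?_ (himp_inf_le (a := x) (b := y))
      exact le_inf ((inf_le_left.trans inf_le_left).trans inf_le_left) inf_le_right
    rw [e] at h1
    exact h1.trans inf_le_right
  · rw [le_himp_iff]
    have h1 : (x ⇨ y) ⊓ (y ⇨ x) ⊓ h ⊓ z ≤ h ⊓ z :=
      le_inf (inf_le_left.trans inf_le_right) inf_le_right
    rw [← e] at h1
    refine le_trans ?_ (himp_inf_le (a := y) (b := x))
    exact le_inf ((inf_le_left.trans inf_le_left).trans inf_le_right) (h1.trans inf_le_right)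

private theorem W3_key1 (n j : ℕ) (a : K2 n) (x : ℕ → ℕ → RO PC2) :
    isj x (yv2 n) j ⊓ hit2 n j a ≤ eqF x (pi2 n a).1 := by
  unfold isj eqF
  refine le_iInf fun k => le_iInf fun l => ?_
  refine le_trans (inf_le_inf_right _ ((iInf_le _ k).trans (iInf_le _ l))) ?_
  exact W3_imp (W3_key n j k l a)

private theorem W3_key2 (n j : ℕ) (a : K2 n) (x : ℕ → ℕ → RO PC2) :
    eqF x (pi2 n a).1 ⊓ hit2 n j a ≤ isj x (yv2 n) j := by
  unfold isj eqF
  refine le_iInf fun k => le_iInf fun l => ?_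
  refine le_trans (inf_le_inf_right _ ((iInf_le _ k).trans (iInf_le _ l))) ?_
  exact W3_imp (W3_key n j k l a).symm

theorem nin_eq (n : ℕ) (x : ℕ → ℕ → RO PC2) : nin n x = ⨅ j, (isj x (yv2 n) j)ᶜ := by
  unfold nin
  apply le_antisymm
  · refine le_iInf fun j => ?_
    rw [le_compl_iff_disjoint_right, disjoint_iff_inf_le]
    have h1 : (⨅ z : NX2 n, (eqF x z.1)ᶜ) ⊓ isj x (yv2 n) j ≤
        (⨅ z : NX2 n, (eqF x z.1)ᶜ) ⊓ isj x (yv2 n) j ⊓ ⨆ a, hit2 n j a := by
      rw [hit2_total, inf_top_eq]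
    refine h1.trans ?_
    rw [inf_iSup_eq]
    refine iSup_le fun a => ?_
    rw [inf_assoc]
    refine le_trans (inf_le_inf (iInf_le _ (pi2 n a)) (W3_key1 n j a x)) ?_
    exact (compl_inf_self _).le
  · refine le_iInf fun z => ?_
    obtain ⟨a, ha⟩ := pi2_surj n z
    rw [le_compl_iff_disjoint_right, disjoint_iff_inf_le, ← ha]
    have h1 : (⨅ j, (isj x (yv2 n) j)ᶜ) ⊓ eqF x (pi2 n a).1 ≤
        (⨅ j, (isj x (yv2 n) j)ᶜ) ⊓ eqF x (pi2 n a).1 ⊓ ⨆ j, hit2 n j a := by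
      rw [hit2_surj, inf_top_eq]
    refine h1.trans ?_
    rw [inf_iSup_eq]
    refine iSup_le fun j => ?_
    rw [inf_assoc]
    refine le_trans (inf_le_inf (iInf_le _ j) (W3_key2 n j a x)) ?_
    exact (compl_inf_self _).le

variable (X : SM (RO PC2) Gp (famOf Gp fam2))

private theorem W3_ext (n : ℕ) : X.Ext (fun u => nin n (X.dig u)) := by
  unfold nin eqF
  exact Ext.iInf fun z => Ext.compl (Ext.iInf fun k => Ext.iInf fun l =>
    ((X.ext_dig k l).himp (Ext.const _)).inf ((Ext.const _).himp (X.ext_dig k l)))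

private theorem W3_inv (n : ℕ) (g : Gp) (u : X.N) :
    nin n (X.dig (X.act g u)) = g • nin n (X.dig u) := by
  rw [← nin_smul]
  congr 1
  funext k l
  exact X.dig_act g u k l

theorem exists_AN2 (n : ℕ) : ∃ A : X.N, X.Supp Set.univ A ∧
    ∀ u, X.mem u A = X.vReal u ⊓ nin n (X.dig u) := by
  obtain ⟨S, hS⟩ := X.fam.ne
  obtain ⟨A, -, hA⟩ := exists_rset (X := X) (W3_ext X n) hS (fun g _ u => W3_inv X n g u)
  refine ⟨A, ?_, hA⟩
  refine supp_of_mem hA ?_
  intro g _ u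
  change X.vReal (X.act g u) ⊓ nin n (X.dig (X.act g u)) = g • (X.vReal u ⊓ nin n (X.dig u))
  rw [vReal_act, W3_inv, smul_inf']

/-- The name of the set of the reals which are not in the model given by the rows before `n`. -/
noncomputable def AN2 (n : ℕ) : X.N := (exists_AN2 X n).choose

theorem supp_AN2 (n : ℕ) (S : Set Gp) : X.Supp S (AN2 X n) :=
  (exists_AN2 X n).choose_spec.1.mono (Set.subset_univ S)

theorem mem_AN2 (n : ℕ) (u : X.N) : X.mem u (AN2 X n) = X.vReal u ⊓ nin n (X.dig u) :=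
  (exists_AN2 X n).choose_spec.2 u

theorem exists_sN2 : ∃ s : X.N, X.vSeq s = ⊤ ∧ ∀ n y, X.rl s (X.nat n) y = X.eq y (AN2 X n) := by
  obtain ⟨S, hS⟩ := X.fam.ne
  obtain ⟨f, -, h1, h2⟩ := SM.exists_seqN X (AN2 X) hS (fun n => supp_AN2 X n S)
  exact ⟨f, h1, h2⟩

end Pool.Agent.LibBc83
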