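import Pool.Agent.LibBc83.W3

/-!
BC83 W5. The sequence of the second model has no choice function.

Plan. Suppose that the value of `fN` is not `⊤`; then there are a name `f` and a condition `p` with
`p ∈ X.vSeq f` and `p` in the value of the second part of `Fm.choice` (`RO.ne_bot_iff`). Let
`sup2 m ∈ fam2` be a support of `f` (`exists_suppC`). Let
`Y k l = ⨆ y, X.rl f (X.nat m) y ⊓ X.dig y k l`; it depends only on `sup2 m` (`dep_of_invW`,
`suppsW2`; it is invariant: reindex, `rl_nat_act`, `dig_act`). There are `p₁ ≤ p` and `y` with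
`p₁ ∈ X.rl f (X.nat m) y` (`vSeq_ex`); since `rl s (nat m) (AN2 X m) = ⊤`,
`p₁ ∈ X.mem y (AN2 X m)`, so `p₁ ∈ X.vReal y` and `p₁ ∈ nin m (X.dig y)`. Below `p₁`, `Y` and
`X.dig y` are equal: `p₁ ∈ eqF (X.dig y) Y` (`vSeq_uniq`, `ext_dig`), so `p₁ ∈ b` with
`b = realV Y` (`vReal_le`). Let `Z k l = (b ⊓ Y k l) ⊔ (if l = 0 then bᶜ else ⊥)`; then
`realV Z = ⊤`, `Dep (sup2 m) (Z k l)`, so `Z` is an element of `NX2 m`, and
`b ⊓ eqF (X.dig y) Y ≤ eqF (X.dig y) Z`; this contradicts `p₁ ∈ nin m (X.dig y)`.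
-/

namespace Pool.Agent.LibBc83

open Pool.Agent.LibTk83 SM

/-- A partial function can be made total. -/
theorem realV_fill {B : Type} [CompleteBooleanAlgebra B] (Y : ℕ → ℕ → B) (b : B)
    (hb : b ≤ realV Y) :
    realV (fun k l => (b ⊓ Y k l) ⊔ (if l = 0 then bᶜ else ⊥)) = ⊤ := by
  apply top_unique
  unfold realV
  refine le_iInf fun n => le_inf ?_ ?_
  · have h1 : b ≤ ⨆ m, Y n m := hb.trans ((iInf_le _ n).trans inf_le_left)
    rw [← sup_compl_eq_top (x := b)]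
    refine sup_le ?_ ?_
    · have h2 : b ≤ b ⊓ ⨆ m, Y n m := le_inf le_rfl h1
      refine h2.trans ?_
      rw [inf_iSup_eq]
      exact iSup_mono fun m => le_sup_left
    · refine le_iSup_of_le 0 ?_
      change bᶜ ≤ b ⊓ Y n 0 ⊔ (if (0 : ℕ) = 0 then bᶜ else ⊥)
      rw [if_pos rfl]
      exact le_sup_right
  · refine le_iInf fun m => le_iInf fun m' => le_iInf fun hne => ?_
    have h1 : b ≤ (Y n m ⊓ Y n m')ᶜ := by
      refine hb.trans ((iInf_le _ n).trans (inf_le_right.trans ?_))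
      exact (iInf_le _ m).trans ((iInf_le _ m').trans (iInf_le _ hne))
    have h2 : b ⊓ (Y n m ⊓ Y n m') = ⊥ := by
      apply bot_unique
      refine (inf_le_inf_right _ h1).trans ?_
      rw [compl_inf_self]
    have hc : ∀ l, (if l = 0 then bᶜ else (⊥ : B)) ≤ bᶜ := by
      intro l
      split_ifs
      · exact le_rfl
      · exact bot_le
    rw [top_le_iff, compl_eq_top]
    apply bot_unique
    rw [inf_sup_right, inf_sup_left, inf_sup_left]
    refine sup_le (sup_le ?_ ?_) (sup_le ?_ ?_)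
    · rw [← h2]
      exact le_inf (inf_le_left.trans inf_le_left)
        (le_inf (inf_le_left.trans inf_le_right) (inf_le_right.trans inf_le_right))
    · exact le_trans (le_inf (inf_le_left.trans inf_le_left) (inf_le_right.trans (hc m')))
        (inf_compl_eq_bot (a := b)).le
    · exact le_trans (le_inf (inf_le_right.trans inf_le_left) (inf_le_left.trans (hc m)))
        (inf_compl_eq_bot (a := b)).le
    · by_cases hm : m = 0
      · have hm' : m' ≠ 0 := fun h => hne (hm.trans h.symm)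
        rw [if_neg hm']
        exact inf_le_right
      · rw [if_neg hm]
        exact inf_le_left

variable {X : SM (RO PC2) Gp (famOf Gp fam2)}

/-- The value of the formula: `f` is a choice function. -/
private theorem W5_choice (J s R f : X.N) :
    X.val (.choice 1 3 0) (cons f (X.asg0 J s R)) = X.vSeq f ⊓ ⨅ n, ⨅ A, ⨅ y,
      (X.mem n X.om ⇨ (X.rl s n A ⇨ (X.rl f n y ⇨ X.mem y A))) := by
  have h1 : X.val (.seq 1 0) (cons f (X.asg0 J s R)) = X.vSeq f := SM.val_seq _ 1 0 rfl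
  have h2 : ∀ (w : ℕ → X.N) (a b c : ℕ),
      ev X.mem X.eq (.rel a b c) w = X.rl (w a) (w b) (w c) := fun w a b c => X.val_rel w a b c
  unfold Fm.choice
  change X.val (.seq 1 0) _ ⊓ _ = _
  rw [h1]
  simp only [ev_all, ev_imp, ev_mem, h2]
  rfl

private theorem W5_dep {f : X.N} (m : ℕ) (hf : X.Supp (fixS Gp (sup2 m)) f) (k l : ℕ) :
    Dep (sup2 m) (⨆ y, X.rl f (X.nat m) y ⊓ X.dig y k l) := by
  refine dep_of_invW suppsW2 ⟨m, rfl⟩ fun g hg => ?_
  rw [smul_iSup']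
  refine Function.Surjective.iSup_congr (X.act g) (SM.act_surj g) fun y => ?_
  rw [smul_inf', SM.dig_act, ← SM.rl_nat_act]
  congr 1
  exact ((X.ext_rl_left (X.nat m) (X.act g y)).congr (hf g hg)).symm

private theorem W5_dep_bot {S : Set Crd2} : Dep S (⊥ : RO PC2) :=
  fun _ hp => absurd hp RO.not_mem_bot

private theorem W5_dep_real {S : Set Crd2} {Y : ℕ → ℕ → RO PC2} (hY : ∀ k l, Dep S (Y k l)) :
    Dep S (realV Y) := by
  unfold realV
  exact Dep.iInf fun n => (Dep.iSup fun m => hY n m).inf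
    (Dep.iInf fun m => Dep.iInf fun m' => Dep.iInf fun _ => ((hY n m).inf (hY n m')).compl)

private theorem W5_dep_fill {S : Set Crd2} {Y : ℕ → ℕ → RO PC2} (hY : ∀ k l, Dep S (Y k l))
    {b : RO PC2} (hb : Dep S b) (k l : ℕ) :
    Dep S ((b ⊓ Y k l) ⊔ (if l = 0 then bᶜ else ⊥)) := by
  refine (hb.inf (hY k l)).sup ?_
  split_ifs
  · exact hb.compl
  · exact W5_dep_bot

/-- Transfer of `realV` between families which are equal below `p`. -/
private theorem W5_realV {x y : ℕ → ℕ → RO PC2} {p : PC2}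
    (h : ∀ k l q, q ≤ p → (q ∈ x k l ↔ q ∈ y k l)) (hx : p ∈ realV x) : p ∈ realV y := by
  unfold realV at hx ⊢
  rw [RO.mem_iInf] at hx ⊢
  intro n
  have hn := hx n
  rw [RO.mem_inf] at hn ⊢
  refine ⟨?_, ?_⟩
  · rw [RO.mem_iSup]
    intro q hq
    obtain ⟨r, hr, m, hm⟩ := RO.mem_iSup.1 hn.1 q hq
    exact ⟨r, hr, m, (h n m r (hr.trans hq)).1 hm⟩
  · rw [RO.mem_iInf]
    intro m
    rw [RO.mem_iInf]
    intro m'
    rw [RO.mem_iInf]
    intro hne
    have h1 := RO.mem_iInf.1 (RO.mem_iInf.1 (RO.mem_iInf.1 hn.2 m) m') hne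
    rw [RO.mem_compl] at h1 ⊢
    intro q hq hqm
    rw [RO.mem_inf] at hqm
    exact h1 q hq (RO.mem_inf.2 ⟨(h n m q hq).2 hqm.1, (h n m' q hq).2 hqm.2⟩)

theorem val_fN2 {J s R : X.N} (hs : ∀ n y, X.rl s (X.nat n) y = X.eq y (AN2 X n)) :
    X.val fN (X.asg0 J s R) = ⊤ := by
  by_contra hcon
  have h1 : ∃ p : PC2, p ∈ ⨆ f, X.val (.choice 1 3 0) (cons f (X.asg0 J s R)) := by
    rw [← RO.ne_bot_iff]
    intro h
    apply hcon
    change ev X.mem X.eq (.neg (.ex (.choice 1 3 0))) _ = ⊤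
    rw [ev_neg, ev_ex]
    have h' : (⨆ a, ev X.mem X.eq (.choice 1 3 0) (cons a (X.asg0 J s R))) = ⊥ := h
    rw [h', compl_bot]
  obtain ⟨p0, hp0⟩ := h1
  obtain ⟨p, -, f, hf⟩ := RO.mem_iSup.1 hp0 p0 le_rfl
  rw [W5_choice, RO.mem_inf] at hf
  obtain ⟨hseq, hch⟩ := hf
  obtain ⟨S, ⟨m, rfl⟩, hfS⟩ := SM.exists_suppC f
  obtain ⟨Y, hY⟩ : ∃ Y : ℕ → ℕ → RO PC2, ∀ k l, Y k l = ⨆ y, X.rl f (X.nat m) y ⊓ X.dig y k l :=
    ⟨_, fun _ _ => rfl⟩
  have hdY : ∀ k l, Dep (sup2 m) (Y k l) := fun k l => by rw [hY]; exact W5_dep m hfS k l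
  obtain ⟨p₁, hp₁, y, hy⟩ := RO.mem_iSup.1 (SM.vSeq_ex f m hseq) p le_rfl
  have hmem : p₁ ∈ X.mem y (AN2 X m) := by
    have a1 := RO.mem_iInf.1 (RO.mem_iInf.1 (RO.mem_iInf.1 hch (X.nat m)) (AN2 X m)) y
    rw [X.nat_mem_om, hs, X.eqax.refl, top_himp, top_himp, RO.mem_himp] at a1
    exact a1 p₁ hp₁ hy
  rw [mem_AN2, RO.mem_inf] at hmem
  have hYd : ∀ k l q, q ≤ p₁ → (q ∈ X.dig y k l ↔ q ∈ Y k l) := by
    intro k l q hq
    rw [hY]
    constructor
    · intro h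
      exact le_iSup (fun y => X.rl f (X.nat m) y ⊓ X.dig y k l) y
        (RO.mem_inf.2 ⟨RO.mem_of_le hq hy, h⟩)
    · intro h
      refine RO.mem_of_dense fun r hr => ?_
      obtain ⟨t, ht, y', hy'⟩ := RO.mem_iSup.1 h r hr
      rw [RO.mem_inf] at hy'
      have b1 : t ∈ X.eq y' y := by
        refine SM.vSeq_uniq f y' y m ?_
        rw [RO.mem_inf, RO.mem_inf]
        exact ⟨⟨RO.mem_of_le (ht.trans (hr.trans (hq.trans hp₁))) hseq, hy'.1⟩,
          RO.mem_of_le (ht.trans (hr.trans hq)) hy⟩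
      exact ⟨t, ht, X.ext_dig k l y' y (RO.mem_inf.2 ⟨b1, hy'.2⟩)⟩
  -- the value of `realV Y`
  have hb : p₁ ∈ realV Y := W5_realV hYd (SM.vReal_le y hmem.1)
  let Z : NX2 m := ⟨fun k l => (realV Y ⊓ Y k l) ⊔ (if l = 0 then (realV Y)ᶜ else ⊥),
    fun k l => W5_dep_fill hdY (W5_dep_real hdY) k l, realV_fill Y (realV Y) le_rfl⟩
  have hZ : ∀ k l, realV Y ⊓ Z.1 k l ≤ Y k l := by
    intro k l
    change realV Y ⊓ ((realV Y ⊓ Y k l) ⊔ (if l = 0 then (realV Y)ᶜ else ⊥)) ≤ Y k l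
    rw [inf_sup_left]
    refine sup_le (inf_le_right.trans inf_le_right) ?_
    split_ifs
    · rw [inf_compl_eq_bot]
      exact bot_le
    · rw [inf_bot_eq]
      exact bot_le
  have hnin := RO.mem_iInf.1 hmem.2 Z
  rw [RO.mem_compl] at hnin
  apply hnin p₁ le_rfl
  unfold eqF
  rw [RO.mem_iInf]
  intro k
  rw [RO.mem_iInf]
  intro l
  rw [RO.mem_inf, RO.mem_himp, RO.mem_himp]
  refine ⟨fun q hq hqd => ?_, fun q hq hqZ => ?_⟩
  · have h2 : realV Y ⊓ Y k l ≤ Z.1 k l := le_sup_left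
    exact h2 (RO.mem_inf.2 ⟨RO.mem_of_le hq hb, (hYd k l q hq).1 hqd⟩)
  · exact (hYd k l q hq).2 (hZ k l (RO.mem_inf.2 ⟨RO.mem_of_le hq hb, hqZ⟩))

end Pool.Agent.LibBc83
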