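import Pool.Agent.LibBc83.T1

/-!
BC83 ZA. The axioms of ZF as formulas (with collection instead of replacement).

Plan: each field of `IsZF` but `repl` is one of the hypotheses, unfolded by `simp` (the `simp`
lemmas `sat_...` of `Fml.lean` and `Deep.lean`; `sat_ren` for the schemes, where the renamed
assignment is computed by `funext` and cases on the number of the variable; the schemes hold for all
assignments because the hypothesis is for all assignments `v`). Replacement: by collection there is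
`b` such that for each `x ∈ a` with `∃ y, f (x, y)` there is such a `y` in `b`; by separation from
`b` with the formula `.ex (.and (.mem 0 2) (f.ren ρ))`, `ρ 0 = 0`, `ρ 1 = 1`, `ρ (n + 2) = n + 3`,
under the assignment `cons y (cons a v)`, one gets the set of all `y ∈ b` with `∃ x ∈ a, f (x, y)`.
-/

namespace Pool.Agent.LibBc83

def rhoS : ℕ → ℕ
  | 0 => 0
  | n + 1 => n + 3

def rhoC : ℕ → ℕ
  | 0 => 1
  | 1 => 0
  | n + 2 => n + 4

def fExt : Fm := .all (.all (.imp (.all (.iff (.mem 0 2) (.mem 0 1))) (.eq 1 0)))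

def fFound : Fm :=
  .all (.imp (.ex (.mem 0 1)) (.ex (.and (.mem 0 1) (.all (.imp (.mem 0 1) (.neg (.mem 0 2)))))))

def fPair : Fm := .all (.all (.ex (.uPair 0 2 1)))

def fUnion : Fm := .all (.ex (.all (.iff (.mem 0 1) (.ex (.and (.mem 0 3) (.mem 1 0))))))

def fPower : Fm := .all (.ex (.all (.iff (.mem 0 1) (.all (.imp (.mem 0 1) (.mem 0 3))))))

def fInf : Fm := .ex (.ind 0)

def fSep (f : Fm) : Fm := .all (.ex (.all (.iff (.mem 0 1) (.and (.mem 0 2) (f.ren rhoS)))))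

def fColl (f : Fm) : Fm :=
  .all (.ex (.all (.imp (.mem 0 2) (.imp (.ex (f.ren rhoC))
    (.ex (.and (.mem 0 2) (f.ren rhoC)))))))

/-- The axioms. -/
inductive Ax : Fm → Prop
  | ext : Ax fExt
  | found : Ax fFound
  | pair : Ax fPair
  | union : Ax fUnion
  | power : Ax fPower
  | inf : Ax fInf
  | sep (f : Fm) : Ax (fSep f)
  | coll (f : Fm) : Ax (fColl f)

private theorem ZA_sep {M : Type} {E : M → M → Prop} (h : ∀ f, Ax f → ∀ v, Sat E f v) (f : Fm)
    (v : ℕ → M) (a : M) : ∃ b, ∀ x, E x b ↔ E x a ∧ Sat E f (cons x v) := by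
  have h1 := h (fSep f) (Ax.sep f) v
  unfold fSep at h1
  rw [sat_all] at h1
  obtain ⟨b, hb⟩ := (sat_ex _ _).1 (h1 a)
  refine ⟨b, fun x => ?_⟩
  have h2 := (sat_iff _ _ _).1 ((sat_all _ _).1 hb x)
  rw [sat_and, sat_ren, sat_mem, sat_mem] at h2
  have h3 : cons x (cons b (cons a v)) ∘ rhoS = cons x v := by
    funext n
    cases n <;> rfl
  rw [h3] at h2
  exact h2

private theorem ZA_coll {M : Type} {E : M → M → Prop} (h : ∀ f, Ax f → ∀ v, Sat E f v) (f : Fm)
    (v : ℕ → M) (a : M) : ∃ b, ∀ x, E x a → (∃ y, Sat E f (cons x (cons y v))) →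
      ∃ y, E y b ∧ Sat E f (cons x (cons y v)) := by
  have h1 := h (fColl f) (Ax.coll f) v
  unfold fColl at h1
  rw [sat_all] at h1
  obtain ⟨b, hb⟩ := (sat_ex _ _).1 (h1 a)
  refine ⟨b, fun x hx ⟨y, hy⟩ => ?_⟩
  have h3 : ∀ z, cons z (cons x (cons b (cons a v))) ∘ rhoC = cons x (cons z v) := by
    intro z
    funext n
    rcases n with _ | _ | n <;> rfl
  have h2 := (sat_imp _ _ _).1 ((sat_all _ _).1 hb x) hx
  have h4 := (sat_imp _ _ _).1 h2 ((sat_ex _ _).2 ⟨y, by rw [sat_ren, h3]; exact hy⟩)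
  obtain ⟨z, hz⟩ := (sat_ex _ _).1 h4
  rw [sat_and, sat_mem, sat_ren, h3] at hz
  exact ⟨z, hz⟩

private def ZA_rho : ℕ → ℕ
  | 0 => 0
  | 1 => 1
  | n + 2 => n + 3

theorem isZF_of_ax {M : Type} [Nonempty M] {E : M → M → Prop} (h : ∀ f, Ax f → ∀ v, Sat E f v) :
    IsZF E := by
  obtain ⟨m₀⟩ := ‹Nonempty M›
  let v₀ : ℕ → M := fun _ => m₀
  refine ⟨?_, ?_, ?_, ?_, ?_, ?_, ZA_sep h, ?_⟩
  · intro x y hxy
    have h1 := h fExt Ax.ext v₀
    unfold fExt at h1
    have h2 := (sat_imp _ _ _).1 ((sat_all _ _).1 ((sat_all _ _).1 h1 x) y)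
    exact h2 ((sat_all _ _).2 fun t => (sat_iff _ _ _).2 (hxy t))
  · intro x hx
    have h1 := h fFound Ax.found v₀
    unfold fFound at h1
    have h2 := (sat_imp _ _ _).1 ((sat_all _ _).1 h1 x)
    obtain ⟨t, ht⟩ := (sat_ex _ _).1 (h2 ((sat_ex _ _).2 hx))
    rw [sat_and] at ht
    exact ⟨t, ht.1, fun u hu => (sat_imp _ _ _).1 ((sat_all _ _).1 ht.2 u) hu⟩
  · intro x y
    have h1 := h fPair Ax.pair v₀
    unfold fPair at h1
    obtain ⟨z, hz⟩ := (sat_ex _ _).1 ((sat_all _ _).1 ((sat_all _ _).1 h1 x) y)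
    exact ⟨z, (sat_uPair _ _ _ _).1 hz⟩
  · intro x
    have h1 := h fUnion Ax.union v₀
    unfold fUnion at h1
    obtain ⟨u, hu⟩ := (sat_ex _ _).1 ((sat_all _ _).1 h1 x)
    refine ⟨u, fun t => ?_⟩
    have h2 := (sat_iff _ _ _).1 ((sat_all _ _).1 hu t)
    rw [sat_ex] at h2
    exact h2
  · intro x
    have h1 := h fPower Ax.power v₀
    unfold fPower at h1
    obtain ⟨u, hu⟩ := (sat_ex _ _).1 ((sat_all _ _).1 h1 x)
    refine ⟨u, fun t => ?_⟩
    have h2 := (sat_iff _ _ _).1 ((sat_all _ _).1 hu t)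
    rw [sat_all] at h2
    refine h2.trans (forall_congr' fun s => ?_)
    exact sat_imp _ _ _
  · obtain ⟨u, hu⟩ := (sat_ex _ _).1 (h fInf Ax.inf v₀)
    exact ⟨u, (sat_ind _ _).1 hu⟩
  · intro f v a hf
    obtain ⟨b, hb⟩ := ZA_coll h f v a
    obtain ⟨c, hc⟩ := ZA_sep h (.ex (.and (.mem 0 2) (f.ren ZA_rho))) (cons a v) b
    refine ⟨c, fun y => ?_⟩
    have h3 : ∀ x, cons x (cons y (cons a v)) ∘ ZA_rho = cons x (cons y v) := by
      intro x
      funext n
      rcases n with _ | _ | n <;> rfl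
    have h4 : Sat E (.ex (.and (.mem 0 2) (f.ren ZA_rho))) (cons y (cons a v)) ↔
        ∃ x, E x a ∧ Sat E f (cons x (cons y v)) := by
      rw [sat_ex]
      refine exists_congr fun x => ?_
      rw [sat_and, sat_ren, h3]
      exact Iff.rfl
    rw [hc y, h4]
    constructor
    · exact fun h5 => h5.2
    · rintro ⟨x, hx, hxy⟩
      refine ⟨?_, x, hx, hxy⟩
      obtain ⟨y', hy', hy''⟩ := hb x hx ⟨y, hxy⟩
      rw [(hf x hx).unique hxy hy'']
      exact hy'

end Pool.Agent.LibBc83
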