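import Pool.Agent.LibBc83.ZA
import Pool.Agent.LibBc83.NB
import Pool.Agent.LibBc83.NC
import Pool.Agent.LibBc83.ND
import Pool.Agent.LibBc83.NG

/-!
BC83 ZB. The axioms have the truth value `⊤` for symmetric names.

Plan: cases on `Ax f`; unfold with `simp only [SM.val, ev_all, ev_ex, ...]` or `change`, introduce
the names, and give the witness: `ext`: `X.ext` or `SM.eq_eq`; `found`: `X.ax_found`
(after `le_himp_iff`/`himp_eq_top_iff`); `pair`: witness `X.upN x y` (`SM.val_uPair`,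
`X.eqax.refl`); `union`: `X.ax_union`; `power`: `X.ax_power`; `inf`: witness `X.om`
(`SM.val_ind_om`); `sep`: the witness of `X.ax_sep f v a`; `coll`: the witness of
`X.ax_coll f v a`. In the schemes, `ev_ren`, and the renamed assignment is computed by `funext` and
cases on the number of the variable. A supremum is `⊤` if one member is `⊤`
(`top_le_iff.1 (le_iSup_of_le _ _)`).
-/

namespace Pool.Agent.LibBc83

variable {B : Type} [CompleteBooleanAlgebra B] {G : Type} [Group G] [MulAction G B]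
  [OrdAct G B] {Fam : Set (Set G)}

omit [OrdAct G B] in
private theorem ZB_sup {X : SM B G Fam} {φ : X.N → B} {u : X.N} (h : φ u = ⊤) : (⨆ u, φ u) = ⊤ :=
  top_le_iff.1 (le_iSup_of_le u h.ge)

private theorem ZB_rhoS {N : Type 1} (x b a : N) (v : ℕ → N) :
    cons x (cons b (cons a v)) ∘ rhoS = cons x v := by
  funext n
  cases n <;> rfl

private theorem ZB_rhoC {N : Type 1} (y x b a : N) (v : ℕ → N) :
    cons y (cons x (cons b (cons a v))) ∘ rhoC = cons x (cons y v) := by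
  funext n
  match n with
  | 0 => rfl
  | 1 => rfl
  | n + 2 => rfl

theorem val_ax (X : SM B G Fam) (f : Fm) (hf : Ax f) (v : ℕ → X.N) : X.val f v = ⊤ := by
  cases hf with
  | ext =>
    have h : X.val fExt v = ⨅ x, ⨅ y,
        (⨅ t, (X.mem t x ⇨ X.mem t y) ⊓ (X.mem t y ⇨ X.mem t x)) ⇨ X.eq x y := by
      simp only [SM.val, fExt, ev_all, ev_imp, ev_iff, ev_mem, ev_eq, cons_zero, cons_succ]
    rw [h]
    exact iInf_eq_top.2 fun x => iInf_eq_top.2 fun y => by rw [← SM.eq_eq, himp_self]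
  | found =>
    have h : X.val fFound v = ⨅ a, (⨆ t, X.mem t a) ⇨
        ⨆ t, X.mem t a ⊓ ⨅ u, X.mem u t ⇨ (X.mem u a)ᶜ := by
      simp only [SM.val, fFound, ev_all, ev_imp, ev_ex, ev_and, ev_neg, ev_mem, cons_zero,
        cons_succ]
    rw [h]
    exact iInf_eq_top.2 fun a => himp_eq_top_iff.2 (X.ax_found a)
  | pair =>
    have h : X.val fPair v = ⨅ x, ⨅ y, ⨆ z,
        X.val (.uPair 0 2 1) (cons z (cons y (cons x v))) := by
      simp only [SM.val, fPair, ev_all, ev_ex]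
    rw [h]
    refine iInf_eq_top.2 fun x => iInf_eq_top.2 fun y => ZB_sup (u := X.upN x y) ?_
    rw [SM.val_uPair]
    exact X.eqax.refl _
  | union =>
    have h : X.val fUnion v = ⨅ a, ⨆ u, ⨅ t,
        (X.mem t u ⇨ ⨆ s, X.mem s a ⊓ X.mem t s) ⊓ ((⨆ s, X.mem s a ⊓ X.mem t s) ⇨ X.mem t u) := by
      simp only [SM.val, fUnion, ev_all, ev_iff, ev_ex, ev_and, ev_mem, cons_zero, cons_succ]
    rw [h]
    refine iInf_eq_top.2 fun a => ?_
    obtain ⟨u, hu⟩ := X.ax_union a
    refine ZB_sup (u := u) (iInf_eq_top.2 fun t => ?_)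
    rw [hu, himp_self, inf_top_eq]
  | power =>
    have h : X.val fPower v = ⨅ a, ⨆ u, ⨅ t,
        (X.mem t u ⇨ ⨅ s, X.mem s t ⇨ X.mem s a) ⊓ ((⨅ s, X.mem s t ⇨ X.mem s a) ⇨ X.mem t u) := by
      simp only [SM.val, fPower, ev_all, ev_iff, ev_ex, ev_imp, ev_mem, cons_zero, cons_succ]
    rw [h]
    refine iInf_eq_top.2 fun a => ?_
    obtain ⟨u, hu⟩ := X.ax_power a
    refine ZB_sup (u := u) (iInf_eq_top.2 fun t => ?_)
    rw [hu, himp_self, inf_top_eq]
  | inf =>
    have h : X.val fInf v = ⨆ w, X.val (.ind 0) (cons w v) := by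
      simp only [SM.val, fInf, ev_ex]
    rw [h]
    exact ZB_sup (u := X.om) (SM.val_ind_om (cons X.om v) 0 rfl)
  | sep f =>
    have h : X.val (fSep f) v = ⨅ a, ⨆ b, ⨅ x,
        (X.mem x b ⇨ X.mem x a ⊓ X.val f (cons x v)) ⊓
          (X.mem x a ⊓ X.val f (cons x v) ⇨ X.mem x b) := by
      simp only [SM.val, fSep, ev_all, ev_iff, ev_ex, ev_and, ev_mem, ev_ren, ZB_rhoS, cons_zero,
        cons_succ]
    rw [h]
    refine iInf_eq_top.2 fun a => ?_
    obtain ⟨u, hu⟩ := X.ax_sep f v a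
    refine ZB_sup (u := u) (iInf_eq_top.2 fun x => ?_)
    rw [hu, himp_self, inf_top_eq]
  | coll f =>
    have h : X.val (fColl f) v = ⨅ a, ⨆ b, ⨅ x,
        X.mem x a ⇨ (⨆ y, X.val f (cons x (cons y v))) ⇨
          ⨆ y, X.mem y b ⊓ X.val f (cons x (cons y v)) := by
      simp only [SM.val, fColl, ev_all, ev_imp, ev_ex, ev_and, ev_mem, ev_ren, ZB_rhoC, cons_zero,
        cons_succ]
    rw [h]
    refine iInf_eq_top.2 fun a => ?_
    obtain ⟨u, hu⟩ := X.ax_coll f v a
    refine ZB_sup (u := u) (iInf_eq_top.2 fun x => ?_)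
    exact himp_eq_top_iff.2 (le_himp_iff.2 (hu x))

end Pool.Agent.LibBc83
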